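import Pool.Agent.Lib.MP_74ab55_al.EngBasic

/-!
# The affine representation of `M ⋊ K` on `(ℚ ⊗ M) × ℚ`
-/

set_option autoImplicit false

open scoped TensorProduct

namespace Pool.Agent.Lib.MP_74ab55_al

section rep
variable {M K : Type*} [CommGroup M] [Group K]

/-- An automorphism of `M` as an endomorphism of `ℚ ⊗ M`. -/
noncomputable def actV : MulAut M →* Module.End ℚ (ℚ ⊗[ℤ] Additive M) where
  toFun f := LinearMap.baseChange ℚ (MonoidHom.toAdditive f.toMonoidHom).toIntLinearMap
  map_one' := by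
    ext x
    simp
  map_mul' f g := by
    ext x
    simp

theorem actV_tmul (f : MulAut M) (q : ℚ) (x : Additive M) :
    actV f (q ⊗ₜ x) = q ⊗ₜ (Additive.ofMul (f x.toMul)) := rfl

/-- The map `M → ℚ ⊗ M`. -/
noncomputable def iotaV : Additive M →+ ℚ ⊗[ℤ] Additive M :=
  (TensorProduct.mk ℤ ℚ (Additive M) 1).toAddMonoidHom

theorem iotaV_apply (x : Additive M) : iotaV x = (1 : ℚ) ⊗ₜ[ℤ] x := rfl

theorem actV_iotaV (f : MulAut M) (x : M) :
    actV f (iotaV (Additive.ofMul x)) = iotaV (Additive.ofMul (f x)) := rfl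

theorem iotaV_mul (x y : M) :
    iotaV (Additive.ofMul (x * y)) = iotaV (Additive.ofMul x) + iotaV (Additive.ofMul y) := by
  rw [ofMul_mul, map_add]

theorem iotaV_one : iotaV (Additive.ofMul (1 : M)) = 0 := by
  rw [ofMul_one, map_zero]

theorem iotaV_injective (htf : ∀ g : M, ∀ k : ℕ, 0 < k → g ^ k = 1 → g = 1) (x : M)
    (hx : iotaV (Additive.ofMul x) = 0) : x = 1 := by
  have h1 : IsLocalizedModule (nonZeroDivisors ℤ) (TensorProduct.mk ℤ ℚ (Additive M) 1) :=
    (isLocalizedModule_iff_isBaseChange (nonZeroDivisors ℤ) ℚ _).mpr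
      (TensorProduct.isBaseChange ℤ (Additive M) ℚ)
  have h2 := (IsLocalizedModule.eq_zero_iff (nonZeroDivisors ℤ)
    (TensorProduct.mk ℤ ℚ (Additive M) 1) (m := Additive.ofMul x)).mp hx
  obtain ⟨⟨s, hs⟩, hs2⟩ := h2
  have hs0 : s ≠ 0 := nonZeroDivisors.ne_zero hs
  have h3 : s • (Additive.ofMul x) = 0 := hs2
  have h4 : x ^ s = 1 := h3
  have h5 : x ^ s.natAbs = 1 := by
    rcases Int.natAbs_eq s with h | h
    · rw [h] at h4; simpa using h4
    · rw [h] at h4; simpa using h4
  exact htf x s.natAbs (Int.natAbs_pos.mpr hs0) h5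

/-- The affine representation. -/
noncomputable def affRep (φ : K →* MulAut M) :
    (M ⋊[φ] K) →* Module.End ℚ ((ℚ ⊗[ℤ] Additive M) × ℚ) where
  toFun e := LinearMap.prod
    ((actV (φ e.right)).comp (LinearMap.fst ℚ _ _) +
      (LinearMap.toSpanSingleton ℚ _ (iotaV (Additive.ofMul e.left))).comp (LinearMap.snd ℚ _ _))
    (LinearMap.snd ℚ _ _)
  map_one' := by
    apply LinearMap.ext
    rintro ⟨v, t⟩
    simp
  map_mul' e f := by
    apply LinearMap.ext
    rintro ⟨v, t⟩
    apply Prod.ext
    · show actV (φ (e.right * f.right)) v + t • iotaV (Additive.ofMul (e.left * φ e.right f.left)) =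
        actV (φ e.right) (actV (φ f.right) v + t • iotaV (Additive.ofMul f.left)) +
          t • iotaV (Additive.ofMul e.left)
      rw [map_mul, map_mul, iotaV_mul, map_add, map_smul, actV_iotaV, smul_add,
        Module.End.mul_apply, add_assoc, add_comm (t • iotaV (Additive.ofMul e.left))]
    · rfl

theorem affRep_apply (φ : K →* MulAut M) (e : M ⋊[φ] K) (v : ℚ ⊗[ℤ] Additive M) (t : ℚ) :
    affRep φ e (v, t) = (actV (φ e.right) v + t • iotaV (Additive.ofMul e.left), t) := rfl

theorem affRep_sub_apply (φ : K →* MulAut M) (e : M ⋊[φ] K) (v : ℚ ⊗[ℤ] Additive M) (t : ℚ) :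
    (affRep φ e - 1) (v, t) =
      (actV (φ e.right) v - v + t • iotaV (Additive.ofMul e.left), 0) := by
  rw [LinearMap.sub_apply, affRep_apply]
  apply Prod.ext
  · show actV (φ e.right) v + t • iotaV (Additive.ofMul e.left) - v = _
    rw [add_sub_right_comm]
  · show t - t = 0
    ring

theorem actV_prod_apply (φ : K →* MulAut M) (l : List K) (q : ℚ) (x : M) :
    (l.map (fun k => actV (φ k) - 1)).prod (q ⊗ₜ[ℤ] Additive.ofMul x) =
      q ⊗ₜ[ℤ] (Additive.ofMul (dl φ l x)) := by
  induction l with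
  | nil => rfl
  | cons k l ih =>
    rw [List.map_cons, List.prod_cons, Module.End.mul_apply, ih, LinearMap.sub_apply, actV_tmul,
      dl_cons, dHom_apply]
    rw [Module.End.one_apply, ← TensorProduct.tmul_sub, ← div_eq_mul_inv, ofMul_div]
    rfl

theorem actV_prod_eq_zero (φ : K →* MulAut M) (l : List K) (h : ∀ x, dl φ l x = 1) :
    (l.map (fun k => actV (φ k) - 1)).prod = (0 : Module.End ℚ (ℚ ⊗[ℤ] Additive M)) := by
  apply LinearMap.ext
  intro v
  induction v using TensorProduct.induction_on with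
  | zero => rw [map_zero, map_zero]
  | tmul q x =>
    have := actV_prod_apply φ l q x.toMul
    rw [h] at this
    rw [LinearMap.zero_apply]
    exact this.trans (by simp)
  | add v w hv hw => rw [map_add, hv, hw, map_add]

theorem affRep_prod_apply (φ : K →* MulAut M) (l : List (M ⋊[φ] K)) (v : ℚ ⊗[ℤ] Additive M) :
    (l.map (fun e => affRep φ e - 1)).prod (v, 0) =
      (((l.map (fun e => e.right)).map (fun k => actV (φ k) - 1)).prod v, 0) := by
  induction l with
  | nil => rfl
  | cons k l ih =>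
    rw [List.map_cons, List.prod_cons, Module.End.mul_apply, ih, affRep_sub_apply, List.map_cons,
      List.map_cons, List.prod_cons, Module.End.mul_apply, zero_smul, add_zero]
    rfl

/-- unipotency of the affine representation -/
theorem affRep_unipotent (φ : K →* MulAut M) (N : ℕ)
    (h : ∀ l : List K, l.length = N → ∀ x, dl φ l x = 1) (l : List (M ⋊[φ] K))
    (hl : l.length = N + 1) : (l.map (fun e => affRep φ e - 1)).prod = 0 := by
  obtain ⟨l', e, rfl⟩ : ∃ l' e, l = l' ++ [e] := by
    have : l ≠ [] := by rintro rfl; simp at hl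
    exact ⟨l.dropLast, l.getLast this, (List.dropLast_append_getLast this).symm⟩
  have hl' : l'.length = N := by simpa using hl
  apply LinearMap.ext
  rintro ⟨v, t⟩
  rw [List.map_append, List.prod_append, Module.End.mul_apply]
  simp only [List.map_cons, List.map_nil, List.prod_cons, List.prod_nil, mul_one]
  rw [affRep_sub_apply, affRep_prod_apply, actV_prod_eq_zero, LinearMap.zero_apply,
    LinearMap.zero_apply]
  · rfl
  · exact h _ (by simpa using hl')

end rep

end Pool.Agent.Lib.MP_74ab55_al
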