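import Pool.Agent.Lib.MP_74ab55_al.Poly

/-!
# From alternating products to squares
-/

set_option autoImplicit false

namespace Pool.Agent.Lib.MP_74ab55_al
open LieAlgebra Polynomial

section
variable {A : Type*} [Ring A]

theorem alt_succ (P : A) (k : ℕ) (h : Aˣ) : alt P (k + 1) h = P * (h : A) * alt P k h⁻¹ := rfl

/-- Alternating products of polynomials. -/
noncomputable def altP (P : A) : ℕ → Polynomial A → Polynomial A → Polynomial A
  | 0, _, _ => C P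
  | k + 1, p, q => C P * p * altP P k q p

theorem ev_altP [Algebra ℚ A] (P : A) (s : ℚ) (k : ℕ) (p q : Polynomial A) (u : Aˣ)
    (hp : ev s p = (u : A)) (hq : ev s q = ((u⁻¹ : Aˣ) : A)) :
    ev s (altP P k p q) = alt P k u := by
  induction k generalizing p q u with
  | zero => simp [altP, alt]
  | succ k ih =>
    rw [altP, alt_succ, map_mul, map_mul, ev_C, hp, ih q p u⁻¹ hq (by rw [hp, inv_inv])]

theorem altP_coeff (P V2 : A) (hP : P * P = 0) (k : ℕ) (p q : Polynomial A)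
    (hp0 : p.coeff 0 = 1) (hq0 : q.coeff 0 = 1) (hp1 : P * p.coeff 1 * P = 0)
    (hq1 : P * q.coeff 1 * P = 0) (hp2 : P * p.coeff 2 * P = P * V2 * P)
    (hq2 : P * q.coeff 2 * P = P * V2 * P) :
    (∀ j, ∃ b, (altP P k p q).coeff j = P * b) ∧ (∀ j < 2 * k, (altP P k p q).coeff j = 0) ∧
      (altP P k p q).coeff (2 * k) = (P * V2) ^ k * P := by
  induction k generalizing p q with
  | zero =>
    refine ⟨fun j => ⟨if j = 0 then 1 else 0, ?_⟩, fun j hj => by omega, by simp [altP]⟩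
    rw [altP, coeff_C]
    split_ifs <;> simp
  | succ k ih =>
    obtain ⟨h1, h2, h3⟩ := ih q p hq0 hp0 hq1 hp1 hq2 hp2
    have hc : ∀ j, (altP P (k + 1) p q).coeff j =
        P * ∑ x ∈ Finset.HasAntidiagonal.antidiagonal j, p.coeff x.1 * (altP P k q p).coeff x.2 := by
      intro j
      rw [altP, mul_assoc, coeff_C_mul, coeff_mul]
    have hsmall : ∀ i l, i ≤ 1 → P * (p.coeff i * (altP P k q p).coeff l) = 0 := by
      intro i l hi
      obtain ⟨b, hb⟩ := h1 l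
      rw [hb, ← mul_assoc, ← mul_assoc]
      have : i = 0 ∨ i = 1 := by omega
      rcases this with rfl | rfl
      · rw [hp0, mul_one, hP, zero_mul]
      · rw [hp1, zero_mul]
    refine ⟨fun j => ⟨_, hc j⟩, fun j hj => ?_, ?_⟩
    · rw [hc, Finset.mul_sum]
      refine Finset.sum_eq_zero fun x hx => ?_
      rw [Finset.HasAntidiagonal.mem_antidiagonal] at hx
      by_cases hx1 : x.1 ≤ 1
      · exact hsmall _ _ hx1
      · rw [h2 x.2 (by omega), mul_zero, mul_zero]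
    · rw [hc, Finset.mul_sum, Finset.sum_eq_single (2, 2 * k)]
      · show P * (p.coeff 2 * (altP P k q p).coeff (2 * k)) = _
        obtain ⟨b, hb⟩ := h1 (2 * k)
        have h4 : P * (p.coeff 2 * (altP P k q p).coeff (2 * k)) =
            P * p.coeff 2 * P * b := by rw [hb]; simp only [mul_assoc]
        rw [h4, hp2, mul_assoc (P * V2), ← hb, h3, pow_succ', mul_assoc (P * V2)]
      · rintro ⟨i, l⟩ hil hne
        rw [Finset.HasAntidiagonal.mem_antidiagonal] at hil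
        simp only at hil ⊢
        by_cases hi : i ≤ 1
        · exact hsmall _ _ hi
        · have : l < 2 * k := by
            rcases Nat.lt_or_ge l (2 * k) with h | h
            · exact h
            · exfalso; apply hne
              have : i = 2 := by omega
              subst this
              have : l = 2 * k := by omega
              subst this; rfl
          rw [h2 l this, mul_zero, mul_zero]
      · intro h
        exfalso; apply h
        rw [Finset.HasAntidiagonal.mem_antidiagonal]; omega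

end

section lie
variable {L : Type*} [LieRing L] [LieAlgebra ℚ L]

theorem ad_lie' (a b : L) : ad ℚ L ⁅a, b⁆ = ad ℚ L a * ad ℚ L b - ad ℚ L b * ad ℚ L a := by
  ext c; simp

/-- `W³ = 0` implies `W² Y W = W Y W²`. -/
theorem cube_rel {w : L} (hw : (ad ℚ L w) ^ 3 = 0) (y : L) :
    (ad ℚ L w) ^ 2 * ad ℚ L y * ad ℚ L w = ad ℚ L w * ad ℚ L y * (ad ℚ L w) ^ 2 := by
  set W := ad ℚ L w with hW
  have h1 : ∀ z : L, ad ℚ L (W z) = W * ad ℚ L z - ad ℚ L z * W := fun z => ad_lie' w z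
  have h0 : ad ℚ L ((W ^ 3) y) = 0 := by rw [hw]; simp
  have h2 : (W ^ 3) y = W (W (W y)) := rfl
  rw [h2, h1, h1, h1] at h0
  have hw' : W * W * W = 0 := by rw [← hw]; noncomm_ring
  have h3 : 3 * (W ^ 2 * ad ℚ L y * W - W * ad ℚ L y * W ^ 2) =
      W * W * W * ad ℚ L y - ad ℚ L y * (W * W * W) -
      (W * (W * (W * ad ℚ L y - ad ℚ L y * W) - (W * ad ℚ L y - ad ℚ L y * W) * W) -
        (W * (W * ad ℚ L y - ad ℚ L y * W) - (W * ad ℚ L y - ad ℚ L y * W) * W) * W) := by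
    noncomm_ring
  rw [h0, hw'] at h3
  have h4 : (3 : ℚ) • (W ^ 2 * ad ℚ L y * W - W * ad ℚ L y * W ^ 2) = 0 := by
    rw [Algebra.smul_def, map_ofNat, h3]; simp
  rw [smul_eq_zero] at h4
  rcases h4 with h4 | h4
  · norm_num at h4
  · exact sub_eq_zero.1 h4

theorem sq_ad_sq {w : L} (hw : (ad ℚ L w) ^ 3 = 0) (y : L) :
    (ad ℚ L w) ^ 2 * ad ℚ L y * (ad ℚ L w) ^ 2 = 0 := by
  have h := cube_rel hw y
  calc (ad ℚ L w) ^ 2 * ad ℚ L y * (ad ℚ L w) ^ 2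
      = ((ad ℚ L w) ^ 2 * ad ℚ L y * ad ℚ L w) * ad ℚ L w := by noncomm_ring
    _ = ad ℚ L w * ad ℚ L y * (ad ℚ L w) ^ 3 := by rw [h]; noncomm_ring
    _ = 0 := by rw [hw, mul_zero]

theorem sq_mul_comm {w : L} (hw : (ad ℚ L w) ^ 3 = 0) (y z : L) :
    (ad ℚ L w) ^ 2 * (ad ℚ L y * ad ℚ L z) * (ad ℚ L w) ^ 2 =
      (ad ℚ L w) ^ 2 * (ad ℚ L z * ad ℚ L y) * (ad ℚ L w) ^ 2 := by
  have h := sq_ad_sq hw ⁅y, z⁆
  rw [ad_lie', mul_sub, sub_mul, sub_eq_zero] at h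
  exact h

/-- A polynomial family in `Exps x` with derivative `ad v`. -/
structure Fam {ι : Type*} (x : ι → L) (P : Module.End ℚ L) (v : L) : Prop where
  ex : ∃ p q : Polynomial (Module.End ℚ L),
    (∀ s : ℚ, ∃ u ∈ Exps x, ev s p = (u : Module.End ℚ L) ∧
      ev s q = ((u⁻¹ : (Module.End ℚ L)ˣ) : Module.End ℚ L)) ∧
    p.coeff 0 = 1 ∧ q.coeff 0 = 1 ∧ p.coeff 1 = ad ℚ L v ∧ q.coeff 1 = - ad ℚ L v ∧
    P * p.coeff 2 * P = P * ((2 : ℚ)⁻¹ • (ad ℚ L v) ^ 2) * P ∧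
    P * q.coeff 2 * P = P * ((2 : ℚ)⁻¹ • (ad ℚ L v) ^ 2) * P

theorem Fam.zero {ι : Type*} (x : ι → L) (P : Module.End ℚ L) : Fam x P 0 := by
  refine ⟨1, 1, fun s => ⟨1, (Exps x).one_mem, by simp, by simp⟩, ?_, ?_, ?_, ?_, ?_, ?_⟩ <;>
    simp [coeff_one]

theorem coeff_mul_two {A : Type*} [Ring A] (p q : Polynomial A) :
    (p * q).coeff 2 = p.coeff 0 * q.coeff 2 + p.coeff 1 * q.coeff 1 + p.coeff 2 * q.coeff 0 := by
  rw [coeff_mul, Finset.Nat.sum_antidiagonal_eq_sum_range_succ_mk]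
  simp [Finset.sum_range_succ]

theorem coeff_mul_one' {A : Type*} [Ring A] (p q : Polynomial A) :
    (p * q).coeff 1 = p.coeff 0 * q.coeff 1 + p.coeff 1 * q.coeff 0 := by
  rw [coeff_mul, Finset.Nat.sum_antidiagonal_eq_sum_range_succ_mk]
  simp [Finset.sum_range_succ]

theorem Fam.add {ι : Type*} {x : ι → L} {w : L} (hw : (ad ℚ L w) ^ 3 = 0) {v₁ v₂ : L}
    (h₁ : Fam x ((ad ℚ L w) ^ 2) v₁) (h₂ : Fam x ((ad ℚ L w) ^ 2) v₂) :
    Fam x ((ad ℚ L w) ^ 2) (v₁ + v₂) := by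
  obtain ⟨p₁, q₁, e₁, a₁, b₁, c₁, d₁, f₁, g₁⟩ := h₁
  obtain ⟨p₂, q₂, e₂, a₂, b₂, c₂, d₂, f₂, g₂⟩ := h₂
  have hcomm := sq_mul_comm hw v₁ v₂
  set P := (ad ℚ L w) ^ 2 with hP
  have hs : (2 : ℚ)⁻¹ • (P * (ad ℚ L (v₁ + v₂)) ^ 2 * P) =
      (2 : ℚ)⁻¹ • (P * (ad ℚ L v₁) ^ 2 * P) + P * (ad ℚ L v₁ * ad ℚ L v₂) * P +
        (2 : ℚ)⁻¹ • (P * (ad ℚ L v₂) ^ 2 * P) := by
    have e1 : P * (ad ℚ L (v₁ + v₂)) ^ 2 * P = P * (ad ℚ L v₁) ^ 2 * P +
        P * (ad ℚ L v₁ * ad ℚ L v₂) * P + P * (ad ℚ L v₂ * ad ℚ L v₁) * P +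
          P * (ad ℚ L v₂) ^ 2 * P := by
      rw [map_add]; noncomm_ring
    rw [e1, ← hcomm]
    module
  refine ⟨p₁ * p₂, q₂ * q₁, fun s => ?_, ?_, ?_, ?_, ?_, ?_, ?_⟩
  · obtain ⟨u₁, hu₁, k₁, l₁⟩ := e₁ s
    obtain ⟨u₂, hu₂, k₂, l₂⟩ := e₂ s
    exact ⟨u₁ * u₂, (Exps x).mul_mem hu₁ hu₂, by rw [map_mul, k₁, k₂]; simp,
      by rw [map_mul, l₁, l₂]; simp⟩
  · rw [mul_coeff_zero, a₁, a₂, one_mul]
  · rw [mul_coeff_zero, b₁, b₂, one_mul]
  · rw [coeff_mul_one', a₁, c₂, c₁, a₂, map_add]; noncomm_ring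
  · rw [coeff_mul_one', b₁, b₂, d₁, d₂, map_add]; noncomm_ring
  · rw [coeff_mul_two, a₁, a₂, c₁, c₂, one_mul, mul_one, mul_add, mul_add, add_mul, add_mul,
      f₁, f₂]
    simp only [mul_smul_comm, smul_mul_assoc]
    rw [hs]
    abel
  · rw [coeff_mul_two, b₁, b₂, d₁, d₂, one_mul, mul_one, mul_add, mul_add, add_mul, add_mul,
      g₁, g₂, neg_mul_neg, ← hcomm]
    simp only [mul_smul_comm, smul_mul_assoc]
    rw [hs]

theorem Fam.exp {ι : Type*} {x : ι → L} (P : Module.End ℚ L) {v : L}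
    (hv : IsNilpotent (ad ℚ L v))
    (h : ∀ s : ℚ, ∃ u ∈ Exps x, (u : Module.End ℚ L) = IsNilpotent.exp (s • ad ℚ L v)) :
    Fam x P v := by
  obtain ⟨k, hk⟩ := hv
  have hk3 : (ad ℚ L v) ^ (k + 3) = 0 := by rw [pow_add, hk, zero_mul]
  have hk3' : (- ad ℚ L v) ^ (k + 3) = 0 := by rw [neg_pow, hk3, mul_zero]
  refine ⟨expP (k + 3) (ad ℚ L v), expP (k + 3) (- ad ℚ L v), fun s => ?_, ?_, ?_, ?_, ?_, ?_, ?_⟩
  · obtain ⟨u, hu, hu'⟩ := h s
    refine ⟨u, hu, by rw [ev_expP s hk3, hu'], ?_⟩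
    rw [ev_expP s hk3', smul_neg]
    have h1 : (u : Module.End ℚ L) * IsNilpotent.exp (-(s • ad ℚ L v)) = 1 := by
      rw [hu']
      exact IsNilpotent.exp_mul_exp_neg_self (nilp_smul ⟨k, hk⟩ s)
    exact (Units.inv_eq_of_mul_eq_one_right h1).symm
  all_goals simp [coeff_expP]

theorem sq_of_alt {ι : Type*} (x : ι → L)
    (hx : ∀ i, IsNilpotent (ad ℚ L (x i)))
    (hgen : LieSubalgebra.lieSpan ℚ L (Set.range x) = ⊤) (w : L) (hw : (ad ℚ L w) ^ 3 = 0) (K : ℕ)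
    (hK : ∀ h ∈ Exps x, alt ((ad ℚ L w) ^ 2) K h = 0) (v : L) :
    ((ad ℚ L w) ^ 2 * (ad ℚ L v) ^ 2) ^ K * (ad ℚ L w) ^ 2 = 0 := by
  have hfam : ∀ a : ℚ, Fam x ((ad ℚ L w) ^ 2) (a • v) := by
    have hv : v ∈ Submodule.span ℚ
        {y : L | ∃ g ∈ Exps x, ∃ i, y = (g : Module.End ℚ L) (x i)} := by
      rw [Exps.span_eq_top hx hgen]; trivial
    induction hv using Submodule.span_induction with
    | mem y hy =>
      obtain ⟨g, hg, i, rfl⟩ := hy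
      intro a
      refine Fam.exp _ ?_ fun s => ?_
      · rw [map_smul]
        exact nilp_smul (Exps.isNilpotent_conj hx hg (hx i)) a
      · rw [map_smul, smul_smul]
        exact Exps.exp_conj_gen hx hg i _
    | zero => intro a; rw [smul_zero]; exact Fam.zero x _
    | add y z _ _ hy hz => intro a; rw [smul_add]; exact Fam.add hw (hy a) (hz a)
    | smul b y _ hy => intro a; rw [smul_smul]; exact hy (a * b)
  obtain ⟨p, q, e, a, b, c, d, f, g⟩ := one_smul ℚ v ▸ hfam 1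
  have hPP : (ad ℚ L w) ^ 2 * (ad ℚ L w) ^ 2 = 0 := by
    rw [← pow_add, pow_eq_zero_of_le (by norm_num) hw]
  have hz : altP ((ad ℚ L w) ^ 2) K p q = 0 := by
    refine eq_zero_of_ev Set.univ Set.infinite_univ fun s _ => ?_
    obtain ⟨u, hu, k, l⟩ := e s
    rw [ev_altP _ s K p q u k l, hK u hu]
  have h1 := (altP_coeff ((ad ℚ L w) ^ 2) ((2 : ℚ)⁻¹ • (ad ℚ L v) ^ 2) hPP K p q a b
    (by rw [c]; exact sq_ad_sq hw v) (by rw [d, mul_neg, neg_mul, sq_ad_sq hw v, neg_zero])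
    f g).2.2
  rw [hz, coeff_zero, mul_smul_comm, _root_.smul_pow, smul_mul_assoc, eq_comm, smul_eq_zero] at h1
  rcases h1 with h1 | h1
  · exact absurd h1 (pow_ne_zero _ (by norm_num))
  · exact h1

end lie

end Pool.Agent.Lib.MP_74ab55_al
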