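import Pool.Agent.Lib.MP_74ab55_al.Defs

/-!
# Basic facts on the group `Exps x`
-/

set_option autoImplicit false

namespace Pool.Agent.Lib.MP_74ab55_al
open LieAlgebra

/-- A polynomial with coefficients in a `ℚ`-module which vanishes at infinitely many rational
points has zero coefficients. -/
theorem poly_coeff_zero {M : Type*} [AddCommGroup M] [Module ℚ M] (N : ℕ) (u : ℕ → M) (S : Set ℚ)
    (hS : S.Infinite) (h : ∀ s ∈ S, ∑ k ∈ Finset.range N, s ^ k • u k = 0) :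
    ∀ k < N, u k = 0 := by
  intro k hk
  rw [← Module.forall_dual_apply_eq_zero_iff ℚ]
  intro f
  set p : Polynomial ℚ := ∑ k ∈ Finset.range N, Polynomial.monomial k (f (u k)) with hp
  have hz : p = 0 := by
    by_contra hne
    refine hS ((p.roots.toFinset.finite_toSet).subset fun s hs => ?_)
    simp only [Finset.mem_coe, Multiset.mem_toFinset, Polynomial.mem_roots hne,
      Polynomial.IsRoot.def]
    have := congrArg f (h s hs)
    rw [map_sum, map_zero] at this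
    rw [hp, Polynomial.eval_finsetSum, ← this]
    refine Finset.sum_congr rfl fun j _ => ?_
    rw [Polynomial.eval_monomial, map_smul, smul_eq_mul, mul_comm]
  have := congrArg (fun q => Polynomial.coeff q k) hz
  simp only [hp, Polynomial.finsetSum_coeff, Polynomial.coeff_monomial, Polynomial.coeff_zero]
    at this
  rw [Finset.sum_ite_eq' ] at this
  simpa [hk] using this

/-- If all values of a polynomial with vector coefficients lie in a subspace, then so do the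
coefficients. -/
theorem poly_coeff_mem {M : Type*} [AddCommGroup M] [Module ℚ M] (V : Submodule ℚ M) (N : ℕ)
    (u : ℕ → M) (S : Set ℚ) (hS : S.Infinite)
    (h : ∀ s ∈ S, ∑ k ∈ Finset.range N, s ^ k • u k ∈ V) :
    ∀ k < N, u k ∈ V := by
  intro k hk
  have := poly_coeff_zero N (fun k => V.mkQ (u k)) S hS (fun s hs => by
    have h1 := h s hs
    rw [← Submodule.Quotient.mk_eq_zero, ← Submodule.mkQ_apply, map_sum] at h1
    simpa using h1) k hk
  simpa using this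

theorem exp_smul_eq_sum {A : Type*} [Ring A] [Algebra ℚ A] {a : A} {k : ℕ} (h : a ^ k = 0)
    (s : ℚ) : IsNilpotent.exp (s • a) =
      ∑ i ∈ Finset.range k, s ^ i • ((i.factorial : ℚ)⁻¹ • a ^ i) := by
  have h' : (s • a) ^ k = 0 := by rw [smul_pow, h, smul_zero]
  rw [IsNilpotent.exp_eq_sum h']
  refine Finset.sum_congr rfl fun i _ => ?_
  rw [smul_pow, smul_comm]

theorem nilp_smul {A : Type*} [Ring A] [Algebra ℚ A] {a : A} (h : IsNilpotent a) (s : ℚ) :
    IsNilpotent (s • a) := by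
  obtain ⟨k, hk⟩ := h
  exact ⟨k, by rw [smul_pow, hk, smul_zero]⟩

/-- If `exp (s a) v` lies in `V` for all `s`, then so do all `a ^ k v`. -/
theorem pow_apply_mem_of_exp {M : Type*} [AddCommGroup M] [Module ℚ M] (V : Submodule ℚ M)
    {a : Module.End ℚ M} (ha : IsNilpotent a) (v : M)
    (h : ∀ s : ℚ, (IsNilpotent.exp (s • a)) v ∈ V) (k : ℕ) : (a ^ k) v ∈ V := by
  obtain ⟨N, hN⟩ := ha
  by_cases hk : k < N
  · have := poly_coeff_mem V N (fun i => (i.factorial : ℚ)⁻¹ • (a ^ i) v) Set.univ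
      Set.infinite_univ (fun s _ => by
        have h1 := h s
        rw [exp_smul_eq_sum hN] at h1
        simpa [LinearMap.sum_apply] using h1) k hk
    have h2 := V.smul_mem (k.factorial : ℚ) this
    rwa [smul_smul, mul_inv_cancel₀ (by exact_mod_cast k.factorial_ne_zero), one_smul] at h2
  · rw [pow_eq_zero_of_le (not_lt.1 hk) hN]
    simp

section exps
variable {L : Type*} [LieRing L] [LieAlgebra ℚ L] {ι : Type*} {x : ι → L}

theorem Exps.exp_mem (hx : ∀ i, IsNilpotent (ad ℚ L (x i))) (i : ι) (s : ℚ) :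
    ∃ u ∈ Exps x, (u : Module.End ℚ L) = IsNilpotent.exp (s • ad ℚ L (x i)) := by
  have hn := nilp_smul (hx i) s
  refine ⟨⟨IsNilpotent.exp (s • ad ℚ L (x i)), IsNilpotent.exp (-(s • ad ℚ L (x i))),
    IsNilpotent.exp_mul_exp_neg_self hn, IsNilpotent.exp_neg_mul_exp_self hn⟩, ?_, rfl⟩
  exact Subgroup.subset_closure ⟨i, s, rfl⟩

theorem exp_ad_lie {y : L} (hy : IsNilpotent (ad ℚ L y)) (a b : L) :
    IsNilpotent.exp (ad ℚ L y) ⁅a, b⁆ =
      ⁅IsNilpotent.exp (ad ℚ L y) a, IsNilpotent.exp (ad ℚ L y) b⁆ := by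
  have h : (LieDerivation.ad ℚ L y).toLinearMap = ad ℚ L y := by
    ext z; simp
  have hn : IsNilpotent (LieDerivation.ad ℚ L y).toLinearMap := by rwa [h]
  have := (LieDerivation.exp (LieDerivation.ad ℚ L y) hn).map_lie a b
  simpa only [LieDerivation.exp_map_apply, h] using this

theorem Exps.map_lie (hx : ∀ i, IsNilpotent (ad ℚ L (x i))) {g : (Module.End ℚ L)ˣ}
    (hg : g ∈ Exps x) (y z : L) :
    (g : Module.End ℚ L) ⁅y, z⁆ = ⁅(g : Module.End ℚ L) y, (g : Module.End ℚ L) z⁆ := by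
  revert y z
  refine Subgroup.closure_induction (p := fun (g : (Module.End ℚ L)ˣ) _ => ∀ y z : L,
    (g : Module.End ℚ L) ⁅y, z⁆ = ⁅(g : Module.End ℚ L) y, (g : Module.End ℚ L) z⁆)
    ?_ ?_ ?_ ?_ hg
  · rintro u ⟨i, s, hu⟩ y z
    have hn : IsNilpotent (ad ℚ L (s • x i)) := by
      rw [map_smul]; exact nilp_smul (hx i) s
    rw [hu, ← map_smul]
    exact exp_ad_lie hn y z
  · intro y z; simp
  · intro u v _ _ hu hv y z
    rw [Units.val_mul, Module.End.mul_apply, hv, hu, Module.End.mul_apply, Module.End.mul_apply]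
  · intro u _ hu y z
    have h1 : ∀ t : L, (u : Module.End ℚ L) (((u⁻¹ : (Module.End ℚ L)ˣ) : Module.End ℚ L) t) = t := by
      intro t
      rw [← Module.End.mul_apply, Units.mul_inv, Module.End.one_apply]
    have h2 : ∀ t : L, ((u⁻¹ : (Module.End ℚ L)ˣ) : Module.End ℚ L) ((u : Module.End ℚ L) t) = t := by
      intro t
      rw [← Module.End.mul_apply, Units.inv_mul, Module.End.one_apply]
    conv_lhs => rw [← h1 y, ← h1 z, ← hu, h2]

theorem inv_apply_apply (u : (Module.End ℚ L)ˣ) (t : L) :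
    ((u⁻¹ : (Module.End ℚ L)ˣ) : Module.End ℚ L) ((u : Module.End ℚ L) t) = t := by
  rw [← Module.End.mul_apply, Units.inv_mul, Module.End.one_apply]

theorem apply_inv_apply (u : (Module.End ℚ L)ˣ) (t : L) :
    (u : Module.End ℚ L) (((u⁻¹ : (Module.End ℚ L)ˣ) : Module.End ℚ L) t) = t := by
  rw [← Module.End.mul_apply, Units.mul_inv, Module.End.one_apply]

theorem ad_apply_of_map_lie {g : (Module.End ℚ L)ˣ}
    (hg : ∀ y z : L, (g : Module.End ℚ L) ⁅y, z⁆ =
      ⁅(g : Module.End ℚ L) y, (g : Module.End ℚ L) z⁆) (y : L) :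
    ad ℚ L ((g : Module.End ℚ L) y) =
      (g : Module.End ℚ L) * ad ℚ L y * ((g⁻¹ : (Module.End ℚ L)ˣ) : Module.End ℚ L) := by
  ext z
  rw [Module.End.mul_apply, Module.End.mul_apply, ad_apply, ad_apply, hg, apply_inv_apply]

theorem Exps.ad_apply (hx : ∀ i, IsNilpotent (ad ℚ L (x i))) {g : (Module.End ℚ L)ˣ}
    (hg : g ∈ Exps x) (y : L) :
    ad ℚ L ((g : Module.End ℚ L) y) =
      (g : Module.End ℚ L) * ad ℚ L y * ((g⁻¹ : (Module.End ℚ L)ˣ) : Module.End ℚ L) :=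
  ad_apply_of_map_lie (Exps.map_lie hx hg) y

theorem conj_pow (g : (Module.End ℚ L)ˣ) (a : Module.End ℚ L) (k : ℕ) :
    ((g : Module.End ℚ L) * a * ((g⁻¹ : (Module.End ℚ L)ˣ) : Module.End ℚ L)) ^ k =
      (g : Module.End ℚ L) * a ^ k * ((g⁻¹ : (Module.End ℚ L)ˣ) : Module.End ℚ L) := by
  induction k with
  | zero => simp
  | succ k ih =>
    rw [pow_succ, ih, pow_succ]
    simp only [mul_assoc]
    rw [Units.inv_mul_cancel_left]

theorem Exps.ad_apply_pow (hx : ∀ i, IsNilpotent (ad ℚ L (x i))) {g : (Module.End ℚ L)ˣ}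
    (hg : g ∈ Exps x) (y : L) (k : ℕ) :
    ad ℚ L ((g : Module.End ℚ L) y) ^ k =
      (g : Module.End ℚ L) * ad ℚ L y ^ k * ((g⁻¹ : (Module.End ℚ L)ˣ) : Module.End ℚ L) := by
  rw [Exps.ad_apply hx hg, conj_pow]

theorem Exps.isNilpotent_conj (hx : ∀ i, IsNilpotent (ad ℚ L (x i))) {g : (Module.End ℚ L)ˣ}
    (hg : g ∈ Exps x) {y : L} (hy : IsNilpotent (ad ℚ L y)) :
    IsNilpotent (ad ℚ L ((g : Module.End ℚ L) y)) := by
  obtain ⟨k, hk⟩ := hy
  exact ⟨k, by rw [Exps.ad_apply_pow hx hg, hk]; simp⟩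

theorem exp_conj (g : (Module.End ℚ L)ˣ) {a : Module.End ℚ L} (ha : IsNilpotent a) :
    IsNilpotent.exp ((g : Module.End ℚ L) * a * ((g⁻¹ : (Module.End ℚ L)ˣ) : Module.End ℚ L)) =
      (g : Module.End ℚ L) * IsNilpotent.exp a *
        ((g⁻¹ : (Module.End ℚ L)ˣ) : Module.End ℚ L) := by
  obtain ⟨k, hk⟩ := ha
  have h1 : ((g : Module.End ℚ L) * a *
      ((g⁻¹ : (Module.End ℚ L)ˣ) : Module.End ℚ L)) ^ k = 0 := by
    rw [conj_pow, hk]; simp
  rw [IsNilpotent.exp_eq_sum h1, IsNilpotent.exp_eq_sum hk, Finset.mul_sum, Finset.sum_mul]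
  refine Finset.sum_congr rfl fun i _ => ?_
  rw [conj_pow, mul_smul_comm, smul_mul_assoc]

/-- Exponentials of conjugates of elements whose exponentials lie in `Exps x`. -/
theorem Exps.exp_conj_mem (hx : ∀ i, IsNilpotent (ad ℚ L (x i))) {g : (Module.End ℚ L)ˣ}
    (hg : g ∈ Exps x) {y : L} (hy : IsNilpotent (ad ℚ L y))
    (hye : ∀ s : ℚ, ∃ u ∈ Exps x, (u : Module.End ℚ L) = IsNilpotent.exp (s • ad ℚ L y)) (s : ℚ) :
    ∃ u ∈ Exps x, (u : Module.End ℚ L) =
      IsNilpotent.exp (s • ad ℚ L ((g : Module.End ℚ L) y)) := by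
  obtain ⟨u, hu, hu'⟩ := hye s
  refine ⟨g * u * g⁻¹, (Exps x).mul_mem ((Exps x).mul_mem hg hu) ((Exps x).inv_mem hg), ?_⟩
  rw [Exps.ad_apply hx hg, ← smul_mul_assoc, ← mul_smul_comm,
    exp_conj g (nilp_smul hy s), ← hu']
  simp

theorem Exps.exp_conj_gen (hx : ∀ i, IsNilpotent (ad ℚ L (x i))) {g : (Module.End ℚ L)ˣ}
    (hg : g ∈ Exps x) (i : ι) (s : ℚ) :
    ∃ u ∈ Exps x, (u : Module.End ℚ L) =
      IsNilpotent.exp (s • ad ℚ L ((g : Module.End ℚ L) (x i))) :=
  Exps.exp_conj_mem hx hg (hx i) (Exps.exp_mem hx i) s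

/-- The elements `y` with `⁅y, V⁆ ⊆ V` form a Lie subalgebra. -/
def stabLie (V : Submodule ℚ L) : LieSubalgebra ℚ L where
  carrier := {y | ∀ v ∈ V, ⁅y, v⁆ ∈ V}
  add_mem' {a b} ha hb v hv := by rw [add_lie]; exact V.add_mem (ha v hv) (hb v hv)
  zero_mem' v _ := by rw [zero_lie]; exact V.zero_mem
  smul_mem' c a ha v hv := by rw [smul_lie]; exact V.smul_mem c (ha v hv)
  lie_mem' {a b} ha hb v hv := by
    rw [lie_lie]
    exact V.sub_mem (ha _ (hb v hv)) (hb _ (ha v hv))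

/-- A subspace stable under `Exps x` is stable under all brackets, if the `x i` generate. -/
theorem Exps.lie_mem (hx : ∀ i, IsNilpotent (ad ℚ L (x i)))
    (hgen : LieSubalgebra.lieSpan ℚ L (Set.range x) = ⊤) (V : Submodule ℚ L)
    (hV : ∀ g ∈ Exps x, ∀ v ∈ V, (g : Module.End ℚ L) v ∈ V) (y v : L) (hv : v ∈ V) :
    ⁅y, v⁆ ∈ V := by
  have h1 : LieSubalgebra.lieSpan ℚ L (Set.range x) ≤ stabLie V := by
    rw [LieSubalgebra.lieSpan_le]
    rintro _ ⟨i, rfl⟩ w hw
    have := pow_apply_mem_of_exp V (hx i) w (fun s => by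
      obtain ⟨u, hu, hu'⟩ := Exps.exp_mem hx i s
      rw [← hu']
      exact hV u hu w hw) 1
    simpa using this
  rw [hgen] at h1
  exact h1 (LieSubalgebra.mem_top y) v hv

/-- `L` is spanned by the conjugates of the generators. -/
theorem Exps.span_eq_top (hx : ∀ i, IsNilpotent (ad ℚ L (x i)))
    (hgen : LieSubalgebra.lieSpan ℚ L (Set.range x) = ⊤) :
    Submodule.span ℚ {y : L | ∃ g ∈ Exps x, ∃ i, y = (g : Module.End ℚ L) (x i)} = ⊤ := by
  set V := Submodule.span ℚ {y : L | ∃ g ∈ Exps x, ∃ i, y = (g : Module.End ℚ L) (x i)} with hV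
  have hstab : ∀ g ∈ Exps x, ∀ v ∈ V, (g : Module.End ℚ L) v ∈ V := by
    intro g hg v hv
    have : V ≤ V.comap (g : Module.End ℚ L) := by
      rw [hV, Submodule.span_le]
      rintro _ ⟨g', hg', i, rfl⟩
      refine Submodule.subset_span ⟨g * g', (Exps x).mul_mem hg hg', i, ?_⟩
      simp
    exact this hv
  have hlie := Exps.lie_mem hx hgen V hstab
  let V' : LieSubalgebra ℚ L := { V with lie_mem' := fun {a b} _ hb => hlie a b hb }
  have h1 : LieSubalgebra.lieSpan ℚ L (Set.range x) ≤ V' := by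
    rw [LieSubalgebra.lieSpan_le]
    rintro _ ⟨i, rfl⟩
    exact Submodule.subset_span ⟨1, (Exps x).one_mem, i, by simp⟩
  rw [hgen] at h1
  exact eq_top_iff.2 fun y _ => h1 (LieSubalgebra.mem_top y)

end exps

end Pool.Agent.Lib.MP_74ab55_al
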