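import Mathlib

/-!
# Polynomial families with values in an algebra over the rationals
-/

set_option autoImplicit false

namespace Pool.Agent.Lib.MP_74ab55_al

/-- Coefficients of a vector valued polynomial vanishing at all rationals are zero. -/
theorem ptop_coeff_eq_zero {M : Type*} [AddCommGroup M] [Module ℚ M] (d : ℕ) (c : ℕ → M)
    (h : ∀ s : ℚ, ∑ i ∈ Finset.range d, s ^ i • c i = 0) : ∀ i < d, c i = 0 := by
  intro i hi
  rw [← Module.forall_dual_apply_eq_zero_iff ℚ (c i)]
  intro φ
  let p : Polynomial ℚ := ∑ j ∈ Finset.range d, Polynomial.monomial j (φ (c j))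
  have hp : p = 0 := by
    apply Polynomial.funext
    intro s
    have := congrArg φ (h s)
    simp only [map_sum, map_smul, smul_eq_mul, map_zero] at this
    simp only [p, Polynomial.eval_finsetSum, Polynomial.eval_monomial, Polynomial.eval_zero]
    rw [← this]
    exact Finset.sum_congr rfl fun j _ => mul_comm _ _
  have := congrArg (fun q => Polynomial.coeff q i) hp
  simpa [p, Polynomial.finsetSum_coeff, Polynomial.coeff_monomial, Finset.sum_ite_eq', hi] using this

section
variable {A : Type*} [Ring A] [Algebra ℚ A]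

/-- `f : ℚ → A` is polynomial of degree at most `d`, and `T` is its coefficient of degree `d`. -/
def PTop (f : ℚ → A) (d : ℕ) (T : A) : Prop :=
  ∃ c : ℕ → A, (∀ s, f s = ∑ i ∈ Finset.range (d + 1), s ^ i • c i) ∧ c d = T

theorem PTop.const (a : A) : PTop (fun _ => a) 0 a :=
  ⟨fun _ => a, fun s => by simp, rfl⟩

theorem PTop.mul {f g : ℚ → A} {d e : ℕ} {T U : A} (hf : PTop f d T) (hg : PTop g e U) :
    PTop (fun s => f s * g s) (d + e) (T * U) := by
  obtain ⟨c, hc, rfl⟩ := hf
  obtain ⟨c', hc', rfl⟩ := hg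
  refine ⟨fun k => ∑ p ∈ (Finset.range (d + 1) ×ˢ Finset.range (e + 1)).filter
      (fun p => p.1 + p.2 = k), c p.1 * c' p.2, fun s => ?_, ?_⟩
  · have hmap : ∀ p ∈ Finset.range (d + 1) ×ˢ Finset.range (e + 1),
        p.1 + p.2 ∈ Finset.range (d + e + 1) := by
      intro p hp
      simp only [Finset.mem_product, Finset.mem_range] at hp ⊢
      omega
    show f s * g s = _
    rw [hc, hc', Finset.sum_mul_sum, ← Finset.sum_product',
      ← Finset.sum_fiberwise_of_maps_to hmap]
    refine Finset.sum_congr rfl fun k _ => ?_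
    rw [Finset.smul_sum]
    refine Finset.sum_congr rfl fun p hp => ?_
    rw [← (Finset.mem_filter.1 hp).2, pow_add, smul_mul_smul_comm]
  · show ∑ p ∈ (Finset.range (d + 1) ×ˢ Finset.range (e + 1)).filter
      (fun p => p.1 + p.2 = d + e), c p.1 * c' p.2 = _
    rw [show (Finset.range (d + 1) ×ˢ Finset.range (e + 1)).filter
      (fun p => p.1 + p.2 = d + e) = {(d, e)} from ?_]
    · simp
    · ext p
      simp only [Finset.mem_filter, Finset.mem_product, Finset.mem_range, Finset.mem_singleton,
        Prod.ext_iff]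
      omega

theorem PTop.congr {f g : ℚ → A} {d : ℕ} {T : A} (hf : PTop f d T) (h : ∀ s, g s = f s) :
    PTop g d T := by
  obtain ⟨c, hc, hT⟩ := hf
  exact ⟨c, fun s => by rw [h, hc], hT⟩

/-- The top coefficient of positive degree of a constant family vanishes. -/
theorem PTop.eq_zero_of_const {f : ℚ → A} {d : ℕ} {T : A} (hf : PTop f d T) (hd : 0 < d) (a : A)
    (h : ∀ s, f s = a) : T = 0 := by
  obtain ⟨c, hc, rfl⟩ := hf
  have key : ∀ s : ℚ, ∑ i ∈ Finset.range (d + 1), s ^ i • (c i - if i = 0 then a else 0) = 0 := by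
    intro s
    simp only [smul_sub, Finset.sum_sub_distrib, ← hc s, h s]
    simp [Finset.sum_ite_eq']
  have := ptop_coeff_eq_zero (d + 1) _ key d (by omega)
  simpa [hd.ne'] using this

/-- Quadratic families. -/
theorem PTop.quad (a b c : A) : PTop (fun s => a + s • b + s ^ 2 • c) 2 c := by
  refine ⟨fun i => if i = 0 then a else if i = 1 then b else c, fun s => ?_, by simp⟩
  simp [Finset.sum_range_succ]

end

end Pool.Agent.Lib.MP_74ab55_al
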