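import Mathlib
import Pool.Agent.Lib.MP_74ab55_al.Conj
import Pool.Agent.Lib.MP_74ab55_al.PolyTop

/-!
# The second descent step
-/

set_option autoImplicit false

namespace Pool.Agent.Lib.MP_74ab55_al
open LieAlgebra

section alg
variable {A : Type*} [Ring A]

theorem alt_even (P : A) (m : ℕ) (h : Aˣ) :
    alt P (2 * m) h = (P * (h : A) * P * ((h⁻¹ : Aˣ) : A)) ^ m * P := by
  induction m with
  | zero => simp [alt]
  | succ m ih =>
    have : 2 * (m + 1) = 2 * m + 1 + 1 := by ring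
    rw [this, alt, alt, inv_inv, ih, pow_succ']
    noncomm_ring

end alg

section lie
variable {L : Type*} [LieRing L] [LieAlgebra ℚ L]

theorem ad_lie_eq2 (a b : L) : ad ℚ L ⁅a, b⁆ = ad ℚ L a * ad ℚ L b - ad ℚ L b * ad ℚ L a := by
  ext y
  simp

theorem ad_sq_apply (v y : L) :
    ad ℚ L (((ad ℚ L v) ^ 2) y) =
      ad ℚ L v ^ 2 * ad ℚ L y - 2 * (ad ℚ L v * ad ℚ L y * ad ℚ L v) + ad ℚ L y * ad ℚ L v ^ 2 := by
  have : ((ad ℚ L v) ^ 2) y = ⁅v, ⁅v, y⁆⁆ := by simp [pow_two]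
  rw [this, ad_lie_eq2, ad_lie_eq2]
  noncomm_ring

theorem ad_cube_apply (v y : L) :
    ad ℚ L (((ad ℚ L v) ^ 3) y) =
      ad ℚ L v ^ 3 * ad ℚ L y - 3 * (ad ℚ L v ^ 2 * ad ℚ L y * ad ℚ L v)
        + 3 * (ad ℚ L v * ad ℚ L y * ad ℚ L v ^ 2) - ad ℚ L y * ad ℚ L v ^ 3 := by
  have : ((ad ℚ L v) ^ 3) y = ⁅v, ((ad ℚ L v) ^ 2) y⁆ := by simp [pow_succ, mul_assoc]
  rw [this, ad_lie_eq2, ad_sq_apply]
  noncomm_ring

/-- `W²YW = WYW²` when `W³ = 0`. -/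
theorem jord_I1 {w : L} (hw : (ad ℚ L w) ^ 3 = 0) (y : L) :
    ad ℚ L w ^ 2 * ad ℚ L y * ad ℚ L w = ad ℚ L w * ad ℚ L y * ad ℚ L w ^ 2 := by
  have h := ad_cube_apply w y
  rw [hw] at h
  simp only [LinearMap.zero_apply, map_zero, zero_mul, mul_zero, zero_sub, sub_zero] at h
  have h3 : (3 : ℚ) • (ad ℚ L w ^ 2 * ad ℚ L y * ad ℚ L w) =
      (3 : ℚ) • (ad ℚ L w * ad ℚ L y * ad ℚ L w ^ 2) := by
    have e : ∀ T : Module.End ℚ L, (3 : ℚ) • T = 3 * T := by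
      intro T
      rw [show (3 : ℚ) = ((3 : ℕ) : ℚ) by norm_num, Nat.cast_smul_eq_nsmul, nsmul_eq_mul]
      norm_num
    rw [e, e]
    have := h.symm
    rw [neg_add_eq_zero] at this
    exact this
  exact smul_right_injective _ (by norm_num : (3 : ℚ) ≠ 0) h3

/-- `W²YW² = 0` when `W³ = 0`. -/
theorem jord_I0 {w : L} (hw : (ad ℚ L w) ^ 3 = 0) (y : L) :
    ad ℚ L w ^ 2 * ad ℚ L y * ad ℚ L w ^ 2 = 0 := by
  have h : ad ℚ L w ^ 2 * ad ℚ L y * ad ℚ L w * ad ℚ L w =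
      ad ℚ L w * ad ℚ L y * ad ℚ L w ^ 2 * ad ℚ L w := by rw [jord_I1 hw y]
  rw [mul_assoc, ← pow_two] at h
  rw [h, mul_assoc, ← pow_succ, hw, mul_zero]

/-- `ad (W²y₁) ad (W²y₂) = W²Y₁Y₂W²` when `W³ = 0`. -/
theorem jord_I2 {w : L} (hw : (ad ℚ L w) ^ 3 = 0) (y₁ y₂ : L) :
    ad ℚ L (((ad ℚ L w) ^ 2) y₁) * ad ℚ L (((ad ℚ L w) ^ 2) y₂) =
      ad ℚ L w ^ 2 * ad ℚ L y₁ * ad ℚ L y₂ * ad ℚ L w ^ 2 := by
  rw [ad_sq_apply, ad_sq_apply]
  have a0 := jord_I0 hw y₁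
  have b0 := jord_I0 hw y₂
  have a1 := jord_I1 hw y₁
  have b1 := jord_I1 hw y₂
  generalize ad ℚ L w = W at *
  generalize ad ℚ L y₁ = A at *
  generalize ad ℚ L y₂ = B at *
  have e1 : W ^ 2 * A * W ^ 2 * B = 0 := by rw [a0, zero_mul]
  have e2 : A * (W ^ 2 * B * W ^ 2) = 0 := by rw [b0, mul_zero]
  have e3 : W ^ 2 * A * W * B * W = W * A * W ^ 2 * B * W := by rw [a1]
  have e4 : W * A * (W ^ 2 * B * W) = W * A * (W * B * W ^ 2) := by rw [b1]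
  have e5 : W * A * (W ^ 3) * B = 0 := by rw [hw]; simp
  have e6 : A * (W ^ 3) * B * W = 0 := by rw [hw]; simp
  have e7 : A * (W ^ 3) * W * B = 0 := by rw [hw]; simp
  linear_combination (norm := noncomm_ring) e1 + e2 - 2 * e3 + 2 * e4 - 2 * e5 - 2 * e6 + e7

theorem jord_cube {w : L} (hw : (ad ℚ L w) ^ 3 = 0) (y : L) :
    (ad ℚ L (((ad ℚ L w) ^ 2) y)) ^ 3 = 0 := by
  rw [pow_succ, pow_two, jord_I2 hw, ad_sq_apply]
  have a0 := jord_I0 hw y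
  generalize ad ℚ L w = W at *
  generalize ad ℚ L y = A at *
  have e1 : W ^ 2 * A * A * (W ^ 3) * W * A = 0 := by rw [hw]; simp
  have e2 : W ^ 2 * A * A * (W ^ 3) * A * W = 0 := by rw [hw]; simp
  have e3 : W ^ 2 * A * A * (W ^ 2 * A * W ^ 2) = 0 := by rw [a0, mul_zero]
  linear_combination (norm := noncomm_ring) e1 - 2 * e2 + e3

end lie

section main
variable {A : Type*} [Ring A] [Algebra ℚ A]

/-- The middle parts of the iterated conjugates. -/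
def dmid (Q : A) (k : Aˣ) : ℕ → A
  | 0 => ((k⁻¹ : Aˣ) : A) * Q * (k : A)
  | j + 1 => dmid Q k j * Q * dmid Q k j

omit [Algebra ℚ A] in
theorem dmid_eq (Q : A) (k : Aˣ) (j : ℕ) :
    Q * dmid Q k j * Q = alt Q (2 ^ (j + 1)) k⁻¹ := by
  have h1 : ∀ j, Q * dmid Q k j = (Q * ((k⁻¹ : Aˣ) : A) * Q * (k : A)) ^ (2 ^ j) := by
    intro j
    induction j with
    | zero => simp only [dmid, pow_zero, pow_one]; noncomm_ring
    | succ j ih =>
      rw [dmid, pow_succ 2 j, pow_mul, pow_two, ← ih]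
      noncomm_ring
  rw [h1, pow_succ' 2 j, alt_even, inv_inv]

theorem descent_alg (V X : A) (hVXV : V ^ 2 * X * V ^ 2 = 0) (hV : V ^ 3 = 0)
    (a : Aˣ) (ha : (a : A) = 1 + X + (1 / 2 : ℚ) • X ^ 2)
    (ha' : ((a⁻¹ : Aˣ) : A) = 1 - X + (1 / 2 : ℚ) • X ^ 2) (k : Aˣ) (h : ℚ → Aˣ)
    (hh : ∀ s : ℚ, (h s : A) = (1 + s • V + s ^ 2 • ((1 / 2 : ℚ) • V ^ 2)) * (k : A) *
      (1 + s • (-V) + s ^ 2 • ((1 / 2 : ℚ) • V ^ 2)))
    (hh' : ∀ s : ℚ, (((h s)⁻¹ : Aˣ) : A) =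
      (1 + s • V + s ^ 2 • ((1 / 2 : ℚ) • V ^ 2)) * ((k⁻¹ : Aˣ) : A) *
      (1 + s • (-V) + s ^ 2 • ((1 / 2 : ℚ) • V ^ 2)))
    (n : ℕ) (hd : ∀ s, dseq (h s) a (n + 1) = a⁻¹) :
    alt (V ^ 2 * X ^ 2 * V ^ 2) (2 ^ (n + 1)) k⁻¹ = 0 := by
  set Q : A := V ^ 2 * X ^ 2 * V ^ 2 with hQ
  have hVV : V ^ 2 * V ^ 2 = 0 := by
    rw [← pow_add, show 2 + 2 = 3 + 1 by norm_num, pow_succ, hV, zero_mul]
  have ha1 : V ^ 2 * (a : A) * V ^ 2 = (1 / 2 : ℚ) • Q := by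
    rw [ha, mul_add, mul_add, add_mul, add_mul, mul_one, hVV, hVXV, mul_smul_comm, smul_mul_assoc,
      zero_add, zero_add]
  have ha2 : V ^ 2 * ((a⁻¹ : Aˣ) : A) * V ^ 2 = (1 / 2 : ℚ) • Q := by
    rw [ha', mul_add, mul_sub, add_mul, sub_mul, mul_one, hVV, hVXV, mul_smul_comm,
      smul_mul_assoc, sub_zero, zero_add]
  have hp : PTop (fun s => (h s : A)) 4
      (((1 / 2 : ℚ) • V ^ 2) * (k : A) * ((1 / 2 : ℚ) • V ^ 2)) :=
    (((PTop.quad _ _ _).mul (PTop.const _)).mul (PTop.quad _ _ _)).congr hh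
  have hm : PTop (fun s => (((h s)⁻¹ : Aˣ) : A)) 4
      (((1 / 2 : ℚ) • V ^ 2) * ((k⁻¹ : Aˣ) : A) * ((1 / 2 : ℚ) • V ^ 2)) :=
    (((PTop.quad _ _ _).mul (PTop.const _)).mul (PTop.quad _ _ _)).congr hh'
  have key : ∀ j : ℕ, ∃ c : ℚ, c ≠ 0 ∧
      PTop (fun s => ((dseq (h s) a (j + 1) : Aˣ) : A)) (8 * 2 ^ j)
        (c • (V ^ 2 * dmid Q k j * V ^ 2)) ∧
      PTop (fun s => (((dseq (h s) a (j + 1))⁻¹ : Aˣ) : A)) (8 * 2 ^ j)
        (c • (V ^ 2 * dmid Q k j * V ^ 2)) := by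
    intro j
    induction j with
    | zero =>
      refine ⟨1 / 32, by norm_num, ?_, ?_⟩
      · have := (hm.mul (PTop.const ((a⁻¹ : Aˣ) : A))).mul hp
        have e : ((1 / 2 : ℚ) • V ^ 2) * ((k⁻¹ : Aˣ) : A) * ((1 / 2 : ℚ) • V ^ 2) *
            ((a⁻¹ : Aˣ) : A) * (((1 / 2 : ℚ) • V ^ 2) * (k : A) * ((1 / 2 : ℚ) • V ^ 2)) =
            (1 / 32 : ℚ) • (V ^ 2 * dmid Q k 0 * V ^ 2) := by
          have : (1 / 32 : ℚ) • (V ^ 2 * dmid Q k 0 * V ^ 2) = (1 / 16 : ℚ) •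
              (V ^ 2 * ((k⁻¹ : Aˣ) : A) * ((1 / 2 : ℚ) • Q) * (k : A) * V ^ 2) := by
            rw [dmid]
            simp only [mul_smul_comm, smul_mul_assoc, smul_smul, mul_assoc]
            norm_num
          rw [this, ← ha2]
          simp only [mul_smul_comm, smul_mul_assoc, smul_smul, mul_assoc]
          norm_num
        rw [e] at this
        refine this.congr fun s => ?_
        simp [dseq]
      · have := (hm.mul (PTop.const (a : A))).mul hp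
        have e : ((1 / 2 : ℚ) • V ^ 2) * ((k⁻¹ : Aˣ) : A) * ((1 / 2 : ℚ) • V ^ 2) *
            (a : A) * (((1 / 2 : ℚ) • V ^ 2) * (k : A) * ((1 / 2 : ℚ) • V ^ 2)) =
            (1 / 32 : ℚ) • (V ^ 2 * dmid Q k 0 * V ^ 2) := by
          have : (1 / 32 : ℚ) • (V ^ 2 * dmid Q k 0 * V ^ 2) = (1 / 16 : ℚ) •
              (V ^ 2 * ((k⁻¹ : Aˣ) : A) * ((1 / 2 : ℚ) • Q) * (k : A) * V ^ 2) := by
            rw [dmid]
            simp only [mul_smul_comm, smul_mul_assoc, smul_smul, mul_assoc]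
            norm_num
          rw [this, ← ha1]
          simp only [mul_smul_comm, smul_mul_assoc, smul_smul, mul_assoc]
          norm_num
        rw [e] at this
        refine this.congr fun s => ?_
        simp [dseq, mul_assoc]
    | succ j ih =>
      obtain ⟨c, hc, h1, h2⟩ := ih
      have hdeg : 8 * 2 ^ j + 0 + 8 * 2 ^ j = 8 * 2 ^ (j + 1) := by ring
      refine ⟨c * c / 2, by positivity, ?_, ?_⟩
      · have := (h2.mul (PTop.const ((a⁻¹ : Aˣ) : A))).mul h1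
        have e : c • (V ^ 2 * dmid Q k j * V ^ 2) * ((a⁻¹ : Aˣ) : A) *
            (c • (V ^ 2 * dmid Q k j * V ^ 2)) =
            (c * c / 2) • (V ^ 2 * dmid Q k (j + 1) * V ^ 2) := by
          have : (c * c / 2) • (V ^ 2 * dmid Q k (j + 1) * V ^ 2) = (c * c) •
              (V ^ 2 * dmid Q k j * ((1 / 2 : ℚ) • Q) * dmid Q k j * V ^ 2) := by
            rw [dmid]
            simp only [mul_smul_comm, smul_mul_assoc, smul_smul, mul_assoc]
            congr 1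
            ring
          rw [this, ← ha2]
          simp only [mul_smul_comm, smul_mul_assoc, smul_smul, mul_assoc]
        rw [e, hdeg] at this
        refine this.congr fun s => ?_
        rw [dseq_succ (h s) a (j + 1)]
        simp
      · have := (h2.mul (PTop.const (a : A))).mul h1
        have e : c • (V ^ 2 * dmid Q k j * V ^ 2) * (a : A) *
            (c • (V ^ 2 * dmid Q k j * V ^ 2)) =
            (c * c / 2) • (V ^ 2 * dmid Q k (j + 1) * V ^ 2) := by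
          have : (c * c / 2) • (V ^ 2 * dmid Q k (j + 1) * V ^ 2) = (c * c) •
              (V ^ 2 * dmid Q k j * ((1 / 2 : ℚ) • Q) * dmid Q k j * V ^ 2) := by
            rw [dmid]
            simp only [mul_smul_comm, smul_mul_assoc, smul_smul, mul_assoc]
            congr 1
            ring
          rw [this, ← ha1]
          simp only [mul_smul_comm, smul_mul_assoc, smul_smul, mul_assoc]
        rw [e, hdeg] at this
        refine this.congr fun s => ?_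
        rw [dseq_succ (h s) a (j + 1)]
        simp [mul_assoc]
  obtain ⟨c, hc, h1, -⟩ := key n
  have h0 := h1.eq_zero_of_const (by positivity) ((a⁻¹ : Aˣ) : A) (fun s => by rw [hd])
  have h2 : V ^ 2 * dmid Q k n * V ^ 2 = 0 := (smul_eq_zero.1 h0).resolve_left hc
  rw [← dmid_eq]
  calc Q * dmid Q k n * Q = V ^ 2 * X ^ 2 * (V ^ 2 * dmid Q k n * V ^ 2) * X ^ 2 * V ^ 2 := by
        rw [hQ]; noncomm_ring
    _ = 0 := by rw [h2]; simp

end main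

section final
variable {L : Type*} [LieRing L] [LieAlgebra ℚ L]

theorem exp_cube {A : Type*} [Ring A] [Algebra ℚ A] {X : A} (hX : X ^ 3 = 0) (s : ℚ) :
    IsNilpotent.exp (s • X) = 1 + s • X + s ^ 2 • ((1 / 2 : ℚ) • X ^ 2) := by
  have : (s • X) ^ 3 = 0 := by rw [smul_pow, hX, smul_zero]
  rw [IsNilpotent.exp_eq_sum this]
  simp [Finset.sum_range_succ, smul_pow, smul_smul]
  congr 1
  ring

theorem descent_two {L : Type*} [LieRing L] [LieAlgebra ℚ L] {ι : Type*} (x : ι → L) (n : ℕ)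
    (hs : EngSys n x) (i : ι) (hX : (ad ℚ L (x i)) ^ 3 = 0) (g : (Module.End ℚ L)ˣ)
    (hg : g ∈ Exps x) :
    let v : L := (g : Module.End ℚ L) (x i)
    (ad ℚ L (((ad ℚ L v) ^ 2) (x i))) ^ 3 = 0 ∧
    ∃ K, ∀ h ∈ Exps x, alt ((ad ℚ L (((ad ℚ L v) ^ 2) (x i))) ^ 2) K h = 0 := by
  intro v
  set X := ad ℚ L (x i) with hXdef
  have hVeq : ad ℚ L v = (g : Module.End ℚ L) * X * ((g⁻¹ : (Module.End ℚ L)ˣ) : Module.End ℚ L) :=
    Exps.ad_apply hs.nil hg (x i)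
  set V := ad ℚ L v with hVdef
  have hV : V ^ 3 = 0 := by
    rw [hVeq, Units.conj_pow, hX]; simp
  refine ⟨jord_cube hV _, 2 ^ (n + 1), fun h hh => ?_⟩
  have hQ : (ad ℚ L ((V ^ 2) (x i))) ^ 2 = V ^ 2 * X ^ 2 * V ^ 2 := by
    rw [pow_two (ad ℚ L ((V ^ 2) (x i))), jord_I2 hV, ← hVdef, ← hXdef]
    noncomm_ring
  rw [hQ]
  -- the unit `exp X`
  have unitX : ∀ s : ℚ, ∃ u ∈ Exps x, (u : Module.End ℚ L) = IsNilpotent.exp (s • X) ∧
      ((u⁻¹ : (Module.End ℚ L)ˣ) : Module.End ℚ L) = IsNilpotent.exp ((-s) • X) := by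
    intro s
    have hn : IsNilpotent (s • X) := ⟨3, by rw [smul_pow, hX, smul_zero]⟩
    refine ⟨⟨IsNilpotent.exp (s • X), IsNilpotent.exp ((-s) • X), ?_, ?_⟩, ?_, rfl, rfl⟩
    · rw [neg_smul]; exact IsNilpotent.exp_mul_exp_neg_self hn
    · rw [neg_smul]; exact IsNilpotent.exp_neg_mul_exp_self hn
    · exact Subgroup.subset_closure ⟨i, s, rfl⟩
  choose u huE hu hu' using unitX
  have hcV : ∀ s : ℚ, (((g * u s * g⁻¹ : (Module.End ℚ L)ˣ)) : Module.End ℚ L) =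
      1 + s • V + s ^ 2 • ((1 / 2 : ℚ) • V ^ 2) := by
    intro s
    have e2 : V ^ 2 = (g : Module.End ℚ L) * X ^ 2 *
        ((g⁻¹ : (Module.End ℚ L)ˣ) : Module.End ℚ L) := by rw [hVeq, Units.conj_pow]
    rw [e2, hVeq, Units.val_mul, Units.val_mul, hu, exp_cube hX]
    simp only [mul_add, add_mul, mul_one, Units.mul_inv, mul_smul_comm, smul_mul_assoc]
  have hcV' : ∀ s : ℚ, ((((g * u s * g⁻¹)⁻¹ : (Module.End ℚ L)ˣ)) : Module.End ℚ L) =
      1 + s • (-V) + s ^ 2 • ((1 / 2 : ℚ) • V ^ 2) := by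
    intro s
    have e1 : (g * u s * g⁻¹)⁻¹ = g * (u s)⁻¹ * g⁻¹ := by group
    have e2 : V ^ 2 = (g : Module.End ℚ L) * X ^ 2 *
        ((g⁻¹ : (Module.End ℚ L)ˣ) : Module.End ℚ L) := by rw [hVeq, Units.conj_pow]
    rw [e1, e2, hVeq, Units.val_mul, Units.val_mul, hu', exp_cube hX]
    simp only [mul_add, add_mul, mul_one, Units.mul_inv, mul_smul_comm, smul_mul_assoc, neg_smul,
      smul_neg, mul_neg, neg_mul, neg_sq]
  have ha : ((u 1 : (Module.End ℚ L)ˣ) : Module.End ℚ L) = 1 + X + (1 / 2 : ℚ) • X ^ 2 := by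
    rw [hu, exp_cube hX]; simp
  have ha' : (((u 1)⁻¹ : (Module.End ℚ L)ˣ) : Module.End ℚ L) =
      1 - X + (1 / 2 : ℚ) • X ^ 2 := by
    rw [hu', exp_cube hX]; simp [sub_eq_add_neg]
  have := descent_alg V X (jord_I0 hV _) hV (u 1) ha ha' h⁻¹
    (fun s => (g * u s * g⁻¹) * h⁻¹ * (g * u s * g⁻¹)⁻¹)
    (fun s => by rw [Units.val_mul, Units.val_mul, hcV, hcV'])
    (fun s => by
      have e1 : ((g * u s * g⁻¹) * h⁻¹ * (g * u s * g⁻¹)⁻¹)⁻¹ =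
        (g * u s * g⁻¹) * (h⁻¹)⁻¹ * (g * u s * g⁻¹)⁻¹ := by group
      rw [e1, Units.val_mul, Units.val_mul, hcV, hcV']) n
    (fun s => hs.eng i (u 1) (by rw [hu, one_smul]) _ (by
      have h1 : g * u s * g⁻¹ ∈ Exps x := mul_mem (mul_mem hg (huE s)) (inv_mem hg)
      exact mul_mem (mul_mem h1 (inv_mem hh)) (inv_mem h1)))
  rwa [inv_inv] at this

end final

end Pool.Agent.Lib.MP_74ab55_al
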