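import Pool.Agent.Lib.MP_74ab55_al.Alt

/-!
# The first descent: generators with `X ^ (r + 1) = 0`, `r ≥ 3`
-/

set_option autoImplicit false

namespace Pool.Agent.Lib.MP_74ab55_al
open LieAlgebra Polynomial

section dpair

/-- Iterated conjugates together with their inverses, in any ring. -/
def dpair {B : Type*} [Mul B] (h h' a a' : B) : ℕ → B × B
  | 0 => (h, h')
  | k + 1 => ((dpair h h' a a' k).2 * a' * (dpair h h' a a' k).1,
      (dpair h h' a a' k).2 * a * (dpair h h' a a' k).1)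

theorem dpair_map {B C : Type*} [Semiring B] [Semiring C] (f : B →+* C) (h h' a a' : B) (k : ℕ) :
    (f (dpair h h' a a' k).1, f (dpair h h' a a' k).2) = dpair (f h) (f h') (f a) (f a') k := by
  induction k with
  | zero => rfl
  | succ k ih =>
    have h1 := congrArg Prod.fst ih
    have h2 := congrArg Prod.snd ih
    simp only at h1 h2
    simp only [dpair, map_mul, h1, h2]

theorem dpair_units {A : Type*} [Ring A] (h a : Aˣ) (k : ℕ) :
    dpair (h : A) ((h⁻¹ : Aˣ) : A) (a : A) ((a⁻¹ : Aˣ) : A) k =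
      (((dseq h a k : Aˣ) : A), (((dseq h a k)⁻¹ : Aˣ) : A)) := by
  induction k with
  | zero => rfl
  | succ k ih =>
    rw [dpair, ih, dseq_succ]
    simp [mul_assoc]

theorem dseq_conj {G : Type*} [Group G] (g h a : G) (k : ℕ) :
    dseq (g * h * g⁻¹) (g * a * g⁻¹) k = g * dseq h a k * g⁻¹ := by
  induction k with
  | zero => rfl
  | succ k ih => rw [dseq_succ, ih, dseq_succ]; group

variable {A : Type*} [Ring A]

/-- Top coefficients of `dpair`. -/
def topSeq (T Q : A) : ℕ → A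
  | 0 => T
  | k + 1 => topSeq T Q k * Q * topSeq T Q k

theorem dpair_top (h h' Q : A) (a a' : Polynomial A) (ha : a.natDegree ≤ 2)
    (ha' : a'.natDegree ≤ 2) (hc : a.coeff 2 = Q) (hc' : a'.coeff 2 = Q) (k : ℕ) :
    ((dpair (C h) (C h') a a' (k + 1)).1.natDegree ≤ 2 ^ (k + 2) - 2 ∧
      (dpair (C h) (C h') a a' (k + 1)).2.natDegree ≤ 2 ^ (k + 2) - 2) ∧
      (dpair (C h) (C h') a a' (k + 1)).1.coeff (2 ^ (k + 2) - 2) = topSeq (h' * Q * h) Q k ∧
      (dpair (C h) (C h') a a' (k + 1)).2.coeff (2 ^ (k + 2) - 2) = topSeq (h' * Q * h) Q k := by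
  have key : ∀ (u b v : Polynomial A) (d : ℕ), u.natDegree ≤ d → b.natDegree ≤ 2 →
      v.natDegree ≤ d → (u * b * v).natDegree ≤ d + 2 + d ∧
      (u * b * v).coeff (d + 2 + d) = u.coeff d * b.coeff 2 * v.coeff d := by
    intro u b v d hu hb hv
    have h1 : (u * b).natDegree ≤ d + 2 :=
      Polynomial.natDegree_mul_le.trans (by omega)
    refine ⟨Polynomial.natDegree_mul_le.trans (by omega), ?_⟩
    rw [Polynomial.coeff_mul_add_eq_of_natDegree_le h1 hv, Polynomial.coeff_mul_add_eq_of_natDegree_le hu hb]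
  induction k with
  | zero =>
    have e : 2 ^ (0 + 2) - 2 = 0 + 2 + 0 := by norm_num
    rw [e]
    have h0 : (C h : Polynomial A).natDegree ≤ 0 := by simp
    have h0' : (C h' : Polynomial A).natDegree ≤ 0 := by simp
    obtain ⟨k1, k2⟩ := key (C h') a' (C h) 0 h0' ha' h0
    obtain ⟨k3, k4⟩ := key (C h') a (C h) 0 h0' ha h0
    refine ⟨⟨k1, k3⟩, ?_, ?_⟩
    · rw [dpair, dpair, k2, hc', coeff_C_zero, coeff_C_zero, topSeq]
    · rw [dpair, dpair, k4, hc, coeff_C_zero, coeff_C_zero, topSeq]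
  | succ k ih =>
    obtain ⟨⟨i1, i2⟩, i3, i4⟩ := ih
    have e : 2 ^ (k + 1 + 2) - 2 = (2 ^ (k + 2) - 2) + 2 + (2 ^ (k + 2) - 2) := by
      have : 4 ≤ 2 ^ (k + 2) := by
        rw [pow_add]; have := Nat.one_le_two_pow (n := k); omega
      have h2 : 2 ^ (k + 1 + 2) = 2 * 2 ^ (k + 2) := by ring
      omega
    rw [e]
    obtain ⟨k1, k2⟩ := key _ a' _ _ i2 ha' i1
    obtain ⟨k3, k4⟩ := key _ a _ _ i2 ha i1
    refine ⟨⟨k1, k3⟩, ?_, ?_⟩
    · rw [dpair, k2, i3, i4, hc', topSeq]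
    · rw [dpair, k4, i3, i4, hc, topSeq]

theorem alt_add (P : A) (m l : ℕ) (h : Aˣ) :
    alt P (2 * m + 1 + l) h = alt P (2 * m) h * (h : A) * alt P l h⁻¹ := by
  induction m with
  | zero =>
    rw [mul_zero, zero_add, add_comm, alt_succ]; rfl
  | succ m ih =>
    have e1 : 2 * (m + 1) + 1 + l = (2 * m + 1 + l) + 1 + 1 := by ring
    have e2 : 2 * (m + 1) = 2 * m + 1 + 1 := by ring
    rw [e1, alt_succ, alt_succ, inv_inv, ih, e2, alt_succ, alt_succ, inv_inv]
    simp only [mul_assoc]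

theorem topSeq_eq (Q : A) (h : Aˣ) (k : ℕ) :
    topSeq (((h⁻¹ : Aˣ) : A) * Q * (h : A)) Q k =
      ((h⁻¹ : Aˣ) : A) * alt Q (2 * (2 ^ k - 1)) h * (h : A) := by
  induction k with
  | zero => simp [topSeq, alt]
  | succ k ih =>
    have e : 2 * (2 ^ (k + 1) - 1) = 2 * (2 ^ k - 1) + 1 + (2 * (2 ^ k - 1) + 1) := by
      have := Nat.one_le_two_pow (n := k)
      have h2 : 2 ^ (k + 1) = 2 * 2 ^ k := by ring
      omega
    rw [topSeq, ih, e, alt_add, alt_succ, inv_inv]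
    simp only [mul_assoc]

theorem alt_smul [Algebra ℚ A] (c : ℚ) (P : A) (k : ℕ) (h : Aˣ) :
    alt (c • P) k h = c ^ (k + 1) • alt P k h := by
  induction k generalizing h with
  | zero => simp [alt]
  | succ k ih =>
    rw [alt_succ, ih, alt_succ, smul_mul_assoc, smul_mul_assoc, mul_smul_comm, smul_smul,
      ← pow_succ']

end dpair

section lie
variable {L : Type*} [LieRing L] [LieAlgebra ℚ L]

theorem EngSys.succ {ι : Type*} {n : ℕ} {x : ι → L} (hs : EngSys n x) : EngSys (n + 1) x :=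
  ⟨hs.nil, hs.gen, fun i a ha h hh => by
    rw [dseq_succ, hs.eng i a ha h hh]; group⟩

theorem EngSys.conj {ι : Type*} {n : ℕ} {x : ι → L} (hs : EngSys n x) (i : ι)
    {g h : (Module.End ℚ L)ˣ} (hg : g ∈ Exps x) (hh : h ∈ Exps x) :
    (dpair (h : Module.End ℚ L) ((h⁻¹ : (Module.End ℚ L)ˣ) : Module.End ℚ L)
      (IsNilpotent.exp (ad ℚ L ((g : Module.End ℚ L) (x i))))
      (IsNilpotent.exp (-ad ℚ L ((g : Module.End ℚ L) (x i)))) (n + 1)).1 =
      IsNilpotent.exp (-ad ℚ L ((g : Module.End ℚ L) (x i))) := by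
  obtain ⟨a, -, ha⟩ := Exps.exp_mem hs.nil i 1
  rw [one_smul] at ha
  have hinv : ((a⁻¹ : (Module.End ℚ L)ˣ) : Module.End ℚ L) =
      IsNilpotent.exp (-ad ℚ L (x i)) := by
    have h1 : (a : Module.End ℚ L) * IsNilpotent.exp (-ad ℚ L (x i)) = 1 := by
      rw [ha]; exact IsNilpotent.exp_mul_exp_neg_self (hs.nil i)
    exact Units.inv_eq_of_mul_eq_one_right h1
  have e1 : IsNilpotent.exp (ad ℚ L ((g : Module.End ℚ L) (x i))) =
      ((g * a * g⁻¹ : (Module.End ℚ L)ˣ) : Module.End ℚ L) := by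
    rw [Exps.ad_apply hs.nil hg, exp_conj g (hs.nil i), Units.val_mul, Units.val_mul, ha]
  have e2 : IsNilpotent.exp (-ad ℚ L ((g : Module.End ℚ L) (x i))) =
      (((g * a * g⁻¹)⁻¹ : (Module.End ℚ L)ˣ) : Module.End ℚ L) := by
    rw [Exps.ad_apply hs.nil hg, ← neg_mul, ← mul_neg, exp_conj g (hs.nil i).neg, mul_inv_rev,
      mul_inv_rev, inv_inv, Units.val_mul, Units.val_mul, hinv, mul_assoc]
  have e3 : h = g * (g⁻¹ * h * g) * g⁻¹ := by group
  rw [e1, e2, dpair_units]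
  simp only
  congr 1
  conv_lhs => rw [e3]
  rw [dseq_conj, hs.eng i a ha _ ((Exps x).mul_mem ((Exps x).mul_mem ((Exps x).inv_mem hg) hh) hg)]
  group

theorem Fam.all {ι : Type*} (x : ι → L) (hx : ∀ i, IsNilpotent (ad ℚ L (x i)))
    (hgen : LieSubalgebra.lieSpan ℚ L (Set.range x) = ⊤) (w : L) (hw : (ad ℚ L w) ^ 3 = 0)
    (v : L) : Fam x ((ad ℚ L w) ^ 2) v := by
  have hfam : ∀ a : ℚ, Fam x ((ad ℚ L w) ^ 2) (a • v) := by
    have hv : v ∈ Submodule.span ℚ
        {y : L | ∃ g ∈ Exps x, ∃ i, y = (g : Module.End ℚ L) (x i)} := by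
      rw [Exps.span_eq_top hx hgen]; trivial
    induction hv using Submodule.span_induction with
    | mem y hy =>
      obtain ⟨g, hg, i, rfl⟩ := hy
      intro a
      refine Fam.exp _ ?_ fun s => ?_
      · rw [map_smul]
        exact nilp_smul (Exps.isNilpotent_conj hx hg (hx i)) a
      · rw [map_smul, smul_smul]
        exact Exps.exp_conj_gen hx hg i _
    | zero => intro a; rw [smul_zero]; exact Fam.zero x _
    | add y z _ _ hy hz => intro a; rw [smul_add]; exact Fam.add hw (hy a) (hz a)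
    | smul b y _ hy => intro a; rw [smul_smul]; exact hy (a * b)
  exact one_smul ℚ v ▸ hfam 1

theorem Fam.pol {ι : Type*} (x : ι → L) (hx : ∀ i, IsNilpotent (ad ℚ L (x i)))
    (hgen : LieSubalgebra.lieSpan ℚ L (Set.range x) = ⊤) (v : L) :
    ∃ p : Polynomial (Module.End ℚ L), p.coeff 0 = 1 ∧ p.coeff 1 = ad ℚ L v ∧
      ∀ s : ℚ, ∃ u ∈ Exps x, ev s p = (u : Module.End ℚ L) := by
  obtain ⟨p, q, e, a, b, c, d, f, g⟩ := Fam.all x hx hgen 0 (by simp) v
  exact ⟨p, a, c, fun s => by obtain ⟨u, hu, hu', _⟩ := e s; exact ⟨u, hu, hu'⟩⟩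

/-- The polynomial with coefficients `u 0, …, u (N - 1)`. -/
noncomputable def mkP {A : Type*} [Ring A] (N : ℕ) (u : ℕ → A) : Polynomial A :=
  ∑ k ∈ Finset.range N, monomial k (u k)

theorem ev_mkP {A : Type*} [Ring A] [Algebra ℚ A] (s : ℚ) (N : ℕ) (u : ℕ → A) :
    ev s (mkP N u) = ∑ k ∈ Finset.range N, s ^ k • u k := by
  rw [mkP, map_sum]
  exact Finset.sum_congr rfl fun k _ => ev_monomial _ _ _

theorem coeff_mkP {A : Type*} [Ring A] (N : ℕ) (u : ℕ → A) (k : ℕ) (hk : k < N) :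
    (mkP N u).coeff k = u k := by
  rw [mkP, Polynomial.finsetSum_coeff]
  simp only [coeff_monomial]
  rw [Finset.sum_ite_eq']
  simp [hk]

theorem natDegree_mkP {A : Type*} [Ring A] (N : ℕ) (u : ℕ → A) :
    (mkP (N + 1) u).natDegree ≤ N := by
  refine Polynomial.natDegree_sum_le_of_forall_le _ _ fun k hk => ?_
  rw [Finset.mem_range] at hk
  exact (Polynomial.natDegree_monomial_le _).trans (by omega)

theorem expP_eq_mkP {A : Type*} [Ring A] [Algebra ℚ A] (N : ℕ) (a : A) :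
    expP N a = mkP N fun i => (i.factorial : ℚ)⁻¹ • a ^ i := rfl

theorem ad_exp {y : L} (hy : IsNilpotent (ad ℚ L y)) (a : L) :
    ad ℚ L (IsNilpotent.exp (ad ℚ L y) a) =
      IsNilpotent.exp (ad ℚ L y) * ad ℚ L a * IsNilpotent.exp (-ad ℚ L y) := by
  have h1 : ad ℚ L (IsNilpotent.exp (ad ℚ L y) a) * IsNilpotent.exp (ad ℚ L y) =
      IsNilpotent.exp (ad ℚ L y) * ad ℚ L a := by
    ext b
    rw [Module.End.mul_apply, Module.End.mul_apply, LieAlgebra.ad_apply, LieAlgebra.ad_apply,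
      exp_ad_lie hy]
  rw [← h1, mul_assoc, IsNilpotent.exp_mul_exp_neg_self hy, mul_one]

theorem top_facts {e : L} {r : ℕ} (hr : 1 ≤ r) (hX : (ad ℚ L e) ^ (r + 1) = 0) (z : L) :
    (ad ℚ L (((ad ℚ L e) ^ r) z)) ^ 3 = 0 ∧
    (ad ℚ L (((ad ℚ L e) ^ r) z)) ^ 2 =
      (-1 : ℚ) ^ r • ((ad ℚ L e) ^ r * (ad ℚ L z) ^ 2 * (ad ℚ L e) ^ r) := by
  set X' := ad ℚ L e with hX'
  have hX2 : (-X') ^ (r + 1) = 0 := by rw [neg_pow, hX, mul_zero]
  have hn : ∀ s : ℚ, IsNilpotent (s • X') := nilp_smul ⟨r + 1, hX⟩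
  set E1 := expP (r + 1) X' with hE1
  set E2 := expP (r + 1) (-X') with hE2
  set AP : Polynomial (Module.End ℚ L) :=
    mkP (r + 1) (fun k => (k.factorial : ℚ)⁻¹ • ad ℚ L ((X' ^ k) z)) with hAP
  have h21 : E2 * E1 = 1 := by
    refine eq_of_ev Set.univ Set.infinite_univ fun s _ => ?_
    rw [map_mul, ev_expP s hX, ev_expP s hX2, map_one, smul_neg]
    exact IsNilpotent.exp_neg_mul_exp_self (hn s)
  have hid : AP = E1 * C (ad ℚ L z) * E2 := by
    refine eq_of_ev Set.univ Set.infinite_univ fun s _ => ?_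
    rw [map_mul, map_mul, ev_C, ev_expP s hX, ev_expP s hX2, ev_mkP, smul_neg]
    have hs : ad ℚ L (s • e) = s • X' := by rw [map_smul]
    have h1 := ad_exp (y := s • e) (by rw [hs]; exact hn s) z
    rw [hs] at h1
    rw [← h1, exp_smul_eq_sum hX, LinearMap.sum_apply, map_sum]
    refine Finset.sum_congr rfl fun k _ => ?_
    rw [LinearMap.smul_apply, LinearMap.smul_apply, map_smul, map_smul]
  have dA : AP.natDegree ≤ r := natDegree_mkP _ _
  have d1 : E1.natDegree ≤ r := natDegree_mkP _ _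
  have d2 : E2.natDegree ≤ r := natDegree_mkP _ _
  have cA : AP.coeff r = (r.factorial : ℚ)⁻¹ • ad ℚ L ((X' ^ r) z) := coeff_mkP _ _ _ (by omega)
  have c1 : E1.coeff r = (r.factorial : ℚ)⁻¹ • X' ^ r := coeff_mkP _ _ _ (by omega)
  have c2 : E2.coeff r = (r.factorial : ℚ)⁻¹ • (-X') ^ r := coeff_mkP _ _ _ (by omega)
  have hf : (r.factorial : ℚ)⁻¹ ≠ 0 := inv_ne_zero (by exact_mod_cast r.factorial_ne_zero)
  have hsq : AP * AP = E1 * C (ad ℚ L z ^ 2) * E2 := by
    rw [hid]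
    calc E1 * C (ad ℚ L z) * E2 * (E1 * C (ad ℚ L z) * E2)
        = E1 * C (ad ℚ L z) * (E2 * E1) * C (ad ℚ L z) * E2 := by simp only [mul_assoc]
      _ = E1 * C (ad ℚ L z ^ 2) * E2 := by rw [h21, mul_one, mul_assoc E1, ← C_mul, sq]
  have hcu : AP * AP * AP = E1 * C (ad ℚ L z ^ 3) * E2 := by
    rw [hsq, hid]
    calc E1 * C (ad ℚ L z ^ 2) * E2 * (E1 * C (ad ℚ L z) * E2)
        = E1 * C (ad ℚ L z ^ 2) * (E2 * E1) * C (ad ℚ L z) * E2 := by simp only [mul_assoc]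
      _ = E1 * C (ad ℚ L z ^ 3) * E2 := by
        rw [h21, mul_one, mul_assoc E1, ← C_mul, ← pow_succ]
  have dC : ∀ a : Module.End ℚ L, (C a : Polynomial (Module.End ℚ L)).natDegree ≤ 0 :=
    fun a => by simp
  have dAA : (AP * AP).natDegree ≤ r + r := Polynomial.natDegree_mul_le.trans (by omega)
  have dEC : ∀ a : Module.End ℚ L, (E1 * C a).natDegree ≤ r + 0 := fun a =>
    Polynomial.natDegree_mul_le.trans (by have := dC a; omega)
  have cAA : (AP * AP).coeff (r + r) =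
      ((r.factorial : ℚ)⁻¹ * (r.factorial : ℚ)⁻¹) • ad ℚ L ((X' ^ r) z) ^ 2 := by
    rw [Polynomial.coeff_mul_add_eq_of_natDegree_le dA dA, cA, smul_mul_smul_comm, sq]
  constructor
  · have e1 : (AP * AP * AP).coeff (r + r + r) = 0 := by
      rw [hcu]
      refine Polynomial.coeff_eq_zero_of_natDegree_lt ?_
      have := Polynomial.natDegree_mul_le (p := E1 * C (ad ℚ L z ^ 3)) (q := E2)
      have := dEC (ad ℚ L z ^ 3)
      omega
    rw [Polynomial.coeff_mul_add_eq_of_natDegree_le dAA dA, cAA, cA, smul_mul_smul_comm,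
      ← pow_succ, smul_eq_zero] at e1
    rcases e1 with e1 | e1
    · exact absurd e1 (mul_ne_zero (mul_ne_zero hf hf) hf)
    · exact e1
  · have e1 : (AP * AP).coeff (r + 0 + r) =
        (E1 * C (ad ℚ L z ^ 2) * E2).coeff (r + 0 + r) := by rw [hsq]
    rw [Polynomial.coeff_mul_add_eq_of_natDegree_le (dEC _) d2,
      Polynomial.coeff_mul_add_eq_of_natDegree_le d1 (dC _), coeff_C_zero, c1, c2, add_zero,
      cAA, smul_mul_assoc, smul_mul_smul_comm] at e1
    have e2 := smul_right_injective _ (mul_ne_zero hf hf) e1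
    rw [e2]
    have h3 : (-X') ^ r = (-1 : ℚ) ^ r • X' ^ r := by
      rw [← neg_one_smul ℚ X', _root_.smul_pow]
    rw [h3, mul_smul_comm]

theorem top_comm {e : L} {r : ℕ} (hX : (ad ℚ L e) ^ (r + 1) = 0) (z : L) :
    Commute (ad ℚ L e) (ad ℚ L (((ad ℚ L e) ^ r) z)) := by
  have h := ad_lie' e (((ad ℚ L e) ^ r) z)
  have h2 : ⁅e, ((ad ℚ L e) ^ r) z⁆ = ((ad ℚ L e) ^ (r + 1)) z := by
    rw [pow_succ', Module.End.mul_apply, LieAlgebra.ad_apply]
  rw [h2, hX, LinearMap.zero_apply, map_zero, eq_comm, sub_eq_zero] at h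
  exact h

theorem top_mul_left {e : L} {r : ℕ} (hr : 1 ≤ r) (hX : (ad ℚ L e) ^ (r + 1) = 0) (z : L) :
    ad ℚ L e * (ad ℚ L (((ad ℚ L e) ^ r) z)) ^ 2 = 0 := by
  rw [(top_facts hr hX z).2, mul_smul_comm, ← mul_assoc, ← mul_assoc, ← pow_succ', hX, zero_mul,
    zero_mul, smul_zero]

theorem top_mul_right {e : L} {r : ℕ} (hr : 1 ≤ r) (hX : (ad ℚ L e) ^ (r + 1) = 0) (z : L) :
    (ad ℚ L (((ad ℚ L e) ^ r) z)) ^ 2 * ad ℚ L e = 0 := by
  rw [(top_facts hr hX z).2, smul_mul_assoc, mul_assoc, mul_assoc, ← pow_succ, hX, mul_zero,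
    mul_zero, smul_zero]

theorem infinite_ne_zero : {y : ℚ | y ≠ 0}.Infinite :=
  Set.Finite.infinite_compl (Set.finite_singleton (0 : ℚ))

theorem degen {ι : Type*} {n : ℕ} {x : ι → L} (hs : EngSys n x) (i : ι) {ρ : ℕ}
    (hX : (ad ℚ L (x i)) ^ (ρ + 3 + 1) = 0) (z : L) (τ : ℚ) {h : (Module.End ℚ L)ˣ}
    (hh : h ∈ Exps x) (m : Module.End ℚ L)
    (hm : m = ad ℚ L (x i) -
      (τ * ((ρ + 2).factorial : ℚ)⁻¹) • ad ℚ L (((ad ℚ L (x i)) ^ (ρ + 3)) z)) :
    m ^ (ρ + 3 + 1) = 0 ∧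
    (dpair (h : Module.End ℚ L) ((h⁻¹ : (Module.End ℚ L)ˣ) : Module.End ℚ L)
      (IsNilpotent.exp m) (IsNilpotent.exp (-m)) (n + 1)).1 = IsNilpotent.exp (-m) := by
  obtain ⟨p, p0, p1, pe⟩ := Fam.pol x hs.nil hs.gen z
  set e := x i with he
  set X' := ad ℚ L e with hX'
  set Z := ad ℚ L z with hZ
  have hXe : X' e = 0 := by rw [hX', LieAlgebra.ad_apply, lie_self]
  have hZe : Z e = - X' z := by
    rw [hX', hZ, LieAlgebra.ad_apply, LieAlgebra.ad_apply, lie_skew]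
  have hpe : ∀ t : ℚ, ev t p =
      (∑ k ∈ Finset.range p.natDegree, t ^ (k + 2) • p.coeff (k + 2)) + t • Z + 1 := by
    intro t
    have h1 : ev t p = Polynomial.eval₂ (RingHom.id _) (algebraMap ℚ _ t) p := rfl
    rw [h1, Polynomial.eval₂_eq_sum_range' _ (n := p.natDegree + 2) (by omega)]
    rw [Finset.sum_range_succ', Finset.sum_range_succ', p0, p1]
    congr 1
    · congr 1
      · refine Finset.sum_congr rfl fun k _ => ?_
        rw [RingHom.id_apply, ← map_pow, Algebra.smul_def, Algebra.commutes]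
      · rw [RingHom.id_apply, zero_add, pow_one, Algebra.smul_def, Algebra.commutes]
  set G : Polynomial (Module.End ℚ L) := ∑ k ∈ Finset.range (ρ + 3),
    monomial (ρ + 2 - k) ((k.factorial : ℚ)⁻¹ • (X' ^ k * Z)) with hG
  set F : Polynomial (Module.End ℚ L) := ∑ k ∈ Finset.range (ρ + 3 + 1),
    monomial (ρ + 3 - k) ((k.factorial : ℚ)⁻¹ • X' ^ k) with hF
  set R : Polynomial (Module.End ℚ L) := ∑ k ∈ Finset.range p.natDegree,
    monomial (k * (ρ + 2)) (τ ^ (k + 2) • p.coeff (k + 2)) with hR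
  set Ξ : Polynomial (Module.End ℚ L) := 1 + C (algebraMap ℚ _ τ) * G +
    X ^ (ρ + 1) * F * R with hΞ
  have evF : ∀ y : ℚ, y ≠ 0 → ev y F = y ^ (ρ + 3) • IsNilpotent.exp (y⁻¹ • X') := by
    intro y hy
    rw [hF, map_sum, exp_smul_eq_sum hX, Finset.smul_sum]
    refine Finset.sum_congr rfl fun k hk => ?_
    rw [Finset.mem_range] at hk
    rw [ev_monomial, smul_smul (y ^ (ρ + 3)), inv_pow, ← pow_sub₀ y hy (by omega)]
  have evG : ∀ y : ℚ, y ≠ 0 →
      (ev y G) e = y ^ (ρ + 2) • (IsNilpotent.exp (y⁻¹ • X')) (Z e) := by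
    intro y hy
    rw [hG, map_sum, exp_smul_eq_sum hX, Finset.sum_range_succ _ (ρ + 3)]
    have hlast : (X' ^ (ρ + 3)) (Z e) = 0 := by
      rw [hZe, map_neg, ← Module.End.mul_apply, ← pow_succ, hX, LinearMap.zero_apply, neg_zero]
    rw [LinearMap.add_apply, LinearMap.smul_apply, LinearMap.smul_apply, hlast, smul_zero,
      smul_zero, add_zero, LinearMap.sum_apply, LinearMap.sum_apply, Finset.smul_sum]
    refine Finset.sum_congr rfl fun k hk => ?_
    rw [Finset.mem_range] at hk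
    rw [ev_monomial, LinearMap.smul_apply, LinearMap.smul_apply, LinearMap.smul_apply,
      LinearMap.smul_apply, smul_smul (y ^ (ρ + 2)), inv_pow, ← pow_sub₀ y hy (by omega),
      Module.End.mul_apply]
  have evR : ∀ y : ℚ, ev y R = ∑ k ∈ Finset.range p.natDegree,
      y ^ (k * (ρ + 2)) • (τ ^ (k + 2) • p.coeff (k + 2)) := by
    intro y
    rw [hR, map_sum]
    exact Finset.sum_congr rfl fun k _ => ev_monomial _ _ _
  have evΞ : ∀ y : ℚ, y ≠ 0 →
      (ev y Ξ) e = (IsNilpotent.exp (y⁻¹ • X')) ((ev (τ * y ^ (ρ + 2)) p) e) := by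
    intro y hy
    have hee : (IsNilpotent.exp (y⁻¹ • X')) e = e := by
      rw [exp_smul_eq_sum hX, Finset.sum_range_succ', LinearMap.add_apply, LinearMap.sum_apply,
        Finset.sum_eq_zero]
      · simp
      · intro k _
        rw [LinearMap.smul_apply, LinearMap.smul_apply, pow_succ X', Module.End.mul_apply, hXe,
          map_zero, smul_zero, smul_zero]
    have h1 : ∑ k ∈ Finset.range p.natDegree, (τ * y ^ (ρ + 2)) ^ (k + 2) • p.coeff (k + 2) =
        y ^ (2 * (ρ + 2)) • ev y R := by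
      rw [evR, Finset.smul_sum]
      refine Finset.sum_congr rfl fun k _ => ?_
      rw [smul_smul, smul_smul]
      congr 1
      rw [mul_pow, ← pow_mul, ← pow_add, mul_comm]
      congr 2
      ring
    have h2 : ev y Ξ = 1 + τ • ev y G + y ^ (ρ + 1) • (ev y F * ev y R) := by
      rw [hΞ, map_add, map_add, map_one, map_mul, ev_C, map_mul, map_mul, map_pow, ev_X,
        ← map_pow, mul_assoc, ← Algebra.smul_def, ← Algebra.smul_def]
    rw [hpe, h1, h2]
    simp only [LinearMap.add_apply, LinearMap.smul_apply, Module.End.one_apply,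
      Module.End.mul_apply, map_add, map_smul]
    rw [hee, evG y hy, evF y hy, LinearMap.smul_apply, smul_smul, smul_smul]
    have e1 : y ^ (ρ + 1) * y ^ (ρ + 3) = y ^ (2 * (ρ + 2)) := by
      rw [← pow_add]; congr 1; ring
    rw [e1]
    abel
  have evΞ0 : (ev 0 Ξ) e = e - (τ * ((ρ + 2).factorial : ℚ)⁻¹) • (X' ^ (ρ + 3)) z := by
    have hG0 : ev 0 G = ((ρ + 2).factorial : ℚ)⁻¹ • (X' ^ (ρ + 2) * Z) := by
      rw [hG, map_sum, Finset.sum_eq_single (ρ + 2)]
      · rw [ev_monomial, Nat.sub_self, pow_zero, one_smul]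
      · intro k hk hne
        rw [Finset.mem_range] at hk
        rw [ev_monomial, zero_pow (by omega), zero_smul]
      · intro hk
        exact absurd (Finset.mem_range.2 (by omega)) hk
    rw [hΞ, map_add, map_add, map_one, map_mul, ev_C, hG0, map_mul, map_mul, map_pow, ev_X,
      map_zero, zero_pow (by omega), zero_mul, zero_mul, add_zero, ← Algebra.smul_def, smul_smul,
      LinearMap.add_apply, Module.End.one_apply, LinearMap.smul_apply, Module.End.mul_apply, hZe,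
      map_neg, smul_neg, ← Module.End.mul_apply, ← pow_succ, sub_eq_add_neg]
  set M : Polynomial (Module.End ℚ L) :=
    mkP (Ξ.natDegree + 1) (fun k => ad ℚ L ((Ξ.coeff k) e)) with hM
  have evM : ∀ y : ℚ, ev y M = ad ℚ L ((ev y Ξ) e) := by
    intro y
    rw [hM, ev_mkP, ev_eq_sum, LinearMap.sum_apply, map_sum]
    refine Finset.sum_congr rfl fun k _ => ?_
    rw [LinearMap.smul_apply, map_smul]
  have evM0 : ev 0 M = m := by
    rw [evM, evΞ0, hm, map_sub, map_smul]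
  have evM1 : ∀ y : ℚ, y ≠ 0 → ∃ g ∈ Exps x, ev y M = ad ℚ L ((g : Module.End ℚ L) e) := by
    intro y hy
    obtain ⟨u, hu, hu'⟩ := Exps.exp_mem hs.nil i y⁻¹
    obtain ⟨v, hv, hv'⟩ := pe (τ * y ^ (ρ + 2))
    refine ⟨u * v, (Exps x).mul_mem hu hv, ?_⟩
    rw [evM, evΞ y hy, hv', ← hu', Units.val_mul, Module.End.mul_apply]
  have hMpow : M ^ (ρ + 3 + 1) = 0 := by
    refine eq_zero_of_ev _ infinite_ne_zero fun y hy => ?_
    obtain ⟨g, hg, hg'⟩ := evM1 y hy
    rw [map_pow, hg', Exps.ad_apply_pow hs.nil hg, hX, mul_zero, zero_mul]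
  have hMn : IsNilpotent M := ⟨_, hMpow⟩
  have hmain : (dpair (C (h : Module.End ℚ L)) (C ((h⁻¹ : (Module.End ℚ L)ˣ) : Module.End ℚ L))
      (IsNilpotent.exp M) (IsNilpotent.exp (-M)) (n + 1)).1 = IsNilpotent.exp (-M) := by
    refine eq_of_ev _ infinite_ne_zero fun y hy => ?_
    obtain ⟨g, hg, hg'⟩ := evM1 y hy
    have h1 := congrArg Prod.fst (dpair_map (ev y) (C (h : Module.End ℚ L))
      (C ((h⁻¹ : (Module.End ℚ L)ˣ) : Module.End ℚ L)) (IsNilpotent.exp M)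
      (IsNilpotent.exp (-M)) (n + 1))
    rw [ev_C, ev_C, IsNilpotent.map_exp hMn, IsNilpotent.map_exp hMn.neg, map_neg, hg'] at h1
    rw [IsNilpotent.map_exp hMn.neg, map_neg, hg']
    exact h1.trans (hs.conj i hg hh)
  constructor
  · rw [← evM0, ← map_pow, hMpow, map_zero]
  · have h1 := congrArg Prod.fst (dpair_map (ev 0) (C (h : Module.End ℚ L))
      (C ((h⁻¹ : (Module.End ℚ L)ˣ) : Module.End ℚ L)) (IsNilpotent.exp M)
      (IsNilpotent.exp (-M)) (n + 1))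
    rw [ev_C, ev_C, IsNilpotent.map_exp hMn, IsNilpotent.map_exp hMn.neg, map_neg, evM0] at h1
    rw [← h1]
    simp only
    rw [hmain, IsNilpotent.map_exp hMn.neg, map_neg, evM0]

theorem exp_mul_of_mul_eq_zero {A : Type*} [Ring A] [Algebra ℚ A] {a b : A}
    (ha : IsNilpotent a) (h : a * b = 0) : IsNilpotent.exp a * b = b := by
  obtain ⟨k, hk⟩ := ha
  have hk' : a ^ (k + 1) = 0 := by rw [pow_succ, hk, zero_mul]
  rw [IsNilpotent.exp_eq_sum hk', Finset.sum_range_succ', add_mul, Finset.sum_mul,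
    Finset.sum_eq_zero]
  · simp
  · intro j _
    rw [smul_mul_assoc, pow_succ, mul_assoc, h, mul_zero, smul_zero]

theorem mul_exp_of_mul_eq_zero {A : Type*} [Ring A] [Algebra ℚ A] {a b : A}
    (ha : IsNilpotent a) (h : b * a = 0) : b * IsNilpotent.exp a = b := by
  obtain ⟨k, hk⟩ := ha
  have hk' : a ^ (k + 1) = 0 := by rw [pow_succ, hk, zero_mul]
  rw [IsNilpotent.exp_eq_sum hk', Finset.sum_range_succ', mul_add, Finset.mul_sum,
    Finset.sum_eq_zero]
  · simp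
  · intro j _
    rw [mul_smul_comm, pow_succ', ← mul_assoc, h, zero_mul, smul_zero]

theorem descent_ge3 {ι : Type*} (x : ι → L) (n : ℕ)
    (hs : EngSys n x) (i : ι) (r : ℕ) (hr : 3 ≤ r) (hX : (ad ℚ L (x i)) ^ (r + 1) = 0) (z : L) :
    (ad ℚ L (((ad ℚ L (x i)) ^ r) z)) ^ 3 = 0 ∧
    ∃ K, ∀ h ∈ Exps x, alt ((ad ℚ L (((ad ℚ L (x i)) ^ r) z)) ^ 2) K h = 0 := by
  refine ⟨(top_facts (by omega) hX z).1, 2 * (2 ^ (n + 1) - 1), fun h hh => ?_⟩
  obtain ⟨ρ, rfl⟩ : ∃ ρ, r = ρ + 3 := ⟨r - 3, by omega⟩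
  have hW3 := (top_facts (by omega) hX z).1
  have hl := top_mul_left (by omega) hX z
  have hrt := top_mul_right (by omega) hX z
  have hcm := top_comm hX z
  have hdeg := fun (m : Module.End ℚ L) (τ : ℚ) (hm) => degen hs.succ i hX z τ hh m hm
  set X' := ad ℚ L (x i) with hX'
  set W := ad ℚ L ((X' ^ (ρ + 3)) z) with hW
  have hXn : IsNilpotent X' := ⟨_, hX⟩
  have hW3' : (-W) ^ 3 = 0 := by rw [neg_pow, hW3, mul_zero]
  set aP : Polynomial (Module.End ℚ L) := C (IsNilpotent.exp X') * expP 3 (-W) with haP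
  set bP : Polynomial (Module.End ℚ L) := expP 3 W * C (IsNilpotent.exp (-X')) with hbP
  have ha : ∀ t : ℚ, ev t aP = IsNilpotent.exp (X' - t • W) := by
    intro t
    rw [haP, map_mul, ev_C, ev_expP t hW3', sub_eq_add_neg, ← smul_neg]
    exact (IsNilpotent.exp_add_of_commute (hcm.neg_right.smul_right t) hXn
      (nilp_smul ⟨3, hW3'⟩ t)).symm
  have hb : ∀ t : ℚ, ev t bP = IsNilpotent.exp (-(X' - t • W)) := by
    intro t
    rw [hbP, map_mul, ev_C, ev_expP t hW3, neg_sub, sub_eq_add_neg]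
    exact (IsNilpotent.exp_add_of_commute ((hcm.symm.smul_left t).neg_right)
      (nilp_smul ⟨3, hW3⟩ t) hXn.neg).symm
  have hid : (dpair (C (h : Module.End ℚ L)) (C ((h⁻¹ : (Module.End ℚ L)ˣ) : Module.End ℚ L))
      aP bP (n + 1 + 1)).1 = bP := by
    refine eq_of_ev Set.univ Set.infinite_univ fun t _ => ?_
    have h1 := congrArg Prod.fst (dpair_map (ev t) (C (h : Module.End ℚ L))
      (C ((h⁻¹ : (Module.End ℚ L)ˣ) : Module.End ℚ L)) aP bP (n + 1 + 1))
    rw [ev_C, ev_C, ha, hb] at h1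
    rw [hb]
    refine h1.trans (hdeg _ (t * ((ρ + 2).factorial : ℚ)) ?_).2
    rw [mul_assoc, mul_inv_cancel₀ (by exact_mod_cast (ρ + 2).factorial_ne_zero), mul_one]
  have hC : ∀ a : Module.End ℚ L, (C a : Polynomial (Module.End ℚ L)).natDegree ≤ 0 :=
    fun a => by simp
  have dE : ∀ a : Module.End ℚ L, (expP 3 a).natDegree ≤ 2 := fun a => natDegree_mkP 2 _
  have cE : ∀ a : Module.End ℚ L, (expP 3 a).coeff 2 = (2 : ℚ)⁻¹ • a ^ 2 := fun a => by
    rw [coeff_expP, if_pos (by norm_num)]; norm_num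
  have da : aP.natDegree ≤ 2 :=
    Polynomial.natDegree_mul_le.trans (by have := hC (IsNilpotent.exp X'); have := dE (-W); omega)
  have db : bP.natDegree ≤ 2 :=
    Polynomial.natDegree_mul_le.trans
      (by have := hC (IsNilpotent.exp (-X')); have := dE W; omega)
  have ca : aP.coeff 2 = (2 : ℚ)⁻¹ • W ^ 2 := by
    rw [haP, coeff_C_mul, cE, neg_sq, mul_smul_comm, exp_mul_of_mul_eq_zero hXn hl]
  have cb : bP.coeff 2 = (2 : ℚ)⁻¹ • W ^ 2 := by
    rw [hbP, coeff_mul_C, cE, smul_mul_assoc, mul_exp_of_mul_eq_zero hXn.neg]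
    rw [mul_neg, hrt, neg_zero]
  have htop := (dpair_top (h : Module.End ℚ L) ((h⁻¹ : (Module.End ℚ L)ˣ) : Module.End ℚ L)
    ((2 : ℚ)⁻¹ • W ^ 2) aP bP da db ca cb (n + 1)).2.1
  rw [hid, topSeq_eq, Polynomial.coeff_eq_zero_of_natDegree_lt] at htop
  · rw [alt_smul] at htop
    have h2 : alt (W ^ 2) (2 * (2 ^ (n + 1) - 1)) h =
        (2 : ℚ) ^ (2 * (2 ^ (n + 1) - 1) + 1) • ((h : Module.End ℚ L) *
          (((h⁻¹ : (Module.End ℚ L)ˣ) : Module.End ℚ L) *
            ((2 : ℚ)⁻¹ ^ (2 * (2 ^ (n + 1) - 1) + 1) • alt (W ^ 2) (2 * (2 ^ (n + 1) - 1)) h) *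
              (h : Module.End ℚ L)) * ((h⁻¹ : (Module.End ℚ L)ˣ) : Module.End ℚ L)) := by
      rw [← mul_assoc, ← mul_assoc, Units.mul_inv, one_mul, mul_assoc, Units.mul_inv, mul_one,
        smul_smul, ← mul_pow, mul_inv_cancel₀ (by norm_num), one_pow, one_smul]
    rw [h2, ← htop, mul_zero, zero_mul, smul_zero]
  · have : 8 ≤ 2 ^ (n + 1 + 2) := by
      have h1 : 2 ^ (n + 1 + 2) = 2 ^ n * 8 := by ring
      have := Nat.one_le_two_pow (n := n)
      omega
    omega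

end lie

end Pool.Agent.Lib.MP_74ab55_al
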