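import Mathlib

/-!
# Common definitions for bounded left Engel elements
-/

set_option autoImplicit false

namespace Pool.Agent.Lib.MP_74ab55_al

section grp
variable {G : Type*} [Group G]

/-- The commutator `[y, g] = y⁻¹ g⁻¹ y g`. -/
def cm (g y : G) : G := y⁻¹ * g⁻¹ * y * g

/-- `g` is left `n`-Engel. -/
def Eng (n : ℕ) (g : G) : Prop := ∀ x : G, (cm g)^[n] x = 1

/-- Iterated conjugates: `D₀ = h`, `Dₖ₊₁ = Dₖ⁻¹ a⁻¹ Dₖ`. -/
def dseq (h a : G) : ℕ → G
  | 0 => h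
  | k + 1 => (dseq h a k)⁻¹ * a⁻¹ * dseq h a k

@[simp] theorem dseq_zero (h a : G) : dseq h a 0 = h := rfl

theorem dseq_succ (h a : G) (k : ℕ) :
    dseq h a (k + 1) = (dseq h a k)⁻¹ * a⁻¹ * dseq h a k := rfl

theorem cm_iterate_eq (h a : G) (n : ℕ) :
    (cm a)^[n + 1] h = (a⁻¹) ^ n * dseq h a (n + 1) * a ^ (n + 1) := by
  induction n with
  | zero => simp [cm, dseq]
  | succ n ih =>
    rw [Function.iterate_succ_apply', ih, cm, dseq_succ h a (n + 1)]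
    have e1 : a ^ (n + 1) = a ^ n * a := pow_succ a n
    have e2 : a ^ (n + 1 + 1) = a ^ (n + 1) * a := pow_succ a (n + 1)
    have e3 : (a⁻¹ : G) ^ (n + 1) = (a ^ (n + 1))⁻¹ := inv_pow a (n + 1)
    have e4 : (a⁻¹ : G) ^ n = (a ^ n)⁻¹ := inv_pow a n
    rw [e3, e4, e2]
    have c1 : a ^ n * a = a * a ^ n := by rw [← pow_succ, ← pow_succ']
    have c2 : (a ^ n) * a⁻¹ * (a ^ n)⁻¹ = a⁻¹ := by
      have : Commute (a ^ n) a⁻¹ := ((Commute.refl a).pow_left n).inv_right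
      rw [this.eq, mul_assoc, mul_inv_cancel, mul_one]
    have h1 : ((a ^ n)⁻¹ * dseq h a (n + 1) * a ^ (n + 1))⁻¹ * a⁻¹ *
        ((a ^ n)⁻¹ * dseq h a (n + 1) * a ^ (n + 1)) * a =
        (a ^ (n + 1))⁻¹ * ((dseq h a (n + 1))⁻¹ * (a ^ n * a⁻¹ * (a ^ n)⁻¹) * dseq h a (n + 1)) *
          (a ^ (n + 1) * a) := by group
    rw [h1, c2]

/-- For `n ≥ 1` the Engel condition says that the `n`-th iterated conjugate is `a⁻¹`. -/
theorem eng_succ_iff (n : ℕ) (a : G) : Eng (n + 1) a ↔ ∀ h, dseq h a (n + 1) = a⁻¹ := by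
  unfold Eng
  refine forall_congr' fun h => ?_
  rw [cm_iterate_eq]
  constructor
  · intro H
    have : dseq h a (n + 1) = ((a⁻¹) ^ n)⁻¹ * (a ^ (n + 1))⁻¹ := by
      have := congrArg (fun t => ((a⁻¹ : G) ^ n)⁻¹ * t * (a ^ (n + 1))⁻¹) H
      simpa [mul_assoc] using this
    rw [this, inv_pow, inv_inv, pow_succ', mul_inv_rev, ← mul_assoc, mul_inv_cancel, one_mul]
  · intro H
    rw [H, inv_pow, pow_succ]
    group

end grp

section lie
variable {L : Type*} [LieRing L] [LieAlgebra ℚ L]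

/-- The group generated by all `exp (s • ad (x i))`, `s : ℚ`. -/
def Exps {ι : Type*} (x : ι → L) : Subgroup (Module.End ℚ L)ˣ :=
  Subgroup.closure {u | ∃ (i : ι) (s : ℚ),
    (u : Module.End ℚ L) = IsNilpotent.exp (s • LieAlgebra.ad ℚ L (x i))}

/-- `x` is a generating family of ad-nilpotent elements, and every `exp (ad (x i))` satisfies the
`(n+1)`-Engel condition in the group `Exps x`. -/
structure EngSys {ι : Type*} (n : ℕ) (x : ι → L) : Prop where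
  nil : ∀ i, IsNilpotent (LieAlgebra.ad ℚ L (x i))
  gen : LieSubalgebra.lieSpan ℚ L (Set.range x) = ⊤
  eng : ∀ (i : ι) (a : (Module.End ℚ L)ˣ),
    (a : Module.End ℚ L) = IsNilpotent.exp (LieAlgebra.ad ℚ L (x i)) →
    ∀ h ∈ Exps x, dseq h a (n + 1) = a⁻¹

end lie

/-- Alternating products `P h P h⁻¹ P ⋯ P` with `k + 1` factors `P`. -/
def alt {A : Type*} [Ring A] (P : A) : ℕ → Aˣ → A
  | 0, _ => P
  | k + 1, h => P * (h : A) * alt P k h⁻¹

end Pool.Agent.Lib.MP_74ab55_al
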