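import Mathlib
import Pool.Agent.Lib.MP_74ab55_al.Defs

set_option autoImplicit false

namespace Pool.Agent.Lib.MP_74ab55_al

namespace Jordan

universe v

/-! ### ring identities -/

section ring

variable {R : Type*} [Ring R]

/-- relation (I1) -/
lemma I1 [Algebra ℚ R] (W Y : R) (h3 : W * (W * W) = 0)
    (h : W * (W * (W * Y - Y * W) - (W * Y - Y * W) * W) -
      (W * (W * Y - Y * W) - (W * Y - Y * W) * W) * W = 0) :
    W * (W * (Y * W)) = W * (Y * (W * W)) := by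
  have e : W * (W * (W * Y - Y * W) - (W * Y - Y * W) * W) -
      (W * (W * Y - Y * W) - (W * Y - Y * W) * W) * W =
      (W * (W * W)) * Y - Y * (W * (W * W)) - (3 : ℚ) • (W * (W * (Y * W)) - W * (Y * (W * W))) := by
    have : ∀ x : R, (3 : ℚ) • x = x + x + x := by
      intro x
      rw [show (3 : ℚ) = 1 + 1 + 1 by norm_num, add_smul, add_smul, one_smul]
    rw [this]
    noncomm_ring
  rw [e, h3, zero_mul, mul_zero, sub_zero, zero_sub, neg_eq_zero] at h
  exact sub_eq_zero.1 ((smul_eq_zero_iff_right (by norm_num)).1 h)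

variable {W : R} (h3 : W * (W * W) = 0)

include h3 in
lemma h3' (x : R) : W * (W * (W * x)) = 0 := by
  have := congrArg (· * x) h3
  simpa [mul_assoc] using this

/-- elements satisfying (I1) -/
def Good (W Y : R) : Prop := W * (W * (Y * W)) = W * (Y * (W * W))

lemma Good.ap {Y : R} (h : Good W Y) (x : R) : W * (W * (Y * (W * x))) = W * (Y * (W * (W * x))) := by
  have := congrArg (· * x) h
  simpa [mul_assoc] using this

include h3 in
/-- relation (I2) -/
lemma I2 {Y Z : R} (hY : Good W Y) (hZ : Good W Z) :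
    (W * (W * Y - Y * W) - (W * Y - Y * W) * W) * (W * (W * Z - Z * W) - (W * Z - Z * W) * W) =
      W * (W * (Y * (Z * (W * W)))) := by
  have a1 := h3' h3
  have a2 := hY.ap
  have a3 := hZ.ap
  have a4 : W * (W * (Z * W)) = W * (Z * (W * W)) := hZ
  simp only [mul_sub, sub_mul, mul_assoc, a1, a2, a3, a4, h3, mul_zero]
  abel

include h3 in
/-- symmetry -/
lemma symm_ring {A C : R} (h : Good W (A * C - C * A)) :
    W * (W * (A * (C * (W * W)))) = W * (W * (C * (A * (W * W)))) := by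
  have e := h.ap W
  have e2 : W * (W * ((A * C - C * A) * (W * W))) = 0 := by
    rw [e]
    rw [h3, mul_zero, mul_zero]
  simp only [sub_mul, mul_sub, mul_assoc] at e2
  exact sub_eq_zero.1 e2

include h3 in
lemma JC_ring {A B : R} :
    W * ((B * (W * A - A * W) - (W * A - A * W) * B) * (W * W)) =
      W * (A * (W * (B * (W * W)))) + W * (B * (W * (A * (W * W)))) -
        W * (W * (A * (B * (W * W)))) := by
  simp only [mul_sub, sub_mul, mul_assoc, h3, mul_zero]
  abel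

include h3 in
lemma JB_ring {A B C : R} (hA : Good W A) (hB : Good W B) (hC : Good W C)
    (hAB : Good W (A * B - B * A)) :
    W * (W * ((B * (W * A - A * W) - (W * A - A * W) * B) * (C * (W * W)))) =
      W * (A * (W * (W * (B * (C * (W * W)))))) + W * (B * (W * (W * (A * (C * (W * W)))))) -
        W * (W * (A * (B * (W * (C * (W * W)))))) := by
  have a1 := h3' h3
  have a2 := hA.ap
  have a3 := hB.ap
  have a4 := hC.ap
  have e : W * (W * ((A * B - B * A) * (W * (C * (W * W))))) = 0 := by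
    rw [hAB.ap]
    have := hC.ap W
    rw [this, h3, mul_zero, mul_zero, mul_zero, mul_zero]
  simp only [sub_mul, mul_sub, mul_assoc] at e
  have e' := sub_eq_zero.1 e
  simp only [mul_sub, sub_mul, mul_assoc, a1, a2, a3, e']
  abel

include h3 in
lemma JB'_ring {V : R} (hV : Good W V)
    (hD : Good W ((V * (W * V - V * W) - (W * V - V * W) * V) * V -
      V * (V * (W * V - V * W) - (W * V - V * W) * V))) :
    W * (W * ((V * (W * V - V * W) - (W * V - V * W) * V) * (V * (W * W)))) =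
      W * (W * (V * (V * (W * (V * (W * W)))))) + W * (W * (V * (V * (W * (V * (W * W)))))) -
        W * (V * (W * (W * (V * (V * (W * W)))))) := by
  have a2 := hV.ap
  have e := symm_ring h3 hD
  rw [e]
  simp only [mul_sub, sub_mul, mul_assoc, a2, h3, mul_zero]
  abel

end ring

/-! ### algebra of the sequences -/

section algebra

/-- `l₀ = 1`, `l₁ = l`, `l_{n+2} = 2 l l_{n+1} - u l_n` -/
def qs {R : Type*} [Ring R] (l u : R) : ℕ → R
  | 0 => 1
  | 1 => l
  | n + 2 => 2 * l * qs l u (n + 1) - u * qs l u n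

lemma qs_map {R S : Type*} [Ring R] [Ring S] (f : R →+* S) (l u : R) (n : ℕ) :
    f (qs l u n) = qs (f l) (f u) n := by
  induction n using Nat.strong_induction_on with
  | _ n ih =>
    match n with
    | 0 => simp [qs]
    | 1 => simp [qs]
    | n + 2 =>
      simp only [qs, map_sub, map_mul, map_ofNat]
      rw [ih (n + 1) (by omega), ih n (by omega)]

section comm
variable {C : Type*} [CommRing C] (l u : C)

lemma qs_add (b : ℕ) : ∀ a : ℕ, qs l u (a + b + b) + u ^ b * qs l u a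
    = 2 * qs l u (a + b) * qs l u b := by
  induction b using Nat.strong_induction_on with
  | _ b ih =>
    match b with
    | 0 => intro a; simp [qs]; ring
    | 1 =>
      intro a
      have : qs l u (a + 1 + 1) = 2 * l * qs l u (a + 1) - u * qs l u a := rfl
      rw [this]
      simp only [qs]
      ring
    | b + 2 =>
      intro a
      have h1 := ih (b + 1) (by omega) (a + 1)
      have h2 := ih b (by omega) (a + 2)
      have e1 : qs l u (b + 2) = 2 * l * qs l u (b + 1) - u * qs l u b := rfl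
      have e2 : qs l u (a + (b + 2) + (b + 2)) =
          2 * l * qs l u (a + b + b + 3) - u * qs l u (a + b + b + 2) := by
        rw [show a + (b + 2) + (b + 2) = (a + b + b + 2) + 2 by ring]
        rfl
      have e3 : qs l u (a + 2) = 2 * l * qs l u (a + 1) - u * qs l u a := rfl
      rw [show a + 1 + (b + 1) + (b + 1) = a + b + b + 3 by ring,
        show a + 1 + (b + 1) = a + (b + 2) by ring] at h1
      rw [show a + 2 + b + b = a + b + b + 2 by ring, show a + 2 + b = a + (b + 2) by ring,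
        e3] at h2
      rw [e2, e1, pow_add, pow_succ] at *
      linear_combination 2 * l * h1 - u * h2

lemma qs_two_mul (n : ℕ) : qs l u (2 * n) + u ^ n = 2 * qs l u n * qs l u n := by
  have := qs_add l u n 0
  simpa [qs, two_mul] using this

/-- partial sums -/
def gs (l u : C) : ℕ → C
  | 0 => 1
  | n + 1 => l * gs l u n + qs l u (n + 1)

lemma gs_eq_sum (n : ℕ) : gs l u n = ∑ j ∈ Finset.range (n + 1), l ^ (n - j) * qs l u j := by
  induction n with
  | zero => simp [gs, qs]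
  | succ n ih =>
    rw [Finset.sum_range_succ, gs, ih, Finset.mul_sum, Nat.sub_self, pow_zero, one_mul]
    congr 1
    apply Finset.sum_congr rfl
    intro j hj
    have hj' : j ≤ n := by
      have := Finset.mem_range.1 hj
      omega
    rw [← mul_assoc, ← pow_succ', Nat.succ_sub hj']

lemma qs_gs (n : ℕ) : qs l u (n + 2) = l * gs l u (n + 1) - u * gs l u n := by
  induction n with
  | zero => simp [qs, gs]; ring
  | succ n ih =>
    have e : qs l u (n + 1 + 2) = 2 * l * qs l u (n + 2) - u * qs l u (n + 1) := rfl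
    have e1 : gs l u (n + 1 + 1) = l * gs l u (n + 1) + qs l u (n + 2) := rfl
    have e2 : gs l u (n + 1) = l * gs l u n + qs l u (n + 1) := rfl
    rw [e, e1]
    linear_combination l * ih + u * e2

lemma gs_rec (n : ℕ) : gs l u (n + 2) = 2 * l * gs l u (n + 1) - u * gs l u n := by
  have e1 : gs l u (n + 2) = l * gs l u (n + 1) + qs l u (n + 2) := rfl
  rw [e1, qs_gs]
  ring

lemma cassini (n : ℕ) : gs l u (n + 1) ^ 2 - gs l u (n + 2) * gs l u n = u ^ (n + 1) := by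
  induction n with
  | zero =>
    rw [gs_rec]
    simp [gs, qs]
    ring
  | succ n ih =>
    have e3 := gs_rec l u (n + 1)
    have e2 := gs_rec l u n
    linear_combination u * ih - gs l u (n + 1) * e3 + gs l u (n + 2) * e2

lemma core_zero (k : ℕ) (h1 : qs l u (k + 2) = 0)
    (h2 : ∑ j ∈ Finset.range (k + 2), l ^ (k + 1 - j) * qs l u j = 0) : u ^ (k + 1) = 0 := by
  have h3 : gs l u (k + 1) = 0 := by rw [gs_eq_sum]; exact h2
  have h4 : gs l u (k + 2) = 0 := by
    have e1 : gs l u (k + 2) = l * gs l u (k + 1) + qs l u (k + 2) := rfl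
    rw [e1, h3, h1]; ring
  rw [← cassini, h3, h4]
  ring

end comm

section noncomm
variable {R : Type v} [Ring R] {l u : R} (hc : l * u = u * l)

include hc in
lemma exists_comm : ∃ (C : Type v) (_ : CommRing C) (f : C →+* R) (l' u' : C),
    Function.Injective f ∧ f l' = l ∧ f u' = u := by
  have hs : ∀ a ∈ ({l, u} : Set R), ∀ b ∈ ({l, u} : Set R), a * b = b * a := by
    rintro a (rfl | rfl) b (rfl | rfl)
    · rfl
    · exact hc
    · exact hc.symm
    · rfl
  refine ⟨Subring.closure ({l, u} : Set R), Subring.closureCommRingOfComm hs,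
    (Subring.closure ({l, u} : Set R)).subtype, ⟨l, Subring.subset_closure (by simp)⟩,
    ⟨u, Subring.subset_closure (by simp)⟩, Subtype.val_injective, rfl, rfl⟩

include hc in
lemma nc_two_mul (n : ℕ) : qs l u (2 * n) + u ^ n = 2 * qs l u n * qs l u n := by
  obtain ⟨C, _, f, l', u', -, rfl, rfl⟩ := exists_comm hc
  rw [← qs_map, ← qs_map, ← map_pow, ← map_add, qs_two_mul, map_mul, map_mul, map_ofNat]

include hc in
lemma nc_core (k : ℕ) (h1 : qs l u (k + 2) = 0)
    (h2 : ∑ j ∈ Finset.range (k + 2), l ^ (k + 1 - j) * qs l u j = 0) : u ^ (k + 1) = 0 := by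
  obtain ⟨C, _, f, l', u', hf, rfl, rfl⟩ := exists_comm hc
  rw [← map_pow]
  rw [core_zero l' u' k, map_zero]
  · apply hf
    rw [qs_map, h1, map_zero]
  · apply hf
    rw [map_zero, map_sum, ← h2]
    apply Finset.sum_congr rfl
    intro j _
    rw [map_mul, map_pow, qs_map]

include hc in
lemma nc_comm (n : ℕ) : l * qs l u n = qs l u n * l ∧ u * qs l u n = qs l u n * u := by
  obtain ⟨C, _, f, l', u', hf, rfl, rfl⟩ := exists_comm hc
  rw [← qs_map, ← map_mul, ← map_mul, ← map_mul, ← map_mul]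
  exact ⟨by rw [mul_comm], by rw [mul_comm]⟩

end noncomm

end algebra

/-! ### linearisation -/

section lin

variable {V : Type*} [AddCommGroup V] [Module ℚ V]

/-- polynomial functions -/
def Pl (R : ℚ → V) : Prop := ∃ (K : ℕ) (c : ℕ → V), ∀ t, R t = ∑ k ∈ Finset.range K, t ^ k • c k

lemma Pl.const (a : V) : Pl (fun _ => a) := ⟨1, fun _ => a, fun t => by simp⟩

lemma Pl.add {R S : ℚ → V} (hR : Pl R) (hS : Pl S) : Pl (fun t => R t + S t) := by
  obtain ⟨K, c, hc⟩ := hR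
  obtain ⟨K', c', hc'⟩ := hS
  refine ⟨K + K', fun k => (if k < K then c k else 0) + (if k < K' then c' k else 0), fun t => ?_⟩
  change R t + S t = _
  rw [hc, hc']
  simp only [smul_add, smul_ite, smul_zero, Finset.sum_add_distrib]
  congr 1
  · rw [← Finset.sum_filter]
    apply Finset.sum_congr _ (fun _ _ => rfl)
    ext k
    simp only [Finset.mem_range, Finset.mem_filter]
    omega
  · rw [← Finset.sum_filter]
    apply Finset.sum_congr _ (fun _ _ => rfl)
    ext k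
    simp only [Finset.mem_range, Finset.mem_filter]
    omega

lemma Pl.map {R : ℚ → V} (hR : Pl R) (T : Module.End ℚ V) : Pl (fun t => T (R t)) := by
  obtain ⟨K, c, hc⟩ := hR
  refine ⟨K, fun k => T (c k), fun t => ?_⟩
  simp only [hc, map_sum, map_smul]

lemma Pl.tsmul {R : ℚ → V} (hR : Pl R) : Pl (fun t => t • R t) := by
  obtain ⟨K, c, hc⟩ := hR
  refine ⟨K + 1, fun k => if k = 0 then 0 else c (k - 1), fun t => ?_⟩
  rw [Finset.sum_range_succ']
  simp [hc, Finset.smul_sum, smul_smul, pow_succ']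

lemma Pl.zero_coeff {R : ℚ → V} (hR : Pl R) {d : V} (h : ∀ t : ℚ, t ≠ 0 → d + t • R t = 0) :
    d = 0 := by
  obtain ⟨K, c, hc⟩ := hR
  rw [← Module.forall_dual_apply_eq_zero_iff ℚ]
  intro φ
  let p : Polynomial ℚ := Polynomial.C (φ d) + Polynomial.X *
    ∑ k ∈ Finset.range K, Polynomial.C (φ (c k)) * Polynomial.X ^ k
  have hp : p = 0 := by
    apply Polynomial.eq_zero_of_infinite_isRoot
    refine Set.Infinite.mono ?_ ((Set.finite_singleton (0 : ℚ)).infinite_compl)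
    intro t ht
    have ht' : t ≠ 0 := ht
    have h1 := congrArg φ (h t ht')
    rw [hc, map_add, map_smul, map_sum, map_zero] at h1
    simp only [map_smul, smul_eq_mul] at h1
    change Polynomial.eval t p = 0
    simp only [p, Polynomial.eval_add, Polynomial.eval_C, Polynomial.eval_mul, Polynomial.eval_X,
      Polynomial.eval_finsetSum, Polynomial.eval_pow]
    rw [← h1]
    congr 2
    apply Finset.sum_congr rfl
    intro k _
    ring
  have h2 := congrArg (fun q => Polynomial.coeff q 0) hp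
  simpa [p] using h2

/-- the coefficient of `t` in `(A + tC)^n (x + t z)` -/
def dcoef (A C : Module.End ℚ V) (x z : V) (n : ℕ) : V :=
  (∑ j ∈ Finset.range n, (A ^ j) (C ((A ^ (n - 1 - j)) x))) + (A ^ n) z

lemma dcoef_succ (A C : Module.End ℚ V) (x z : V) (n : ℕ) :
    dcoef A C x z (n + 1) = A (dcoef A C x z n) + C ((A ^ n) x) := by
  unfold dcoef
  rw [Finset.sum_range_succ', map_add, map_sum]
  simp only [pow_zero, Module.End.one_apply, Nat.sub_zero, Nat.add_sub_cancel]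
  have h1 : (A ^ (n + 1)) z = A ((A ^ n) z) := by rw [pow_succ', Module.End.mul_apply]
  have h2 : ∑ j ∈ Finset.range n, (A ^ (j + 1)) (C ((A ^ (n - (j + 1))) x)) =
      ∑ j ∈ Finset.range n, A ((A ^ j) (C ((A ^ (n - 1 - j)) x))) := by
    apply Finset.sum_congr rfl
    intro j _
    rw [pow_succ', Module.End.mul_apply, show n - (j + 1) = n - 1 - j by omega]
  rw [h1, h2]
  abel

lemma exp_t (A C : Module.End ℚ V) (x z : V) (n : ℕ) : ∃ R : ℚ → V, Pl R ∧
    ∀ t : ℚ, ((A + t • C) ^ n) (x + t • z) = (A ^ n) x + t • dcoef A C x z n + (t * t) • R t := by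
  induction n with
  | zero =>
    refine ⟨fun _ => 0, Pl.const 0, fun t => ?_⟩
    simp [dcoef]
  | succ n ih =>
    obtain ⟨R, hR, h⟩ := ih
    refine ⟨fun t => C (dcoef A C x z n) + A (R t) + t • C (R t),
      ((Pl.const _).add (hR.map A)).add (hR.map C).tsmul, fun t => ?_⟩
    rw [pow_succ', Module.End.mul_apply, h, dcoef_succ, pow_succ', Module.End.mul_apply]
    simp only [LinearMap.add_apply, LinearMap.smul_apply, map_add, map_smul]
    module

lemma lin_coeff (A C : Module.End ℚ V) (x z : V) (n : ℕ)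
    (h : ∀ t : ℚ, ((A + t • C) ^ n) (x + t • z) = 0) : dcoef A C x z n = 0 := by
  obtain ⟨R, hR, hex⟩ := exp_t A C x z n
  have h0 : (A ^ n) x = 0 := by
    have := h 0
    simpa using this
  apply hR.zero_coeff
  intro t ht
  have h1 := hex t
  rw [h t, h0, zero_add, mul_smul, ← smul_add] at h1
  exact ((smul_eq_zero_iff_right ht).1 h1.symm)

end lin

/-! ### operators on the range of `W²` -/

section op

open LieAlgebra

variable {L : Type*} [LieRing L] [LieAlgebra ℚ L]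

lemma had (x y : L) : ad ℚ L ⁅x, y⁆ = ad ℚ L x * ad ℚ L y - ad ℚ L y * ad ℚ L x := by
  apply LinearMap.ext
  intro z
  change ⁅⁅x, y⁆, z⁆ = ⁅x, ⁅y, z⁆⁆ - ⁅y, ⁅x, z⁆⁆
  rw [lie_lie]

lemma hw3 {w : L} (hw : (ad ℚ L w) ^ 3 = 0) : ad ℚ L w * (ad ℚ L w * ad ℚ L w) = 0 := by
  rw [← hw, pow_succ', sq]

lemma good_ad {w : L} (hw : (ad ℚ L w) ^ 3 = 0) (y : L) : Good (ad ℚ L w) (ad ℚ L y) := by
  refine I1 _ _ (hw3 hw) ?_
  rw [← had, ← had, ← had]
  have : ⁅w, ⁅w, ⁅w, y⁆⁆⁆ = ((ad ℚ L w) ^ 3) y := rfl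
  rw [this, hw, LinearMap.zero_apply, map_zero]

/-- the range of `W²` -/
abbrev BB (w : L) : Submodule ℚ L := LinearMap.range (ad ℚ L w * ad ℚ L w)

/-- the map `y ↦ W² y` -/
def em (w : L) : L →ₗ[ℚ] BB w := (ad ℚ L w * ad ℚ L w).rangeRestrict

lemma em_coe (w y : L) : (em w y : L) = ⁅w, ⁅w, y⁆⁆ := rfl

lemma ext_em {w : L} {T S : Module.End ℚ (BB w)} (h : ∀ y, T (em w y) = S (em w y)) : T = S := by
  apply LinearMap.ext
  rintro ⟨_, y, rfl⟩
  exact h y

/-- `L_a = ½ W A` -/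
def Lop {w : L} (hw : (ad ℚ L w) ^ 3 = 0) (a : L) : Module.End ℚ (BB w) :=
  LinearMap.restrict ((1 / 2 : ℚ) • (ad ℚ L w * ad ℚ L a)) (by
    rintro _ ⟨y, rfl⟩
    refine ⟨(1 / 2 : ℚ) • (ad ℚ L a) ((ad ℚ L w) y), ?_⟩
    have h := congrArg (fun T => T y) (good_ad hw a)
    simp only [Module.End.mul_apply] at h
    simp only [map_smul, Module.End.mul_apply, LinearMap.smul_apply]
    rw [h])

/-- `U_{a,c} = ¼ W² A C` -/
def Uop (w a c : L) : Module.End ℚ (BB w) :=
  (em w) ∘ₗ ((1 / 4 : ℚ) • (ad ℚ L a * ad ℚ L c)) ∘ₗ (BB w).subtype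

variable {w : L} (hw : (ad ℚ L w) ^ 3 = 0)

lemma Lop_coe (a : L) (b : BB w) : (Lop hw a b : L) = (1 / 2 : ℚ) • ⁅w, ⁅a, (b : L)⁆⁆ := rfl

lemma Uop_coe (a c : L) (b : BB w) :
    (Uop w a c b : L) = (1 / 4 : ℚ) • ⁅w, ⁅w, ⁅a, ⁅c, (b : L)⁆⁆⁆⁆ := by
  have : (Uop w a c b : L) = ⁅w, ⁅w, (1 / 4 : ℚ) • ⁅a, ⁅c, (b : L)⁆⁆⁆⁆ := rfl
  rw [this, lie_smul, lie_smul]

lemma Lop_add_smul (v y : L) (t : ℚ) : Lop hw (v + t • y) = Lop hw v + t • Lop hw y := by
  apply LinearMap.ext
  intro b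
  apply Subtype.ext
  simp only [Lop_coe, LinearMap.add_apply, LinearMap.smul_apply, Submodule.coe_add,
    Submodule.coe_smul, add_lie, smul_lie, lie_add, lie_smul]
  module

/-- (Comm) -/
lemma Lop_comm (a y : L) : Lop hw a (em w y) = Lop hw y (em w a) := by
  apply Subtype.ext
  rw [Lop_coe, Lop_coe, em_coe, em_coe]
  congr 1
  have hz : ∀ z : L, ⁅w, ⁅w, ⁅w, z⁆⁆⁆ = 0 := by
    intro z
    have : ⁅w, ⁅w, ⁅w, z⁆⁆⁆ = ((ad ℚ L w) ^ 3) z := rfl
    rw [this, hw, LinearMap.zero_apply]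
  have h1 : ⁅w, ⁅a, ⁅w, ⁅w, y⁆⁆⁆⁆ = ⁅⁅w, a⁆, ⁅w, ⁅w, y⁆⁆⁆ := by
    rw [leibniz_lie, hz, lie_zero, add_zero]
  have h2 : ⁅w, ⁅y, ⁅w, ⁅w, a⁆⁆⁆⁆ = ⁅⁅w, y⁆, ⁅w, ⁅w, a⁆⁆⁆ := by
    rw [leibniz_lie, hz, lie_zero, add_zero]
  have h3 := hz ⁅a, y⁆
  have e1 : ⁅w, ⁅a, y⁆⁆ = ⁅⁅w, a⁆, y⁆ + ⁅a, ⁅w, y⁆⁆ := leibniz_lie _ _ _
  have e2 : ⁅w, ⁅⁅w, a⁆, y⁆⁆ = ⁅⁅w, ⁅w, a⁆⁆, y⁆ + ⁅⁅w, a⁆, ⁅w, y⁆⁆ := leibniz_lie _ _ _
  have e3 : ⁅w, ⁅a, ⁅w, y⁆⁆⁆ = ⁅⁅w, a⁆, ⁅w, y⁆⁆ + ⁅a, ⁅w, ⁅w, y⁆⁆⁆ := leibniz_lie _ _ _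
  have e4 : ⁅w, ⁅⁅w, ⁅w, a⁆⁆, y⁆⁆ = ⁅⁅w, ⁅w, a⁆⁆, ⁅w, y⁆⁆ := by
    rw [leibniz_lie, hz, zero_lie, zero_add]
  have e5 : ⁅w, ⁅⁅w, a⁆, ⁅w, y⁆⁆⁆ = ⁅⁅w, ⁅w, a⁆⁆, ⁅w, y⁆⁆ + ⁅⁅w, a⁆, ⁅w, ⁅w, y⁆⁆⁆ := leibniz_lie _ _ _
  have e6 : ⁅w, ⁅a, ⁅w, ⁅w, y⁆⁆⁆⁆ = ⁅⁅w, a⁆, ⁅w, ⁅w, y⁆⁆⁆ := h1
  rw [e1, lie_add, e2, e3, lie_add, lie_add, lie_add, e4, e5, e6] at h3
  rw [h1, h2, ← lie_skew ⁅w, y⁆]
  have h4 : (3 : ℚ) • (⁅⁅w, a⁆, ⁅w, ⁅w, y⁆⁆⁆ + ⁅⁅w, ⁅w, a⁆⁆, ⁅w, y⁆⁆) = 0 := by
    rw [← h3]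
    module
  have h5 := (smul_eq_zero_iff_right (by norm_num : (3 : ℚ) ≠ 0)).1 h4
  exact eq_neg_of_add_eq_zero_left h5

/-- `a ∘ b = ½ [b, [w, a]]` -/
def jo (w a b : L) : L := (1 / 2 : ℚ) • ⁅b, ⁅w, a⁆⁆

lemma em_jo (a b : L) : em w (jo w a b) = Lop hw b (em w a) := by
  apply Subtype.ext
  rw [Lop_coe, em_coe, em_coe, jo, lie_smul, lie_smul]
  congr 1
  have h := congrArg (fun T => T a) (good_ad hw b)
  exact h

lemma Lop_congr {a a' : L} (h : em w a = em w a') : Lop hw a = Lop hw a' := by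
  apply ext_em
  intro y
  rw [Lop_comm, h, Lop_comm]

lemma ad_jo (a b : L) : ad ℚ L (jo w a b) = (1 / 2 : ℚ) •
    (ad ℚ L b * (ad ℚ L w * ad ℚ L a - ad ℚ L a * ad ℚ L w) -
      (ad ℚ L w * ad ℚ L a - ad ℚ L a * ad ℚ L w) * ad ℚ L b) := by
  rw [jo, map_smul, had, had]

lemma Uop_symm (hw : (ad ℚ L w) ^ 3 = 0) (a c : L) : Uop w a c = Uop w c a := by
  apply ext_em
  intro y
  apply Subtype.ext
  rw [Uop_coe, Uop_coe]
  congr 1
  have h1 : Good (ad ℚ L w) (ad ℚ L a * ad ℚ L c - ad ℚ L c * ad ℚ L a) := by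
    rw [← had]
    exact good_ad hw _
  exact congrArg (fun T => T y) (symm_ring (hw3 hw) h1)

/-- (JC) -/
lemma JC (a b : L) : Lop hw (jo w a b) = Lop hw a * Lop hw b + Lop hw b * Lop hw a - Uop w a b := by
  apply ext_em
  intro y
  apply Subtype.ext
  have key := congrArg (fun T => T y) (JC_ring (hw3 hw) (A := ad ℚ L a) (B := ad ℚ L b))
  have e1 : (Lop hw (jo w a b) (em w y) : L) = (1 / 2 : ℚ) •
      (ad ℚ L w * (ad ℚ L (jo w a b) * (ad ℚ L w * ad ℚ L w))) y := rfl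
  rw [e1, ad_jo, smul_mul_assoc, mul_smul_comm, LinearMap.smul_apply]
  change _ = (((Lop hw a (Lop hw b (em w y))) : L) + (Lop hw b (Lop hw a (em w y)) : L)) -
    (Uop w a b (em w y) : L)
  rw [Lop_coe, Lop_coe, Lop_coe, Lop_coe, Uop_coe]
  simp only [lie_smul]
  rw [key]
  simp only [LinearMap.add_apply, LinearMap.sub_apply, Module.End.mul_apply, ad_apply, em_coe]
  module

/-- (JB) -/
lemma JB (a b c : L) : Uop w (jo w a b) c =
    Lop hw a * Uop w b c + Lop hw b * Uop w a c - Uop w a b * Lop hw c := by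
  apply ext_em
  intro y
  apply Subtype.ext
  have hg := good_ad hw ⁅a, b⁆
  rw [had] at hg
  have key := congrArg (fun T => T y) (JB_ring (hw3 hw) (good_ad hw a) (good_ad hw b)
    (good_ad hw c) hg)
  have e1 : (Uop w (jo w a b) c (em w y) : L) = (1 / 4 : ℚ) •
      (ad ℚ L w * (ad ℚ L w * (ad ℚ L (jo w a b) * (ad ℚ L c * (ad ℚ L w * ad ℚ L w))))) y := by
    rw [Uop_coe]
    rfl
  rw [e1, ad_jo, smul_mul_assoc, mul_smul_comm, mul_smul_comm, LinearMap.smul_apply]
  change _ = (((Lop hw a (Uop w b c (em w y))) : L) + (Lop hw b (Uop w a c (em w y)) : L)) -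
    (Uop w a b (Lop hw c (em w y)) : L)
  rw [Lop_coe, Lop_coe, Uop_coe, Uop_coe, Uop_coe, Lop_coe]
  simp only [lie_smul]
  rw [key]
  simp only [LinearMap.add_apply, LinearMap.sub_apply, Module.End.mul_apply, ad_apply, em_coe]
  module

/-- (JB') for equal arguments -/
lemma JB' (v : L) : Uop w (jo w v v) v =
    Uop w v v * Lop hw v + Uop w v v * Lop hw v - Lop hw v * Uop w v v := by
  apply ext_em
  intro y
  apply Subtype.ext
  have hg := good_ad hw ⁅(2 : ℚ) • jo w v v, v⁆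
  rw [had, map_smul, ad_jo, smul_smul, show (2 : ℚ) * (1 / 2) = 1 by norm_num, one_smul] at hg
  have key := congrArg (fun T => T y) (JB'_ring (hw3 hw) (good_ad hw v) hg)
  have e1 : (Uop w (jo w v v) v (em w y) : L) = (1 / 4 : ℚ) •
      (ad ℚ L w * (ad ℚ L w * (ad ℚ L (jo w v v) * (ad ℚ L v * (ad ℚ L w * ad ℚ L w))))) y := by
    rw [Uop_coe]
    rfl
  rw [e1, ad_jo, smul_mul_assoc, mul_smul_comm, mul_smul_comm, LinearMap.smul_apply]
  change _ = (((Uop w v v (Lop hw v (em w y))) : L) + (Uop w v v (Lop hw v (em w y)) : L)) -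
    (Lop hw v (Uop w v v (em w y)) : L)
  simp only [Lop_coe, Uop_coe, lie_smul]
  rw [key]
  simp only [LinearMap.add_apply, LinearMap.sub_apply, Module.End.mul_apply, ad_apply, em_coe]
  module

lemma comm_LU (v : L) : Lop hw v * Uop w v v = Uop w v v * Lop hw v := by
  have h1 := JB hw v v v
  rw [JB' hw v] at h1
  have h2 : (3 : ℚ) • (Lop hw v * Uop w v v - Uop w v v * Lop hw v) = 0 := by
    have h3 : Lop hw v * Uop w v v + Lop hw v * Uop w v v - Uop w v v * Lop hw v -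
      (Uop w v v * Lop hw v + Uop w v v * Lop hw v - Lop hw v * Uop w v v) = 0 := by
      rw [h1, sub_self]
    rw [← h3]
    module
  exact sub_eq_zero.1 ((smul_eq_zero_iff_right (by norm_num : (3 : ℚ) ≠ 0)).1 h2)

/-- the vectors `v_{n+1}` -/
def vs (w v : L) : ℕ → L
  | 0 => v
  | n + 1 => jo w (vs w v n) v

lemma em_vs (v : L) (n : ℕ) : em w (vs w v n) = ((Lop hw v) ^ n) (em w v) := by
  induction n with
  | zero => rfl
  | succ n ih =>
    rw [vs, em_jo hw, ih, pow_succ', Module.End.mul_apply]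

/-- `U_{v_n, v} = U L_{n-1}`, `L_n = l_n` -/
lemma Lop_vs (v : L) (n : ℕ) : Uop w (vs w v n) v = Uop w v v * qs (Lop hw v) (Uop w v v) n ∧
    Lop hw (vs w v n) = qs (Lop hw v) (Uop w v v) (n + 1) := by
  have hc := comm_LU hw v
  induction n with
  | zero => exact ⟨by simp [vs, qs], by simp [vs, qs]⟩
  | succ n ih =>
    obtain ⟨h1, h2⟩ := ih
    have c1 := nc_comm hc n
    have c2 := nc_comm hc (n + 1)
    constructor
    · rw [vs, JB hw, h1, h2, ← c2.2, ← mul_assoc, hc, mul_assoc, c1.1, ← mul_assoc]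
      abel
    · rw [vs, JC hw, h1, h2, qs, ← c2.1]
      rw [two_mul, add_mul]

include hw in
/-- `U_{v_n, v_n} = U^n` -/
lemma Uop_vs (v : L) (n : ℕ) : Uop w (vs w v n) (vs w v n) = (Uop w v v) ^ (n + 1) := by
  have hc := comm_LU hw v
  have h1 := JC hw (vs w v n) (vs w v n)
  have h2 := (Lop_vs hw v n).2
  have h3 : em w (jo w (vs w v n) (vs w v n)) = em w (vs w v (2 * n + 1)) := by
    rw [em_jo hw, em_vs hw v n, em_vs hw v (2 * n + 1)]
    have e1 : Lop hw (vs w v n) (em w v) = ((Lop hw v) ^ (n + 1)) (em w v) := by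
      rw [Lop_comm, em_vs hw, pow_succ', Module.End.mul_apply]
    have e2 : Lop hw (vs w v n) * (Lop hw v) ^ n = (Lop hw v) ^ n * Lop hw (vs w v n) := by
      rw [h2]
      have c2 := (nc_comm hc (n + 1)).1
      exact (Commute.pow_left (show Commute (Lop hw v) _ from c2) n).symm
    rw [← Module.End.mul_apply, e2, Module.End.mul_apply, e1, ← Module.End.mul_apply, ← pow_add]
    congr 2
    ring
  have h4 := Lop_congr hw h3
  rw [(Lop_vs hw v (2 * n + 1)).2, h1, h2, show 2 * n + 1 + 1 = 2 * (n + 1) by ring] at h4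
  have h5 := nc_two_mul hc (n + 1)
  rw [← h4] at h5
  have h6 : 2 * qs (Lop hw v) (Uop w v v) (n + 1) * qs (Lop hw v) (Uop w v v) (n + 1) =
      qs (Lop hw v) (Uop w v v) (n + 1) * qs (Lop hw v) (Uop w v v) (n + 1) +
      qs (Lop hw v) (Uop w v v) (n + 1) * qs (Lop hw v) (Uop w v v) (n + 1) := by
    rw [two_mul, add_mul]
  rw [h6] at h5
  have h7 : Uop w v v ^ (n + 1) - Uop w (vs w v n) (vs w v n) = 0 := by
    have := sub_eq_zero.2 h5
    rw [← this]
    abel
  exact (sub_eq_zero.1 h7).symm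

include hw in
/-- `ad(W² a)² = 4 U_{a,a} W²` -/
lemma sq_zero_of_Uop {a : L} (h : Uop w a a = 0) : (ad ℚ L (em w a : L)) ^ 2 = 0 := by
  rw [em_coe, had, had, sq, I2 (hw3 hw) (good_ad hw a) (good_ad hw a)]
  apply LinearMap.ext
  intro y
  have h1 : (Uop w a a (em w y) : L) = 0 := by rw [h]; rfl
  rw [Uop_coe] at h1
  have h2 := (smul_eq_zero_iff_right (by norm_num : (1 / 4 : ℚ) ≠ 0)).1 h1
  exact h2

lemma Uop_pow (v : L) (n : ℕ) (b : BB w) : (((Uop w v v) ^ n) b : L) =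
    ((1 / 4 : ℚ) ^ n) • (((ad ℚ L w) ^ 2 * (ad ℚ L v) ^ 2) ^ n) (b : L) := by
  induction n with
  | zero => simp
  | succ n ih =>
    rw [pow_succ', Module.End.mul_apply, Uop_coe, ih, pow_succ' (_ * _), pow_succ' (1 / 4 : ℚ)]
    simp only [lie_smul, mul_smul]
    rfl

end op

end Jordan

open LieAlgebra Jordan in
theorem jordan_endgame {L : Type*} [LieRing L] [LieAlgebra ℚ L]
    (hnd : ∀ c : L, (ad ℚ L c) ^ 2 = 0 → c = 0)
    (w : L) (hw : (ad ℚ L w) ^ 3 = 0) (N : ℕ)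
    (hN : ∀ v : L, ((ad ℚ L w) ^ 2 * (ad ℚ L v) ^ 2) ^ N * (ad ℚ L w) ^ 2 = 0) :
    w = 0 := by
  classical
  have hfin : (∀ v, em w (vs w v 0) = 0) → w = 0 := by
    intro h
    apply hnd
    apply LinearMap.ext
    intro y
    have h1 := congrArg (fun b : BB w => (b : L)) (h y)
    rw [sq]
    exact h1
  -- nondegeneracy
  have hdeg : ∀ (v : L) (n : ℕ), (Uop w v v) ^ (n + 1) = 0 → em w (vs w v n) = 0 := by
    intro v n h
    rw [← Uop_vs hw] at h
    exact Subtype.ext (hnd _ (sq_zero_of_Uop hw h))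
  rcases N with _ | N
  · apply hnd
    have := hN 0
    rwa [pow_zero, one_mul] at this
  have hP : ∃ n, ∀ v, em w (vs w v n) = 0 := by
    refine ⟨N, fun v => hdeg v N ?_⟩
    apply ext_em
    intro y
    apply Subtype.ext
    rw [Uop_pow]
    have h1 := congrArg (fun T => T y) (hN v)
    have h2 : (((ad ℚ L w) ^ 2 * (ad ℚ L v) ^ 2) ^ (N + 1)) (em w y : L) = 0 := h1
    rw [h2, smul_zero]
    rfl
  have hmin := Nat.find_spec hP
  rcases hk : Nat.find hP with _ | k
  · rw [hk] at hmin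
    exact hfin hmin
  exfalso
  rw [hk] at hmin
  apply Nat.find_min hP (m := k) (by omega)
  intro v
  apply hdeg
  have hc := comm_LU hw v
  apply nc_core hc k
  · -- `l_{k+2} = 0`
    rw [← (Lop_vs hw v (k + 1)).2]
    apply ext_em
    intro y
    rw [Lop_comm, hmin v, map_zero]
    rfl
  · apply ext_em
    intro y
    have h1 : dcoef (Lop hw v) (Lop hw y) (em w v) (em w y) (k + 1) = 0 := by
      apply lin_coeff
      intro t
      have h2 := hmin (v + t • y)
      rw [em_vs hw, Lop_add_smul, map_add, map_smul] at h2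
      exact h2
    unfold dcoef at h1
    rw [LinearMap.zero_apply, ← h1, ← Finset.sum_range_reflect, LinearMap.sum_apply,
      Finset.sum_range_succ]
    congr 1
    · apply Finset.sum_congr rfl
      intro j hj
      have hj' : j < k + 1 := Finset.mem_range.1 hj
      have e1 : k + 1 - (k + 2 - 1 - j) = j := by omega
      have e2 : k + 2 - 1 - j = (k - j) + 1 := by omega
      have e3 : k + 1 - 1 - j = k - j := by omega
      rw [e1, e2, e3, ← (Lop_vs hw v (k - j)).2, Module.End.mul_apply, Lop_comm, em_vs hw]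
    · have e1 : k + 2 - 1 - (k + 1) = 0 := by omega
      rw [e1, Nat.sub_zero, qs, mul_one]

end Pool.Agent.Lib.MP_74ab55_al
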