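import Pool.Agent.Lib.MP_74ab55_al.Defs

/-!
# Just non nilpotent quotients and quotients of Engel systems

`LN`: a Lie algebra generated by `x i` is nilpotent as soon as all right normed commutators of some
length in the generators vanish.  `exists_just_non_nilpotent`: a finitely generated non nilpotent
Lie algebra has a just non nilpotent quotient.  `EngSys.quotient`: Engel systems pass to quotients.
-/

set_option autoImplicit false

namespace Pool.Agent.Lib.MP_74ab55_al
open LieAlgebra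

section words
variable {L : Type*} [LieRing L] [LieAlgebra ℚ L] {ι : Type*} (x : ι → L)

/-- The right normed commutator `[x i₁, [x i₂, …, [x iₖ, x j]]]`. -/
def wd : List ι → ι → L
  | [], j => x j
  | i :: l, j => ⁅x i, wd l j⁆

/-- The span of the right normed commutators with at least `k + 1` entries. -/
def wspan (k : ℕ) : Submodule ℚ L :=
  Submodule.span ℚ {y | ∃ (l : List ι) (j : ι), k ≤ l.length ∧ y = wd x l j}

theorem wspan_anti {k l : ℕ} (h : k ≤ l) : wspan x l ≤ wspan x k := by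
  refine Submodule.span_mono ?_
  rintro y ⟨w, j, hw, rfl⟩
  exact ⟨w, j, h.trans hw, rfl⟩

theorem lie_gen_mem_wspan (i : ι) (k : ℕ) (v : L) (hv : v ∈ wspan x k) :
    ⁅x i, v⁆ ∈ wspan x (k + 1) := by
  induction hv using Submodule.span_induction with
  | mem y hy =>
    obtain ⟨l, j, hl, rfl⟩ := hy
    exact Submodule.subset_span ⟨i :: l, j, by simpa using hl, rfl⟩
  | zero => simp
  | add y z _ _ hy hz => rw [lie_add]; exact Submodule.add_mem _ hy hz
  | smul c y _ hy => rw [lie_smul]; exact Submodule.smul_mem _ _ hy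

theorem lie_mem_wspan (hgen : LieSubalgebra.lieSpan ℚ L (Set.range x) = ⊤) (y : L) (k : ℕ)
    (v : L) (hv : v ∈ wspan x k) : ⁅y, v⁆ ∈ wspan x (k + 1) := by
  have hy : y ∈ LieSubalgebra.lieSpan ℚ L (Set.range x) := by rw [hgen]; exact LieSubalgebra.mem_top y
  revert k v
  induction hy using LieSubalgebra.lieSpan_induction with
  | mem y hy =>
    obtain ⟨i, rfl⟩ := hy
    intro k v hv
    exact lie_gen_mem_wspan x i k v hv
  | zero => intro k v hv; simp
  | add y z _ _ hy hz =>
    intro k v hv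
    rw [add_lie]
    exact Submodule.add_mem _ (hy k v hv) (hz k v hv)
  | smul c y _ hy =>
    intro k v hv
    rw [smul_lie]
    exact Submodule.smul_mem _ _ (hy k v hv)
  | lie y z _ _ hy hz =>
    intro k v hv
    rw [lie_lie]
    refine Submodule.sub_mem _ ?_ ?_
    · exact wspan_anti x (Nat.le_succ _) (hy _ _ (hz k v hv))
    · exact wspan_anti x (Nat.le_succ _) (hz _ _ (hy k v hv))

theorem wspan_zero (hgen : LieSubalgebra.lieSpan ℚ L (Set.range x) = ⊤) : wspan x 0 = ⊤ := by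
  rw [eq_top_iff]
  intro y _
  have hy : y ∈ LieSubalgebra.lieSpan ℚ L (Set.range x) := by rw [hgen]; exact LieSubalgebra.mem_top y
  induction hy using LieSubalgebra.lieSpan_induction with
  | mem y hy =>
    obtain ⟨i, rfl⟩ := hy
    exact Submodule.subset_span ⟨[], i, by simp, rfl⟩
  | zero => simp
  | add y z _ _ hy hz =>
    exact Submodule.add_mem _ (hy Submodule.mem_top) (hz Submodule.mem_top)
  | smul c y _ hy => exact Submodule.smul_mem _ _ (hy Submodule.mem_top)
  | lie y z _ _ hy hz =>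
    exact wspan_anti x (Nat.le_succ _) (lie_mem_wspan x hgen y 0 z (hz Submodule.mem_top))

theorem lcs_le_wspan (hgen : LieSubalgebra.lieSpan ℚ L (Set.range x) = ⊤) (k : ℕ) :
    (LieModule.lowerCentralSeries ℚ L L k).toSubmodule ≤ wspan x k := by
  induction k with
  | zero => rw [wspan_zero x hgen]; exact le_top
  | succ k ih =>
    rw [LieModule.lowerCentralSeries_succ, LieSubmodule.lieIdeal_oper_eq_linear_span',
      Submodule.span_le]
    rintro _ ⟨y, _, z, hz, rfl⟩
    exact lie_mem_wspan x hgen y k z (ih hz)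

theorem wd_mem_lcs (l : List ι) (j : ι) :
    wd x l j ∈ LieModule.lowerCentralSeries ℚ L L l.length := by
  induction l with
  | nil => simp
  | cons i l ih =>
    rw [List.length_cons, LieModule.lowerCentralSeries_succ]
    exact LieSubmodule.lie_mem_lie (LieSubmodule.mem_top _) ih

omit [LieAlgebra ℚ L] in
theorem wd_append (l l' : List ι) (j : ι) (h : wd x l' j = 0) : wd x (l ++ l') j = 0 := by
  induction l with
  | nil => exact h
  | cons i l ih => rw [List.cons_append, wd, ih, lie_zero]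

/-- **Lemma LN** -/
theorem LN (hgen : LieSubalgebra.lieSpan ℚ L (Set.range x) = ⊤) (k : ℕ)
    (h : ∀ (l : List ι) (j : ι), l.length = k → wd x l j = 0) : LieRing.IsNilpotent L := by
  rw [LieRing.IsNilpotent, LieModule.isNilpotent_iff ℚ L L]
  refine ⟨k, ?_⟩
  have h1 : wspan x k = ⊥ := by
    rw [wspan, Submodule.span_eq_bot]
    rintro _ ⟨l, j, hl, rfl⟩
    rw [← List.take_append_drop (l.length - k) l]
    refine wd_append x _ _ j (h _ _ ?_)
    rw [List.length_drop]
    omega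
  have h2 := lcs_le_wspan x hgen k
  rw [h1, le_bot_iff] at h2
  rwa [LieSubmodule.toSubmodule_eq_bot] at h2

theorem LN_iff (hgen : LieSubalgebra.lieSpan ℚ L (Set.range x) = ⊤) :
    LieRing.IsNilpotent L ↔ ∃ k, ∀ (l : List ι) (j : ι), l.length = k → wd x l j = 0 := by
  constructor
  · intro h
    rw [LieRing.IsNilpotent, LieModule.isNilpotent_iff ℚ L L] at h
    obtain ⟨k, hk⟩ := h
    refine ⟨k, fun l j hl => ?_⟩
    have := wd_mem_lcs x l j
    rw [hl, hk] at this
    simpa using this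
  · rintro ⟨k, hk⟩
    exact LN x hgen k hk

variable (J : LieIdeal ℚ L)

theorem wd_quot (l : List ι) (j : ι) :
    wd (fun i => (LieSubmodule.Quotient.mk' J (x i) : L ⧸ J)) l j =
      LieSubmodule.Quotient.mk' J (wd x l j) := by
  induction l with
  | nil => rfl
  | cons i l ih =>
    rw [wd, ih, wd]
    rfl

theorem lieSpan_quot (hgen : LieSubalgebra.lieSpan ℚ L (Set.range x) = ⊤) :
    LieSubalgebra.lieSpan ℚ (L ⧸ J)
      (Set.range fun i => (LieSubmodule.Quotient.mk' J (x i) : L ⧸ J)) = ⊤ := by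
  rw [eq_top_iff]
  rintro y -
  obtain ⟨y, rfl⟩ := LieSubmodule.Quotient.surjective_mk' J y
  have hy : y ∈ LieSubalgebra.lieSpan ℚ L (Set.range x) := by rw [hgen]; exact LieSubalgebra.mem_top y
  induction hy using LieSubalgebra.lieSpan_induction with
  | mem y hy =>
    obtain ⟨i, rfl⟩ := hy
    exact LieSubalgebra.subset_lieSpan ⟨i, rfl⟩
  | zero => rw [map_zero]; exact zero_mem _
  | add y z _ _ hy hz => rw [map_add]; exact add_mem hy hz
  | smul c y _ hy => rw [map_smul]; exact SMulMemClass.smul_mem c hy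
  | lie y z _ _ hy hz => exact LieSubalgebra.lie_mem _ hy hz

theorem quot_nilpotent_iff (hgen : LieSubalgebra.lieSpan ℚ L (Set.range x) = ⊤) :
    LieRing.IsNilpotent (L ⧸ J) ↔ ∃ k, ∀ (l : List ι) (j : ι), l.length = k → wd x l j ∈ J := by
  rw [LN_iff _ (lieSpan_quot x J hgen)]
  refine exists_congr fun k => forall_congr' fun l => forall_congr' fun j => ?_
  rw [wd_quot, LieSubmodule.Quotient.mk_eq_zero]

end words

theorem exists_just_non_nilpotent {L : Type*} [LieRing L] [LieAlgebra ℚ L] {ι : Type*} [Finite ι]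
    (x : ι → L) (hgen : LieSubalgebra.lieSpan ℚ L (Set.range x) = ⊤)
    (hL : ¬ LieRing.IsNilpotent L) :
    ∃ J : LieIdeal ℚ L, ¬ LieRing.IsNilpotent (L ⧸ J) ∧
      ∀ I : LieIdeal ℚ L, J < I → LieRing.IsNilpotent (L ⧸ I) := by
  classical
  let P : LieIdeal ℚ L → Prop := fun J =>
    ∃ k, ∀ (l : List ι) (j : ι), l.length = k → wd x l j ∈ J
  have hbot : ¬ P ⊥ := by
    rintro ⟨k, hk⟩
    exact hL ((LN_iff x hgen).2 ⟨k, fun l j hl => by simpa using hk l j hl⟩)
  obtain ⟨J, hJ⟩ : ∃ J, Maximal (fun J => ¬ P J) J := by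
    refine zorn_le₀ {J | ¬ P J} ?_
    intro c hc hchain
    rcases c.eq_empty_or_nonempty with rfl | hne
    · exact ⟨⊥, hbot, by simp⟩
    refine ⟨sSup c, ?_, fun I hI => le_sSup hI⟩
    rintro ⟨k, hk⟩
    have hmem : ∀ y ∈ sSup c, ∃ I ∈ c, y ∈ I := by
      intro y hy
      rw [← LieSubmodule.mem_toSubmodule, LieSubmodule.sSup_toSubmodule] at hy
      obtain ⟨I0, hI0⟩ := hne
      have hne' : {x : Submodule ℚ L | ∃ s ∈ c, s.toSubmodule = x}.Nonempty := ⟨_, ⟨I0, hI0, rfl⟩⟩
      rw [Submodule.mem_sSup_of_directed hne'] at hy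
      · obtain ⟨_, ⟨I, hI, rfl⟩, hy⟩ := hy
        exact ⟨I, hI, hy⟩
      · rintro _ ⟨A, hA, rfl⟩ _ ⟨B, hB, rfl⟩
        rcases hchain.total hA hB with h | h
        · exact ⟨_, ⟨B, hB, rfl⟩, h, le_rfl⟩
        · exact ⟨_, ⟨A, hA, rfl⟩, le_rfl, h⟩
    have hdir : ∀ s : Finset (List ι × ι), (∀ p ∈ s, p.1.length = k) →
        ∃ I ∈ c, ∀ p ∈ s, wd x p.1 p.2 ∈ I := by
      intro s
      induction s using Finset.induction_on with
      | empty =>
        intro _
        obtain ⟨I0, hI0⟩ := hne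
        exact ⟨I0, hI0, by simp⟩
      | insert p s _ ih =>
        intro hs
        obtain ⟨I, hI, h1⟩ := ih fun q hq => hs q (Finset.mem_insert_of_mem hq)
        obtain ⟨I', hI', h2⟩ := hmem _ (hk p.1 p.2 (hs p (Finset.mem_insert_self _ _)))
        rcases hchain.total hI hI' with h | h
        · refine ⟨I', hI', fun q hq => ?_⟩
          rcases Finset.mem_insert.1 hq with rfl | hq
          · exact h2
          · exact h (h1 q hq)
        · refine ⟨I, hI, fun q hq => ?_⟩
          rcases Finset.mem_insert.1 hq with rfl | hq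
          · exact h h2
          · exact h1 q hq
    have hfin : {p : List ι × ι | p.1.length = k}.Finite := by
      have h1 : {l : List ι | l.length = k}.Finite := List.finite_length_eq ι k
      refine (h1.prod (Set.finite_univ (α := ι))).subset ?_
      rintro ⟨l, j⟩ h
      exact ⟨h, Set.mem_univ _⟩
    obtain ⟨I, hI, h⟩ := hdir hfin.toFinset fun p hp => by simpa using hp
    exact hc hI ⟨k, fun l j hl => h (l, j) (by simpa using hl)⟩
  refine ⟨J, fun h => hJ.1 ((quot_nilpotent_iff x J hgen).1 h), fun I hI => ?_⟩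
  by_contra hcon
  have h1 : ¬ P I := fun h => hcon ((quot_nilpotent_iff x I hgen).2 h)
  exact absurd (hJ.2 h1 hI.le) (not_le_of_gt hI)

section quot
variable {L : Type*} [LieRing L] [LieAlgebra ℚ L] (J : LieIdeal ℚ L)

/-- The underlying linear map of the quotient map. -/
abbrev qmk : L →ₗ[ℚ] L ⧸ J := (LieSubmodule.Quotient.mk' J : L →ₗ⁅ℚ, L⁆ L ⧸ J)

theorem qmk_surjective : Function.Surjective (qmk J) := LieSubmodule.Quotient.surjective_mk' J

theorem qmk_lie (a b : L) : qmk J ⁅a, b⁆ = ⁅qmk J a, qmk J b⁆ := rfl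

/-- `u` induces `v` on the quotient. -/
def Ind (u : Module.End ℚ L) (v : Module.End ℚ (L ⧸ J)) : Prop := ∀ y, qmk J (u y) = v (qmk J y)

variable {J}

theorem Ind.mul {u u' : Module.End ℚ L} {v v' : Module.End ℚ (L ⧸ J)} (h : Ind J u v)
    (h' : Ind J u' v') : Ind J (u * u') (v * v') := fun y => by
  rw [Module.End.mul_apply, Module.End.mul_apply, h, h']

theorem Ind.one : Ind J 1 1 := fun _ => rfl

theorem Ind.pow {u : Module.End ℚ L} {v : Module.End ℚ (L ⧸ J)} (h : Ind J u v) (n : ℕ) :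
    Ind J (u ^ n) (v ^ n) := by
  induction n with
  | zero => simpa using Ind.one
  | succ n ih => rw [pow_succ, pow_succ]; exact ih.mul h

theorem Ind.smul {u : Module.End ℚ L} {v : Module.End ℚ (L ⧸ J)} (h : Ind J u v) (s : ℚ) :
    Ind J (s • u) (s • v) := fun y => by
  rw [LinearMap.smul_apply, LinearMap.smul_apply, map_smul, h]

theorem Ind.inv {u : (Module.End ℚ L)ˣ} {v : (Module.End ℚ (L ⧸ J))ˣ}
    (h : Ind J (u : Module.End ℚ L) (v : Module.End ℚ (L ⧸ J))) :
    Ind J ((u⁻¹ : (Module.End ℚ L)ˣ) : Module.End ℚ L)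
      ((v⁻¹ : (Module.End ℚ (L ⧸ J))ˣ) : Module.End ℚ (L ⧸ J)) := fun y => by
  have h1 := h (((u⁻¹ : (Module.End ℚ L)ˣ) : Module.End ℚ L) y)
  rw [← Module.End.mul_apply, ← Units.val_mul, mul_inv_cancel, Units.val_one,
    Module.End.one_apply] at h1
  rw [h1, ← Module.End.mul_apply, ← Units.val_mul, inv_mul_cancel, Units.val_one,
    Module.End.one_apply]

theorem Ind.unique {u : Module.End ℚ L} {v v' : Module.End ℚ (L ⧸ J)} (h : Ind J u v)
    (h' : Ind J u v') : v = v' := by
  ext y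
  obtain ⟨y, rfl⟩ := qmk_surjective J y
  rw [← h, ← h']

theorem Ind.zero : Ind J 0 0 := fun y => by simp

theorem Ind.sum {κ : Type*} (s : Finset κ) (f : κ → Module.End ℚ L)
    (g : κ → Module.End ℚ (L ⧸ J)) (h : ∀ k ∈ s, Ind J (f k) (g k)) :
    Ind J (∑ k ∈ s, f k) (∑ k ∈ s, g k) := fun y => by
  rw [LinearMap.sum_apply, LinearMap.sum_apply, map_sum]
  exact Finset.sum_congr rfl fun k hk => h k hk y

theorem Ind.ad (y : L) : Ind J (LieAlgebra.ad ℚ L y) (LieAlgebra.ad ℚ (L ⧸ J) (qmk J y)) :=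
  fun z => by
    rw [LieAlgebra.ad_apply, LieAlgebra.ad_apply, qmk_lie]

theorem Ind.nilp {u : Module.End ℚ L} {v : Module.End ℚ (L ⧸ J)} (h : Ind J u v)
    {k : ℕ} (hu : u ^ k = 0) : v ^ k = 0 := by
  have h1 := h.pow k
  rw [hu] at h1
  exact h1.unique Ind.zero

theorem Ind.exp {u : Module.End ℚ L} {v : Module.End ℚ (L ⧸ J)} (h : Ind J u v)
    (hu : IsNilpotent u) : Ind J (IsNilpotent.exp u) (IsNilpotent.exp v) := by
  obtain ⟨k, hk⟩ := hu
  rw [IsNilpotent.exp_eq_sum hk, IsNilpotent.exp_eq_sum (h.nilp hk)]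
  exact Ind.sum _ _ _ fun i _ => (h.pow i).smul _

end quot

theorem EngSys.quotient {L : Type*} [LieRing L] [LieAlgebra ℚ L] {ι : Type*} (x : ι → L) (n : ℕ)
    (hs : EngSys n x) (J : LieIdeal ℚ L) :
    EngSys n (fun i => LieSubmodule.Quotient.mk' J (x i)) := by
  have hnil : ∀ (i : ι) (s : ℚ), IsNilpotent (s • LieAlgebra.ad ℚ L (x i)) := fun i s => by
    obtain ⟨k, hk⟩ := hs.nil i
    exact ⟨k, by rw [smul_pow, hk, smul_zero]⟩
  have hexp : ∀ (i : ι) (s : ℚ), Ind J (IsNilpotent.exp (s • LieAlgebra.ad ℚ L (x i)))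
      (IsNilpotent.exp (s • LieAlgebra.ad ℚ (L ⧸ J) (qmk J (x i)))) := fun i s =>
    ((Ind.ad (x i)).smul s).exp (hnil i s)
  have hlift : ∀ h ∈ Exps (fun i => (LieSubmodule.Quotient.mk' J (x i) : L ⧸ J)),
      ∃ g ∈ Exps x, Ind J (g : Module.End ℚ L) (h : Module.End ℚ (L ⧸ J)) := by
    intro h hh
    induction hh using Subgroup.closure_induction with
    | mem u hu =>
      obtain ⟨i, s, hu⟩ := hu
      obtain ⟨g, hg⟩ := IsNilpotent.isUnit_exp (hnil i s)
      refine ⟨g, Subgroup.subset_closure ⟨i, s, hg⟩, ?_⟩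
      rw [hg, hu]
      exact hexp i s
    | one => exact ⟨1, one_mem _, Ind.one⟩
    | mul a b _ _ ha hb =>
      obtain ⟨ga, hga, ha⟩ := ha
      obtain ⟨gb, hgb, hb⟩ := hb
      exact ⟨ga * gb, mul_mem hga hgb, ha.mul hb⟩
    | inv a _ ha =>
      obtain ⟨ga, hga, ha⟩ := ha
      exact ⟨ga⁻¹, inv_mem hga, ha.inv⟩
  refine ⟨fun i => ?_, lieSpan_quot x J hs.gen, fun i a ha h hh => ?_⟩
  · obtain ⟨k, hk⟩ := hs.nil i
    exact ⟨k, (Ind.ad (J := J) (x i)).nilp hk⟩
  · obtain ⟨g, hg, hgh⟩ := hlift h hh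
    obtain ⟨a0, ha0⟩ := IsNilpotent.isUnit_exp (hs.nil i)
    have hind : Ind J (a0 : Module.End ℚ L) (a : Module.End ℚ (L ⧸ J)) := by
      rw [ha0, ha]
      have := hexp i 1
      rw [one_smul, one_smul] at this
      exact this
    have key : ∀ m, Ind J (dseq g a0 m : (Module.End ℚ L)ˣ)
        ((dseq h a m : (Module.End ℚ (L ⧸ J))ˣ) : Module.End ℚ (L ⧸ J)) := by
      intro m
      induction m with
      | zero => exact hgh
      | succ m ih =>
        rw [dseq_succ, dseq_succ]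
        exact (ih.inv.mul hind.inv).mul ih
    have h1 := key (n + 1)
    rw [hs.eng i a0 ha0 g hg] at h1
    exact Units.ext (h1.unique hind.inv)

end Pool.Agent.Lib.MP_74ab55_al
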