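import Pool.Agent.Lib.MP_74ab55_al.Glue
import Pool.Agent.Lib.MP_74ab55_al.Conj
import Pool.Agent.Lib.MP_74ab55_al.Zorn
import Pool.Agent.Lib.MP_74ab55_al.Alt
import Pool.Agent.Lib.MP_74ab55_al.Descent2
import Pool.Agent.Lib.MP_74ab55_al.Descent3
import Pool.Agent.Lib.MP_74ab55_al.Jordan

/-!
# The main theorem on Lie algebras: an Engel system generates a nilpotent Lie algebra
-/

set_option autoImplicit false

namespace Pool.Agent.Lib.MP_74ab55_al
open LieAlgebra

section
variable {L : Type*} [LieRing L] [LieAlgebra ℚ L] {ι : Type*}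

/-- In an algebra without absolute zero divisors the generators of an Engel system vanish. -/
theorem engSys_zero (x : ι → L) (n : ℕ) (hs : EngSys n x)
    (nd' : ∀ c : L, (∀ g ∈ Exps x, ((ad ℚ L c) ^ 2) ((g : Module.End ℚ L) c) = 0) → c = 0)
    (i : ι) : x i = 0 := by
  have nd : ∀ c : L, (ad ℚ L c) ^ 2 = 0 → c = 0 := fun c hc => nd' c fun g _ => by
    rw [hc, LinearMap.zero_apply]
  have endgame : ∀ w : L, (ad ℚ L w) ^ 3 = 0 →
      (∃ K, ∀ h ∈ Exps x, alt ((ad ℚ L w) ^ 2) K h = 0) → w = 0 := by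
    rintro w hw ⟨K, hK⟩
    exact jordan_endgame nd w hw K fun v => sq_of_alt x hs.nil hs.gen w hw K hK v
  have hX : (ad ℚ L (x i)) ^ 3 = 0 := by
    by_contra hX
    classical
    have hex := hs.nil i
    have h1 : ∃ k, (ad ℚ L (x i)) ^ k = 0 := hex
    set k := Nat.find h1 with hk
    have hk0 : (ad ℚ L (x i)) ^ k = 0 := Nat.find_spec h1
    have hk3 : 3 < k := by
      by_contra hcon
      push Not at hcon
      exact hX (pow_eq_zero_of_le hcon hk0)
    obtain ⟨r, hr⟩ : ∃ r, k = r + 1 := ⟨k - 1, by omega⟩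
    have hr0 : (ad ℚ L (x i)) ^ r = 0 := by
      apply LinearMap.ext
      intro z
      rw [LinearMap.zero_apply]
      obtain ⟨h3, h4⟩ := descent_ge3 x n hs i r (by omega) (by rw [← hr]; exact hk0) z
      exact endgame _ h3 h4
    exact Nat.find_min h1 (show r < k by omega) hr0
  apply nd'
  intro g hg
  obtain ⟨h3, h4⟩ := descent_two x n hs i hX g⁻¹ (inv_mem hg)
  have h5 := endgame _ h3 h4
  have h6 : (ad ℚ L (((g⁻¹ : (Module.End ℚ L)ˣ) : Module.End ℚ L) (x i))) ^ 2 =
      ((g⁻¹ : (Module.End ℚ L)ˣ) : Module.End ℚ L) * (ad ℚ L (x i)) ^ 2 * (g : Module.End ℚ L) := by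
    have := Exps.ad_apply_pow hs.nil (inv_mem hg) (x i) 2
    rw [inv_inv] at this
    exact this
  rw [h6] at h5
  have h7 := congrArg (fun t => (g : Module.End ℚ L) t) h5
  simp only [Module.End.mul_apply, map_zero] at h7
  rw [apply_inv_apply] at h7
  exact h7

theorem nilpotent_of_zero (x : ι → L) (hgen : LieSubalgebra.lieSpan ℚ L (Set.range x) = ⊤)
    (h : ∀ i, x i = 0) : LieRing.IsNilpotent L := by
  apply LN x hgen 0
  intro l j hl
  rw [List.length_eq_zero_iff] at hl
  rw [hl]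
  exact h j

end

theorem lie_main {L : Type*} [LieRing L] [LieAlgebra ℚ L] {ι : Type*} [Finite ι] (x : ι → L)
    (n : ℕ) (hs : EngSys n x) : LieRing.IsNilpotent L := by
  by_contra hL
  obtain ⟨J, hJ, hJmin⟩ := exists_just_non_nilpotent x hs.gen hL
  have hs' := hs.quotient x n J
  set y : ι → L ⧸ J := fun i => LieSubmodule.Quotient.mk' J (x i) with hy
  apply hJ
  apply nilpotent_of_zero y hs'.gen
  intro i
  apply engSys_zero y n hs' _ i
  intro c hc
  by_contra hc0
  apply hJ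
  apply glue_sandwich y hs'.nil hs'.gen c hc
  -- the ideal `I` of `L` with `L / I = (L / J) / (c)`
  let I : LieIdeal ℚ L :=
    { (LieSubmodule.lieSpan ℚ (L ⧸ J) {c}).toSubmodule.comap (qmk J) with
      lie_mem := by
        intro a b hb
        have hb' : qmk J b ∈ LieSubmodule.lieSpan ℚ (L ⧸ J) {c} := hb
        show qmk J ⁅a, b⁆ ∈ LieSubmodule.lieSpan ℚ (L ⧸ J) {c}
        rw [qmk_lie]
        exact LieSubmodule.lie_mem _ hb' }
  have hI : ∀ a, a ∈ I ↔ qmk J a ∈ LieSubmodule.lieSpan ℚ (L ⧸ J) {c} := fun a => Iff.rfl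
  obtain ⟨c', rfl⟩ := qmk_surjective J c
  have hlt : J < I := by
    rw [lt_iff_le_and_ne]
    constructor
    · intro a ha
      rw [hI]
      have : qmk J a = 0 := (LieSubmodule.Quotient.mk_eq_zero J).mpr ha
      rw [this]
      exact zero_mem _
    · intro h
      apply hc0
      have : c' ∈ J := by
        rw [h, hI]
        exact LieSubmodule.subset_lieSpan rfl
      exact (LieSubmodule.Quotient.mk_eq_zero J).mpr this
  obtain ⟨k, hk⟩ := (quot_nilpotent_iff x I hs.gen).mp (hJmin I hlt)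
  rw [quot_nilpotent_iff y _ hs'.gen]
  refine ⟨k, fun l j hl => ?_⟩
  rw [wd_quot]
  exact (hI _).mp (hk l j hl)

end Pool.Agent.Lib.MP_74ab55_al
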