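import Pool.Agent.Lib.MP_74ab55_al.GL6
import Pool.Agent.Lib.MP_74ab55_al.LieMain

/-!
# Uniform class bound for groups acting unipotently
-/

set_option autoImplicit false

namespace Pool.Agent.Lib.MP_74ab55_al

theorem group_unipotent_class {Γ : Type*} [Group Γ] {m : ℕ} (a : Fin m → Γ)
    (hgen : Subgroup.closure (Set.range a) = ⊤) (n : ℕ) (heng : ∀ i, Eng n (a i))
    {I : Type*} (W : I → Type*) [∀ i, AddCommGroup (W i)] [∀ i, Module ℚ (W i)]
    (ρ : ∀ i, Γ →* Module.End ℚ (W i))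
    (huni : ∀ i, ∃ N, ∀ l : List Γ, l.length = N → (l.map (fun g => ρ i g - 1)).prod = 0) :
    ∃ c, ∀ i, ∀ g ∈ (⊤ : Subgroup Γ).lowerCentralSeries c, ρ i g = 1 :=
  group_unipotent_class_of a hgen n heng W ρ huni fun _ _ _ x hs => lie_main x n hs

end Pool.Agent.Lib.MP_74ab55_al
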