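import Pool.Agent.Lib.MP_74ab55_al.AffineRep
import Pool.Agent.Lib.MP_74ab55_al.GroupLie

/-!
# Uniform class bound for torsion-free nilpotent groups generated by left Engel elements
-/

set_option autoImplicit false

open scoped TensorProduct commutatorElement

namespace Pool.Agent.Lib.MP_74ab55_al

open SemidirectProduct

/-- Data for one coordinate of the product group. -/
structure Dat (m n s : ℕ) where
  K : Type
  M : Type
  gK : Group K
  cM : CommGroup M
  φ : K →* MulAut M
  a : Fin m → K
  gen : Subgroup.closure (Set.range a) = ⊤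
  eng : ∀ i, Eng n (inr (a i) : M ⋊[φ] K)
  tf : ∀ g : M, ∀ k : ℕ, 0 < k → g ^ k = 1 → g = 1
  uni : ∃ N, ∀ l : List K, l.length = N → ∀ x : M, dl φ l x = 1
  μ : M
  l : List K
  hl : l.length = s
  hμ : dl φ l μ ≠ 1

attribute [instance] Dat.gK Dat.cM

section
variable {K : Type} [Group K]

/-- A term of the lower central series that is abelian, as a commutative group. -/
@[reducible] def commGroupOf (M : Subgroup K) (hM : ⁅M, M⁆ = ⊥) : CommGroup M :=
  { (inferInstance : Group M) with
    mul_comm := by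
      intro x y
      have h := Subgroup.commutator_eq_bot_iff_le_centralizer.mp hM
      have h2 := (Subgroup.mem_centralizer_iff.mp (h x.2)) y y.2
      exact Subtype.ext h2.symm }

theorem exists_dat (m n s : ℕ) (a : Fin m → K)
    (hgen : Subgroup.closure (Set.range a) = ⊤) (heng : ∀ i, Eng n (a i))
    (hnil : Group.IsNilpotent K)
    (htf : ∀ g : K, ∀ k : ℕ, 0 < k → g ^ k = 1 → g = 1)
    (hc : (⊤ : Subgroup K).lowerCentralSeries (2 * s + 1) ≠ ⊥) : Nonempty (Dat m n s) := by
  classical
  have hex : ∃ c, (⊤ : Subgroup K).lowerCentralSeries c = ⊥ :=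
    Subgroup.nilpotent_iff_lowerCentralSeries.mp hnil
  set c := Nat.find hex with hcdef
  have hcc : (⊤ : Subgroup K).lowerCentralSeries c = ⊥ := Nat.find_spec hex
  have hcmin : ∀ d, d < c → (⊤ : Subgroup K).lowerCentralSeries d ≠ ⊥ := fun d hd =>
    Nat.find_min hex hd
  have hlt : 2 * s + 1 < c := by
    by_contra hcon
    push Not at hcon
    apply hc
    rw [eq_bot_iff, ← hcc]
    exact Subgroup.lowerCentralSeries_antitone _ hcon
  set i := c / 2 with hi
  have hi2 : c ≤ 2 * i + 1 := by omega
  have his : i + s < c := by omega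
  let M : Subgroup K := (⊤ : Subgroup K).lowerCentralSeries i
  have hMM : ⁅M, M⁆ = ⊥ := by
    rw [eq_bot_iff, ← hcc]
    refine (lcs_comm_le i i).trans (Subgroup.lowerCentralSeries_antitone _ (by omega))
  have hMn : M.Normal := by
    have : M.Characteristic := Subgroup.lowerCentralSeries_characteristic _ i
    infer_instance
  letI cM : CommGroup M := commGroupOf M hMM
  let φ : K →* MulAut M := MulAut.conjNormal
  have hφ : ∀ (k : K) (x : M), ((φ k x : M) : K) = k * x * k⁻¹ := fun k x =>
    MulAut.conjNormal_apply k x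
  have hd : ∀ (k : K) (x : M), ((dHom φ k x : M) : K) = ⁅k, (x : K)⁆ := by
    intro k x
    rw [dHom_apply, commutatorElement_def]
    show ((φ k x : M) : K) * ((x⁻¹ : M) : K) = _
    rw [hφ]
    rfl
  -- iterated commutators go down the series
  have hdl : ∀ (l : List K) (x : M), ((dl φ l x : M) : K) ∈
      (⊤ : Subgroup K).lowerCentralSeries (i + l.length) := by
    intro l x
    induction l with
    | nil => exact x.2
    | cons k l ih =>
      rw [dl_cons, hd, List.length_cons, ← add_assoc, Subgroup.lowerCentralSeries_succ,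
        Subgroup.commutator_comm]
      exact Subgroup.commutator_mem_commutator (Subgroup.mem_top _) ih
  -- the subgroup generated by the iterated commutators of length `t`
  let S : ℕ → Subgroup M := fun t => Subgroup.closure {y | ∃ (l : List K) (x : M),
    l.length = t ∧ y = dl φ l x}
  have hS1 : ∀ t (k : K) (y : M), y ∈ S t → dHom φ k y ∈ S (t + 1) := by
    intro t k y hy
    have : (S t) ≤ (S (t + 1)).comap (dHom φ k) := by
      rw [Subgroup.closure_le]
      rintro z ⟨l, x, hl, rfl⟩
      exact Subgroup.subset_closure ⟨k :: l, x, by simp [hl], rfl⟩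
    exact this hy
  have hS2 : ∀ t, (⊤ : Subgroup K).lowerCentralSeries (i + t) ≤ (S t).map M.subtype := by
    intro t
    induction t with
    | zero =>
      intro g hg
      exact ⟨⟨g, hg⟩, Subgroup.subset_closure ⟨[], ⟨g, hg⟩, rfl, rfl⟩, rfl⟩
    | succ t ih =>
      rw [← add_assoc, Subgroup.lowerCentralSeries_succ, Subgroup.commutator_comm,
        Subgroup.commutator_le]
      intro k _ g hg
      obtain ⟨y, hy, rfl⟩ := ih hg
      exact ⟨dHom φ k y, hS1 t k y hy, hd k y⟩
  -- a non-trivial iterated commutator of length `s`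
  obtain ⟨l, μ, hl, hμ⟩ : ∃ (l : List K) (μ : M), l.length = s ∧ dl φ l μ ≠ 1 := by
    by_contra hcon
    push Not at hcon
    apply hcmin _ his
    rw [eq_bot_iff]
    refine (hS2 s).trans ?_
    have : S s = ⊥ := by
      rw [eq_bot_iff]
      show Subgroup.closure _ ≤ _
      rw [Subgroup.closure_le]
      rintro z ⟨l, x, hl, rfl⟩
      exact hcon l x hl
    rw [this, Subgroup.map_bot]
  -- the homomorphism `M ⋊ K → K`
  let σ : (M ⋊[φ] K) →* K := SemidirectProduct.lift M.subtype (MonoidHom.id K) (by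
    intro k
    ext x
    exact hφ k x)
  have hσ : ∀ e : M ⋊[φ] K, e.right = 1 → σ e = 1 → e = 1 := by
    intro e h1 h2
    have h3 : e = inl e.left := by
      ext
      · simp
      · rw [h1]; simp
    rw [h3] at h2 ⊢
    rw [SemidirectProduct.lift_inl] at h2
    have : e.left = 1 := Subtype.ext h2
    rw [this, map_one]
  refine ⟨{ K := K, M := M, gK := inferInstance, cM := cM, φ := φ, a := a, gen := hgen,
            eng := ?_, tf := ?_, uni := ?_, μ := μ, l := l, hl := hl, hμ := hμ }⟩
  · intro j x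
    apply hσ
    · have := map_cm_iterate (rightHom : (M ⋊[φ] K) →* K) (inr (a j)) x n
      rw [rightHom_inr, heng j] at this
      exact this
    · rw [map_cm_iterate, SemidirectProduct.lift_inr]
      exact heng j _
  · intro g k hk hg
    apply Subtype.ext
    apply htf g.1 k hk
    have := congrArg Subtype.val hg
    exact this
  · refine ⟨c, fun l hl x => ?_⟩
    apply Subtype.ext
    have h1 := hdl l x
    have h2 : (⊤ : Subgroup K).lowerCentralSeries (i + l.length) = ⊥ := by
      rw [eq_bot_iff, ← hcc]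
      exact Subgroup.lowerCentralSeries_antitone _ (by omega)
    rw [h2] at h1
    exact h1

end

theorem no_dat (m n : ℕ) (h : ∀ s, Nonempty (Dat m n s)) : False := by
  classical
  let D : ∀ s, Dat m n s := fun s => (h s).some
  let P : ℕ → Type := fun s => (D s).M ⋊[(D s).φ] (D s).K
  let A : Fin (m + 1) → ∀ s, P s := Fin.snoc (α := fun _ => ∀ s, P s)
    (fun j s => (inr ((D s).a j) : (D s).M ⋊[(D s).φ] (D s).K))
    (fun s => (inl (D s).μ : (D s).M ⋊[(D s).φ] (D s).K))
  let Γ : Subgroup (∀ s, P s) := Subgroup.closure (Set.range A)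
  have hAΓ : ∀ j, A j ∈ Γ := fun j => Subgroup.subset_closure ⟨j, rfl⟩
  let A' : Fin (m + 1) → Γ := fun j => ⟨A j, hAΓ j⟩
  have hgen : Subgroup.closure (Set.range A') = ⊤ := by
    have := Subgroup.closure_closure_coe_preimage (k := Set.range A)
    rw [← this]
    congr 1
    ext x
    constructor
    · rintro ⟨j, rfl⟩; exact ⟨j, rfl⟩
    · rintro ⟨j, hj⟩; exact ⟨j, Subtype.ext hj⟩
  have hengA : ∀ j, Eng (n + 2) (A j) := by
    intro j
    apply Eng.pi
    intro s
    refine Fin.lastCases ?_ (fun j => ?_) j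
    · have : A (Fin.last m) s = inl (D s).μ := by simp [A]
      rw [this]
      exact (eng_inl _ _).mono (by omega)
    · have : A j.castSucc s = inr ((D s).a j) := by simp [A]
      rw [this]
      exact ((D s).eng j).mono (by omega)
  have hengA' : ∀ j, Eng (n + 2) (A' j) := fun j =>
    Eng.of_injective Γ.subtype (Subgroup.subtype_injective Γ) (hengA j)
  let ρ : ∀ s, Γ →* Module.End ℚ ((ℚ ⊗[ℤ] Additive (D s).M) × ℚ) := fun s =>
    (affRep (D s).φ).comp ((Pi.evalMonoidHom P s).comp Γ.subtype)
  obtain ⟨c, hc⟩ := group_unipotent_class A' hgen (n + 2) hengA'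
    (fun s => (ℚ ⊗[ℤ] Additive (D s).M) × ℚ) ρ (by
      intro s
      obtain ⟨N, hN⟩ := (D s).uni
      refine ⟨N + 1, fun l hl => ?_⟩
      have := affRep_unipotent (D s).φ N hN (l.map (fun g : Γ => (g : ∀ s, P s) s)) (by simpa using hl)
      rw [List.map_map] at this
      exact this)
  -- coordinate `c`
  have hK : ∀ k : (D c).K, ∃ γ : Γ, (γ : ∀ s, P s) c = inr k := by
    intro k
    have hk : k ∈ Subgroup.closure (Set.range (D c).a) := by rw [(D c).gen]; trivial
    have : Subgroup.closure (Set.range (D c).a) ≤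
        (Γ.map (Pi.evalMonoidHom P c)).comap (inr : (D c).K →* (D c).M ⋊[(D c).φ] (D c).K) := by
      rw [Subgroup.closure_le]
      rintro _ ⟨j, rfl⟩
      refine ⟨A j.castSucc, hAΓ _, ?_⟩
      simp [A]
    obtain ⟨γ, hγ, h2⟩ := this hk
    exact ⟨⟨γ, hγ⟩, h2⟩
  have key : ∀ l : List (D c).K, ∃ g ∈ (⊤ : Subgroup Γ).lowerCentralSeries l.length,
      (g : ∀ s, P s) c = inl (dl (D c).φ l (D c).μ) := by
    intro l
    induction l with
    | nil =>
      refine ⟨A' (Fin.last m), Subgroup.mem_top _, ?_⟩
      show A (Fin.last m) c = _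
      simp [A]
    | cons k l ih =>
      obtain ⟨g, hg, hg2⟩ := ih
      obtain ⟨γ, hγ⟩ := hK k
      refine ⟨⁅γ, g⁆, ?_, ?_⟩
      · rw [List.length_cons, Subgroup.lowerCentralSeries_succ, Subgroup.commutator_comm]
        exact Subgroup.commutator_mem_commutator (Subgroup.mem_top _) hg
      · rw [commutatorElement_def]
        show (γ : ∀ s, P s) c * (g : ∀ s, P s) c * ((γ : ∀ s, P s) c)⁻¹ * ((g : ∀ s, P s) c)⁻¹ = _
        rw [hγ, hg2, dl_cons, dHom_apply, map_mul, map_inv, SemidirectProduct.inl_aut, map_inv]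
  obtain ⟨g, hg, hg2⟩ := key (D c).l
  rw [(D c).hl] at hg
  have h1 := hc c g hg
  have h2 : affRep (D c).φ (inl (dl (D c).φ (D c).l (D c).μ)) = 1 := by
    rw [← hg2]; exact h1
  have h3 := congrArg (fun f => (f ((0 : ℚ ⊗[ℤ] Additive (D c).M), (1 : ℚ))).1) h2
  simp only [affRep_apply, Module.End.one_apply, map_zero, zero_add, one_smul, left_inl] at h3
  exact (D c).hμ (iotaV_injective (D c).tf _ h3)

/-- **Uniform bound.** -/
theorem nb (m n : ℕ) : ∃ f : ℕ, ∀ (K : Type) [Group K] (a : Fin m → K),
    Subgroup.closure (Set.range a) = ⊤ → (∀ i, Eng n (a i)) → Group.IsNilpotent K →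
    (∀ g : K, ∀ k : ℕ, 0 < k → g ^ k = 1 → g = 1) →
    (⊤ : Subgroup K).lowerCentralSeries f = ⊥ := by
  by_contra hcon
  push Not at hcon
  apply no_dat m n
  intro s
  obtain ⟨K, gK, a, hgen, heng, hnil, htf, hne⟩ := hcon (2 * s + 1)
  exact exists_dat m n s a hgen heng hnil htf hne

end Pool.Agent.Lib.MP_74ab55_al
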