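import Pool.Agent.Lib.MP_74ab55_al.Defs

/-!
# Finitely generated torsion free nilpotent groups have unipotent rational representations

Nontrivial elements of a finitely generated torsion free nilpotent group are detected by a
power of the augmentation ideal of the rational group algebra.
-/

set_option autoImplicit false

universe u v

namespace Pool.Agent.Lib.MP_74ab55_al

namespace Emb

open MonoidAlgebra
open scoped commutatorElement



/-- Products of elements of the group algebra, of total weight at least `w`. -/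
inductive Wt {M : Type*} [Group M] (F : ℕ → Subgroup M) : ℕ → MonoidAlgebra ℚ M → Prop
  | one : Wt F 0 1
  | mono {v w : ℕ} {x : MonoidAlgebra ℚ M} (h : v ≤ w) : Wt F w x → Wt F v x
  | mulg (m : M) {w : ℕ} {x : MonoidAlgebra ℚ M} : Wt F w x → Wt F w (of ℚ M m * x)
  | mul {m : M} {j : ℕ} (hm : m ∈ F j) {w : ℕ} {x : MonoidAlgebra ℚ M} :
      Wt F w x → Wt F (j + w) ((of ℚ M m - 1) * x)

/-- The weight filtration. -/
noncomputable def E {M : Type*} [Group M] (F : ℕ → Subgroup M) (w : ℕ) : Submodule ℚ (MonoidAlgebra ℚ M) :=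
  Submodule.span ℚ {x | Wt F w x}

section
variable {M : Type*} [Group M] {F : ℕ → Subgroup M}

theorem Wt.mem {w : ℕ} {x : MonoidAlgebra ℚ M} (h : Wt F w x) : x ∈ E F w :=
  Submodule.subset_span h

theorem Wt.mul' {v w : ℕ} {x y : MonoidAlgebra ℚ M} (hx : Wt F v x) (hy : Wt F w y) :
    Wt F (v + w) (x * y) := by
  induction hx with
  | one => simpa using hy
  | mono h _ ih => exact Wt.mono (by omega) ih
  | mulg m _ ih => rw [mul_assoc]; exact Wt.mulg m ih
  | mul hm _ ih => rw [mul_assoc, Nat.add_assoc]; exact Wt.mul hm ih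

theorem E_mul {v w : ℕ} {x y : MonoidAlgebra ℚ M} (hx : x ∈ E F v) (hy : y ∈ E F w) :
    x * y ∈ E F (v + w) := by
  have : E F v * E F w ≤ E F (v + w) := by
    unfold E
    rw [Submodule.span_mul_span]
    refine Submodule.span_mono ?_
    rintro _ ⟨a, ha, b, hb, rfl⟩
    exact Wt.mul' ha hb
  exact this (Submodule.mul_mem_mul hx hy)

theorem E_anti {v w : ℕ} (h : v ≤ w) : E F w ≤ E F v :=
  Submodule.span_mono fun _ hx => Wt.mono h hx

theorem of_mem_E (m : M) : of ℚ M m ∈ E F 0 := by
  have := (Wt.mulg m (Wt.one (F := F))).mem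
  rwa [mul_one] at this

theorem E_zero : E F 0 = ⊤ := by
  rw [eq_top_iff]
  intro x _
  induction x using MonoidAlgebra.induction_on with
  | of m => exact of_mem_E m
  | add x y hx hy => exact Submodule.add_mem _ (hx trivial) (hy trivial)
  | smul r x hx => exact Submodule.smul_mem _ r (hx trivial)

theorem sub_one_mem_E {m : M} {j : ℕ} (hm : m ∈ F j) : of ℚ M m - 1 ∈ E F j := by
  have := (Wt.mul hm (Wt.one (F := F))).mem
  rwa [mul_one, add_zero] at this

theorem E_mul_left {w : ℕ} (x : MonoidAlgebra ℚ M) {y : MonoidAlgebra ℚ M} (hy : y ∈ E F w) :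
    x * y ∈ E F w := by
  have hx : x ∈ E F 0 := by rw [E_zero]; trivial
  simpa using E_mul hx hy

theorem E_mul_right {w : ℕ} (x : MonoidAlgebra ℚ M) {y : MonoidAlgebra ℚ M} (hy : y ∈ E F w) :
    y * x ∈ E F w := by
  have hx : x ∈ E F 0 := by rw [E_zero]; trivial
  simpa using E_mul hy hx

/-- An endomorphism of the group which acts trivially on the factors of the filtration raises
the weight. -/
theorem E_conj (φ : M →* M) (hanti : ∀ j, F (j + 1) ≤ F j)
    (hφ : ∀ j, ∀ m ∈ F j, m⁻¹ * φ m ∈ F (j + 1)) (h01 : F 0 = ⊤) {w : ℕ} {x : MonoidAlgebra ℚ M}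
    (hx : x ∈ E F w) : mapDomainAlgHom ℚ ℚ φ x ∈ E F w ∧ mapDomainAlgHom ℚ ℚ φ x - x ∈ E F (w + 1) := by
  have hof : ∀ m : M, mapDomainAlgHom ℚ ℚ φ (of ℚ M m) = of ℚ M (φ m) := by
    intro m; simp
  have hdiff : ∀ j, ∀ m ∈ F j, of ℚ M (φ m) - of ℚ M m ∈ E F (j + 1) := by
    intro j m hm
    have h1 : of ℚ M (φ m) - of ℚ M m = of ℚ M m * (of ℚ M (m⁻¹ * φ m) - 1) := by
      rw [mul_sub, mul_one, ← map_mul]; congr 2; group
    rw [h1]
    exact E_mul_left _ (sub_one_mem_E (hφ j m hm))
  have key : ∀ w x, Wt F w x → mapDomainAlgHom ℚ ℚ φ x ∈ E F w ∧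
      mapDomainAlgHom ℚ ℚ φ x - x ∈ E F (w + 1) := by
    intro w x hx
    induction hx with
    | one => exact ⟨by rw [map_one]; exact Wt.one.mem, by rw [map_one, sub_self]; exact zero_mem _⟩
    | mono h _ ih => exact ⟨E_anti h ih.1, E_anti (by omega) ih.2⟩
    | @mulg m w x hx ih =>
      refine ⟨?_, ?_⟩
      · rw [map_mul]; exact E_mul_left _ ih.1
      · have : mapDomainAlgHom ℚ ℚ φ (of ℚ M m * x) - of ℚ M m * x =
            of ℚ M (φ m) * (mapDomainAlgHom ℚ ℚ φ x - x) + (of ℚ M (φ m) - of ℚ M m) * x := by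
          rw [map_mul, hof]; noncomm_ring
        rw [this]
        refine Submodule.add_mem _ (E_mul_left _ ih.2) ?_
        have h2 := E_mul (hdiff 0 m (by rw [h01]; trivial)) hx.mem
        rwa [show 0 + 1 + w = w + 1 by omega] at h2
    | @mul m j hm w x hx ih =>
      have hφm : φ m ∈ F j := by
        have h3 := hanti j (hφ j m hm)
        have h4 := mul_mem hm h3
        rwa [mul_inv_cancel_left] at h4
      refine ⟨?_, ?_⟩
      · rw [map_mul, map_sub, map_one, hof]; exact E_mul (sub_one_mem_E hφm) ih.1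
      · have : mapDomainAlgHom ℚ ℚ φ ((of ℚ M m - 1) * x) - (of ℚ M m - 1) * x =
            (of ℚ M (φ m) - 1) * (mapDomainAlgHom ℚ ℚ φ x - x) +
              (of ℚ M (φ m) - of ℚ M m) * x := by
          rw [map_mul, map_sub, map_one, hof]; noncomm_ring
        rw [this]
        refine Submodule.add_mem _ ?_ ?_
        · have h2 := E_mul (sub_one_mem_E hφm) ih.2
          rwa [← add_assoc] at h2
        · have h2 := E_mul (hdiff j m hm) hx.mem
          rwa [show j + 1 + w = j + w + 1 by omega] at h2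
  refine Submodule.span_induction (p := fun x _ => mapDomainAlgHom ℚ ℚ φ x ∈ E F w ∧
      mapDomainAlgHom ℚ ℚ φ x - x ∈ E F (w + 1)) (fun x hx => key w x hx) ?_ ?_ ?_ hx
  · simp
  · intro x y _ _ h1 h2
    refine ⟨?_, ?_⟩
    · rw [map_add]; exact add_mem h1.1 h2.1
    · rw [map_add, add_sub_add_comm]; exact add_mem h1.2 h2.2
  · intro a x _ h1
    refine ⟨?_, ?_⟩
    · rw [map_smul]; exact Submodule.smul_mem _ _ h1.1
    · rw [map_smul, ← smul_sub]; exact Submodule.smul_mem _ _ h1.2

end

/-- The trivial filtration, giving the powers of the augmentation ideal. -/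
def F01 (M : Type*) [Group M] (j : ℕ) : Subgroup M := if j ≤ 1 then ⊤ else ⊥

theorem E_le_DD {M : Type*} [Group M] {F : ℕ → Subgroup M} {C : ℕ} (hC0 : 0 < C)
    (hC : ∀ j, C ≤ j → F j = ⊥) (n : ℕ) : E F (C * n) ≤ E (F01 M) n := by
  have key : ∀ v x, Wt F v x → ∃ k, v ≤ C * k ∧ x ∈ E (F01 M) k := by
    intro v x hx
    induction hx with
    | one => exact ⟨0, by omega, Wt.one.mem⟩
    | mono h _ ih => obtain ⟨k, hk, hx⟩ := ih; exact ⟨k, by omega, hx⟩
    | mulg m _ ih => obtain ⟨k, hk, hx⟩ := ih; exact ⟨k, hk, E_mul_left _ hx⟩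
    | @mul m j hm w x hx ih =>
      obtain ⟨k, hk, hx⟩ := ih
      by_cases hj : C ≤ j
      · have hm1 : m = 1 := by rw [hC j hj] at hm; simpa using hm
        refine ⟨j + w, Nat.le_mul_of_pos_left _ hC0, ?_⟩
        rw [hm1, map_one, sub_self, zero_mul]
        exact zero_mem _
      · refine ⟨1 + k, by rw [Nat.mul_add]; omega, ?_⟩
        exact E_mul (sub_one_mem_E (by simp [F01])) hx
  refine Submodule.span_le.2 ?_
  intro x hx
  obtain ⟨k, hk, hx⟩ := key _ x hx
  exact E_anti (Nat.le_of_mul_le_mul_left hk hC0) hx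

/-- Nontrivial elements of the group are detected by powers of the augmentation ideal of the
rational group algebra. -/
def Det (G : Type*) [Group G] : Prop := ∀ z : G, z ≠ 1 → ∃ n, of ℚ G z - 1 ∉ E (F01 G) n

/-- Images of the powers of the augmentation ideal. -/
theorem map_DD {G H : Type*} [Group G] [Group H] (f : G →* H) {n : ℕ} {x : MonoidAlgebra ℚ G}
    (hx : x ∈ E (F01 G) n) : mapDomainAlgHom ℚ ℚ f x ∈ E (F01 H) n := by
  have key : ∀ w x, Wt (F01 G) w x → mapDomainAlgHom ℚ ℚ f x ∈ E (F01 H) w := by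
    intro w x hx
    induction hx with
    | one => rw [map_one]; exact Wt.one.mem
    | mono h _ ih => exact E_anti h ih
    | mulg m _ ih => rw [map_mul]; exact E_mul_left _ ih
    | @mul m j hm w x hx ih =>
      rw [map_mul, map_sub, map_one]
      have : mapDomainAlgHom ℚ ℚ f (of ℚ G m) = of ℚ H (f m) := by simp
      rw [this]
      refine E_mul (sub_one_mem_E ?_) ih
      unfold F01 at hm ⊢
      split_ifs with h
      · trivial
      · rw [if_neg h] at hm
        have : m = 1 := by simpa using hm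
        rw [this, map_one]; exact one_mem _
  refine Submodule.span_induction (p := fun x _ => mapDomainAlgHom ℚ ℚ f x ∈ E (F01 H) n)
    (fun x hx => key n x hx) ?_ ?_ ?_ hx
  · rw [map_zero]; exact zero_mem _
  · intro x y _ _ h1 h2
    rw [map_add]; exact add_mem h1 h2
  · intro a x _ h1
    rw [map_smul]; exact Submodule.smul_mem _ _ h1

theorem exists_of_map {G H : Type*} [Group G] [Group H] (f : G →* H) (hH : Det H) {z : G}
    (hz : f z ≠ 1) : ∃ n, of ℚ G z - 1 ∉ E (F01 G) n := by
  obtain ⟨n, hn⟩ := hH _ hz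
  refine ⟨n, fun h => hn ?_⟩
  have h1 := map_DD f h
  have h2 : mapDomainAlgHom ℚ ℚ f (of ℚ G z) = of ℚ H (f z) := by simp
  rwa [map_sub, map_one, h2] at h1

theorem Det.of_injective {G H : Type*} [Group G] [Group H] (f : G →* H)
    (hf : Function.Injective f) (hH : Det H) : Det G := fun z hz =>
  exists_of_map f hH fun h => hz (hf (by rw [h, map_one]))

/-- The group `ℤ`. -/
theorem det_int : Det (Multiplicative ℤ) := by
  intro z hz
  refine ⟨2, fun h => hz ?_⟩
  let g : Multiplicative ℤ →* DualNumber ℚ :=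
    { toFun := fun z => 1 + (z.toAdd : ℚ) • DualNumber.eps
      map_one' := by simp
      map_mul' := by
        intro a b
        rw [toAdd_mul, Int.cast_add, add_smul, add_mul, one_mul, mul_add, mul_one, smul_mul_smul_comm,
          DualNumber.eps_mul_eps, smul_zero, add_zero]
        abel }
  let θ : MonoidAlgebra ℚ (Multiplicative ℤ) →ₐ[ℚ] DualNumber ℚ := MonoidAlgebra.lift ℚ _ _ g
  have hθ : ∀ m, θ (of ℚ _ m) = 1 + (m.toAdd : ℚ) • DualNumber.eps := fun m =>
    MonoidAlgebra.lift_of g m
  let I : Ideal (DualNumber ℚ) := Ideal.span {DualNumber.eps}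
  have hI : ∀ r : ℚ, r • (DualNumber.eps : DualNumber ℚ) ∈ I := fun r => by
    rw [Algebra.smul_def]
    exact Ideal.mul_mem_left _ _ (Ideal.subset_span rfl)
  have key : ∀ w x, Wt (F01 (Multiplicative ℤ)) w x → θ x ∈ I ^ w := by
    intro w x hx
    induction hx with
    | one => simp
    | mono h _ ih => exact Ideal.pow_le_pow_right h ih
    | mulg m _ ih => rw [map_mul]; exact Ideal.mul_mem_left _ _ ih
    | @mul m j hm w x hx ih =>
      rw [map_mul]
      have h0 : θ (of ℚ (Multiplicative ℤ) m - 1) ∈ I ^ j := by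
        rw [map_sub, map_one, hθ, add_sub_cancel_left]
        unfold F01 at hm
        split_ifs at hm with h1
        · refine Ideal.pow_le_pow_right h1 ?_
          have h5 : I ^ 1 = I := pow_one I
          rw [h5]
          exact hI _
        · have : m = 1 := by simpa using hm
          rw [this]
          simp
      have h2 := Ideal.mul_mem_mul h0 ih
      have h3 : I ^ (j + w) = I ^ j * I ^ w := pow_add I j w
      rw [h3]
      exact h2
  have h2 : θ (of ℚ (Multiplicative ℤ) z - 1) ∈ I ^ 2 := by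
    have hle : E (F01 (Multiplicative ℤ)) 2 ≤
        ((I ^ 2).restrictScalars ℚ).comap θ.toLinearMap := by
      refine Submodule.span_le.2 fun x hx => key 2 x hx
    exact hle h
  have hI2 : I ^ 2 = ⊥ := by
    rw [Ideal.span_singleton_pow, pow_two, DualNumber.eps_mul_eps]
    simp
  rw [hI2, map_sub, map_one, hθ, add_sub_cancel_left] at h2
  have h3 := congrArg TrivSqZeroExt.snd ((Submodule.mem_bot _).1 h2)
  simpa using h3

/-- Elements outside the kernel of a homomorphism to `ℤ` are detected. -/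
theorem exists_of_int {G : Type*} [Group G] (χ : G →* Multiplicative ℤ) {z : G} (hz : χ z ≠ 1) :
    ∃ n, of ℚ G z - 1 ∉ E (F01 G) n := exists_of_map χ det_int hz

/-- Extension by an infinite cyclic group. -/
theorem det_step {G : Type*} [Group G] [Group.IsNilpotent G] (χ : G →* Multiplicative ℤ) (t : G)
    (ht : χ t = Multiplicative.ofAdd 1) (hM : Det χ.ker) : Det G := by
  intro z hz
  by_cases hzχ : χ z = 1
  swap
  · exact exists_of_int χ hzχ
  obtain ⟨c, hc⟩ := Subgroup.nilpotent_iff_lowerCentralSeries.1 (inferInstance : Group.IsNilpotent G)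
  let F : ℕ → Subgroup χ.ker := fun j => ((⊤ : Subgroup G).lowerCentralSeries (j - 1)).subgroupOf χ.ker
  have hF0 : F 0 = ⊤ := by simp [F]
  have hF1 : F 1 = ⊤ := by simp [F]
  have hanti : ∀ j, F (j + 1) ≤ F j := by
    intro j
    refine Subgroup.comap_mono ?_
    exact Subgroup.lowerCentralSeries_antitone _ (by omega)
  have hFC : ∀ j, c + 1 ≤ j → F j = ⊥ := by
    intro j hj
    have : (⊤ : Subgroup G).lowerCentralSeries (j - 1) = ⊥ := by
      rw [eq_bot_iff, ← hc]
      exact Subgroup.lowerCentralSeries_antitone _ (by omega)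
    simp [F, this]
  -- conjugation
  let cj : G → (χ.ker →* χ.ker) := fun k => ((MulAut.conjNormal k : MulAut χ.ker) : χ.ker →* χ.ker)
  have hcj : ∀ k (m : χ.ker), ((cj k m : χ.ker) : G) = k * m * k⁻¹ := fun k m => by
    simp [cj]
  have hcjF : ∀ k j, ∀ m ∈ F j, m⁻¹ * cj k m ∈ F (j + 1) := by
    intro k j m hm
    rcases Nat.eq_zero_or_pos j with rfl | hj
    · rw [hF1]; trivial
    · obtain ⟨i, rfl⟩ : ∃ i, j = i + 1 := ⟨j - 1, by omega⟩
      change ((m⁻¹ * cj k m : χ.ker) : G) ∈ (⊤ : Subgroup G).lowerCentralSeries (i + 1)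
      have hm' : (m : G) ∈ (⊤ : Subgroup G).lowerCentralSeries i := hm
      rw [Subgroup.lowerCentralSeries_succ]
      have : ((m⁻¹ * cj k m : χ.ker) : G) = ⁅((m : G)⁻¹), k⁆ := by
        rw [Subgroup.coe_mul, hcj, commutatorElement_def]; simp [mul_assoc]
      rw [this]
      exact Subgroup.commutator_mem_commutator (inv_mem hm') (Subgroup.mem_top k)
  -- the retraction
  let e : G → ℤ := fun g => (χ g).toAdd
  have he : ∀ g, χ g = Multiplicative.ofAdd (e g) := fun g => rfl
  have hem : ∀ g h, e (g * h) = e g + e h := fun g h => by simp [e]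
  have hτ : ∀ g, g * (t ^ e g)⁻¹ ∈ χ.ker := by
    intro g
    rw [MonoidHom.mem_ker, map_mul, map_inv, map_zpow, ht, he, ← ofAdd_zsmul]
    simp
  let τ : G → χ.ker := fun g => ⟨g * (t ^ e g)⁻¹, hτ g⟩
  let π : MonoidAlgebra ℚ G →ₗ[ℚ] MonoidAlgebra ℚ χ.ker := mapDomainLinearMap ℚ ℚ τ
  have hπof : ∀ g, π (of ℚ G g) = of ℚ _ (τ g) := fun g => by simp [π]
  have hτm : ∀ g h, τ (g * h) = τ g * cj (t ^ e g) (τ h) := by
    intro g h
    apply Subtype.ext
    rw [Subgroup.coe_mul, hcj]
    simp only [τ, hem, zpow_add]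
    group
  have hπmul : ∀ g b, π (of ℚ G g * b) = of ℚ _ (τ g) * mapDomainAlgHom ℚ ℚ (cj (t ^ e g)) (π b) := by
    intro g b
    induction b using MonoidAlgebra.induction_on with
    | of h =>
      rw [← map_mul, hπof, hπof, hτm, map_mul]
      simp
    | add x y hx hy => rw [mul_add, map_add, hx, hy, map_add, map_add, mul_add]
    | smul r x hx => rw [mul_smul_comm, map_smul, hx, map_smul, map_smul, mul_smul_comm]
  have hstep : ∀ g w b, π b ∈ E F w → π ((of ℚ G g - 1) * b) ∈ E F (w + 1) := by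
    intro g w b hb
    obtain ⟨h1, h2⟩ := E_conj (cj (t ^ e g)) hanti (hcjF _) hF0 hb
    have h3 : π ((of ℚ G g - 1) * b) = (of ℚ _ (τ g) - 1) *
        mapDomainAlgHom ℚ ℚ (cj (t ^ e g)) (π b) +
          (mapDomainAlgHom ℚ ℚ (cj (t ^ e g)) (π b) - π b) := by
      rw [sub_mul, one_mul, map_sub, hπmul]; noncomm_ring
    rw [h3]
    refine add_mem ?_ h2
    have h4 := E_mul (sub_one_mem_E (F := F) (m := τ g) (j := 1) (by rw [hF1]; trivial)) h1
    rwa [add_comm] at h4
  have hπ : ∀ w x, Wt (F01 G) w x → π x ∈ E F w := by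
    intro w x hx
    induction hx with
    | one => rw [E_zero]; trivial
    | mono h _ ih => exact E_anti h ih
    | mulg m _ ih =>
      rw [hπmul]
      exact E_mul_left _ (E_conj (cj (t ^ e m)) hanti (hcjF _) hF0 ih).1
    | @mul m j hm w x hx ih =>
      unfold F01 at hm
      split_ifs at hm with h1
      · have h2 := hstep m w x ih
        exact E_anti (by omega) h2
      · have : m = 1 := by simpa using hm
        rw [this, map_one, sub_self, zero_mul, map_zero]
        exact zero_mem _
  have hπE : ∀ n x, x ∈ E (F01 G) n → π x ∈ E F n := by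
    intro n x hx
    have hle : E (F01 G) n ≤ (E F n).comap π := Submodule.span_le.2 fun x hx => hπ n x hx
    exact hle hx
  obtain ⟨n, hn⟩ := hM ⟨z, hzχ⟩ (fun h => hz (congrArg Subtype.val h))
  refine ⟨(c + 1) * n, fun h => hn ?_⟩
  have h1 := E_le_DD (Nat.succ_pos c) hFC n (hπE _ _ h)
  have hez : e z = 0 := by simp [e, hzχ]
  have h2 : τ z = ⟨z, hzχ⟩ := by
    apply Subtype.ext
    simp [τ, hez]
  have h3 : τ 1 = 1 := by
    apply Subtype.ext
    simp [τ, e]
  rw [map_sub, hπof, h2] at h1
  have h4 : π 1 = 1 := by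
    have h5 := hπof 1
    rwa [h3, (of ℚ G).map_one, (of ℚ χ.ker).map_one] at h5
  rwa [h4] at h1




/-! ### Subgroups of finitely generated nilpotent groups -/

theorem fg_of_comm {C : Type*} [CommGroup C] [Group.FG C] (H : Subgroup C) : H.FG := by
  have h1 : AddGroup.FG (Additive C) := inferInstance
  have h2 : Module.Finite ℤ (Additive C) := Module.Finite.iff_addGroup_fg.2 h1
  have h3 : IsNoetherian ℤ (Additive C) := inferInstance
  rw [Subgroup.fg_iff_add_fg]
  have h4 := IsNoetherian.noetherian (AddSubgroup.toIntSubmodule H.toAddSubgroup)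
  rwa [Submodule.fg_iff_addSubgroup_fg, AddSubgroup.toIntSubmodule_toAddSubgroup] at h4

theorem fg_map {G H : Type*} [Group G] [Group H] (f : G →* H) {P : Subgroup G} (h : P.FG) :
    (P.map f).FG := by
  classical
  obtain ⟨T, hT⟩ := h
  exact ⟨T.image f, by rw [Finset.coe_image, ← MonoidHom.map_closure, hT]⟩

theorem fg_of_le_center {G : Type*} [Group G] {A B : Subgroup G} (hA : A ≤ Subgroup.center G)
    (hfg : A.FG) (hB : B ≤ A) : B.FG := by
  let _ : CommGroup A := { (inferInstance : Group A) with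
    mul_comm := fun a b => Subtype.ext ((Subgroup.mem_center_iff.1 (hA a.2) b).symm) }
  have : Group.FG A := (Group.fg_iff_subgroup_fg A).2 hfg
  have h1 : (B.subgroupOf A).FG := fg_of_comm _
  have h2 : (B.subgroupOf A).map A.subtype = B := by
    rw [Subgroup.subgroupOf_map_subtype]; exact inf_eq_left.2 hB
  rw [← h2]
  exact fg_map A.subtype h1

theorem exists_lift {G H : Type*} [Group G] [Group H] (f : G →* H) (P : Subgroup G)
    (h : (P.map f).FG) : ∃ T : Finset G, (T : Set G) ⊆ P ∧ P ≤ Subgroup.closure (T : Set G) ⊔ f.ker := by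
  classical
  obtain ⟨T', hT'⟩ := h
  have h1 : (T' : Set H) ⊆ f '' (P : Set G) := by
    have : (T' : Set H) ⊆ P.map f := by rw [← hT']; exact Subgroup.subset_closure
    simpa using this
  obtain ⟨T, hT, hTT⟩ := Finset.subset_set_image_iff.1 h1
  refine ⟨T, hT, ?_⟩
  intro p hp
  have h2 : f p ∈ (Subgroup.closure (T : Set G)).map f := by
    rw [MonoidHom.map_closure, ← Finset.coe_image, hTT, hT']
    exact Subgroup.mem_map_of_mem f hp
  obtain ⟨u, hu, hup⟩ := h2
  have h3 : u⁻¹ * p ∈ f.ker := by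
    rw [MonoidHom.mem_ker, map_mul, map_inv, hup, inv_mul_cancel]
  have h4 := Subgroup.mul_mem_sup hu h3
  rwa [mul_inv_cancel_left] at h4

theorem fg_of_quot {G H : Type*} [Group G] [Group H] (f : G →* H) (P : Subgroup G)
    (h1 : (P.map f).FG) (h2 : (P ⊓ f.ker).FG) : P.FG := by
  classical
  obtain ⟨T, hT, hPT⟩ := exists_lift f P h1
  obtain ⟨S, hS⟩ := h2
  refine ⟨T ∪ S, ?_⟩
  apply le_antisymm
  · rw [Subgroup.closure_le, Finset.coe_union, Set.union_subset_iff]
    refine ⟨hT, ?_⟩
    have : (S : Set G) ⊆ (P ⊓ f.ker : Subgroup G) := by rw [← hS]; exact Subgroup.subset_closure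
    exact this.trans inf_le_left
  · intro p hp
    have h3 := hPT hp
    rw [Subgroup.mem_sup_of_normal_right] at h3
    obtain ⟨u, hu, v, hv, rfl⟩ := h3
    have hvP : v ∈ P := by
      have huP : u ∈ P := (Subgroup.closure_le P).2 hT hu
      have := mul_mem (inv_mem huP) hp
      rwa [inv_mul_cancel_left] at this
    rw [Finset.coe_union, Subgroup.closure_union]
    refine Subgroup.mul_mem_sup hu ?_
    rw [hS]
    exact ⟨hvP, hv⟩

theorem fg_commutator {G : Type*} [Group G] [Group.FG G] (P : Subgroup G) [P.Normal]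
    (hA : ⁅P, (⊤ : Subgroup G)⁆ ≤ Subgroup.center G)
    (hfg : (P.map (QuotientGroup.mk' ⁅P, (⊤ : Subgroup G)⁆)).FG) : ⁅P, (⊤ : Subgroup G)⁆.FG := by
  classical
  obtain ⟨T, hT, hPT⟩ := exists_lift _ P hfg
  rw [QuotientGroup.ker_mk'] at hPT
  obtain ⟨S, hS⟩ := Group.fg_def.1 (inferInstance : Group.FG G)
  let B : Subgroup G := Subgroup.closure ((Finset.image₂ (fun x y => ⁅x, y⁆) T S : Finset G) : Set G)
  have hBA : B ≤ ⁅P, (⊤ : Subgroup G)⁆ := by
    rw [Subgroup.closure_le]
    intro z hz
    obtain ⟨x, hx, y, hy, rfl⟩ := Finset.mem_image₂.1 (Finset.mem_coe.1 hz)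
    exact Subgroup.commutator_mem_commutator (hT hx) (Subgroup.mem_top y)
  have hBc : B ≤ Subgroup.center G := hBA.trans hA
  have hBn : B.Normal := ⟨fun n hn g => by
    have := Subgroup.mem_center_iff.1 (hBc hn) g
    rw [this, mul_inv_cancel_right]
    exact hn⟩
  refine ⟨_, le_antisymm hBA ?_⟩
  have hPZ : P ≤ Subgroup.upperCentralSeriesStep B := by
    refine hPT.trans (sup_le ?_ ?_)
    · rw [Subgroup.closure_le]
      intro x hx y
      have hy : y ∈ Subgroup.closure (S : Set G) := by rw [hS]; trivial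
      induction hy using Subgroup.closure_induction with
      | mem y hy => exact Subgroup.subset_closure (Finset.mem_coe.2 (Finset.mem_image₂_of_mem hx hy))
      | one => rw [commutatorElement_one_right]; exact one_mem _
      | mul a b _ _ ha hb =>
        have : ⁅x, a * b⁆ = ⁅x, a⁆ * (a * ⁅x, b⁆ * a⁻¹) := by
          simp only [commutatorElement_def]; group
        rw [this]
        exact mul_mem ha (hBn.conj_mem _ hb a)
      | inv a _ ha =>
        have : ⁅x, a⁻¹⁆ = a⁻¹ * ⁅x, a⁆⁻¹ * a⁻¹⁻¹ := by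
          simp only [commutatorElement_def]; group
        rw [this]
        exact hBn.conj_mem _ (inv_mem ha) a⁻¹
    · intro a ha y
      have : ⁅a, y⁆ = 1 := by
        rw [commutatorElement_eq_one_iff_mul_comm]
        exact (Subgroup.mem_center_iff.1 (hA ha) y).symm
      rw [this]; exact one_mem _
  rw [Subgroup.commutator_le]
  intro p hp g _
  exact hPZ hp g

theorem subgroup_fg_aux (n : ℕ) : ∀ (G : Type u) [Group G] [Group.FG G],
    (⊤ : Subgroup G).lowerCentralSeries n = ⊥ → ∀ H : Subgroup G, H.FG := by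
  induction n with
  | zero =>
    intro G _ _ h H
    have h1 : (⊤ : Subgroup G) = ⊥ := h
    have : H = ⊥ := le_bot_iff.1 (h1 ▸ le_top)
    rw [this]
    exact Subgroup.FG.bot
  | succ n ih =>
    intro G _ _ h H
    let A : Subgroup G := (⊤ : Subgroup G).lowerCentralSeries n
    have : A.Normal := by dsimp only [A]; infer_instance
    have hA : A ≤ Subgroup.center G := by
      intro a ha
      rw [Subgroup.mem_center_iff]
      intro g
      have h1 : ⁅a, g⁆ ∈ (⊤ : Subgroup G).lowerCentralSeries (n + 1) :=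
        Subgroup.commutator_mem_commutator ha (Subgroup.mem_top g)
      rw [h, Subgroup.mem_bot, commutatorElement_eq_one_iff_mul_comm] at h1
      exact h1.symm
    have hQ : ∀ P : Subgroup (G ⧸ A), P.FG := by
      refine ih (G ⧸ A) ?_
      have h1 := Subgroup.map_lowerCentralSeries (⊤ : Subgroup G) (QuotientGroup.mk' A) n
      rw [Subgroup.map_top_of_surjective _ (QuotientGroup.mk'_surjective A)] at h1
      rw [← h1]
      exact (Subgroup.map_eq_bot_iff _).2 (by rw [QuotientGroup.ker_mk'])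
    have hAfg : A.FG := by
      cases n with
      | zero => exact Group.fg_def.1 (inferInstance : Group.FG G)
      | succ k => exact fg_commutator _ hA (hQ _)
    refine fg_of_quot (QuotientGroup.mk' A) H (hQ _) ?_
    rw [QuotientGroup.ker_mk']
    exact fg_of_le_center hA hAfg inf_le_right

theorem subgroup_fg {G : Type*} [Group G] [Group.FG G] [Group.IsNilpotent G] (H : Subgroup G) :
    H.FG := by
  obtain ⟨c, hc⟩ := Subgroup.nilpotent_iff_lowerCentralSeries.1 (inferInstance : Group.IsNilpotent G)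
  exact subgroup_fg_aux c G hc H

/-- In a torsion free nilpotent group an element with a central power is central. -/
theorem mem_center_of_pow {G : Type*} [Group G] [Group.IsNilpotent G]
    (htf : ∀ g : G, ∀ n : ℕ, 0 < n → g ^ n = 1 → g = 1) {g : G} {n : ℕ} (hn : 0 < n)
    (hg : g ^ n ∈ Subgroup.center G) : g ∈ Subgroup.center G := by
  have key : ∀ i, ∀ x ∈ Subgroup.upperCentralSeries G i, x * g = g * x := by
    intro i
    induction i with
    | zero => intro x hx; have : x = 1 := by simpa using hx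
              rw [this, one_mul, mul_one]
    | succ i ih =>
      intro x hx
      have hy := ih _ (Subgroup.mem_upperCentralSeries_succ_iff.1 hx g)
      have h1 : x * g * x⁻¹ = ⁅x, g⁆ * g := by rw [commutatorElement_def]; group
      have h2 : x * g ^ n * x⁻¹ = ⁅x, g⁆ ^ n * g ^ n := by
        rw [← conj_pow, h1, (show Commute ⁅x, g⁆ g from hy).mul_pow]
      rw [Subgroup.mem_center_iff.1 hg x, mul_inv_cancel_right] at h2
      have h3 : ⁅x, g⁆ ^ n = 1 := by
        have := h2.symm
        rwa [mul_eq_right] at this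
      have h4 := htf _ n hn h3
      rwa [commutatorElement_eq_one_iff_mul_comm] at h4
  obtain ⟨c, hc⟩ := Group.IsNilpotent.nilpotent G
  rw [Subgroup.mem_center_iff]
  intro x
  exact key c x (by rw [hc]; trivial)




/-! ### Assembly -/

open scoped IsMulCommutative in
/-- Extending a detected normal subgroup by one infinite cyclic factor. -/
theorem exists_larger {K : Type*} [Group K] [Group.IsNilpotent K] [Group.FG K] (M : Subgroup K)
    [M.Normal] (htf : ∀ g : K, ∀ n : ℕ, 0 < n → g ^ n ∈ M → g ∈ M) (hM : Det M) (hne : M ≠ ⊤) :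
    ∃ M' : Subgroup K, M'.Normal ∧ M < M' ∧
      (∀ g : K, ∀ n : ℕ, 0 < n → g ^ n ∈ M' → g ∈ M') ∧ Det M' := by
  let q : K →* K ⧸ M := QuotientGroup.mk' M
  have hq : Function.Surjective q := QuotientGroup.mk'_surjective M
  have hq1 : ∀ k, q k = 1 ↔ k ∈ M := fun k => QuotientGroup.eq_one_iff k
  have htfQ : ∀ g : K ⧸ M, ∀ n : ℕ, 0 < n → g ^ n = 1 → g = 1 := by
    intro g n hn hg
    obtain ⟨k, rfl⟩ := hq g
    rw [← map_pow, hq1] at hg
    exact (hq1 k).2 (htf k n hn hg)
  have hnt : Nontrivial (K ⧸ M) := by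
    by_contra h
    rw [not_nontrivial_iff_subsingleton] at h
    exact hne (eq_top_iff.2 fun k _ => (hq1 k).1 (Subsingleton.elim _ _))
  have hZ : (Subgroup.center (K ⧸ M)) ≠ ⊥ := Group.IsNilpotent.center_ne_bot _
  have hZfg : Group.FG (Subgroup.center (K ⧸ M)) := (Group.fg_iff_subgroup_fg (Subgroup.center (K ⧸ M))).2 (subgroup_fg (Subgroup.center (K ⧸ M)))
  have hfin : Module.Finite ℤ (Additive (Subgroup.center (K ⧸ M))) := Module.Finite.iff_addGroup_fg.2 inferInstance
  have htor : Module.IsTorsionFree ℤ (Additive (Subgroup.center (K ⧸ M))) := by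
    rw [Module.isTorsionFree_iff_smul_eq_zero]
    intro n x h
    by_contra hcon
    push Not at hcon
    obtain ⟨hn, hx⟩ := hcon
    have h1 : (n.natAbs : ℕ) • x = 0 := by
      rcases Int.natAbs_eq n with h2 | h2
      · rw [h2, natCast_zsmul] at h; exact h
      · rw [h2, neg_smul, natCast_zsmul, neg_eq_zero] at h; exact h
    have h3 : ((x.toMul : (Subgroup.center (K ⧸ M))) : K ⧸ M) ^ n.natAbs = 1 := by
      have := congrArg (fun y : Additive (Subgroup.center (K ⧸ M)) => ((y.toMul : (Subgroup.center (K ⧸ M))) : K ⧸ M)) h1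
      simpa using this
    have h4 := htfQ _ _ (Int.natAbs_pos.2 hn) h3
    apply hx
    have h5 : x.toMul = 1 := Subtype.ext h4
    exact h5
  let b := Module.Free.chooseBasis ℤ (Additive (Subgroup.center (K ⧸ M)))
  have hne0 : Nonempty (Module.Free.ChooseBasisIndex ℤ (Additive (Subgroup.center (K ⧸ M)))) := by
    by_contra h
    rw [not_nonempty_iff] at h
    apply hZ
    rw [eq_bot_iff]
    intro z hz
    have h1 : Additive.ofMul (⟨z, hz⟩ : (Subgroup.center (K ⧸ M))) = 0 := by
      apply b.repr.injective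
      ext i
      exact h.elim i
    have h2 : (⟨z, hz⟩ : (Subgroup.center (K ⧸ M))) = 1 := h1
    exact congrArg Subtype.val h2
  obtain ⟨i₀⟩ := hne0
  let P0 : Subgroup (Subgroup.center (K ⧸ M)) :=
    { carrier := {z | ∀ j, j ≠ i₀ → b.repr (Additive.ofMul z) j = 0}
      mul_mem' := by
        intro x y hx hy j hj
        rw [ofMul_mul, map_add, Finsupp.add_apply, hx j hj, hy j hj, add_zero]
      one_mem' := by
        intro j _
        rw [ofMul_one, map_zero, Finsupp.zero_apply]
      inv_mem' := by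
        intro x hx j hj
        rw [ofMul_inv, map_neg, Finsupp.neg_apply, hx j hj, neg_zero] }
  let P : Subgroup (K ⧸ M) := P0.map (Subgroup.center (K ⧸ M)).subtype
  have hPZ : P ≤ (Subgroup.center (K ⧸ M)) := by rintro _ ⟨z, _, rfl⟩; exact z.2
  have hPmem : ∀ z : (Subgroup.center (K ⧸ M)), (z : K ⧸ M) ∈ P ↔ z ∈ P0 := by
    intro z
    constructor
    · rintro ⟨y, hy, hyz⟩
      have : y = z := Subtype.ext hyz
      rwa [this] at hy
    · intro h
      exact ⟨z, h, rfl⟩
  have hPn : P.Normal := ⟨fun n hn g => by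
    have := Subgroup.mem_center_iff.1 (hPZ hn) g
    rw [this, mul_inv_cancel_right]
    exact hn⟩
  let M' : Subgroup K := P.comap q
  have hMM' : M ≤ M' := by
    intro m hm
    change q m ∈ P
    rw [(hq1 m).2 hm]; exact one_mem _
  obtain ⟨t, ht⟩ := hq (((b i₀).toMul : (Subgroup.center (K ⧸ M))) : K ⧸ M)
  have htP0 : (b i₀).toMul ∈ P0 := by
    intro j hj
    rw [ofMul_toMul, Module.Basis.repr_self, Finsupp.single_eq_of_ne hj]
  have htM' : t ∈ M' := by
    change q t ∈ P
    rw [ht, hPmem]; exact htP0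
  have htM : t ∉ M := by
    intro h
    rw [← hq1, ht] at h
    have h1 : (b i₀).toMul = 1 := Subtype.ext h
    have h2 : b i₀ = 0 := h1
    exact b.ne_zero i₀ h2
  have hMP : ∀ m : M', q m ∈ (Subgroup.center (K ⧸ M)) := fun m => hPZ m.2
  let f : M' →* (Subgroup.center (K ⧸ M)) := (q.comp M'.subtype).codRestrict (Subgroup.center (K ⧸ M)) hMP
  have hf : ∀ m : M', ((f m : (Subgroup.center (K ⧸ M))) : K ⧸ M) = q m := fun m => rfl
  have hfP0 : ∀ m : M', f m ∈ P0 := fun m => (hPmem _).1 m.2
  let χ : M' →* Multiplicative ℤ :=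
    { toFun := fun m => Multiplicative.ofAdd (b.repr (Additive.ofMul (f m)) i₀)
      map_one' := by
        rw [map_one, ofMul_one, map_zero, Finsupp.zero_apply, ofAdd_zero]
      map_mul' := by
        intro x y
        rw [map_mul, ofMul_mul, map_add, Finsupp.add_apply, ofAdd_add] }
  have hχt : χ ⟨t, htM'⟩ = Multiplicative.ofAdd 1 := by
    have h1 : f ⟨t, htM'⟩ = (b i₀).toMul := Subtype.ext ht
    change Multiplicative.ofAdd (b.repr (Additive.ofMul (f ⟨t, htM'⟩)) i₀) = _
    rw [h1, ofMul_toMul, Module.Basis.repr_self, Finsupp.single_eq_same]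
  have hker : ∀ m : M', χ m = 1 → (m : K) ∈ M := by
    intro m hm
    rw [← hq1]
    have h1 : Additive.ofMul (f m) = 0 := by
      apply b.repr.injective
      ext j
      rw [map_zero, Finsupp.zero_apply]
      by_cases hj : j = i₀
      · rw [hj]
        exact Multiplicative.ofAdd.injective hm
      · exact hfP0 m j hj
    have h2 : f m = 1 := h1
    rw [← hf, h2]; rfl
  let g : χ.ker →* M := (M'.subtype.comp χ.ker.subtype).codRestrict M
    (fun m => hker m.1 ((MonoidHom.mem_ker).1 m.2))
  have hg : Function.Injective g := by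
    intro x y hxy
    have h1 : ((g x : M) : K) = ((g y : M) : K) := by rw [hxy]
    exact Subtype.ext (Subtype.ext h1)
  refine ⟨M', Subgroup.Normal.comap hPn q, lt_of_le_of_ne hMM' (fun h => htM (h ▸ htM')), ?_,
    det_step χ ⟨t, htM'⟩ hχt (hM.of_injective g hg)⟩
  intro k n hn hk
  have h1 : q k ^ n ∈ P := by rw [← map_pow]; exact hk
  have h2 : q k ∈ (Subgroup.center (K ⧸ M)) := mem_center_of_pow htfQ hn (hPZ h1)
  change q k ∈ P
  rw [show q k = ((⟨q k, h2⟩ : (Subgroup.center (K ⧸ M))) : K ⧸ M) from rfl, hPmem]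
  intro j hj
  have h3 : (⟨q k, h2⟩ : (Subgroup.center (K ⧸ M))) ^ n ∈ P0 := by
    rw [← hPmem]
    exact h1
  have h4 := h3 j hj
  rw [ofMul_pow, map_nsmul, Finsupp.smul_apply, smul_eq_zero] at h4
  exact h4.resolve_left (by omega)

/-- Finitely generated torsion free nilpotent groups are detected. -/
theorem det_of_fg {K : Type*} [Group K] [Group.IsNilpotent K] [Group.FG K]
    (htf : ∀ g : K, ∀ n : ℕ, 0 < n → g ^ n = 1 → g = 1) : Det K := by
  let S : Set (Subgroup K) := {M | M.Normal ∧ (∀ g : K, ∀ n : ℕ, 0 < n → g ^ n ∈ M → g ∈ M) ∧ Det M}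
  have hbot : (⊥ : Subgroup K) ∈ S := by
    refine ⟨inferInstance, ?_, ?_⟩
    · intro g n hn hg
      exact htf g n hn hg
    · intro z hz
      exact absurd (Subsingleton.elim z 1) hz
  obtain ⟨M, -, hM⟩ := zorn_le_nonempty₀ S (by
    intro c hcS hc y hy
    refine ⟨sSup c, ?_, fun z hz => le_sSup hz⟩
    obtain ⟨T, hT⟩ := subgroup_fg (sSup c)
    have h1 : ∀ T : Finset K, (T : Set K) ⊆ (sSup c : Subgroup K) → ∃ X ∈ c, (T : Set K) ⊆ X := by
      intro T
      classical
      induction T using Finset.induction_on with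
      | empty => intro _; exact ⟨y, hy, by simp⟩
      | insert a T _ ih =>
        intro hT
        rw [Finset.coe_insert, Set.insert_subset_iff] at hT
        obtain ⟨X, hX, hTX⟩ := ih hT.2
        obtain ⟨Y, hY, haY⟩ := (Subgroup.mem_sSup_of_directedOn ⟨y, hy⟩ hc.directedOn).1 hT.1
        rcases hc.total hX hY with h | h
        · refine ⟨Y, hY, ?_⟩
          rw [Finset.coe_insert, Set.insert_subset_iff]
          exact ⟨haY, hTX.trans h⟩
        · refine ⟨X, hX, ?_⟩
          rw [Finset.coe_insert, Set.insert_subset_iff]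
          exact ⟨h haY, hTX⟩
    obtain ⟨X, hX, hTX⟩ := h1 T (by rw [← hT]; exact Subgroup.subset_closure)
    have h2 : sSup c = X := by
      apply le_antisymm
      · rw [← hT, Subgroup.closure_le]; exact hTX
      · exact le_sSup hX
    rw [h2]
    exact hcS hX) ⊥ hbot
  obtain ⟨hMS, hmax⟩ := hM
  obtain ⟨hMn, hMtf, hMd⟩ := hMS
  have htop : M = ⊤ := by
    by_contra hne
    obtain ⟨M', h1, h2, h3, h4⟩ := exists_larger M hMtf hMd hne
    exact absurd (hmax ⟨h1, h3, h4⟩ h2.le) (not_le_of_gt h2)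
  subst htop
  exact hMd.of_injective (Subgroup.topEquiv (G := K)).symm.toMonoidHom
    (MulEquiv.injective (Subgroup.topEquiv (G := K)).symm)

/-- The representation on the quotient of the group algebra. -/
theorem exists_rep {K : Type u} [Group K] (h : Det K) {z : K} (hz : z ≠ 1) :
    ∃ (W : Type u) (_ : AddCommGroup W) (_ : Module ℚ W) (_ : Countable K → Countable W)
      (ρ : K →* Module.End ℚ W) (N : ℕ),
      (∀ l : List K, l.length = N → (l.map (fun g => ρ g - 1)).prod = 0) ∧ ρ z ≠ 1 := by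
  obtain ⟨n, hn⟩ := h z hz
  let A := MonoidAlgebra ℚ K
  let D : Submodule ℚ A := E (F01 K) n
  let L : K → (A →ₗ[ℚ] A) := fun g => LinearMap.mulLeft ℚ (of ℚ K g)
  have hL : ∀ g, D ≤ D.comap (L g) := fun g x hx => E_mul_left _ hx
  let ρ : K →* Module.End ℚ (A ⧸ D) :=
    { toFun := fun g => D.mapQ D (L g) (hL g)
      map_one' := by
        apply LinearMap.ext
        intro x
        obtain ⟨x, rfl⟩ := Submodule.mkQ_surjective D x
        simp only [Submodule.mkQ_apply, Submodule.mapQ_apply, Module.End.one_apply, L,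
          LinearMap.mulLeft_apply, (of ℚ K).map_one, one_mul]
      map_mul' := by
        intro g h
        apply LinearMap.ext
        intro x
        obtain ⟨x, rfl⟩ := Submodule.mkQ_surjective D x
        simp only [Submodule.mkQ_apply, Submodule.mapQ_apply, Module.End.mul_apply, L,
          LinearMap.mulLeft_apply, map_mul, mul_assoc] }
  have hρ : ∀ g x, ρ g (D.mkQ x) = D.mkQ (of ℚ K g * x) := fun g x => rfl
  have hprod : ∀ l : List K, ∀ x, (l.map (fun g => ρ g - 1)).prod (D.mkQ x) =
      D.mkQ ((l.map (fun g => of ℚ K g - 1)).prod * x) := by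
    intro l
    induction l with
    | nil => intro x; simp
    | cons g l ih =>
      intro x
      rw [List.map_cons, List.prod_cons, Module.End.mul_apply, ih, LinearMap.sub_apply, hρ,
        Module.End.one_apply, List.map_cons, List.prod_cons, ← map_sub, sub_mul, sub_mul, one_mul,
        mul_assoc]
  refine ⟨A ⧸ D, inferInstance, inferInstance, ?_, ρ, n, ?_, ?_⟩
  · intro hK
    have h1 : Countable A := (MonoidAlgebra.coeffEquiv (R := ℚ) (M := K)).injective.countable
    exact (Submodule.mkQ_surjective D).countable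
  · intro l hl
    apply LinearMap.ext
    intro x
    obtain ⟨x, rfl⟩ := Submodule.mkQ_surjective D x
    rw [hprod, LinearMap.zero_apply]
    have h1 : ∀ l : List K, (l.map (fun g => of ℚ K g - 1)).prod ∈ E (F01 K) l.length := by
      intro l
      induction l with
      | nil => exact Wt.one.mem
      | cons g l ih =>
        rw [List.map_cons, List.prod_cons, List.length_cons, add_comm]
        exact E_mul (sub_one_mem_E (by simp [F01])) ih
    have h2 := h1 l
    rw [hl] at h2
    exact (Submodule.Quotient.mk_eq_zero D).2 (E_mul_right _ h2)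
  · intro h1
    have h2 : ρ z (D.mkQ 1) = D.mkQ 1 := by rw [h1]; rfl
    rw [hρ, mul_one, ← sub_eq_zero, ← map_sub] at h2
    exact hn ((Submodule.Quotient.mk_eq_zero D).1 h2)

theorem countable_of_fg (K : Type*) [Group K] [Group.FG K] : Countable K := by
  obtain ⟨S, hS, f, hf⟩ :=
    Group.fg_iff_exists_freeGroup_hom_surjective.1 (inferInstance : Group.FG K)
  have h1 : Countable S := hS.countable.to_subtype
  exact hf.countable

theorem shrink_rep {K : Type u} [Group K] {W : Type u} [AddCommGroup W] [Module ℚ W] [Countable W]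
    (ρ : K →* Module.End ℚ W) {N : ℕ} {z : K}
    (h1 : ∀ l : List K, l.length = N → (l.map (fun g => ρ g - 1)).prod = 0) (h2 : ρ z ≠ 1) :
    ∃ (W : Type v) (_ : AddCommGroup W) (_ : Module ℚ W) (ρ : K →* Module.End ℚ W) (N : ℕ),
      (∀ l : List K, l.length = N → (l.map (fun g => ρ g - 1)).prod = 0) ∧ ρ z ≠ 1 := by
  let e : Shrink.{v} W ≃ₗ[ℚ] W := Shrink.linearEquiv.{v} ℚ W
  let c : Module.End ℚ W ≃+* Module.End ℚ (Shrink.{v} W) := e.symm.conjRingEquiv
  let ρ' : K →* Module.End ℚ (Shrink.{v} W) :=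
    { toFun := fun g => c (ρ g)
      map_one' := by rw [map_one, map_one]
      map_mul' := fun g h => by rw [map_mul, map_mul] }
  refine ⟨Shrink.{v} W, inferInstance, inferInstance, ρ', N, ?_, ?_⟩
  · intro l hl
    have h4 : (l.map (fun g => ρ' g - 1)) = (l.map (fun g => ρ g - 1)).map c := by
      rw [List.map_map]
      refine List.map_congr_left fun g _ => ?_
      change c (ρ g) - 1 = c (ρ g - 1)
      rw [map_sub, map_one]
    rw [h4, ← map_list_prod, h1 l hl, map_zero]
  · intro h
    apply h2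
    have h5 : c (ρ z) = c 1 := by rw [map_one]; exact h
    exact c.injective h5

end Emb


theorem embed {K : Type*} [Group K] [Group.IsNilpotent K] [Group.FG K]
    (htf : ∀ g : K, ∀ n : ℕ, 0 < n → g ^ n = 1 → g = 1) (z : K) (hz : z ∈ Subgroup.center K)
    (hz1 : z ≠ 1) :
    ∃ (W : Type _) (_ : AddCommGroup W) (_ : Module ℚ W) (ρ : K →* Module.End ℚ W) (N : ℕ),
      (∀ l : List K, l.length = N → (l.map (fun g => ρ g - 1)).prod = 0) ∧ ρ z ≠ 1 := by
  obtain ⟨W, _, _, hW, ρ, N, h1, h2⟩ := Emb.exists_rep (Emb.det_of_fg htf) hz1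
  have h3 : Countable W := hW (Emb.countable_of_fg K)
  exact Emb.shrink_rep ρ h1 h2

end Pool.Agent.Lib.MP_74ab55_al
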