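import Pool.Agent.Lib.MP_74ab55_al.Defs

/-!
# Basic facts on left Engel elements, the lower central series and semidirect products
-/

set_option autoImplicit false

namespace Pool.Agent.Lib.MP_74ab55_al

open scoped commutatorElement

section eng
variable {G H : Type*} [Group G] [Group H]

theorem cm_one (g : G) : cm g 1 = 1 := by simp [cm]

theorem cm_iterate_one (g : G) (n : ℕ) : (cm g)^[n] 1 = 1 := by
  induction n with
  | zero => rfl
  | succ n ih => rw [Function.iterate_succ_apply', ih, cm_one]

theorem Eng.mono {n m : ℕ} (h : n ≤ m) {g : G} (hg : Eng n g) : Eng m g := by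
  intro x
  obtain ⟨k, rfl⟩ := Nat.exists_eq_add_of_le h
  rw [add_comm, Function.iterate_add_apply, hg, cm_iterate_one]

theorem map_cm (f : G →* H) (g y : G) : f (cm g y) = cm (f g) (f y) := by simp [cm]

theorem map_cm_iterate (f : G →* H) (g y : G) (n : ℕ) :
    f ((cm g)^[n] y) = (cm (f g))^[n] (f y) := by
  induction n with
  | zero => rfl
  | succ n ih => rw [Function.iterate_succ_apply', Function.iterate_succ_apply', map_cm, ih]

theorem Eng.of_injective (f : G →* H) (hf : Function.Injective f) {n : ℕ} {g : G}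
    (h : Eng n (f g)) : Eng n g := by
  intro x
  apply hf
  rw [map_cm_iterate, h, map_one]

theorem Eng.map_surjective (f : G →* H) (hf : Function.Surjective f) {n : ℕ} {g : G}
    (h : Eng n g) : Eng n (f g) := by
  intro x
  obtain ⟨y, rfl⟩ := hf x
  rw [← map_cm_iterate, h, map_one]

theorem Eng.pi {ι : Type*} {P : ι → Type*} [∀ i, Group (P i)] {n : ℕ} {g : ∀ i, P i}
    (h : ∀ i, Eng n (g i)) : Eng n g := by
  intro x
  funext i
  have := map_cm_iterate (Pi.evalMonoidHom P i) g x n
  simp only [Pi.evalMonoidHom_apply] at this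
  rw [this, h i, Pi.one_apply]

/-- `[y, g]` lies in the next term of the lower central series. -/
theorem cm_mem_lcs (g y : G) (k : ℕ) (hy : y ∈ (⊤ : Subgroup G).lowerCentralSeries k) :
    cm g y ∈ (⊤ : Subgroup G).lowerCentralSeries (k + 1) := by
  have h1 : cm g y = ⁅y⁻¹, g⁻¹⁆ := by simp [cm, commutatorElement_def]
  rw [h1, Subgroup.lowerCentralSeries_succ]
  exact Subgroup.commutator_mem_commutator (inv_mem hy) (Subgroup.mem_top _)

theorem cm_iterate_mem_lcs (g y : G) (k : ℕ) :
    (cm g)^[k] y ∈ (⊤ : Subgroup G).lowerCentralSeries k := by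
  induction k with
  | zero => exact Subgroup.mem_top _
  | succ k ih =>
    rw [Function.iterate_succ_apply']
    exact cm_mem_lcs g _ k ih

end eng

section lcs
variable {K : Type*} [Group K]

theorem three_subgroups (A B C N : Subgroup K) [N.Normal] (h1 : ⁅⁅B, C⁆, A⁆ ≤ N)
    (h2 : ⁅⁅C, A⁆, B⁆ ≤ N) : ⁅⁅A, B⁆, C⁆ ≤ N := by
  have key : ∀ X : Subgroup K, X ≤ N ↔ X.map (QuotientGroup.mk' N) = ⊥ := by
    intro X
    rw [Subgroup.map_eq_bot_iff, QuotientGroup.ker_mk']
  rw [key, Subgroup.map_commutator, Subgroup.map_commutator]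
  apply Subgroup.commutator_commutator_eq_bot_of_rotate
  · rw [← Subgroup.map_commutator, ← Subgroup.map_commutator, ← key]; exact h1
  · rw [← Subgroup.map_commutator, ← Subgroup.map_commutator, ← key]; exact h2

theorem lcs_comm_le (i j : ℕ) :
    ⁅(⊤ : Subgroup K).lowerCentralSeries i, (⊤ : Subgroup K).lowerCentralSeries j⁆ ≤
      (⊤ : Subgroup K).lowerCentralSeries (i + j + 1) := by
  induction j generalizing i with
  | zero => exact le_of_eq (Subgroup.lowerCentralSeries_succ _ _).symm
  | succ j ih =>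
    rw [Subgroup.commutator_comm]
    have h : ⁅⁅(⊤ : Subgroup K).lowerCentralSeries j, (⊤ : Subgroup K)⁆,
        (⊤ : Subgroup K).lowerCentralSeries i⁆ ≤
        (⊤ : Subgroup K).lowerCentralSeries (i + (j + 1) + 1) := by
      apply three_subgroups
      · rw [Subgroup.commutator_comm ⊤, ← Subgroup.lowerCentralSeries_succ]
        refine (ih (i + 1)).trans (le_of_eq ?_)
        congr 1; ring
      · rw [show i + (j + 1) + 1 = (i + j + 1) + 1 by ring, Subgroup.lowerCentralSeries_succ]
        exact Subgroup.commutator_mono (ih i) le_rfl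
    exact h

end lcs

section semi
variable {M K : Type*} [CommGroup M] [Group K] (φ : K →* MulAut M)

/-- `μ ↦ [k, μ]` as a homomorphism of the abelian group `M`. -/
def dHom (k : K) : M →* M := (φ k).toMonoidHom / MonoidHom.id M

theorem dHom_apply (k : K) (μ : M) : dHom φ k μ = φ k μ * μ⁻¹ := by
  simp [dHom, div_eq_mul_inv]

/-- Iterated commutators `[k₁, [k₂, … , μ]]`. -/
def dl (l : List K) (μ : M) : M := l.foldr (fun k ν => dHom φ k ν) μ

@[simp] theorem dl_nil (μ : M) : dl φ [] μ = μ := rfl
@[simp] theorem dl_cons (k : K) (l : List K) (μ : M) : dl φ (k :: l) μ = dHom φ k (dl φ l μ) := rfl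

theorem dl_one (l : List K) : dl φ l 1 = 1 := by
  induction l with
  | nil => rfl
  | cons k l ih => rw [dl_cons, ih, map_one]

theorem dl_append (l l' : List K) (μ : M) : dl φ (l ++ l') μ = dl φ l (dl φ l' μ) := by
  induction l with
  | nil => rfl
  | cons k l ih => rw [List.cons_append, dl_cons, dl_cons, ih]

open SemidirectProduct

/-- Translations are left `2`-Engel. -/
theorem eng_inl (μ : M) : Eng 2 (inl μ : M ⋊[φ] K) := by
  intro x
  show cm _ (cm _ x) = 1
  have h1 : (cm (inl μ : M ⋊[φ] K) x).right = 1 := by simp [cm]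
  have h2 : cm (inl μ : M ⋊[φ] K) x = inl (cm (inl μ : M ⋊[φ] K) x).left := by
    ext
    · simp
    · rw [h1]; simp
  rw [h2]
  simp only [cm, ← map_inv, ← map_mul]
  rw [← map_one (inl : M →* M ⋊[φ] K)]
  congr 1
  rw [mul_assoc, mul_comm, mul_assoc]
  simp [mul_comm, mul_left_comm]

end semi

end Pool.Agent.Lib.MP_74ab55_al
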