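import Pool.Agent.Lib.MP_74ab55_al.Defs

/-!
# Module O: convex jumps are centralised by left Engel elements of an ordered group
-/

set_option autoImplicit false
set_option linter.unusedSectionVars false

namespace Pool.Agent.Lib.MP_74ab55_al

open scoped commutatorElement

namespace OrdEngel

section basics
variable {H : Type*} [Group H] [LinearOrder H]

/-- `x` is archimedean-dominated by `g`. -/
def Dom (x g : H) : Prop := ∃ k : ℕ, x ≤ |g|ₘ ^ k ∧ x⁻¹ ≤ |g|ₘ ^ k

variable [MulLeftMono H] [MulRightMono H]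

theorem Dom.refl (x : H) : Dom x x :=
  ⟨1, by rw [pow_one]; exact le_mabs_self x, by rw [pow_one]; exact inv_le_mabs x⟩

theorem Dom.mabs_le {x g : H} (h : Dom x g) : ∃ k : ℕ, |x|ₘ ≤ |g|ₘ ^ k := by
  obtain ⟨k, h1, h2⟩ := h
  exact ⟨k, sup_le h1 h2⟩

theorem dom_of_mabs_le {x g : H} {k : ℕ} (h : |x|ₘ ≤ |g|ₘ ^ k) : Dom x g :=
  ⟨k, (le_mabs_self x).trans h, (inv_le_mabs x).trans h⟩

theorem Dom.trans {x y z : H} (h1 : Dom x y) (h2 : Dom y z) : Dom x z := by
  obtain ⟨k, hk⟩ := h1.mabs_le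
  obtain ⟨l, hl⟩ := h2.mabs_le
  refine dom_of_mabs_le (k := l * k) ?_
  rw [pow_mul]
  exact hk.trans (pow_le_pow_left' hl k)

theorem Dom.total (x y : H) : Dom x y ∨ Dom y x := by
  rcases le_total |x|ₘ |y|ₘ with h | h
  · exact Or.inl (dom_of_mabs_le (k := 1) (by rwa [pow_one]))
  · exact Or.inr (dom_of_mabs_le (k := 1) (by rwa [pow_one]))

theorem Dom.of_not {x y : H} (h : ¬ Dom y x) : Dom x y := (Dom.total x y).resolve_right h

theorem Dom.inv {x g : H} (h : Dom x g) : Dom x⁻¹ g := by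
  obtain ⟨k, h1, h2⟩ := h
  exact ⟨k, h2, by rwa [inv_inv]⟩

theorem dom_inv_left {x g : H} : Dom x⁻¹ g ↔ Dom x g :=
  ⟨fun h => by simpa using h.inv, Dom.inv⟩

theorem Dom.inv_right {x g : H} (h : Dom x g) : Dom x g⁻¹ := by
  obtain ⟨k, h1, h2⟩ := h
  exact ⟨k, by rwa [mabs_inv], by rwa [mabs_inv]⟩

theorem dom_inv_right {x g : H} : Dom x g⁻¹ ↔ Dom x g :=
  ⟨fun h => by simpa using h.inv_right, Dom.inv_right⟩

theorem Dom.mul {x y g : H} (h1 : Dom x g) (h2 : Dom y g) : Dom (x * y) g := by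
  obtain ⟨k, a1, a2⟩ := h1
  obtain ⟨l, b1, b2⟩ := h2
  refine ⟨k + l, ?_, ?_⟩
  · rw [pow_add]; exact mul_le_mul' a1 b1
  · rw [mul_inv_rev, add_comm, pow_add]; exact mul_le_mul' b2 a2

theorem mabs_conj (c x : H) : |c⁻¹ * x * c|ₘ = c⁻¹ * |x|ₘ * c := by
  rcases le_total x 1 with h | h
  · rw [mabs_of_le_one h, mabs_of_le_one]
    · group
    · have : c⁻¹ * x * c ≤ c⁻¹ * 1 * c := mul_le_mul_left (mul_le_mul_right h _) _
      simpa using this
  · rw [mabs_of_one_le h, mabs_of_one_le]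
    have : c⁻¹ * 1 * c ≤ c⁻¹ * x * c := mul_le_mul_left (mul_le_mul_right h _) _
    simpa using this

theorem conj_pow' (c x : H) (k : ℕ) : (c⁻¹ * x * c) ^ k = c⁻¹ * x ^ k * c := by
  have := conj_pow (i := k) (a := c⁻¹) (b := x)
  simpa using this

theorem Dom.conj {x g : H} (c : H) (h : Dom x g) : Dom (c⁻¹ * x * c) (c⁻¹ * g * c) := by
  obtain ⟨k, hk⟩ := h.mabs_le
  refine dom_of_mabs_le (k := k) ?_
  rw [mabs_conj, mabs_conj, conj_pow']
  exact mul_le_mul_left (mul_le_mul_right hk _) _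

theorem dom_conj_iff {x g : H} (c : H) : Dom (c⁻¹ * x * c) (c⁻¹ * g * c) ↔ Dom x g := by
  refine ⟨fun h => ?_, Dom.conj c⟩
  have := h.conj c⁻¹
  have e : ∀ y : H, c⁻¹⁻¹ * (c⁻¹ * y * c) * c⁻¹ = y := fun y => by group
  rwa [e, e] at this

/-- `x ≪ g` -/
def Sm (x g : H) : Prop := ¬ Dom g x

theorem Sm.dom {x g : H} (h : Sm x g) : Dom x g := Dom.of_not h

theorem Sm.trans_dom {x y z : H} (h : Sm x y) (h' : Dom y z) : Sm x z :=
  fun h2 => h (h'.trans h2)

theorem dom_trans_sm {x y z : H} (h' : Dom x y) (h : Sm y z) : Sm x z :=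
  fun h2 => h (h2.trans h')

theorem Sm.mul {x y g : H} (h1 : Sm x g) (h2 : Sm y g) : Sm (x * y) g := by
  intro h
  rcases Dom.total x y with hxy | hxy
  · exact h2 (h.trans (hxy.mul (Dom.refl y)))
  · exact h1 (h.trans ((Dom.refl x).mul hxy))

theorem Sm.inv {x g : H} (h : Sm x g) : Sm x⁻¹ g := fun h2 => h (dom_inv_right.1 h2)

theorem sm_inv_right {x g : H} : Sm x g⁻¹ ↔ Sm x g := not_congr dom_inv_left

theorem sm_one {g : H} (hg : g ≠ 1) : Sm 1 g := by
  rintro ⟨k, h1, h2⟩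
  rw [mabs_one, one_pow] at h1 h2
  apply hg
  exact le_antisymm h1 (by simpa using inv_le_one'.1 h2)

theorem Sm.ne_one {x g : H} (h : Sm x g) : g ≠ 1 := by
  rintro rfl
  apply h
  refine ⟨0, by simp, by simp⟩

theorem Sm.conj {x g : H} (c : H) (h : Sm x g) : Sm (c⁻¹ * x * c) (c⁻¹ * g * c) :=
  fun h2 => h ((dom_conj_iff c).1 h2)

/-- conjugation by an element of the convex hull of `g` preserves `≪ g` -/
theorem Sm.conj_dom {x g y : H} (h : Sm x g) (hy : Dom y g) : Sm (y⁻¹ * x * y) g := by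
  refine (h.conj y).trans_dom ?_
  exact (hy.inv.mul (Dom.refl g)).mul hy

theorem dom_of_sm_left {x g : H} (h : Sm x g) : Dom g (x * g) := by
  by_contra hc
  have hc' : Sm (x * g) g := hc
  have h2 : Sm (x⁻¹ * (x * g)) g := h.inv.mul hc'
  rw [inv_mul_cancel_left] at h2
  exact h2 (Dom.refl g)

theorem dom_of_sm_right {x g : H} (h : Sm x g) : Dom g (g * x) := by
  by_contra hc
  have hc' : Sm (g * x) g := hc
  have h2 : Sm (g * x * x⁻¹) g := hc'.mul h.inv
  rw [mul_inv_cancel_right] at h2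
  exact h2 (Dom.refl g)

/-- conjugation by `a` preserves all archimedean classes -/
def Pres (a : H) : Prop := ∀ g : H, Dom (a⁻¹ * g * a) g ∧ Dom g (a⁻¹ * g * a)

theorem cm_eq (a w : H) : cm a w = w⁻¹ * (a⁻¹ * w * a) := by simp only [cm]; group

theorem pres_of_eng {n : ℕ} {a : H} (ha : Eng n a) : Pres a := by
  have key1 : ∀ w : H, Sm w (a⁻¹ * w * a) → Sm (cm a w) (a⁻¹ * cm a w * a) := by
    intro w hw
    rw [cm_eq]
    have h1 : Dom (w⁻¹ * (a⁻¹ * w * a)) (a⁻¹ * w * a) := hw.inv.dom.mul (Dom.refl _)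
    have h2 : Dom (a⁻¹ * w * a) (w⁻¹ * (a⁻¹ * w * a)) := dom_of_sm_left hw.inv
    exact (dom_trans_sm h1 (hw.conj a)).trans_dom (h2.conj a)
  have key2 : ∀ w : H, Sm (a⁻¹ * w * a) w → Sm (a⁻¹ * cm a w * a) (cm a w) := by
    intro w hw
    rw [cm_eq]
    have hw' : Sm (a⁻¹ * w * a) w⁻¹ := sm_inv_right.2 hw
    have h1 : Dom (w⁻¹ * (a⁻¹ * w * a)) w :=
      (dom_inv_left.2 (Dom.refl w)).mul hw.dom
    have h2 : Dom w (w⁻¹ * (a⁻¹ * w * a)) := dom_inv_left.1 (dom_of_sm_right hw')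
    exact (dom_trans_sm (h1.conj a) hw).trans_dom h2
  intro g
  constructor
  · by_contra hc
    have h0 : Sm g (a⁻¹ * g * a) := hc
    have : ∀ j : ℕ, Sm ((cm a)^[j] g) (a⁻¹ * ((cm a)^[j] g) * a) := by
      intro j
      induction j with
      | zero => simpa using h0
      | succ j ih => rw [Function.iterate_succ_apply']; exact key1 _ ih
    have h1 := this n
    rw [ha g] at h1
    apply h1
    simpa using Dom.refl (1 : H)
  · by_contra hc
    have h0 : Sm (a⁻¹ * g * a) g := hc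
    have : ∀ j : ℕ, Sm (a⁻¹ * ((cm a)^[j] g) * a) ((cm a)^[j] g) := by
      intro j
      induction j with
      | zero => simpa using h0
      | succ j ih => rw [Function.iterate_succ_apply']; exact key2 _ ih
    have h1 := this n
    rw [ha g] at h1
    apply h1
    simpa using Dom.refl (1 : H)

theorem Pres.inv {a : H} (ha : Pres a) : Pres a⁻¹ := by
  intro g
  have h := ha (a⁻¹⁻¹ * g * a⁻¹)
  have e : a⁻¹ * (a⁻¹⁻¹ * g * a⁻¹) * a = g := by group
  rw [e] at h
  exact ⟨h.2, h.1⟩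

theorem Pres.sm {a : H} (ha : Pres a) {x g : H} (h : Sm x g) : Sm (a⁻¹ * x * a) g :=
  dom_trans_sm (ha x).1 h

theorem sm_pow {w v e : H} (hv : Dom v w) (he : Sm e w) (k : ℕ) :
    ∃ d : H, Sm d w ∧ (v * e) ^ k = v ^ k * d := by
  induction k with
  | zero => exact ⟨1, sm_one he.ne_one, by simp⟩
  | succ k ih =>
    obtain ⟨d, hd, h⟩ := ih
    refine ⟨v⁻¹ * d * v * e, (hd.conj_dom hv).mul he, ?_⟩
    rw [pow_succ, h, pow_succ]
    group

theorem conj_orbit {b u v e w : H} (hb : Pres b) (hu : b⁻¹ * u * b = u * v)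
    (hv : b⁻¹ * v * b = v * e) (hvw : Dom v w) (he : Sm e w) (k : ℕ) :
    ∃ d : H, Sm d w ∧ (b ^ k)⁻¹ * u * b ^ k = u * v ^ k * d := by
  induction k with
  | zero => exact ⟨1, sm_one he.ne_one, by simp⟩
  | succ k ih =>
    obtain ⟨d, hd, h⟩ := ih
    obtain ⟨d', hd', h'⟩ := sm_pow hvw he k
    -- b^{-(k+1)} u b^{k+1} = b⁻¹ (u v^k d) b = u v (v e)^k (b⁻¹ d b) = u v^{k+1} d' (b⁻¹ d b)
    refine ⟨d' * (b⁻¹ * d * b), hd'.mul (hb.sm hd), ?_⟩
    have e1 : (b ^ (k + 1))⁻¹ * u * b ^ (k + 1) = b⁻¹ * ((b ^ k)⁻¹ * u * b ^ k) * b := by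
      rw [pow_succ]; group
    have e2 : b⁻¹ * (u * v ^ k * d) * b =
        (b⁻¹ * u * b) * (b⁻¹ * v ^ k * b) * (b⁻¹ * d * b) := by group
    rw [e1, h, e2, ← conj_pow', hu, hv, h', pow_succ']
    group

theorem no_opposite {b u v e w : H} (hb : Pres b) (hu : b⁻¹ * u * b = u * v)
    (hv : b⁻¹ * v * b = v * e) (hvw : Dom v w) (hwv : Dom w v) (huw : Dom u w) (he : Sm e w)
    (hs : (1 < u ∧ v < 1) ∨ (u < 1 ∧ 1 < v)) : False := by
  obtain ⟨m, hm1, hm2⟩ := huw
  obtain ⟨p, hp⟩ := hwv.mabs_le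
  -- strict positivity of conjugates
  have hcp : ∀ c x : H, 1 < x → 1 < c⁻¹ * x * c := by
    intro c x hx
    have : c⁻¹ * 1 * c < c⁻¹ * x * c := mul_lt_mul_left (mul_lt_mul_right hx _) _
    simpa using this
  have hcn : ∀ c x : H, x < 1 → c⁻¹ * x * c < 1 := by
    intro c x hx
    have : c⁻¹ * x * c < c⁻¹ * 1 * c := mul_lt_mul_left (mul_lt_mul_right hx _) _
    simpa using this
  obtain ⟨d, hd, h⟩ := conj_orbit hb hu hv hvw he (p * (m + 1))
  have hdw : |d|ₘ ≤ |w|ₘ := by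
    by_contra hc
    exact hd (dom_of_mabs_le (k := 1) (by rw [pow_one]; exact (not_le.1 hc).le))
  have hd1 : d ≤ |w|ₘ := (le_mabs_self d).trans hdw
  have hd2 : d⁻¹ ≤ |w|ₘ := (inv_le_mabs d).trans hdw
  have hvm : |w|ₘ ^ (m + 1) ≤ |v|ₘ ^ (p * (m + 1)) := by
    rw [pow_mul]; exact pow_le_pow_left' hp (m + 1)
  rcases hs with ⟨h1, h2⟩ | ⟨h1, h2⟩
  · have h3 : 1 < u * v ^ (p * (m + 1)) * d := by rw [← h]; exact hcp _ _ h1
    -- v^{-k} < d * u
    have h4 : (v ^ (p * (m + 1)))⁻¹ < d * u := by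
      have h5 := mul_lt_mul_right h3 (u⁻¹)
      have h6 := mul_lt_mul_left h5 u
      have h7 := mul_lt_mul_right h6 ((v ^ (p * (m + 1)))⁻¹)
      have e1 : (v ^ (p * (m + 1)))⁻¹ * (u⁻¹ * 1 * u) = (v ^ (p * (m + 1)))⁻¹ := by group
      have e2 : (v ^ (p * (m + 1)))⁻¹ * (u⁻¹ * (u * v ^ (p * (m + 1)) * d) * u) = d * u := by
        group
      rwa [e1, e2] at h7
    have h5 : d * u ≤ |w|ₘ ^ (m + 1) := by
      rw [pow_succ']; exact mul_le_mul' hd1 hm1
    rw [← inv_pow, ← mabs_of_lt_one h2] at h4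
    exact absurd (h4.trans_le h5) (not_lt.2 hvm)
  · have h3 : u * v ^ (p * (m + 1)) * d < 1 := by rw [← h]; exact hcn _ _ h1
    have h4 : v ^ (p * (m + 1)) < u⁻¹ * d⁻¹ := by
      have h5 := mul_lt_mul_right h3 (u⁻¹)
      have h6 := mul_lt_mul_left h5 d⁻¹
      have e1 : u⁻¹ * (u * v ^ (p * (m + 1)) * d) * d⁻¹ = v ^ (p * (m + 1)) := by group
      rwa [e1, mul_one] at h6
    have h5 : u⁻¹ * d⁻¹ ≤ |w|ₘ ^ (m + 1) := by
      rw [pow_succ]; exact mul_le_mul' hm2 hd2
    rw [← mabs_of_one_lt h2] at h4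
    exact absurd ((pow_le_pow_left' le_rfl _).trans_lt (h4.trans_le h5)) (not_lt.2 hvm)

/-- `a` acts trivially on all convex jumps -/
def Cen (a : H) : Prop := ∀ w : H, w ≠ 1 → Sm (cm a w) w

theorem cen_of_eng {n : ℕ} {a : H} (ha : Eng n a) : Cen a := by
  have hp : Pres a := pres_of_eng ha
  have hpi : Pres a⁻¹ := hp.inv
  intro w hw
  by_contra hc
  have hc1 : Dom w (cm a w) := not_not.1 hc
  have hall : ∀ j : ℕ, Dom ((cm a)^[j] w) w := by
    intro j
    induction j with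
    | zero => exact Dom.refl w
    | succ j ih =>
      rw [Function.iterate_succ_apply', cm_eq]
      exact ih.inv.mul ((hp _).1.trans ih)
  have hex : ∃ j : ℕ, ¬ Dom w ((cm a)^[j] w) := by
    refine ⟨n, ?_⟩
    rw [ha w]
    exact sm_one hw
  classical
  obtain ⟨j, hj, hmin⟩ : ∃ j : ℕ, ¬ Dom w ((cm a)^[j] w) ∧
      ∀ i < j, Dom w ((cm a)^[i] w) := by
    refine ⟨Nat.find hex, Nat.find_spec hex, fun i hi => ?_⟩
    exact not_not.1 (Nat.find_min hex hi)
  match j, hj, hmin with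
  | 0, hj, _ => exact hj (Dom.refl w)
  | 1, hj, _ => exact hj hc1
  | (i + 2), hj, hmin =>
    set u := (cm a)^[i] w with hu
    set v := cm a u with hv
    have hv' : (cm a)^[i + 1] w = v := by rw [Function.iterate_succ_apply']
    have he' : (cm a)^[i + 2] w = cm a v := by rw [Function.iterate_succ_apply', hv']
    set e := cm a v with he
    have hew : Sm e w := by rw [he'] at hj; exact hj
    have hwv : Dom w v := by rw [← hv']; exact hmin _ (by omega)
    have hvw : Dom v w := by rw [← hv']; exact hall _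
    have huw : Dom u w := hall _
    have hwu : Dom w u := hmin _ (by omega)
    have h1 : a⁻¹ * u * a = u * v := by rw [hv, cm_eq]; group
    have h2 : a⁻¹ * v * a = v * e := by rw [he, cm_eq]; group
    have hu1 : u ≠ 1 := by
      intro h
      rw [h] at hwu
      exact sm_one hw hwu
    have hv1 : v ≠ 1 := by
      intro h
      rw [h] at hwv
      exact sm_one hw hwv
    by_cases hs : (1 < u ∧ v < 1) ∨ (u < 1 ∧ 1 < v)
    · exact no_opposite hp h1 h2 hvw hwv huw hew hs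
    · -- use `a⁻¹`
      set v' := a * v⁻¹ * a⁻¹ with hv'd
      have g1 : a⁻¹⁻¹ * u * a⁻¹ = u * v' := by
        have : u = a * (u * v) * a⁻¹ := by rw [← h1]; group
        rw [hv'd]
        nth_rewrite 2 [this]
        group
      have e4 : v * a * v⁻¹ * a⁻¹ = a * (v * e * v⁻¹) * a⁻¹ := by
        rw [← h2]; group
      have g2 : a⁻¹⁻¹ * v' * a⁻¹ = v' * (a * (a * (v * e * v⁻¹) * a⁻¹) * a⁻¹) := by
        rw [← e4, hv'd]; group
      have g3 : Sm (a * (a * (v * e * v⁻¹) * a⁻¹) * a⁻¹) w := by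
        have k1 : Sm (v * e * v⁻¹) w := by
          have := hew.conj_dom hvw.inv
          rwa [inv_inv] at this
        have k2 := hpi.sm k1
        rw [inv_inv] at k2
        have k3 := hpi.sm k2
        rwa [inv_inv] at k3
      have g4 : Dom v' w := by
        have := (hpi v⁻¹).1
        rw [inv_inv] at this
        exact this.trans hvw.inv
      have g5 : Dom w v' := by
        have := (hpi v⁻¹).2
        rw [inv_inv] at this
        exact hwv.trans ((dom_inv_left.1 this))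
      have hcp : ∀ c x : H, 1 < x → 1 < c * x * c⁻¹ := by
        intro c x hx
        have : c * 1 * c⁻¹ < c * x * c⁻¹ := mul_lt_mul_left (mul_lt_mul_right hx _) _
        simpa using this
      have hcn : ∀ c x : H, x < 1 → c * x * c⁻¹ < 1 := by
        intro c x hx
        have : c * x * c⁻¹ < c * 1 * c⁻¹ := mul_lt_mul_left (mul_lt_mul_right hx _) _
        simpa using this
      refine no_opposite hpi g1 g2 g4 g5 huw g3 ?_
      rcases lt_or_gt_of_ne hu1 with hu2 | hu2
      · right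
        refine ⟨hu2, hcp _ _ ?_⟩
        rcases lt_or_gt_of_ne hv1 with hv2 | hv2
        · exact one_lt_inv'.2 hv2
        · exact absurd (Or.inr ⟨hu2, hv2⟩) hs
      · left
        refine ⟨hu2, hcn _ _ ?_⟩
        rcases lt_or_gt_of_ne hv1 with hv2 | hv2
        · exact absurd (Or.inl ⟨hu2, hv2⟩) hs
        · exact inv_lt_one'.2 hv2

theorem cen_one : Cen (1 : H) := by
  intro w hw
  have : cm 1 w = 1 := by simp [cm]
  rw [this]
  exact sm_one hw

theorem Cen.mul {h h' : H} (h1 : Cen h) (h2 : Cen h') : Cen (h * h') := by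
  intro w hw
  have e : cm (h * h') w = cm h' w * (cm h w * cm h' (cm h w)) := by
    simp only [cm]; group
  rw [e]
  refine (h2 w hw).mul ((h1 w hw).mul ?_)
  by_cases hx : cm h w = 1
  · rw [hx]
    have : cm h' (1 : H) = 1 := by simp [cm]
    rw [this]
    exact sm_one hw
  · exact (h2 _ hx).trans_dom (h1 w hw).dom

theorem Cen.inv {h : H} (h1 : Cen h) : Cen h⁻¹ := by
  intro w hw
  have hw' : h * w * h⁻¹ ≠ 1 := by
    intro h2
    apply hw
    have : w = h⁻¹ * (h * w * h⁻¹) * h := by group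
    rw [this, h2]; group
  have e : cm h⁻¹ w = (cm h (h * w * h⁻¹))⁻¹ := by simp only [cm]; group
  have k := h1 _ hw'
  have e2 : h * w * h⁻¹ * cm h (h * w * h⁻¹) = w := by simp only [cm]; group
  have k2 : Dom (h * w * h⁻¹) w := by
    have := dom_of_sm_right k
    rwa [e2] at this
  rw [e]
  exact k.inv.trans_dom k2

theorem cen_all {m : ℕ} (a : Fin m → H) (hgen : Subgroup.closure (Set.range a) = ⊤)
    (ha : ∀ i, Cen (a i)) (h : H) : Cen h := by
  have hh : h ∈ Subgroup.closure (Set.range a) := by rw [hgen]; trivial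
  induction hh using Subgroup.closure_induction with
  | mem x hx => obtain ⟨i, rfl⟩ := hx; exact ha i
  | one => exact cen_one
  | mul x y _ _ hx hy => exact hx.mul hy
  | inv x _ hx => exact hx.inv

theorem dom_of_pow {x g : H} {k : ℕ} (hk : 0 < k) (h : Dom x g) : Dom x (g ^ k) := by
  obtain ⟨j, hj⟩ := h.mabs_le
  refine dom_of_mabs_le (k := j) (hj.trans (pow_le_pow_left' ?_ j))
  rcases le_total g 1 with h1 | h1
  · rw [mabs_of_le_one h1, mabs_of_le_one (pow_le_one' h1 k)]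
    rw [← inv_pow]
    exact le_self_pow (one_le_inv'.2 h1) hk.ne'
  · rw [mabs_of_one_le h1, mabs_of_one_le (one_le_pow_of_one_le' h1 k)]
    exact le_self_pow h1 hk.ne'

end basics

section lcs
variable {H : Type*} [Group H]

/-- simple commutators of the generators -/
def Tc {m : ℕ} (a : Fin m → H) : ℕ → Set H
  | 0 => Set.range a
  | c + 1 => Set.image2 (fun t i => ⁅t, a i⁆) (Tc a c) Set.univ

theorem Tc_finite {m : ℕ} (a : Fin m → H) (c : ℕ) : (Tc a c).Finite := by
  induction c with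
  | zero => exact Set.finite_range a
  | succ c ih => exact Set.Finite.image2 _ ih Set.finite_univ

theorem Tc_subset {m : ℕ} (a : Fin m → H) (c : ℕ) :
    Tc a c ⊆ ((⊤ : Subgroup H).lowerCentralSeries c : Set H) := by
  induction c with
  | zero => intro x _; exact Subgroup.mem_top x
  | succ c ih =>
    rintro x ⟨t, ht, i, -, rfl⟩
    exact Subgroup.commutator_mem_commutator (ih ht) (Subgroup.mem_top _)

theorem lcs_le {m : ℕ} (a : Fin m → H) (hgen : Subgroup.closure (Set.range a) = ⊤) (c : ℕ) :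
    ∀ (D : Subgroup H), D.Normal → Tc a c ⊆ (D : Set H) →
      (⊤ : Subgroup H).lowerCentralSeries c ≤ D := by
  induction c with
  | zero =>
    intro D _ hD
    rw [Subgroup.lowerCentralSeries_zero, ← hgen]
    exact (Subgroup.closure_le D).2 hD
  | succ c ih =>
    intro D hDn hD
    have h1 := ih ((Subgroup.center (H ⧸ D)).comap (QuotientGroup.mk' D)) inferInstance ?_
    · rw [Subgroup.lowerCentralSeries_succ, Subgroup.commutator_le]
      intro x hx h _
      have h2 := h1 hx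
      rw [Subgroup.mem_comap, Subgroup.mem_center_iff] at h2
      rw [← QuotientGroup.eq_one_iff]
      have h3 : (QuotientGroup.mk' D) ⁅x, h⁆ = 1 := by
        rw [map_commutatorElement, commutatorElement_eq_one_iff_mul_comm]
        exact (h2 _).symm
      exact h3
    · intro t ht
      show t ∈ (Subgroup.center (H ⧸ D)).comap (QuotientGroup.mk' D)
      rw [Subgroup.mem_comap, Subgroup.mem_center_iff]
      intro y
      obtain ⟨h, rfl⟩ := QuotientGroup.mk'_surjective D y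
      have hh : h ∈ Subgroup.closure (Set.range a) := by rw [hgen]; trivial
      have hle : Subgroup.closure (Set.range a) ≤
          (Subgroup.centralizer {QuotientGroup.mk' D t}).comap (QuotientGroup.mk' D) := by
        rw [Subgroup.closure_le]
        rintro x ⟨i, rfl⟩
        show a i ∈ (Subgroup.centralizer {QuotientGroup.mk' D t}).comap (QuotientGroup.mk' D)
        rw [Subgroup.mem_comap, Subgroup.mem_centralizer_singleton_iff]
        have h4 : ⁅t, a i⁆ ∈ D := hD ⟨t, ht, i, trivial, rfl⟩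
        rw [← QuotientGroup.eq_one_iff] at h4
        have h5 : (QuotientGroup.mk' D) ⁅t, a i⁆ = 1 := h4
        rw [map_commutatorElement, commutatorElement_eq_one_iff_mul_comm] at h5
        exact h5.symm
      have h6 := hle hh
      rw [Subgroup.mem_comap, Subgroup.mem_centralizer_singleton_iff] at h6
      exact h6

end lcs

end OrdEngel

open OrdEngel in
theorem exists_quot {H : Type*} [Group H] [LinearOrder H] [MulLeftMono H] [MulRightMono H]
    {m : ℕ} (a : Fin m → H) (hgen : Subgroup.closure (Set.range a) = ⊤) (n : ℕ)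
    (heng : ∀ i, Eng n (a i)) (c : ℕ) (hc : (⊤ : Subgroup H).lowerCentralSeries c ≠ ⊥) :
    ∃ D : Subgroup H, D.Normal ∧ (⊤ : Subgroup H).lowerCentralSeries (c + 1) ≤ D ∧
      (∃ z ∈ (⊤ : Subgroup H).lowerCentralSeries c, z ∉ D) ∧
      (∀ g : H, ∀ k : ℕ, 0 < k → g ^ k ∈ D → g ∈ D) := by
  have hcen : ∀ h : H, Cen h := cen_all a hgen (fun i => cen_of_eng (heng i))
  have hT : ∃ t ∈ Tc a c, t ≠ 1 := by
    by_contra hcon
    push Not at hcon
    apply hc
    rw [eq_bot_iff]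
    refine lcs_le a hgen c ⊥ inferInstance ?_
    intro t ht
    exact Subgroup.mem_bot.2 (hcon t ht)
  obtain ⟨t0, ht0, ht01⟩ := hT
  obtain ⟨r, hr, hmax⟩ := Set.exists_max_image (Tc a c) (fun t => |t|ₘ) (Tc_finite a c) ⟨t0, ht0⟩
  have hr1 : r ≠ 1 := by
    rintro rfl
    have h1 := hmax t0 ht0
    simp only [mabs_one] at h1
    apply ht01
    have h2 := (le_mabs_self t0).trans h1
    have h3 := (inv_le_mabs t0).trans h1
    exact le_antisymm h2 (inv_le_one'.1 h3)
  let D : Subgroup H :=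
    { carrier := {x | Sm x r}
      mul_mem' := fun hx hy => Sm.mul hx hy
      one_mem' := sm_one hr1
      inv_mem' := fun hx => Sm.inv hx }
  have hmem : ∀ x, x ∈ D ↔ Sm x r := fun x => Iff.rfl
  have hDn : D.Normal := by
    constructor
    intro x hx h
    rw [hmem] at hx ⊢
    have e : h * x * h⁻¹ = x * cm h⁻¹ x := by simp only [cm]; group
    rw [e]
    by_cases hx1 : x = 1
    · subst hx1
      have : cm h⁻¹ (1 : H) = 1 := by simp [cm]
      rw [this, mul_one]
      exact hx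
    · exact hx.mul ((hcen _ _ hx1).trans_dom hx.dom)
  refine ⟨D, hDn, ?_, ⟨r, Tc_subset a c hr, fun h => h (Dom.refl r)⟩, ?_⟩
  · refine lcs_le a hgen (c + 1) D hDn ?_
    rintro x ⟨t, ht, i, -, rfl⟩
    show Sm _ r
    have e : ⁅t, a i⁆ = cm (a i)⁻¹ t⁻¹ := by rw [commutatorElement_def]; simp only [cm]; group
    show Sm ⁅t, a i⁆ r
    rw [e]
    have htr : Dom t r := dom_of_mabs_le (k := 1) (by rw [pow_one]; exact hmax t ht)
    by_cases ht1 : t = 1
    · rw [ht1]
      have : cm (a i)⁻¹ (1 : H)⁻¹ = 1 := by simp [cm]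
      rw [this]
      exact sm_one hr1
    · exact (hcen _ _ (inv_ne_one.2 ht1)).trans_dom htr.inv
  · intro g k hk hg
    rw [hmem] at hg ⊢
    exact fun h => hg (dom_of_pow hk h)

end Pool.Agent.Lib.MP_74ab55_al
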