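import Pool.Agent.Lib.MP_74ab55_al.Bound
import Pool.Agent.Lib.MP_74ab55_al.Ordered

/-!
# Bounded left Engel elements of an ordered group form a subgroup
-/

set_option autoImplicit false

open scoped commutatorElement

namespace Pool.Agent.Lib.MP_74ab55_al

/-- The image of an Engel-generated group in a quotient. -/
theorem ordered_bound (m n : ℕ) : ∃ f : ℕ, ∀ (H : Type) [Group H] [LinearOrder H] [MulLeftMono H]
    [MulRightMono H] (a : Fin m → H), Subgroup.closure (Set.range a) = ⊤ → (∀ i, Eng n (a i)) →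
    (⊤ : Subgroup H).lowerCentralSeries f = ⊥ := by
  obtain ⟨f, hf⟩ := nb m n
  refine ⟨f, ?_⟩
  intro H _ _ _ _ a hgen heng
  by_contra hne
  obtain ⟨D, hDn, hle, ⟨z, hz, hzD⟩, htf⟩ := exists_quot a hgen n heng f hne
  let π : H →* H ⧸ D := QuotientGroup.mk' D
  have hπ : Function.Surjective π := QuotientGroup.mk'_surjective D
  have hmap : ∀ k, ((⊤ : Subgroup H).lowerCentralSeries k).map π =
      (⊤ : Subgroup (H ⧸ D)).lowerCentralSeries k := by
    intro k
    rw [Subgroup.map_lowerCentralSeries, Subgroup.map_top_of_surjective π hπ]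
  have hnil : Group.IsNilpotent (H ⧸ D) := by
    rw [Subgroup.nilpotent_iff_lowerCentralSeries]
    refine ⟨f + 1, ?_⟩
    rw [← hmap, Subgroup.map_eq_bot_iff, QuotientGroup.ker_mk']
    exact hle
  have h1 := hf (H ⧸ D) (fun i => π (a i)) (by
      have : Set.range (fun i => π (a i)) = π '' (Set.range a) := by
        rw [← Set.range_comp]; rfl
      rw [this, ← MonoidHom.map_closure, hgen, Subgroup.map_top_of_surjective π hπ])
    (fun i => (heng i).map_surjective π hπ) hnil (by
      intro g k hk hg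
      obtain ⟨x, rfl⟩ := hπ g
      rw [← map_pow] at hg
      have h2 : x ^ k ∈ D := (QuotientGroup.eq_one_iff (x ^ k)).mp hg
      exact (QuotientGroup.eq_one_iff x).mpr (htf x k hk h2))
  have h2 : π z ∈ (⊤ : Subgroup (H ⧸ D)).lowerCentralSeries f := by
    rw [← hmap]; exact ⟨z, hz, rfl⟩
  rw [h1, Subgroup.mem_bot] at h2
  exact hzD ((QuotientGroup.eq_one_iff z).mp h2)

/-- If `g` and `[h, g]` lie in a subgroup `H` with `lcs f = ⊥`, then `[h, g, …, g] = 1`. -/
theorem cm_iterate_eq_one {G : Type} [Group G] (H : Subgroup G) (f : ℕ)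
    (hf : (⊤ : Subgroup H).lowerCentralSeries f = ⊥) (g h : G) (hg : g ∈ H) (hh : cm g h ∈ H) :
    (cm g)^[f + 1] h = 1 := by
  rw [Function.iterate_succ_apply]
  have h1 := cm_iterate_mem_lcs (⟨g, hg⟩ : H) ⟨cm g h, hh⟩ f
  rw [hf, Subgroup.mem_bot] at h1
  have h2 := map_cm_iterate H.subtype (⟨g, hg⟩ : H) ⟨cm g h, hh⟩ f
  rw [h1, map_one] at h2
  exact h2.symm

/-- A subgroup generated by a family. -/
theorem lcs_closure {G : Type} [Group G] [LinearOrder G] [MulLeftMono G] [MulRightMono G]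
    {m n f : ℕ} (hf : ∀ (H : Type) [Group H] [LinearOrder H] [MulLeftMono H]
    [MulRightMono H] (a : Fin m → H), Subgroup.closure (Set.range a) = ⊤ → (∀ i, Eng n (a i)) →
    (⊤ : Subgroup H).lowerCentralSeries f = ⊥) (a : Fin m → G) (ha : ∀ i, Eng n (a i)) :
    (⊤ : Subgroup (Subgroup.closure (Set.range a))).lowerCentralSeries f = ⊥ := by
  have hmem : ∀ i, a i ∈ Subgroup.closure (Set.range a) := fun i => Subgroup.subset_closure ⟨i, rfl⟩
  have i1 : MulLeftMono (Subgroup.closure (Set.range a)) :=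
    ⟨fun x y z hyz => show (x : G) * y ≤ x * z from mul_le_mul_right (show (y : G) ≤ z from hyz) x⟩
  have i2 : MulRightMono (Subgroup.closure (Set.range a)) :=
    ⟨fun x y z hyz => show (y : G) * x ≤ z * x from mul_le_mul_left (show (y : G) ≤ z from hyz) x⟩
  refine hf (Subgroup.closure (Set.range a)) (fun i => ⟨a i, hmem i⟩) ?_ ?_
  · have := Subgroup.closure_closure_coe_preimage (k := Set.range a)
    rw [← this]
    congr 1
    ext x
    constructor
    · rintro ⟨j, rfl⟩; exact ⟨j, rfl⟩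
    · rintro ⟨j, hj⟩; exact ⟨j, Subtype.ext hj⟩
  · intro i
    exact Eng.of_injective (Subgroup.closure (Set.range a)).subtype
      (Subgroup.subtype_injective _) (ha i)

theorem Eng.conj {G : Type*} [Group G] {n : ℕ} {g : G} (hg : Eng n g) (h : G) :
    Eng n (h⁻¹ * g * h) := by
  have h1 := hg.map_surjective (MulAut.conj h⁻¹).toMonoidHom (MulAut.conj h⁻¹).surjective
  simpa using h1

theorem final :
    ∀ (G : Type) [Group G] [LinearOrder G] [MulLeftMono G] [MulRightMono G],
      ∃ H : Subgroup G, ∀ g : G,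
        g ∈ H ↔ ∃ n : ℕ, ∀ x : G, (fun y : G => y⁻¹ * g⁻¹ * y * g)^[n] x = 1 := by
  intro G _ _ _ _
  refine ⟨{ carrier := {g | ∃ n, Eng n g}, one_mem' := ?_, mul_mem' := ?_, inv_mem' := ?_ },
    fun g => Iff.rfl⟩
  · intro a b
    rintro ⟨n1, ha⟩ ⟨n2, hb⟩
    have ha' : Eng (max n1 n2) a := ha.mono (le_max_left _ _)
    have hb' : Eng (max n1 n2) b := hb.mono (le_max_right _ _)
    obtain ⟨f, hf⟩ := ordered_bound 4 (max n1 n2)
    refine ⟨f + 1, fun h => ?_⟩
    let v : Fin 4 → G := ![a, b, h⁻¹ * a * h, h⁻¹ * b * h]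
    have hv : ∀ i, Eng (max n1 n2) (v i) := by
      intro i
      fin_cases i
      · exact ha'
      · exact hb'
      · exact ha'.conj h
      · exact hb'.conj h
    have h1 := lcs_closure (fun H => hf H) v hv
    have hm : ∀ i, v i ∈ Subgroup.closure (Set.range v) := fun i =>
      Subgroup.subset_closure ⟨i, rfl⟩
    have h0 : a ∈ Subgroup.closure (Set.range v) := hm 0
    have h2 : b ∈ Subgroup.closure (Set.range v) := hm 1
    have h3 : h⁻¹ * a * h ∈ Subgroup.closure (Set.range v) := hm 2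
    have h4 : h⁻¹ * b * h ∈ Subgroup.closure (Set.range v) := hm 3
    refine cm_iterate_eq_one _ f h1 (a * b) h (mul_mem h0 h2) ?_
    have : cm (a * b) h = (h⁻¹ * b * h)⁻¹ * (h⁻¹ * a * h)⁻¹ * (a * b) := by
      simp [cm, mul_assoc]
    rw [this]
    exact mul_mem (mul_mem (inv_mem h4) (inv_mem h3)) (mul_mem h0 h2)
  · refine ⟨1, fun x => ?_⟩
    show cm 1 x = 1
    simp [cm]
  · rintro a ⟨n, ha⟩
    obtain ⟨f, hf⟩ := ordered_bound 2 n
    refine ⟨f + 1, fun h => ?_⟩
    let v : Fin 2 → G := ![a, h⁻¹ * a * h]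
    have hv : ∀ i, Eng n (v i) := by
      intro i
      fin_cases i
      · exact ha
      · exact ha.conj h
    have h1 := lcs_closure (fun H => hf H) v hv
    have hm : ∀ i, v i ∈ Subgroup.closure (Set.range v) := fun i =>
      Subgroup.subset_closure ⟨i, rfl⟩
    have h0 : a ∈ Subgroup.closure (Set.range v) := hm 0
    have h3 : h⁻¹ * a * h ∈ Subgroup.closure (Set.range v) := hm 1
    refine cm_iterate_eq_one _ f h1 a⁻¹ h (inv_mem h0) ?_
    have : cm a⁻¹ h = (h⁻¹ * a * h) * a⁻¹ := by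
      simp [cm, mul_assoc]
    rw [this]
    exact mul_mem h3 (inv_mem h0)

end Pool.Agent.Lib.MP_74ab55_al
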