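import Pool.Agent.Lib.MP_74ab55_al.Defs

set_option autoImplicit false

namespace Pool.Agent.Lib.MP_74ab55_al.GLie
open IsNilpotent Polynomial

section logs

theorem exp_eq_quad {B : Type*} [CommRing B] [Algebra ℚ B] {y : B} (hy : IsNilpotent y) :
    ∃ r : B, IsNilpotent.exp y = 1 + y + y ^ 2 * r := by
  obtain ⟨k, hk⟩ := hy
  have hk2 : y ^ (k + 2) = 0 := pow_eq_zero_of_le (by omega) hk
  refine ⟨∑ i ∈ Finset.range k, (((i + 2).factorial : ℚ)⁻¹) • y ^ i, ?_⟩
  rw [exp_eq_sum hk2, Finset.sum_range_succ', Finset.sum_range_succ']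
  have : ∑ i ∈ Finset.range k, (((i + 1 + 1).factorial : ℚ)⁻¹) • y ^ (i + 1 + 1) =
      y ^ 2 * ∑ i ∈ Finset.range k, (((i + 2).factorial : ℚ)⁻¹) • y ^ i := by
    rw [Finset.mul_sum]
    refine Finset.sum_congr rfl fun i _ => ?_
    rw [mul_smul_comm]
    congr 1
    ring
  rw [this]
  simp
  ring

theorem exists_log_comm {B : Type*} [CommRing B] [Algebra ℚ B] {u : B} (hu : IsNilpotent u) :
    ∀ k : ℕ, ∃ x q : B, u ∣ x ∧ IsNilpotent.exp x = 1 + u + u ^ (k + 1) * q
  | 0 => ⟨0, -1, dvd_zero _, by simp⟩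
  | k + 1 => by
    obtain ⟨x, q, hx, he⟩ := exists_log_comm hu k
    have hxn : IsNilpotent x := by
      obtain ⟨c, rfl⟩ := hx
      exact (Commute.all u c).isNilpotent_mul_right hu
    have hy : IsNilpotent (-(u ^ (k + 1) * q)) := by
      apply IsNilpotent.neg
      have h1 : IsNilpotent (u ^ (k + 1)) := hu.pow_of_pos (by omega)
      exact (Commute.all _ _).isNilpotent_mul_right h1
    obtain ⟨r, hr⟩ := exp_eq_quad hy
    refine ⟨x + -(u ^ (k + 1) * q), -q - u ^ k * q ^ 2 +
      (1 + u + u ^ (k + 1) * q) * u ^ k * q ^ 2 * r, ?_, ?_⟩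
    · refine dvd_add hx ?_
      rw [dvd_neg]
      exact Dvd.dvd.mul_right (dvd_pow_self u (by omega)) _
    · rw [exp_add_of_commute (Commute.all _ _) hxn hy, he, hr]
      ring

theorem exists_log {A : Type*} [Ring A] [Algebra ℚ A] {u : A} (hu : IsNilpotent u) :
    ∃ x : A, IsNilpotent x ∧ IsNilpotent.exp x = 1 + u := by
  obtain ⟨N, hN⟩ := hu
  let I : Ideal ℚ[X] := Ideal.span {X ^ N}
  have hI : ∀ p : ℚ[X], p ∈ I → aeval u p = 0 := by
    intro p hp
    obtain ⟨c, rfl⟩ := Ideal.mem_span_singleton'.mp hp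
    simp [hN]
  let f : (ℚ[X] ⧸ I) →ₐ[ℚ] A := Ideal.Quotient.liftₐ I (aeval u) hI
  let v : ℚ[X] ⧸ I := Ideal.Quotient.mk I X
  have hv : v ^ N = 0 := by
    rw [← map_pow, Ideal.Quotient.eq_zero_iff_mem]
    exact Ideal.mem_span_singleton_self _
  have hvn : IsNilpotent v := ⟨N, hv⟩
  obtain ⟨x, q, hx, he⟩ := exists_log_comm hvn N
  rw [_root_.pow_succ, hv, zero_mul, zero_mul, add_zero] at he
  have hxn : IsNilpotent x := by
    obtain ⟨c, rfl⟩ := hx
    exact (Commute.all v c).isNilpotent_mul_right hvn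
  have hfv : f v = u := by
    change Ideal.Quotient.liftₐ I (aeval u) hI (Ideal.Quotient.mk I X) = u
    rw [Ideal.Quotient.liftₐ_apply]
    erw [Ideal.Quotient.lift_mk]
    simp
  refine ⟨f x, hxn.map f, ?_⟩
  rw [← map_exp hxn f, he, map_add, map_one, hfv]

end logs

section polys

variable {A : Type*} [Ring A] [Algebra ℚ A]

/-- Evaluation of a polynomial with (noncommutative) coefficients at a rational number. -/
noncomputable def ev (s : ℚ) : A[X] →+* A :=
  eval₂RingHom' (RingHom.id A) (algebraMap ℚ A s) (fun a => (Algebra.commutes s a).symm)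

@[simp] theorem ev_C (s : ℚ) (a : A) : ev s (C a) = a := by
  simp [ev, eval₂RingHom']

@[simp] theorem ev_X (s : ℚ) : ev s (X : A[X]) = algebraMap ℚ A s := by
  simp [ev, eval₂RingHom']

theorem ev_apply (s : ℚ) (p : A[X]) : ev s p = p.sum fun k c => s ^ k • c := by
  simp only [ev, eval₂RingHom', RingHom.coe_mk, MonoidHom.coe_mk, OneHom.coe_mk, eval₂_eq_sum,
    RingHom.id_apply, Polynomial.sum]
  refine Finset.sum_congr rfl fun k _ => ?_
  rw [← map_pow, ← Algebra.commutes, ← Algebra.smul_def]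

theorem eq_zero_of_ev_nat {p : A[X]} (h : ∀ s : ℕ, ev (s : ℚ) p = 0) : p = 0 := by
  ext k
  rw [coeff_zero]
  by_contra hk
  obtain ⟨φ, hφ⟩ : ∃ φ : A →ₗ[ℚ] ℚ, φ (p.coeff k) ≠ 0 := by
    by_contra hcon
    push Not at hcon
    exact hk ((Module.forall_dual_apply_eq_zero_iff ℚ _).mp hcon)
  let P : ℚ[X] := p.sum fun k c => monomial k (φ c)
  have hP : ∀ s : ℕ, P.eval (s : ℚ) = 0 := by
    intro s
    have h1 := congrArg φ (h s)
    rw [ev_apply, map_zero] at h1
    rw [← h1]
    simp only [P, Polynomial.sum, eval_finsetSum, eval_monomial, map_sum, map_smul, smul_eq_mul]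
    exact Finset.sum_congr rfl fun _ _ => mul_comm _ _
  have hP0 : P = 0 := by
    apply Polynomial.eq_zero_of_infinite_isRoot
    refine Set.Infinite.mono ?_ (Set.infinite_range_of_injective (Nat.cast_injective (R := ℚ)))
    rintro _ ⟨s, rfl⟩
    exact hP s
  have hc : P.coeff k = φ (p.coeff k) := by
    simp only [P, Polynomial.sum, finsetSum_coeff, coeff_monomial]
    rw [Finset.sum_ite_eq']
    split_ifs with hk'
    · rfl
    · rw [notMem_support_iff] at hk'
      rw [hk', map_zero]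
  exact hφ (by rw [← hc, hP0, coeff_zero])

end polys

section words

theorem map_dseq {G H : Type*} [Group G] [Group H] (f : G →* H) (h a : G) (k : ℕ) :
    f (dseq h a k) = dseq (f h) (f a) k := by
  induction k with
  | zero => rfl
  | succ k ih => simp [dseq_succ, ih]

theorem map_cm_iterate {G H : Type*} [Group G] [Group H] (f : G →* H) (g y : G) (k : ℕ) :
    f ((cm g)^[k] y) = (cm (f g))^[k] (f y) := by
  induction k with
  | zero => rfl
  | succ k ih =>
    rw [Function.iterate_succ_apply', Function.iterate_succ_apply', ← ih]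
    simp [cm]

theorem cm_iterate_one {G : Type*} [Group G] (g : G) (k : ℕ) : (cm g)^[k] 1 = 1 := by
  induction k with
  | zero => rfl
  | succ k ih =>
    rw [Function.iterate_succ_apply', ih]
    simp [cm]

theorem eng_mono {G : Type*} [Group G] {g : G} {n k : ℕ} (h : Eng n g) (hk : n ≤ k) :
    Eng k g := by
  intro y
  obtain ⟨j, rfl⟩ := Nat.exists_eq_add_of_le hk
  rw [Nat.add_comm, Function.iterate_add_apply, h y, cm_iterate_one]

variable {A : Type*} [Ring A] [Algebra ℚ A]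

/-- The unit `exp (X D)` of the polynomial ring. -/
noncomputable def expX {D : A} (hD : IsNilpotent D) : (A[X])ˣ where
  val := IsNilpotent.exp (X * C D)
  inv := IsNilpotent.exp (-(X * C D))
  val_inv := exp_mul_exp_neg_self ((commute_X (C D)).isNilpotent_mul_left (hD.map C))
  inv_val := exp_neg_mul_exp_self ((commute_X (C D)).isNilpotent_mul_left (hD.map C))

theorem ev_expX {D : A} (hD : IsNilpotent D) (s : ℚ) :
    ev s (expX hD : A[X]) = IsNilpotent.exp (s • D) := by
  have h1 : IsNilpotent (X * C D) :=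
    (commute_X (C D)).isNilpotent_mul_left (hD.map C)
  change ev s (IsNilpotent.exp (X * C D)) = _
  rw [map_exp h1 (ev s), map_mul, ev_X, ev_C, Algebra.smul_def]

/-- Evaluation on units. -/
noncomputable def evU (s : ℚ) : (A[X])ˣ →* Aˣ := Units.map (ev s).toMonoidHom

/-- Constant units. -/
noncomputable def cU : Aˣ →* (A[X])ˣ := Units.map (C : A →+* A[X]).toMonoidHom

@[simp] theorem coe_evU (s : ℚ) (u : (A[X])ˣ) : ((evU s u : Aˣ) : A) = ev s (u : A[X]) := rfl

@[simp] theorem coe_cU (u : Aˣ) : ((cU u : (A[X])ˣ) : A[X]) = C (u : A) := rfl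

@[simp] theorem coe_cU_inv (u : Aˣ) : (((cU u)⁻¹ : (A[X])ˣ) : A[X]) = C ((u⁻¹ : Aˣ) : A) := rfl

theorem map_ev_expX {D : A} (hD : IsNilpotent D) (s : ℚ) (E : Aˣ)
    (hE : (E : A) = IsNilpotent.exp (s • D)) :
    evU s (expX hD) = E := by
  ext
  rw [hE]
  exact ev_expX hD s

theorem map_ev_C (s : ℚ) (u : Aˣ) : evU s (cU u) = u := by
  ext
  simp

/-- One variable extension from natural numbers to rational numbers. -/
theorem dseq_exp_of_nat (u v a : Aˣ) {D : A} (hD : IsNilpotent D) (E : ℚ → Aˣ)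
    (hE : ∀ s, (E s : A) = IsNilpotent.exp (s • D)) (n : ℕ)
    (h : ∀ s : ℕ, dseq (u * E s * v) a n = a⁻¹) (s : ℚ) :
    dseq (u * E s * v) a n = a⁻¹ := by
  let F : (A[X])ˣ := dseq (cU u * expX hD * cU v) (cU a) n
  have hF : ∀ s : ℚ, evU s F = dseq (u * E s * v) a n := by
    intro s
    rw [map_dseq, map_mul, map_mul, map_ev_expX hD s (E s) (hE s), map_ev_C, map_ev_C, map_ev_C]
  have h0 : (F : A[X]) - C ((a⁻¹ : Aˣ) : A) = 0 := by
    apply eq_zero_of_ev_nat
    intro s
    have h1 := congrArg (fun t : Aˣ => (t : A)) ((hF s).trans (h s))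
    simp only [coe_evU] at h1
    rw [map_sub, ev_C]
    rw [sub_eq_zero]
    exact h1
  rw [← hF s]
  ext
  have h2 := congrArg (ev s) h0
  rw [map_sub, map_zero, ev_C, sub_eq_zero] at h2
  exact h2

/-- The linear term of the Engel condition. -/
theorem coeff_cm (g : Aˣ) (Y : (A[X])ˣ) (y : A) (h0 : (Y : A[X]).coeff 0 = 1)
    (h1 : (Y : A[X]).coeff 1 = y) :
    ((cm (cU g) Y : (A[X])ˣ) : A[X]).coeff 0 = 1 ∧
    ((cm (cU g) Y : (A[X])ˣ) : A[X]).coeff 1 =
      (g⁻¹ : Aˣ) * y * g - y := by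
  have hi : ((Y⁻¹ : (A[X])ˣ) : A[X]) * Y = 1 := Y.inv_mul
  have hi0 : ((Y⁻¹ : (A[X])ˣ) : A[X]).coeff 0 = 1 := by
    have := congrArg (fun p : A[X] => p.coeff 0) hi
    simp only [mul_coeff_zero, h0, mul_one, coeff_one_zero] at this
    exact this
  have hi1 : ((Y⁻¹ : (A[X])ˣ) : A[X]).coeff 1 = -y := by
    have := congrArg (fun p : A[X] => p.coeff 1) hi
    simp only [mul_coeff_one, h0, h1, hi0, one_mul, mul_one] at this
    rw [coeff_one] at this
    simp only [one_ne_zero, if_false] at this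
    exact eq_neg_of_add_eq_zero_right this
  have e : ((cm (cU g) Y : (A[X])ˣ) : A[X]) =
      ((Y⁻¹ : (A[X])ˣ) : A[X]) * (C ((g⁻¹ : Aˣ) : A) * Y * C (g : A)) := by
    simp [cm, mul_assoc]
  constructor
  · rw [e]
    simp [mul_coeff_zero, h0, hi0]
  · rw [e, mul_coeff_one, hi0, hi1, coeff_mul_C, coeff_mul_C, coeff_C_mul, coeff_C_mul, h0, h1]
    simp
    abel

theorem engel_log (g : Aˣ) {x : A} (hx : IsNilpotent x) (E : ℕ → Aˣ)
    (hE : ∀ s : ℕ, (E s : A) = IsNilpotent.exp ((s : ℚ) • x)) (n : ℕ)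
    (h : ∀ s : ℕ, (cm g)^[n] (E s) = 1) :
    (fun y : A => (g⁻¹ : Aˣ) * y * g - y)^[n] x = 0 := by
  have hX : IsNilpotent (X * C x) := (commute_X (C x)).isNilpotent_mul_left (hx.map C)
  have key : ∀ k : ℕ, (((cm (cU g))^[k] (expX hx) : (A[X])ˣ) : A[X]).coeff 0 = 1 ∧
      (((cm (cU g))^[k] (expX hx) : (A[X])ˣ) : A[X]).coeff 1 =
        (fun y : A => (g⁻¹ : Aˣ) * y * g - y)^[k] x := by
    intro k
    induction k with
    | zero =>
      obtain ⟨N, hN⟩ := hX
      have hN2 : (X * C x) ^ (N + 2) = 0 := pow_eq_zero_of_le (by omega) hN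
      have e : (expX hx : A[X]) = ∑ i ∈ Finset.range (N + 2), ((i.factorial : ℚ)⁻¹) •
          (X * C x) ^ i := exp_eq_sum hN2
      have hp : ∀ i : ℕ, (X * C x) ^ i = C (x ^ i) * X ^ i := by
        intro i
        rw [(commute_X (C x)).mul_pow, C_pow, ((commute_X_pow (C x) i).pow_right i).eq]
      constructor
      · change (expX hx : A[X]).coeff 0 = 1
        rw [e, finsetSum_coeff, Finset.sum_range_succ', Finset.sum_eq_zero]
        · simp
        · intro i _
          rw [hp, coeff_smul, coeff_C_mul, coeff_X_pow]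
          simp
      · change (expX hx : A[X]).coeff 1 = x
        rw [e, finsetSum_coeff, Finset.sum_range_succ', Finset.sum_range_succ', Finset.sum_eq_zero]
        · simp [coeff_one]
        · intro i _
          rw [hp, coeff_smul, coeff_C_mul, coeff_X_pow]
          simp
    | succ k ih =>
      rw [Function.iterate_succ_apply', Function.iterate_succ_apply', ← ih.2]
      exact coeff_cm g _ _ ih.1 rfl
  have h1 : (((cm (cU g))^[n] (expX hx) : (A[X])ˣ) : A[X]) - 1 = 0 := by
    apply eq_zero_of_ev_nat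
    intro s
    have h2 : evU (s : ℚ) ((cm (cU g))^[n] (expX hx)) = 1 := by
      rw [map_cm_iterate, map_ev_expX hx s (E s) (hE s), map_ev_C, h s]
    have h3 := congrArg (fun t : Aˣ => (t : A)) h2
    simp only [coe_evU, Units.val_one] at h3
    rw [map_sub, map_one, sub_eq_zero]
    exact h3
  rw [← (key n).2]
  rw [sub_eq_zero] at h1
  rw [h1, coeff_one]
  simp

end words

end Pool.Agent.Lib.MP_74ab55_al.GLie
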