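import Pool.Agent.Lib.MP_74ab55_al.GL1

set_option autoImplicit false

namespace Pool.Agent.Lib.MP_74ab55_al.GLie
open IsNilpotent Polynomial

section ops

variable {A : Type*} [Ring A] [Algebra ℚ A]

theorem exp_nat_smul {a : A} (ha : IsNilpotent a) (t : ℕ) :
    IsNilpotent.exp ((t : ℚ) • a) = IsNilpotent.exp a ^ t := by
  induction t with
  | zero => simp
  | succ t ih =>
    have h1 : IsNilpotent ((t : ℚ) • a) := ha.smul _
    have e : ((t + 1 : ℕ) : ℚ) • a = (t : ℚ) • a + a := by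
      rw [Nat.cast_add, add_smul, Nat.cast_one, one_smul]
    rw [e, exp_add_of_commute ((Commute.refl a).smul_left _) h1 ha, ih, _root_.pow_succ]

theorem exp_sub_one_eq {D : A} (hD : IsNilpotent D) :
    ∃ r : A, Commute D r ∧ IsNilpotent.exp D - 1 = D * (1 + D * r) := by
  obtain ⟨k, hk⟩ := hD
  have hk2 : D ^ (k + 2) = 0 := pow_eq_zero_of_le (by omega) hk
  refine ⟨∑ i ∈ Finset.range k, (((i + 2).factorial : ℚ)⁻¹) • D ^ i, ?_, ?_⟩
  · exact Commute.sum_right _ _ _ fun i _ => ((Commute.refl D).pow_right i).smul_right _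
  rw [exp_eq_sum hk2, Finset.sum_range_succ', Finset.sum_range_succ']
  have : ∑ i ∈ Finset.range k, (((i + 1 + 1).factorial : ℚ)⁻¹) • D ^ (i + 1 + 1) =
      D * (D * ∑ i ∈ Finset.range k, (((i + 2).factorial : ℚ)⁻¹) • D ^ i) := by
    rw [Finset.mul_sum, Finset.mul_sum]
    refine Finset.sum_congr rfl fun i _ => ?_
    rw [mul_smul_comm, mul_smul_comm, _root_.pow_succ', _root_.pow_succ']
  rw [this]
  simp
  noncomm_ring

/-- Conjugation as a linear operator. -/
noncomputable def cj (g : Aˣ) : Module.End ℚ A :=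
  LinearMap.mulLeft ℚ (g : A) * LinearMap.mulRight ℚ ((g⁻¹ : Aˣ) : A)

theorem cj_apply (g : Aˣ) (y : A) : cj g y = g * y * (g⁻¹ : Aˣ) := by
  simp [cj, mul_assoc]

theorem cj_pow_apply (g : Aˣ) (t : ℕ) (y : A) :
    ((cj g) ^ t) y = g ^ t * y * ((g⁻¹ : Aˣ) : A) ^ t := by
  induction t with
  | zero => simp
  | succ t ih =>
    rw [_root_.pow_succ', Module.End.mul_apply, ih, cj_apply]
    rw [_root_.pow_succ' (g : A), _root_.pow_succ ((g⁻¹ : Aˣ) : A)]
    simp only [mul_assoc]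

theorem exp_mulRight {y : A} (hy : IsNilpotent y) :
    IsNilpotent.exp (LinearMap.mulRight ℚ y) = LinearMap.mulRight ℚ (IsNilpotent.exp y) := by
  obtain ⟨k, hk⟩ := hy
  have h1 : (LinearMap.mulRight ℚ y) ^ k = 0 := by
    rw [LinearMap.pow_mulRight, hk]
    ext
    simp
  rw [exp_eq_sum hk, exp_eq_sum h1]
  ext z
  simp [LinearMap.sum_apply, Finset.mul_sum, LinearMap.pow_mulRight]

/-- The inner derivation `y ↦ x y - y x`. -/
noncomputable def dd (x : A) : Module.End ℚ A :=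
  LinearMap.mulLeft ℚ x + LinearMap.mulRight ℚ (-x)

theorem dd_apply (x y : A) : dd x y = x * y - y * x := by
  simp [dd, sub_eq_add_neg]

theorem dd_nilpotent {x : A} (hx : IsNilpotent x) : IsNilpotent (dd x) := by
  have hL : IsNilpotent (LinearMap.mulLeft ℚ x) := hx.map (Algebra.lmul ℚ A)
  have hR : IsNilpotent (LinearMap.mulRight ℚ (-x)) := by
    obtain ⟨k, hk⟩ := hx.neg
    refine ⟨k, ?_⟩
    rw [LinearMap.pow_mulRight, hk]
    ext
    simp
  exact (LinearMap.commute_mulLeft_right (R := ℚ) x (-x)).isNilpotent_add hL hR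

theorem exp_dd {x : A} (hx : IsNilpotent x) (g : Aˣ) (hg : (g : A) = IsNilpotent.exp x) :
    IsNilpotent.exp (dd x) = cj g := by
  have hg' : ((g⁻¹ : Aˣ) : A) = IsNilpotent.exp (-x) := by
    rw [← mul_one ((g⁻¹ : Aˣ) : A), ← exp_mul_exp_neg_self hx, ← hg, Units.inv_mul_cancel_left]
  have hL : IsNilpotent (LinearMap.mulLeft ℚ x) := hx.map (Algebra.lmul ℚ A)
  have hR : IsNilpotent (LinearMap.mulRight ℚ (-x)) := by
    obtain ⟨k, hk⟩ := hx.neg
    refine ⟨k, ?_⟩
    rw [LinearMap.pow_mulRight, hk]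
    ext
    simp
  have hc : Commute (LinearMap.mulLeft ℚ x) (LinearMap.mulRight ℚ (-x)) :=
    LinearMap.commute_mulLeft_right (R := ℚ) x (-x)
  rw [dd, exp_add_of_commute hc hL hR, exp_mulRight hx.neg, cj, hg, hg']
  congr 1
  exact (map_exp hx (Algebra.lmul ℚ A)).symm

end ops

section modules

variable {M : Type*} [AddCommGroup M] [Module ℚ M]

theorem pow_apply_eq_zero {D : Module.End ℚ M} (hD : IsNilpotent D) {n : ℕ} {y : M}
    (h : ((IsNilpotent.exp D - 1) ^ n) y = 0) : (D ^ n) y = 0 := by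
  obtain ⟨r, hr, e⟩ := exp_sub_one_eq hD
  have hnil : IsNilpotent (D * r) := hr.isNilpotent_mul_right hD
  have hu : IsUnit (1 + D * r) := hnil.isUnit_one_add
  have hcomm : Commute D (1 + D * r) :=
    (Commute.one_right D).add_right ((Commute.refl D).mul_right hr)
  obtain ⟨u, hu⟩ := hu
  rw [e, hcomm.mul_pow, (hcomm.pow_pow n n).eq, ← hu] at h
  have h2 : ((((u⁻¹ : (Module.End ℚ M)ˣ) : Module.End ℚ M) ^ n) *
      (((u : Module.End ℚ M) ^ n) * D ^ n)) y = 0 := by
    rw [Module.End.mul_apply, h, map_zero]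
  rw [← mul_assoc, ← Units.val_pow_eq_pow_val, ← Units.val_pow_eq_pow_val, ← Units.val_mul,
    inv_pow, inv_mul_cancel, Units.val_one, one_mul] at h2
  exact h2

theorem exp_apply_eq_sum {D : Module.End ℚ M} (hD : IsNilpotent D) {n : ℕ} {y : M}
    (h : (D ^ n) y = 0) :
    (IsNilpotent.exp D) y = ∑ l ∈ Finset.range n, ((l.factorial : ℚ)⁻¹) • (D ^ l) y :=
  exp_smul_eq_sum (A := Module.End ℚ M) (M := M) h hD

theorem lagr (n : ℕ) : ∃ c : ℕ → ℚ, ∀ l < n,
    ∑ t ∈ Finset.range n, c t * (t : ℚ) ^ l = if l = 1 then 1 else 0 := by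
  refine ⟨fun t => (Lagrange.basis (Finset.range n) (fun k : ℕ => (k : ℚ)) t).coeff 1, ?_⟩
  intro l hl
  have h1 : (X ^ l : ℚ[X]) = Lagrange.interpolate (Finset.range n) (fun k : ℕ => (k : ℚ))
      fun i => (X ^ l : ℚ[X]).eval ((i : ℕ) : ℚ) := by
    apply Lagrange.eq_interpolate
    · intro i _ j _ hij
      exact Nat.cast_injective hij
    · rw [degree_X_pow, Finset.card_range]
      exact_mod_cast hl
  have h2 := congrArg (fun p : ℚ[X] => p.coeff 1) h1
  rw [Lagrange.interpolate_apply] at h2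
  simp only [coeff_X_pow, finsetSum_coeff, coeff_C_mul, eval_pow, eval_X] at h2
  rw [show (if l = 1 then (1 : ℚ) else 0) = if 1 = l then 1 else 0 by simp [eq_comm], h2]
  exact Finset.sum_congr rfl fun t _ => mul_comm _ _

theorem apply_eq_comb {n : ℕ} (hn : 2 ≤ n) {c : ℕ → ℚ}
    (hc : ∀ l < n, ∑ t ∈ Finset.range n, c t * (t : ℚ) ^ l = if l = 1 then 1 else 0)
    {D : Module.End ℚ M} (hD : IsNilpotent D) {y : M} (h : (D ^ n) y = 0) :
    D y = ∑ t ∈ Finset.range n, c t • ((IsNilpotent.exp D) ^ t) y := by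
  have h1 : ∀ t : ℕ, ((IsNilpotent.exp D) ^ t) y =
      ∑ l ∈ Finset.range n, ((t : ℚ) ^ l * (l.factorial : ℚ)⁻¹) • (D ^ l) y := by
    intro t
    rw [← exp_nat_smul hD, exp_apply_eq_sum (hD.smul _) (n := n)]
    · refine Finset.sum_congr rfl fun l _ => ?_
      rw [_root_.smul_pow, LinearMap.smul_apply, smul_smul, mul_comm]
    · rw [_root_.smul_pow, LinearMap.smul_apply, h, smul_zero]
  simp only [h1, Finset.smul_sum, smul_smul]
  rw [Finset.sum_comm]
  have h2 : ∀ l ∈ Finset.range n, ∑ t ∈ Finset.range n,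
      (c t * ((t : ℚ) ^ l * (l.factorial : ℚ)⁻¹)) • (D ^ l) y =
      if l = 1 then D y else 0 := by
    intro l hl
    rw [← Finset.sum_smul]
    have : ∑ t ∈ Finset.range n, c t * ((t : ℚ) ^ l * (l.factorial : ℚ)⁻¹) =
        (if l = 1 then 1 else 0) * (l.factorial : ℚ)⁻¹ := by
      rw [← hc l (Finset.mem_range.mp hl), Finset.sum_mul]
      exact Finset.sum_congr rfl fun t _ => by ring
    rw [this]
    split_ifs with h3
    · subst h3
      simp
    · simp
  rw [Finset.sum_congr rfl h2, Finset.sum_ite_eq', if_pos (Finset.mem_range.mpr (by omega))]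

end modules

end Pool.Agent.Lib.MP_74ab55_al.GLie
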