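import Pool.Agent.Lib.MP_74ab55_al.GL2

set_option autoImplicit false

namespace Pool.Agent.Lib.MP_74ab55_al.GLie
open IsNilpotent Polynomial

section data

variable {Γ : Type*} [Group Γ] {m : ℕ} {P : Type*} [Ring P] [Algebra ℚ P]

/-- The conjugates of the `x i`. -/
def conjs (R : Γ →* Pˣ) (x : Fin m → P) : Set P :=
  {y | ∃ (g : Γ) (i : Fin m), y = R g * x i * ((R g)⁻¹ : Pˣ)}

/-- Formal properties of the logarithms `x j` of the elements `R (a j)`. -/
structure LogData (n : ℕ) (a : Fin m → Γ) (R : Γ →* Pˣ) (x : Fin m → P) : Prop where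
  nil : ∀ j, ∀ y ∈ conjs R x, ((dd (x j)) ^ (n + 2)) y = 0
  exp : ∀ j, ∀ y ∈ conjs R x, ∑ l ∈ Finset.range (n + 2), ((l.factorial : ℚ)⁻¹) •
    ((dd (x j)) ^ l) y = cj (R (a j)) y
  exp' : ∀ j, ∀ y ∈ conjs R x, ∑ l ∈ Finset.range (n + 2), ((l.factorial : ℚ)⁻¹) •
    ((-dd (x j)) ^ l) y = cj (R (a j))⁻¹ y
  comb : ∃ c : ℕ → ℚ, ∀ j, ∀ y ∈ conjs R x, dd (x j) y =
    ∑ t ∈ Finset.range (n + 2), c t • ((cj (R (a j))) ^ t) y
  comm : ∀ u : P, (∀ j, Commute u (x j)) → ∀ j, Commute u (R (a j) : P)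

theorem exp_conj {A : Type*} [Ring A] [Algebra ℚ A] {z : A} (hz : IsNilpotent z) (u : Aˣ) :
    IsNilpotent.exp (u * z * (u⁻¹ : Aˣ)) = u * IsNilpotent.exp z * (u⁻¹ : Aˣ) := by
  obtain ⟨k, hk⟩ := hz
  have h1 : (u * z * (u⁻¹ : Aˣ)) ^ k = 0 := by
    rw [Units.conj_pow, hk]
    simp
  rw [exp_eq_sum hk, exp_eq_sum h1, Finset.mul_sum, Finset.sum_mul]
  refine Finset.sum_congr rfl fun i _ => ?_
  rw [Units.conj_pow, mul_smul_comm, smul_mul_assoc]

theorem neg_pow_apply_zero {M : Type*} [AddCommGroup M] [Module ℚ M] (f : Module.End ℚ M) (k : ℕ)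
    (y : M) (h : (f ^ k) y = 0) : ((-f) ^ k) y = 0 := by
  have e : (-f) ^ k = (-1) ^ k * f ^ k := neg_pow f k
  rw [e, Module.End.mul_apply, h, map_zero]

theorem neg_dd {A : Type*} [Ring A] [Algebra ℚ A] (x : A) : dd (-x) = -dd x := by
  ext y
  simp [dd_apply, sub_eq_add_neg, add_comm]

theorem component_nil {A : Type*} [Ring A] [Algebra ℚ A] (G : Γ →* Aˣ) (n : ℕ) (b : Γ)
    (hb : Eng n b) (z : A) (hz : IsNilpotent z) (hzb : IsNilpotent.exp z = G b)
    (b' : Γ) (y : A) (hy : IsNilpotent y) (hyb : IsNilpotent.exp y = G b') :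
    ((dd z) ^ n) y = 0 := by
  have hE : ∀ s : ℕ, ((G (b' ^ s) : Aˣ) : A) = IsNilpotent.exp ((s : ℚ) • y) := by
    intro s
    rw [exp_nat_smul hy, hyb, map_pow, Units.val_pow_eq_pow_val]
  have h := engel_log (G b) hy (fun s => G (b' ^ s)) hE n (fun s => by
    rw [← map_cm_iterate, hb, map_one])
  have e : ∀ k : ℕ, (fun y : A => ((G b)⁻¹ : Aˣ) * y * (G b) - y)^[k] y =
      ((IsNilpotent.exp (dd (-z)) - 1) ^ k) y := by
    intro k
    induction k with
    | zero => simp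
    | succ k ih =>
      rw [Function.iterate_succ_apply', ih, _root_.pow_succ', Module.End.mul_apply]
      have hb' : (((G b)⁻¹ : Aˣ) : A) = IsNilpotent.exp (-z) := by
        rw [← mul_one (((G b)⁻¹ : Aˣ) : A), ← exp_mul_exp_neg_self hz, hzb,
          Units.inv_mul_cancel_left]
      have h2 := exp_dd hz.neg (G b)⁻¹ hb'
      generalize ((IsNilpotent.exp (dd (-z)) - 1) ^ k) y = w
      rw [h2, LinearMap.sub_apply, cj_apply]
      simp
  rw [e] at h
  have h3 := pow_apply_eq_zero (dd_nilpotent hz.neg) h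
  have h4 := neg_pow_apply_zero _ _ _ h3
  rw [neg_dd, neg_neg] at h4
  exact h4

theorem map_dd_pow {A : Type*} [Ring A] [Algebra ℚ A] (π : P →ₐ[ℚ] A) (x y : P) (k : ℕ) :
    π (((dd x) ^ k) y) = ((dd (π x)) ^ k) (π y) := by
  induction k with
  | zero => simp
  | succ k ih =>
    rw [_root_.pow_succ', Module.End.mul_apply, _root_.pow_succ', Module.End.mul_apply, ← ih,
      dd_apply, dd_apply]
    simp

theorem map_neg_dd_pow {A : Type*} [Ring A] [Algebra ℚ A] (π : P →ₐ[ℚ] A) (x y : P) (k : ℕ) :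
    π (((-dd x) ^ k) y) = ((-dd (π x)) ^ k) (π y) := by
  rw [← neg_dd, ← neg_dd, ← map_neg]
  exact map_dd_pow π (-x) y k

theorem logData_of_components {n : ℕ} {a : Fin m → Γ} {R : Γ →* Pˣ} {x : Fin m → P}
    {I : Type*} (A : I → Type*) [∀ i, Ring (A i)] [∀ i, Algebra ℚ (A i)]
    (π : ∀ i, P →ₐ[ℚ] A i) (hinj : ∀ p q : P, (∀ i, π i p = π i q) → p = q)
    (hnil : ∀ i j, IsNilpotent (π i (x j)))
    (hexp : ∀ i j, IsNilpotent.exp (π i (x j)) = π i (R (a j)))
    (heng : ∀ j, Eng n (a j)) : LogData n a R x := by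
  -- the group homomorphism to the component
  let G : ∀ i, Γ →* (A i)ˣ := fun i => (Units.map (π i : P →* A i)).comp R
  have hG : ∀ i g, ((G i g : (A i)ˣ) : A i) = π i (R g) := fun i g => rfl
  have hGi : ∀ i g, (((G i g)⁻¹ : (A i)ˣ) : A i) = π i ((R g)⁻¹ : Pˣ) := fun i g => rfl
  have hzero : ∀ i j, ∀ y ∈ conjs R x, ((dd (π i (x j))) ^ n) (π i y) = 0 := by
    rintro i j y ⟨g, k, rfl⟩
    have e : π i (R g * x k * ((R g)⁻¹ : Pˣ)) = G i g * π i (x k) * ((G i g)⁻¹ : (A i)ˣ) := by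
      rw [map_mul, map_mul, hG, hGi]
    have hn : IsNilpotent (G i g * π i (x k) * ((G i g)⁻¹ : (A i)ˣ)) := by
      obtain ⟨N, hN⟩ := hnil i k
      exact ⟨N, by rw [Units.conj_pow, hN]; simp⟩
    rw [e]
    refine component_nil (G i) n (a j) (heng j) (π i (x j)) (hnil i j) (by rw [hexp, hG])
      (g * a k * g⁻¹) _ hn ?_
    rw [exp_conj (hnil i k), hexp, map_mul, map_mul, map_inv, Units.val_mul, Units.val_mul, hG,
      hG]
  have hzero2 : ∀ i j, ∀ y ∈ conjs R x, ((dd (π i (x j))) ^ (n + 2)) (π i y) = 0 := by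
    intro i j y hy
    rw [Nat.add_comm, pow_add, Module.End.mul_apply, hzero i j y hy, map_zero]
  have hcj : ∀ i g y, π i (cj (R g) y) = cj (G i g) (π i y) := by
    intro i g y
    rw [cj_apply, cj_apply, map_mul, map_mul]
    rfl
  have hcjp : ∀ i g y t, π i (((cj (R g)) ^ t) y) = ((cj (G i g)) ^ t) (π i y) := by
    intro i g y t
    induction t with
    | zero => simp
    | succ t ih =>
      rw [_root_.pow_succ', Module.End.mul_apply, _root_.pow_succ', Module.End.mul_apply, ← ih,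
        hcj]
  have hexpd : ∀ i j, IsNilpotent.exp (dd (π i (x j))) = cj (G i (a j)) := fun i j =>
    exp_dd (hnil i j) (G i (a j)) (by rw [hexp, hG])
  have hexpd' : ∀ i j, IsNilpotent.exp (-dd (π i (x j))) = cj (G i (a j))⁻¹ := by
    intro i j
    rw [← neg_dd]
    refine exp_dd (hnil i j).neg (G i (a j))⁻¹ ?_
    rw [← mul_one (((G i (a j))⁻¹ : (A i)ˣ) : A i), ← exp_mul_exp_neg_self (hnil i j), hexp,
      ← hG, Units.inv_mul_cancel_left]
  obtain ⟨c, hc⟩ := lagr (n + 2)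
  refine ⟨?_, ?_, ?_, ⟨c, ?_⟩, ?_⟩
  · intro j y hy
    apply hinj
    intro i
    rw [map_dd_pow, hzero2 i j y hy, map_zero]
  · intro j y hy
    apply hinj
    intro i
    rw [map_sum, hcj, ← hexpd, exp_apply_eq_sum (dd_nilpotent (hnil i j)) (hzero2 i j y hy)]
    refine Finset.sum_congr rfl fun l _ => ?_
    rw [map_smul, map_dd_pow]
  · intro j y hy
    apply hinj
    intro i
    have h1 : π i (cj (R (a j))⁻¹ y) = cj (G i (a j))⁻¹ (π i y) := by
      rw [cj_apply, cj_apply, map_mul, map_mul]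
      rfl
    have h2 : ((-dd (π i (x j))) ^ (n + 2)) (π i y) = 0 :=
      neg_pow_apply_zero _ _ _ (hzero2 i j y hy)
    rw [map_sum, h1, ← hexpd', exp_apply_eq_sum (dd_nilpotent (hnil i j)).neg h2]
    refine Finset.sum_congr rfl fun l _ => ?_
    rw [map_smul, map_neg_dd_pow]
  · intro j y hy
    apply hinj
    intro i
    have h1 := map_dd_pow (π i) (x j) y 1
    rw [pow_one, pow_one] at h1
    rw [h1, apply_eq_comb (by omega) hc (dd_nilpotent (hnil i j)) (hzero2 i j y hy), map_sum,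
      hexpd]
    refine Finset.sum_congr rfl fun t _ => ?_
    rw [map_smul, hcjp]
  · intro u hu j
    apply hinj
    intro i
    rw [map_mul, map_mul, ← hexp]
    obtain ⟨k, hk⟩ := hnil i j
    rw [exp_eq_sum hk]
    have h1 : Commute (π i u) (π i (x j)) := (hu j).map (π i)
    exact Commute.sum_right _ _ _ fun l _ => (h1.pow_right l).smul_right _

end data

end Pool.Agent.Lib.MP_74ab55_al.GLie
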