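import Pool.Agent.Lib.MP_74ab55_al.GL3

set_option autoImplicit false

namespace Pool.Agent.Lib.MP_74ab55_al.GLie
open IsNilpotent Polynomial

section liealg

attribute [local instance 100] LieRing.ofAssociativeRing

variable {Γ : Type*} [Group Γ] {m : ℕ} {P : Type*} [Ring P] [Algebra ℚ P] {n : ℕ}
  {a : Fin m → Γ} {R : Γ →* Pˣ} {x : Fin m → P}

/-- The span of the conjugates. -/
def Ssp (R : Γ →* Pˣ) (x : Fin m → P) : Submodule ℚ P := Submodule.span ℚ (conjs R x)

theorem cj_mul_apply (u v : Pˣ) (y : P) : cj (u * v) y = cj u (cj v y) := by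
  simp only [cj_apply, Units.val_mul, mul_inv_rev, mul_assoc]

theorem cj_one_apply (y : P) : cj (1 : Pˣ) y = y := by
  simp [cj_apply]

theorem cj_mem_conjs (g : Γ) {y : P} (hy : y ∈ conjs R x) : cj (R g) y ∈ conjs R x := by
  obtain ⟨h, i, rfl⟩ := hy
  refine ⟨g * h, i, ?_⟩
  rw [cj_apply, map_mul]
  simp only [Units.val_mul, mul_inv_rev, mul_assoc]

theorem span_le_of {Q : Submodule ℚ P} {f : P →ₗ[ℚ] P} (h : ∀ y ∈ conjs R x, f y ∈ Q) {y : P}
    (hy : y ∈ Ssp R x) : f y ∈ Q := by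
  have : Ssp R x ≤ Q.comap f := Submodule.span_le.mpr h
  exact this hy

theorem eq_on_span {f g : P →ₗ[ℚ] P} (h : ∀ y ∈ conjs R x, f y = g y) {y : P}
    (hy : y ∈ Ssp R x) : f y = g y := LinearMap.eqOn_span h hy

theorem cj_mem (g : Γ) {y : P} (hy : y ∈ Ssp R x) : cj (R g) y ∈ Ssp R x :=
  span_le_of (fun _ hz => Submodule.subset_span (cj_mem_conjs g hz)) hy

theorem cj_pow_mem (g : Γ) (t : ℕ) {y : P} (hy : y ∈ Ssp R x) :
    ((cj (R g)) ^ t) y ∈ Ssp R x := by
  induction t with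
  | zero => simpa using hy
  | succ t ih =>
    rw [_root_.pow_succ', Module.End.mul_apply]
    exact cj_mem g ih

theorem dd_mem (D : LogData n a R x) (j : Fin m) {y : P} (hy : y ∈ Ssp R x) :
    dd (x j) y ∈ Ssp R x := by
  obtain ⟨c, hc⟩ := D.comb
  refine span_le_of (fun z hz => ?_) hy
  rw [hc j z hz]
  exact Submodule.sum_mem _ fun t _ => Submodule.smul_mem _ _
    (cj_pow_mem (a j) t (Submodule.subset_span hz))

theorem dd_mem' (D : LogData n a R x) {z y : P} (hz : z ∈ Ssp R x) (hy : y ∈ Ssp R x) :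
    dd z y ∈ Ssp R x := by
  have e : ∀ z : P, dd z y = -(dd y z) := fun z => by
    rw [dd_apply, dd_apply]
    abel
  rw [e]
  refine Submodule.neg_mem _ (span_le_of (fun z hz => ?_) hz)
  have e2 : dd y z = -(dd z y) := by
    rw [dd_apply, dd_apply]
    abel
  rw [e2]
  refine Submodule.neg_mem _ ?_
  obtain ⟨g, i, rfl⟩ := hz
  have e3 : dd (R g * x i * ((R g)⁻¹ : Pˣ)) y = cj (R g) (dd (x i) (cj (R g⁻¹) y)) := by
    simp only [cj_apply, dd_apply, map_inv, mul_sub, sub_mul, inv_inv]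
    congr 1
    · simp only [mul_assoc]
      simp
    · simp only [mul_assoc]
      simp
  rw [e3]
  exact cj_mem g (dd_mem D i (cj_mem g⁻¹ hy))

/-- The Lie algebra spanned by the conjugates. -/
def Lsub (D : LogData n a R x) : LieSubalgebra ℚ P :=
  { Ssp R x with
    lie_mem' := by
      intro y z hy hz
      have h := dd_mem' D hy hz
      rw [dd_apply] at h
      exact h }

theorem mem_Lsub (D : LogData n a R x) {y : P} : y ∈ Lsub D ↔ y ∈ Ssp R x := Iff.rfl

theorem x_mem (D : LogData n a R x) (j : Fin m) : x j ∈ Lsub D := by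
  rw [mem_Lsub]
  refine Submodule.subset_span ⟨1, j, ?_⟩
  simp

/-- The generators. -/
def xL (D : LogData n a R x) (j : Fin m) : Lsub D := ⟨x j, x_mem D j⟩

/-- The action of the group by conjugation. -/
noncomputable def phi (D : LogData n a R x) : Γ →* Module.End ℚ (Lsub D) where
  toFun g :=
    { toFun := fun y => ⟨cj (R g) y, (mem_Lsub D).mpr (cj_mem g y.2)⟩
      map_add' := fun y z => Subtype.ext (by simp)
      map_smul' := fun c y => Subtype.ext (by simp) }
  map_one' := by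
    ext y
    simp [cj_apply]
  map_mul' g h := by
    ext y
    simp [cj_mul_apply]

theorem coe_phi (D : LogData n a R x) (g : Γ) (y : Lsub D) :
    ((phi D g y : Lsub D) : P) = cj (R g) y := rfl

theorem coe_ad (D : LogData n a R x) (j : Fin m) (y : Lsub D) :
    ((LieAlgebra.ad ℚ (Lsub D) (xL D j) y : Lsub D) : P) = dd (x j) y := by
  rw [LieAlgebra.ad_apply, dd_apply]
  rfl

theorem coe_ad_pow (D : LogData n a R x) (j : Fin m) (l : ℕ) (y : Lsub D) :
    ((((LieAlgebra.ad ℚ (Lsub D) (xL D j)) ^ l) y : Lsub D) : P) = ((dd (x j)) ^ l) y := by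
  induction l with
  | zero => simp
  | succ l ih =>
    rw [_root_.pow_succ', Module.End.mul_apply, _root_.pow_succ', Module.End.mul_apply, coe_ad, ih]

theorem coe_neg_ad_pow (D : LogData n a R x) (j : Fin m) (l : ℕ) (y : Lsub D) :
    ((((-LieAlgebra.ad ℚ (Lsub D) (xL D j)) ^ l) y : Lsub D) : P) = ((-dd (x j)) ^ l) y := by
  induction l with
  | zero => simp
  | succ l ih =>
    rw [_root_.pow_succ', Module.End.mul_apply, _root_.pow_succ', Module.End.mul_apply,
      LinearMap.neg_apply, LinearMap.neg_apply, ← ih, ← coe_ad]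
    rfl

theorem ad_pow_eq_zero (D : LogData n a R x) (j : Fin m) :
    (LieAlgebra.ad ℚ (Lsub D) (xL D j)) ^ (n + 2) = 0 := by
  ext y
  rw [coe_ad_pow]
  simpa using eq_on_span (f := (dd (x j)) ^ (n + 2)) (g := 0) (D.nil j) y.2

theorem ad_nil (D : LogData n a R x) (j : Fin m) :
    IsNilpotent (LieAlgebra.ad ℚ (Lsub D) (xL D j)) := ⟨n + 2, ad_pow_eq_zero D j⟩

theorem exp_ad (D : LogData n a R x) (j : Fin m) :
    IsNilpotent.exp (LieAlgebra.ad ℚ (Lsub D) (xL D j)) = phi D (a j) := by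
  rw [exp_eq_sum (ad_pow_eq_zero D j)]
  ext y
  rw [coe_phi]
  have h1 := eq_on_span (f := ∑ l ∈ Finset.range (n + 2), ((l.factorial : ℚ)⁻¹) • (dd (x j)) ^ l)
    (g := cj (R (a j))) (fun z hz => by
      rw [← D.exp j z hz, LinearMap.sum_apply]
      rfl) y.2
  rw [← h1, LinearMap.sum_apply, LinearMap.sum_apply]
  have h2 : ∀ s : Finset ℕ, ∀ f : ℕ → Lsub D, ((∑ l ∈ s, f l : Lsub D) : P) =
      ∑ l ∈ s, (f l : P) := fun s f => map_sum (Lsub D).incl f s
  rw [h2]
  refine Finset.sum_congr rfl fun l _ => ?_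
  rw [LinearMap.smul_apply, LinearMap.smul_apply, ← coe_ad_pow]
  rfl

theorem exp_neg_ad (D : LogData n a R x) (j : Fin m) :
    IsNilpotent.exp (-LieAlgebra.ad ℚ (Lsub D) (xL D j)) = phi D (a j)⁻¹ := by
  have h0 : (-LieAlgebra.ad ℚ (Lsub D) (xL D j)) ^ (n + 2) = 0 := by
    have e : (-LieAlgebra.ad ℚ (Lsub D) (xL D j)) ^ (n + 2) =
      (-1) ^ (n + 2) * (LieAlgebra.ad ℚ (Lsub D) (xL D j)) ^ (n + 2) := neg_pow _ _
    rw [e, ad_pow_eq_zero, mul_zero]
  rw [exp_eq_sum h0]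
  ext y
  rw [coe_phi, map_inv]
  have h1 := eq_on_span (f := ∑ l ∈ Finset.range (n + 2), ((l.factorial : ℚ)⁻¹) • (-dd (x j)) ^ l)
    (g := cj (R (a j))⁻¹) (fun z hz => by
      rw [← D.exp' j z hz, LinearMap.sum_apply]
      rfl) y.2
  rw [← h1, LinearMap.sum_apply, LinearMap.sum_apply]
  have h2 : ∀ s : Finset ℕ, ∀ f : ℕ → Lsub D, ((∑ l ∈ s, f l : Lsub D) : P) =
      ∑ l ∈ s, (f l : P) := fun s f => map_sum (Lsub D).incl f s
  rw [h2]
  refine Finset.sum_congr rfl fun l _ => ?_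
  rw [LinearMap.smul_apply, LinearMap.smul_apply, ← coe_neg_ad_pow]
  rfl

/-- A subspace stable under the `ad (xL j)` is stable under the group action. -/
theorem phi_stable (D : LogData n a R x) (hgen : Subgroup.closure (Set.range a) = ⊤)
    (T : Submodule ℚ (Lsub D))
    (hT : ∀ j, ∀ y ∈ T, LieAlgebra.ad ℚ (Lsub D) (xL D j) y ∈ T) (g : Γ) :
    ∀ y ∈ T, phi D g y ∈ T := by
  have hpow : ∀ j l, ∀ y ∈ T, ((LieAlgebra.ad ℚ (Lsub D) (xL D j)) ^ l) y ∈ T := by
    intro j l y hy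
    induction l with
    | zero => simpa using hy
    | succ l ih =>
      rw [_root_.pow_succ', Module.End.mul_apply]
      exact hT j _ ih
  have hpow' : ∀ j l, ∀ y ∈ T, ((-LieAlgebra.ad ℚ (Lsub D) (xL D j)) ^ l) y ∈ T := by
    intro j l y hy
    have e : (-LieAlgebra.ad ℚ (Lsub D) (xL D j)) ^ l =
      (-1) ^ l * (LieAlgebra.ad ℚ (Lsub D) (xL D j)) ^ l := neg_pow _ _
    rw [e, Module.End.mul_apply]
    rcases neg_one_pow_eq_or (Module.End ℚ (Lsub D)) l with h4 | h4
    · rw [h4]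
      exact hpow j l y hy
    · rw [h4, LinearMap.neg_apply]
      exact T.neg_mem (hpow j l y hy)
  have key : g ∈ Subgroup.closure (Set.range a) := hgen ▸ Subgroup.mem_top g
  induction key using Subgroup.closure_induction'' with
  | mem z hz =>
    obtain ⟨j, rfl⟩ := hz
    intro y hy
    rw [← exp_ad, exp_eq_sum (ad_pow_eq_zero D j), LinearMap.sum_apply]
    exact T.sum_mem fun l _ => T.smul_mem _ (hpow j l y hy)
  | inv_mem z hz =>
    obtain ⟨j, rfl⟩ := hz
    intro y hy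
    rw [← exp_neg_ad, exp_eq_sum (k := n + 2), LinearMap.sum_apply]
    · exact T.sum_mem fun l _ => T.smul_mem _ (hpow' j l y hy)
    · have e : (-LieAlgebra.ad ℚ (Lsub D) (xL D j)) ^ (n + 2) =
        (-1) ^ (n + 2) * (LieAlgebra.ad ℚ (Lsub D) (xL D j)) ^ (n + 2) := neg_pow _ _
      rw [e, ad_pow_eq_zero, mul_zero]
  | one =>
    intro y hy
    rw [map_one]
    exact hy
  | mul g h _ _ hg hh =>
    intro y hy
    rw [map_mul]
    exact hg _ (hh y hy)

theorem lieSpan_eq_top (D : LogData n a R x) (hgen : Subgroup.closure (Set.range a) = ⊤) :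
    LieSubalgebra.lieSpan ℚ (Lsub D) (Set.range (xL D)) = ⊤ := by
  set T := LieSubalgebra.lieSpan ℚ (Lsub D) (Set.range (xL D)) with hTdef
  have hx : ∀ j, xL D j ∈ T := fun j => LieSubalgebra.subset_lieSpan ⟨j, rfl⟩
  have hst := phi_stable D hgen T.toSubmodule (fun j y hy => T.lie_mem (hx j) hy)
  rw [eq_top_iff]
  rintro ⟨y, hy⟩ -
  have h1 : Ssp R x ≤ T.toSubmodule.map (Lsub D).toSubmodule.subtype := by
    rw [Ssp, Submodule.span_le]
    rintro _ ⟨g, i, rfl⟩
    refine ⟨phi D g (xL D i), hst g _ (hx i), ?_⟩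
    change ((phi D g (xL D i) : Lsub D) : P) = _
    rw [coe_phi, cj_apply]
    rfl
  obtain ⟨z, hz, hzy⟩ := h1 hy
  have : z = ⟨y, hy⟩ := Subtype.ext hzy
  rw [← this]
  exact hz

end liealg

end Pool.Agent.Lib.MP_74ab55_al.GLie
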