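import Pool.Agent.Lib.MP_74ab55_al.GL4

set_option autoImplicit false

namespace Pool.Agent.Lib.MP_74ab55_al.GLie
open IsNilpotent Polynomial

section engel

attribute [local instance 100] LieRing.ofAssociativeRing

variable {Γ : Type*} [Group Γ] {m : ℕ} {P : Type*} [Ring P] [Algebra ℚ P] {n : ℕ}
  {a : Fin m → Γ} {R : Γ →* Pˣ} {x : Fin m → P}

/-- The unit `exp (s z)`. -/
noncomputable def expU {A : Type*} [Ring A] [Algebra ℚ A] {z : A} (hz : IsNilpotent z) (s : ℚ) :
    Aˣ where
  val := IsNilpotent.exp (s • z)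
  inv := IsNilpotent.exp (-(s • z))
  val_inv := exp_mul_exp_neg_self (hz.smul s)
  inv_val := exp_neg_mul_exp_self (hz.smul s)

/-- The action of the group by conjugation, with values in the units. -/
noncomputable def Phi (D : LogData n a R x) : Γ →* (Module.End ℚ (Lsub D))ˣ :=
  (phi D).toHomUnits

theorem coe_Phi (D : LogData n a R x) (g : Γ) :
    ((Phi D g : (Module.End ℚ (Lsub D))ˣ) : Module.End ℚ (Lsub D)) = phi D g := rfl

theorem engSys (D : LogData n a R x) (hgen : Subgroup.closure (Set.range a) = ⊤)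
    (heng : ∀ i, Eng n (a i)) : EngSys n (xL D) := by
  refine ⟨ad_nil D, lieSpan_eq_top D hgen, ?_⟩
  intro i a' ha' h hh
  have hai : a' = Phi D (a i) := by
    ext1
    rw [ha', exp_ad, coe_Phi]
  subst hai
  have key : ∀ h ∈ Exps (xL D), ∀ g : Γ,
      dseq (h * Phi D g) (Phi D (a i)) (n + 1) = (Phi D (a i))⁻¹ := by
    have hstep : ∀ (h : (Module.End ℚ (Lsub D))ˣ),
        (∀ g : Γ, dseq (h * Phi D g) (Phi D (a i)) (n + 1) = (Phi D (a i))⁻¹) →
        ∀ (j : Fin m) (s : ℚ) (g : Γ),
        dseq (h * expU (ad_nil D j) s * Phi D g) (Phi D (a i)) (n + 1) = (Phi D (a i))⁻¹ := by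
      intro h hh j s g
      refine dseq_exp_of_nat h (Phi D g) (Phi D (a i)) (ad_nil D j)
        (fun s => expU (ad_nil D j) s) (fun s => rfl) (n + 1) ?_ s
      intro t
      have e : expU (ad_nil D j) (t : ℚ) = Phi D (a j ^ t) := by
        ext1
        rw [coe_Phi, map_pow, ← exp_ad, ← exp_nat_smul (ad_nil D j)]
        rfl
      rw [e, mul_assoc, ← map_mul]
      exact hh _
    intro h hh
    induction hh using Subgroup.closure_induction_right with
    | one =>
      intro g
      rw [one_mul, ← map_dseq, (eng_succ_iff n (a i)).mp (eng_mono (heng i) (Nat.le_succ n)), map_inv]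
    | mul_right h hh u hu ih =>
      obtain ⟨j, s, hu⟩ := hu
      have e : u = expU (ad_nil D j) s := by
        ext1
        rw [hu]
        rfl
      rw [e]
      exact hstep h ih j s
    | mul_inv_cancel h hh u hu ih =>
      obtain ⟨j, s, hu⟩ := hu
      have e : u⁻¹ = expU (ad_nil D j) (-s) := by
        rw [inv_eq_iff_mul_eq_one]
        ext1
        rw [Units.val_mul, hu, Units.val_one]
        change IsNilpotent.exp _ * IsNilpotent.exp (-s • _) = 1
        rw [neg_smul]
        exact exp_mul_exp_neg_self ((ad_nil D j).smul s)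
      rw [e]
      exact hstep h ih j (-s)
  have := key h hh 1
  rwa [map_one, mul_one] at this

/-- `g` acts trivially on the factors of the lower central series, `k + 1` steps at once. -/
def UU (D : LogData n a R x) (k : ℕ) (g : Γ) : Prop :=
  ∀ j, ∀ y ∈ LieModule.lowerCentralSeries ℚ (Lsub D) (Lsub D) j,
    phi D g y - y ∈ LieModule.lowerCentralSeries ℚ (Lsub D) (Lsub D) (j + k + 1)

theorem UU.apply_mem {D : LogData n a R x} {k : ℕ} {g : Γ} (h : UU D k g) {j : ℕ} {y : Lsub D}
    (hy : y ∈ LieModule.lowerCentralSeries ℚ (Lsub D) (Lsub D) j) :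
    phi D g y ∈ LieModule.lowerCentralSeries ℚ (Lsub D) (Lsub D) j := by
  have h1 := LieModule.antitone_lowerCentralSeries ℚ (Lsub D) (Lsub D)
    (show j ≤ j + k + 1 by omega) (h j y hy)
  have h2 := add_mem h1 hy
  rwa [sub_add_cancel] at h2

theorem UU.mul {D : LogData n a R x} {k : ℕ} {g h : Γ} (hg : UU D k g) (hh : UU D k h) :
    UU D k (g * h) := by
  intro j y hy
  have h1 := hg j _ (hh.apply_mem hy)
  have h2 := hh j y hy
  have e : phi D (g * h) y - y = (phi D g (phi D h y) - phi D h y) + (phi D h y - y) := by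
    rw [map_mul, Module.End.mul_apply]
    abel
  rw [e]
  exact add_mem h1 h2

theorem UU.one (D : LogData n a R x) (k : ℕ) : UU D k 1 := by
  intro j y _
  rw [map_one, Module.End.one_apply, sub_self]
  exact zero_mem _

theorem UU.comm {D : LogData n a R x} {k l : ℕ} {g h : Γ} (hg : UU D k g) (hh : UU D l h)
    (hg' : UU D k g⁻¹) (hh' : UU D l h⁻¹) :
    UU D (k + l + 1) (g * h * g⁻¹ * h⁻¹) := by
  intro j y hy
  set z := phi D (g⁻¹ * h⁻¹) y with hz
  have hzm : z ∈ LieModule.lowerCentralSeries ℚ (Lsub D) (Lsub D) j := by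
    rw [hz, map_mul, Module.End.mul_apply]
    exact hg'.apply_mem (hh'.apply_mem hy)
  have e1 : phi D (g * h * g⁻¹ * h⁻¹) y = phi D g (phi D h z) := by
    rw [hz, ← Module.End.mul_apply, ← Module.End.mul_apply, ← map_mul, ← map_mul]
    simp only [mul_assoc]
  have e2 : y = phi D h (phi D g z) := by
    rw [hz, ← Module.End.mul_apply, ← Module.End.mul_apply, ← map_mul, ← map_mul]
    simp
  have e3 : phi D (g * h * g⁻¹ * h⁻¹) y - y =
      (phi D g (phi D h z - z) - (phi D h z - z)) - (phi D h (phi D g z - z) - (phi D g z - z)) := by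
    have e4 : phi D (g * h * g⁻¹ * h⁻¹) y - y =
      phi D g (phi D h z) - phi D h (phi D g z) := by rw [e1, ← e2]
    rw [e4, map_sub, map_sub]
    abel
  rw [e3]
  have h1 := hg _ _ (hh j z hzm)
  have h2 := hh _ _ (hg j z hzm)
  have i1 : j + l + 1 + k + 1 = j + (k + l + 1) + 1 := by omega
  have i2 : j + k + 1 + l + 1 = j + (k + l + 1) + 1 := by omega
  rw [i1] at h1
  rw [i2] at h2
  exact sub_mem h1 h2

theorem UU.gen (D : LogData n a R x) (i : Fin m) : UU D 0 (a i) := by
  intro j y hy
  have hpow : ∀ l, ((LieAlgebra.ad ℚ (Lsub D) (xL D i)) ^ (l + 1)) y ∈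
      LieModule.lowerCentralSeries ℚ (Lsub D) (Lsub D) (j + 0 + 1) := by
    intro l
    induction l with
    | zero =>
      rw [zero_add, pow_one, LieAlgebra.ad_apply, add_zero, LieModule.lowerCentralSeries_succ]
      exact LieSubmodule.lie_mem_lie (LieSubmodule.mem_top _) hy
    | succ l ih =>
      rw [_root_.pow_succ', Module.End.mul_apply, LieAlgebra.ad_apply]
      exact LieSubmodule.lie_mem _ ih
  rw [← exp_ad, exp_eq_sum (ad_pow_eq_zero D i), LinearMap.sum_apply, Finset.sum_range_succ']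
  simp only [Nat.factorial_zero, Nat.cast_one, inv_one, pow_zero, one_smul, Module.End.one_apply,
    add_sub_cancel_right]
  exact sum_mem fun l _ => SMulMemClass.smul_mem _ (hpow l)

theorem UU.gen_inv (D : LogData n a R x) (i : Fin m) : UU D 0 (a i)⁻¹ := by
  intro j y hy
  have h0 : (-LieAlgebra.ad ℚ (Lsub D) (xL D i)) ^ (n + 2) = 0 := by
    have e : (-LieAlgebra.ad ℚ (Lsub D) (xL D i)) ^ (n + 2) =
      (-1) ^ (n + 2) * (LieAlgebra.ad ℚ (Lsub D) (xL D i)) ^ (n + 2) := neg_pow _ _
    rw [e, ad_pow_eq_zero, mul_zero]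
  have hpow : ∀ l, ((-LieAlgebra.ad ℚ (Lsub D) (xL D i)) ^ (l + 1)) y ∈
      LieModule.lowerCentralSeries ℚ (Lsub D) (Lsub D) (j + 0 + 1) := by
    intro l
    induction l with
    | zero =>
      rw [zero_add, pow_one, LinearMap.neg_apply, LieAlgebra.ad_apply, add_zero,
        LieModule.lowerCentralSeries_succ]
      exact neg_mem (LieSubmodule.lie_mem_lie (LieSubmodule.mem_top _) hy)
    | succ l ih =>
      rw [_root_.pow_succ', Module.End.mul_apply, LinearMap.neg_apply, LieAlgebra.ad_apply]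
      exact neg_mem (LieSubmodule.lie_mem _ ih)
  rw [← exp_neg_ad, exp_eq_sum h0, LinearMap.sum_apply, Finset.sum_range_succ']
  simp only [Nat.factorial_zero, Nat.cast_one, inv_one, pow_zero, one_smul, Module.End.one_apply,
    add_sub_cancel_right]
  exact sum_mem fun l _ => SMulMemClass.smul_mem _ (hpow l)

/-- The subgroup of elements acting trivially on the factors. -/
def NN (D : LogData n a R x) (k : ℕ) : Subgroup Γ where
  carrier := {g | UU D k g ∧ UU D k g⁻¹}
  mul_mem' := by
    rintro g h ⟨hg, hg'⟩ ⟨hh, hh'⟩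
    refine ⟨hg.mul hh, ?_⟩
    rw [mul_inv_rev]
    exact hh'.mul hg'
  one_mem' := ⟨UU.one D k, by rw [inv_one]; exact UU.one D k⟩
  inv_mem' := by
    rintro g ⟨hg, hg'⟩
    exact ⟨hg', by rwa [inv_inv]⟩

theorem lcs_le_NN (D : LogData n a R x) (hgen : Subgroup.closure (Set.range a) = ⊤) (k : ℕ) :
    (⊤ : Subgroup Γ).lowerCentralSeries k ≤ NN D k := by
  have h0 : (⊤ : Subgroup Γ) ≤ NN D 0 := by
    rw [← hgen, Subgroup.closure_le]
    rintro _ ⟨i, rfl⟩
    exact ⟨UU.gen D i, UU.gen_inv D i⟩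
  induction k with
  | zero => exact h0
  | succ k ih =>
    rw [Subgroup.lowerCentralSeries_succ, Subgroup.commutator_le]
    intro g hg h _
    obtain ⟨g1, g2⟩ := ih hg
    obtain ⟨h1, h2⟩ := h0 (Subgroup.mem_top h)
    rw [commutatorElement_def]
    refine ⟨g1.comm h1 g2 h2, ?_⟩
    have h3 := h1.comm g1 h2 g2
    have e : 0 + k + 1 = k + 1 := by omega
    have e2 : (g * h * g⁻¹ * h⁻¹)⁻¹ = h * g * h⁻¹ * g⁻¹ := by group
    rw [e2]
    rwa [e] at h3

theorem class_bound (D : LogData n a R x) (hgen : Subgroup.closure (Set.range a) = ⊤)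
    (hnil : LieRing.IsNilpotent (Lsub D)) :
    ∃ c, ∀ g ∈ (⊤ : Subgroup Γ).lowerCentralSeries c, R g = 1 := by
  obtain ⟨c, hc⟩ := (LieModule.isNilpotent_iff ℚ (Lsub D) (Lsub D)).mp hnil
  have h1 : ∀ g ∈ (⊤ : Subgroup Γ).lowerCentralSeries c, ∀ h, Commute (R g : P) (R h : P) := by
    intro g hg h
    have h2 : ∀ j, Commute (R g : P) (x j) := by
      intro j
      have h3 := (lcs_le_NN D hgen c hg).1 0 (xL D j) (by simp)
      have h4 := LieModule.antitone_lowerCentralSeries ℚ (Lsub D) (Lsub D)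
        (show c ≤ 0 + c + 1 by omega) h3
      rw [hc, LieSubmodule.mem_bot, sub_eq_zero] at h4
      have h5 : cj (R g) (x j) = x j := congrArg (fun y : Lsub D => (y : P)) h4
      rw [cj_apply] at h5
      rw [Commute, SemiconjBy]
      nth_rewrite 2 [← h5]
      rw [Units.inv_mul_cancel_right]
    have h3 := D.comm _ h2
    have key : h ∈ Subgroup.closure (Set.range a) := hgen ▸ Subgroup.mem_top h
    induction key using Subgroup.closure_induction with
    | mem z hz =>
      obtain ⟨j, rfl⟩ := hz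
      exact h3 j
    | one => simp
    | mul g' h' _ _ hg' hh' =>
      rw [map_mul, Units.val_mul]
      exact hg'.mul_right hh'
    | inv g' _ hg' =>
      rw [map_inv]
      exact hg'.units_inv_right
  refine ⟨c + 1, ?_⟩
  intro g hg
  have : (⊤ : Subgroup Γ).lowerCentralSeries (c + 1) ≤ R.ker := by
    rw [Subgroup.lowerCentralSeries_succ, Subgroup.commutator_le]
    intro g hg h _
    rw [MonoidHom.mem_ker, commutatorElement_def, map_mul, map_mul, map_mul, map_inv, map_inv]
    have h2 : R g * R h = R h * R g := by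
      ext1
      exact (h1 g hg h).eq
    rw [h2]
    simp
  exact this hg

end engel

end Pool.Agent.Lib.MP_74ab55_al.GLie
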