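import Pool.Agent.Lib.MP_74ab55_al.GL5

set_option autoImplicit false

namespace Pool.Agent.Lib.MP_74ab55_al
open IsNilpotent GLie

universe u v w

/-- The main group theorem, deduced from the Lie theorem `hlie` (this is `lie_main`). -/
theorem group_unipotent_class_of {Γ : Type w} [Group Γ] {m : ℕ} (a : Fin m → Γ)
    (hgen : Subgroup.closure (Set.range a) = ⊤) (n : ℕ) (heng : ∀ i, Eng n (a i))
    {I : Type u} (W : I → Type v) [∀ i, AddCommGroup (W i)] [∀ i, Module ℚ (W i)]
    (ρ : ∀ i, Γ →* Module.End ℚ (W i))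
    (huni : ∀ i, ∃ N, ∀ l : List Γ, l.length = N → (l.map (fun g => ρ i g - 1)).prod = 0)
    (hlie : ∀ (L : Type (max u v)) [LieRing L] [LieAlgebra ℚ L] (x : Fin m → L),
      EngSys n x → LieRing.IsNilpotent L) :
    ∃ c, ∀ i, ∀ g ∈ (⊤ : Subgroup Γ).lowerCentralSeries c, ρ i g = 1 := by
  have hu : ∀ i j, IsNilpotent (ρ i (a j) - 1) := by
    intro i j
    obtain ⟨N, hN⟩ := huni i
    refine ⟨N, ?_⟩
    have := hN (List.replicate N (a j)) (List.length_replicate ..)
    rwa [List.map_replicate, List.prod_replicate] at this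
  choose z hz1 hz2 using fun i j => exists_log (hu i j)
  let P : Type (max u v) := ∀ i, Module.End ℚ (W i)
  let R0 : Γ →* P := MonoidHom.pi ρ
  let R : Γ →* Pˣ := R0.toHomUnits
  let x : Fin m → P := fun j i => z i j
  have hR : ∀ g i, ((R g : Pˣ) : P) i = ρ i g := fun g i => rfl
  have D : LogData n a R x := by
    refine logData_of_components (fun i => Module.End ℚ (W i))
      (fun i => Pi.evalAlgHom ℚ (fun i => Module.End ℚ (W i)) i) ?_ ?_ ?_ heng
    · intro p q h
      funext i
      exact h i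
    · intro i j
      exact hz1 i j
    · intro i j
      change IsNilpotent.exp (z i j) = ρ i (a j)
      rw [hz2, add_sub_cancel]
  obtain ⟨c, hc⟩ := class_bound D hgen (hlie _ (xL D) (engSys D hgen heng))
  refine ⟨c, fun i g hg => ?_⟩
  rw [← hR g i, hc g hg]
  rfl

end Pool.Agent.Lib.MP_74ab55_al
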