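import Pool.Agent.Lib.MP_74ab55_al.KZLie
import Pool.Agent.Lib.MP_74ab55_al.Conj

/-!
# Glue: a finitely generated Lie algebra generated by ad-nilpotent elements which is
nilpotent modulo the ideal generated by a sandwich is nilpotent
-/

set_option autoImplicit false

namespace Pool.Agent.Lib.MP_74ab55_al
open LieAlgebra

section assoc
variable {A : Type*} [Ring A] [Algebra ℚ A]

theorem list_prod_mem_pow {P : Submodule ℚ A} (l : List A) (hl : ∀ a ∈ l, a ∈ P) :
    l.prod ∈ P ^ l.length := by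
  induction l with
  | nil =>
    rw [List.prod_nil, List.length_nil, pow_zero]
    exact (Submodule.one_le (P := (1 : Submodule ℚ A))).1 le_rfl
  | cons a l ih =>
    rw [List.prod_cons, List.length_cons, pow_succ']
    exact Submodule.mul_mem_mul (hl a List.mem_cons_self)
      (ih fun b hb => hl b (List.mem_cons_of_mem _ hb))

theorem span_pow_eq_bot {T : Set A} {N : ℕ}
    (h : ∀ l : List A, (∀ a ∈ l, a ∈ T) → l.length = N → l.prod = 0) :
    (Submodule.span ℚ T) ^ N = ⊥ := by
  rw [Submodule.span_pow, Submodule.span_eq_bot]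
  intro y hy
  rw [Set.mem_pow] at hy
  obtain ⟨f, rfl⟩ := hy
  refine h _ ?_ (by simp)
  intro a ha
  rw [List.mem_ofFn] at ha
  obtain ⟨i, rfl⟩ := ha
  exact (f i).2

theorem pow_eq_bot_iff (P : Submodule ℚ A) (N : ℕ) :
    P ^ N = ⊥ ↔ ∀ l : List A, (∀ a ∈ l, a ∈ P) → l.length = N → l.prod = 0 := by
  constructor
  · intro h l hl hN
    have := list_prod_mem_pow l hl
    rw [hN, h] at this
    simpa using this
  · intro h
    conv_lhs => rw [← Submodule.span_eq P]
    exact span_pow_eq_bot h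

theorem pow_sup_eq_bot {P : Submodule ℚ A} {w : A} {m N : ℕ} (hw : w ^ m = 0)
    (hwP : ∀ p ∈ P, w * p - p * w ∈ P) (hN : P ^ N = ⊥) :
    (P ⊔ Submodule.span ℚ {w}) ^ (m * N) = ⊥ := by
  set W : Submodule ℚ A := Submodule.span ℚ {w} with hW
  have hWP : W * P ≤ P * W ⊔ P := by
    rw [Submodule.mul_le]
    intro a ha b hb
    obtain ⟨r, rfl⟩ := Submodule.mem_span_singleton.1 ha
    have h1 : (r • w) * b = b * (r • w) + r • (w * b - b * w) := by
      simp only [smul_mul_assoc, mul_smul_comm, smul_sub]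
      abel
    rw [h1]
    refine Submodule.add_mem _ (Submodule.mem_sup_left ?_) (Submodule.mem_sup_right ?_)
    · exact Submodule.mul_mem_mul hb (Submodule.smul_mem _ _ (Submodule.mem_span_singleton_self _))
    · exact Submodule.smul_mem _ _ (hwP b hb)
  have hV : ∀ a, P ^ (a + 1) * (⊤ : Submodule ℚ A) = P * (P ^ a * ⊤) := fun a => by
    rw [pow_succ', mul_assoc]
  have hWV : ∀ a, W * (P ^ a * (⊤ : Submodule ℚ A)) ≤ P ^ a * ⊤ := by
    intro a
    induction a with
    | zero => rw [pow_zero, one_mul]; exact le_top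
    | succ a ih =>
      rw [hV, ← mul_assoc]
      refine (mul_le_mul' hWP le_rfl).trans ?_
      rw [Submodule.sup_mul, mul_assoc]
      exact sup_le (mul_le_mul' le_rfl ih) le_rfl
  have hPV : ∀ a, P ^ (a + 1) * (⊤ : Submodule ℚ A) ≤ P ^ a * ⊤ := by
    intro a
    induction a with
    | zero => rw [pow_zero, one_mul]; exact le_top
    | succ a ih =>
      calc P ^ (a + 1 + 1) * (⊤ : Submodule ℚ A) = P * (P ^ (a + 1) * ⊤) := hV _
        _ ≤ P * (P ^ a * ⊤) := mul_le_mul' le_rfl ih
        _ = P ^ (a + 1) * ⊤ := (hV a).symm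
  have hWk : ∀ k a, W ^ k * (P ^ a * (⊤ : Submodule ℚ A)) ≤ P ^ a * ⊤ := by
    intro k a
    induction k with
    | zero => rw [pow_zero, one_mul]
    | succ k ih =>
      rw [pow_succ', mul_assoc]
      exact (mul_le_mul' le_rfl ih).trans (hWV a)
  have key : ∀ k a, (P ⊔ W) ^ k * (P ^ a * (⊤ : Submodule ℚ A)) ≤
      W ^ k * (P ^ a * ⊤) ⊔ P ^ (a + 1) * ⊤ := by
    intro k a
    induction k with
    | zero => rw [pow_zero, pow_zero]; exact le_sup_left
    | succ k ih =>
      rw [pow_succ', mul_assoc]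
      refine (mul_le_mul' le_rfl ih).trans ?_
      rw [Submodule.mul_sup, Submodule.sup_mul, Submodule.sup_mul]
      refine sup_le (sup_le ?_ ?_) (sup_le ?_ ?_)
      · refine le_sup_of_le_right ?_
        rw [hV]
        exact mul_le_mul' le_rfl (hWk k a)
      · refine le_sup_of_le_left ?_
        rw [pow_succ', mul_assoc]
      · refine le_sup_of_le_right ?_
        conv_rhs => rw [hV]
        exact mul_le_mul' le_rfl (hPV a)
      · exact le_sup_of_le_right (hWV _)
  have hWm : W ^ m = ⊥ := by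
    rw [hW, Submodule.span_pow, Set.singleton_pow, hw]
    simp
  have hfin : ∀ a, (P ⊔ W) ^ (m * a) * (⊤ : Submodule ℚ A) ≤ P ^ a * ⊤ := by
    intro a
    induction a with
    | zero => rw [pow_zero, one_mul]; exact le_top
    | succ a ih =>
      rw [Nat.mul_succ, add_comm, pow_add, mul_assoc]
      refine (mul_le_mul' le_rfl ih).trans ((key m a).trans ?_)
      rw [hWm, Submodule.bot_mul, bot_sup_eq]
  rw [eq_bot_iff]
  have h1 := hfin N
  rw [hN, Submodule.bot_mul] at h1
  refine le_trans ?_ h1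
  intro y hy
  have := Submodule.mul_mem_mul hy (Submodule.mem_top (x := (1 : A)) (R := ℚ))
  rwa [mul_one] at this

end assoc

section nact
variable {L : Type*} [LieRing L] [LieAlgebra ℚ L]

/-- All products of `N` operators `ad y`, `y ∈ E`, vanish. -/
def NAct (E : Submodule ℚ L) : Prop :=
  ∃ N : ℕ, ∀ l : List L, (∀ y ∈ l, y ∈ E) → l.length = N → (l.map (ad ℚ L)).prod = 0

theorem NAct.mono {E F : Submodule ℚ L} (h : E ≤ F) (hF : NAct F) : NAct E := by
  obtain ⟨N, hN⟩ := hF
  exact ⟨N, fun l hl => hN l fun y hy => h (hl y hy)⟩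

/-- `ad E` as a subspace of the associative algebra of endomorphisms. -/
def adS (E : Submodule ℚ L) : Submodule ℚ (Module.End ℚ L) :=
  Submodule.span ℚ (ad ℚ L '' E)

theorem mem_adS (E : Submodule ℚ L) (a : Module.End ℚ L) :
    a ∈ adS E ↔ ∃ y ∈ E, ad ℚ L y = a := by
  constructor
  · intro h
    induction h using Submodule.span_induction with
    | mem a h => exact h
    | zero => exact ⟨0, E.zero_mem, map_zero _⟩
    | add a b _ _ ha hb =>
      obtain ⟨y, hy, rfl⟩ := ha
      obtain ⟨z, hz, rfl⟩ := hb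
      exact ⟨y + z, E.add_mem hy hz, map_add _ _ _⟩
    | smul c a _ ha =>
      obtain ⟨y, hy, rfl⟩ := ha
      exact ⟨c • y, E.smul_mem c hy, map_smul _ _ _⟩
  · rintro ⟨y, hy, rfl⟩
    exact Submodule.subset_span ⟨y, hy, rfl⟩

theorem exists_list_map {E : Submodule ℚ L} (l : List (Module.End ℚ L))
    (hl : ∀ a ∈ l, a ∈ adS E) : ∃ l' : List L, (∀ y ∈ l', y ∈ E) ∧ l'.map (ad ℚ L) = l := by
  induction l with
  | nil => exact ⟨[], by simp, rfl⟩
  | cons a l ih =>
    obtain ⟨l', h1, h2⟩ := ih fun b hb => hl b (List.mem_cons_of_mem _ hb)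
    obtain ⟨y, hy, rfl⟩ := (mem_adS E a).1 (hl a List.mem_cons_self)
    refine ⟨y :: l', ?_, by rw [List.map_cons, h2]⟩
    intro z hz
    rcases List.mem_cons.1 hz with rfl | hz
    · exact hy
    · exact h1 z hz

theorem nact_iff (E : Submodule ℚ L) :
    NAct E ↔ ∃ N : ℕ, ∀ l : List (Module.End ℚ L), (∀ a ∈ l, a ∈ adS E) → l.length = N →
      l.prod = 0 := by
  refine exists_congr fun N => ⟨fun h l hl hN => ?_, fun h l hl hN => ?_⟩
  · obtain ⟨l', h1, rfl⟩ := exists_list_map l hl
    exact h l' h1 (by simpa using hN)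
  · refine h _ ?_ (by simpa using hN)
    intro a ha
    obtain ⟨y, hy, rfl⟩ := List.mem_map.1 ha
    exact (mem_adS E _).2 ⟨y, hl y hy, rfl⟩

theorem adS_span (S : Set L) : adS (Submodule.span ℚ S) = Submodule.span ℚ (ad ℚ L '' S) := by
  apply le_antisymm
  · intro a ha
    obtain ⟨y, hy, rfl⟩ := (mem_adS _ a).1 ha
    induction hy using Submodule.span_induction with
    | mem y hy => exact Submodule.subset_span ⟨y, hy, rfl⟩
    | zero => rw [map_zero]; exact Submodule.zero_mem _
    | add y z hy hz h1 h2 =>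
      rw [map_add]
      exact Submodule.add_mem _ (h1 ((mem_adS _ _).2 ⟨y, hy, rfl⟩)) (h2 ((mem_adS _ _).2 ⟨z, hz, rfl⟩))
    | smul c y hy h1 =>
      rw [map_smul]
      exact Submodule.smul_mem _ _ (h1 ((mem_adS _ _).2 ⟨y, hy, rfl⟩))
  · rw [Submodule.span_le]
    rintro _ ⟨y, hy, rfl⟩
    exact (mem_adS _ _).2 ⟨y, Submodule.subset_span hy, rfl⟩

theorem nact_span {S : Set L} {N : ℕ}
    (h : ∀ l : List L, (∀ y ∈ l, y ∈ S) → l.length = N → (l.map (ad ℚ L)).prod = 0) :
    NAct (Submodule.span ℚ S) := by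
  rw [nact_iff]
  refine ⟨N, (pow_eq_bot_iff (adS (Submodule.span ℚ S)) N).1 ?_⟩
  rw [adS_span]
  refine span_pow_eq_bot fun l hl hN => ?_
  have h1 : ∃ l' : List L, (∀ y ∈ l', y ∈ S) ∧ l'.map (ad ℚ L) = l := by
    clear hN
    induction l with
    | nil => exact ⟨[], by simp, rfl⟩
    | cons a l ih =>
      obtain ⟨l', h1, h2⟩ := ih fun b hb => hl b (List.mem_cons_of_mem _ hb)
      obtain ⟨y, hy, rfl⟩ := hl a List.mem_cons_self
      refine ⟨y :: l', ?_, by rw [List.map_cons, h2]⟩
      intro z hz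
      rcases List.mem_cons.1 hz with rfl | hz
      · exact hy
      · exact h1 z hz
  obtain ⟨l', h1, rfl⟩ := h1
  exact h l' h1 (by simpa using hN)

theorem nact_sup {T : Submodule ℚ L} {w : L} {m : ℕ} (hw : (ad ℚ L w) ^ m = 0)
    (hT : ∀ t ∈ T, ⁅w, t⁆ ∈ T) (hN : NAct T) : NAct (T ⊔ Submodule.span ℚ {w}) := by
  rw [nact_iff] at hN ⊢
  obtain ⟨N, hN⟩ := hN
  refine ⟨m * N, (pow_eq_bot_iff _ _).1 ?_⟩
  have h1 : adS (T ⊔ Submodule.span ℚ {w}) = adS T ⊔ Submodule.span ℚ {ad ℚ L w} := by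
    conv_lhs => rw [← Submodule.span_eq T, ← Submodule.span_union, adS_span, Set.image_union,
      Submodule.span_union, Set.image_singleton, ← adS_span, Submodule.span_eq]
  rw [h1]
  refine pow_sup_eq_bot hw ?_ ((pow_eq_bot_iff _ _).2 hN)
  intro p hp
  obtain ⟨t, ht, rfl⟩ := (mem_adS _ _).1 hp
  exact (mem_adS _ _).2 ⟨⁅w, t⁆, hT t ht, ad_lie_eq w t⟩

/-- Locally nilpotent action. -/
def LNA (U : Submodule ℚ L) : Prop := ∀ E : Submodule ℚ L, E ≤ U → E.FG → NAct E

theorem LNA.sup {U : Submodule ℚ L} {w : L} (hw : IsNilpotent (ad ℚ L w))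
    (hU : ∀ t ∈ U, ⁅w, t⁆ ∈ U) (h : LNA U) : LNA (U ⊔ Submodule.span ℚ {w}) := by
  classical
  obtain ⟨m, hm⟩ := hw
  rintro E hE ⟨S, rfl⟩
  have h1 : ∀ s ∈ S, ∃ u ∈ U, s ∈ Submodule.span ℚ {u} ⊔ Submodule.span ℚ {w} := by
    intro s hs
    obtain ⟨u, hu, w', hw', rfl⟩ := Submodule.mem_sup.1 (hE (Submodule.subset_span hs))
    exact ⟨u, hu, Submodule.add_mem_sup (Submodule.mem_span_singleton_self u) hw'⟩
  choose! f hf hf' using h1
  set E0 : Submodule ℚ L := Submodule.span ℚ (f '' S) with hE0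
  have hE0U : E0 ≤ U := by
    rw [hE0, Submodule.span_le]
    rintro _ ⟨s, hs, rfl⟩
    exact hf s hs
  have hE0fg : E0.FG := Submodule.fg_span (S.finite_toSet.image f)
  set T : Submodule ℚ L := ⨆ j ∈ Finset.range (m + 1), E0.map ((ad ℚ L w) ^ j) with hT
  have hpowU : ∀ j, ∀ u ∈ U, ((ad ℚ L w) ^ j) u ∈ U := by
    intro j
    induction j with
    | zero => intro u hu; simpa using hu
    | succ j ih =>
      intro u hu
      rw [pow_succ', Module.End.mul_apply, ad_apply]
      exact hU _ (ih u hu)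
  have hTU : T ≤ U := by
    rw [hT]
    refine iSup₂_le fun j _ => ?_
    rintro _ ⟨u, hu, rfl⟩
    exact hpowU j u (hE0U hu)
  have hTfg : T.FG := by
    rw [hT]
    exact Submodule.fg_biSup _ _ fun j _ => hE0fg.map _
  have hTw : ∀ t ∈ T, ⁅w, t⁆ ∈ T := by
    have h2 : T ≤ T.comap (ad ℚ L w) := by
      conv_lhs => rw [hT]
      refine iSup₂_le fun j hj => ?_
      rintro _ ⟨u, hu, rfl⟩
      rw [Submodule.mem_comap, ← Module.End.mul_apply, ← pow_succ']
      by_cases hjm : j + 1 < m + 1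
      · rw [hT]
        exact Submodule.mem_iSup_of_mem (j + 1) (Submodule.mem_iSup_of_mem
          (Finset.mem_range.2 hjm) (Submodule.mem_map_of_mem hu))
      · rw [pow_eq_zero_of_le (by omega) hm, LinearMap.zero_apply]
        exact T.zero_mem
    intro t ht
    simpa using h2 ht
  refine (nact_sup hm hTw (h T hTU hTfg)).mono ?_
  rw [Submodule.span_le]
  intro s hs
  have hle : Submodule.span ℚ {f s} ⊔ Submodule.span ℚ {w} ≤ T ⊔ Submodule.span ℚ {w} := by
    refine sup_le_sup_right ?_ _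
    rw [Submodule.span_singleton_le_iff_mem, hT]
    refine Submodule.mem_iSup_of_mem 0 (Submodule.mem_iSup_of_mem
      (Finset.mem_range.2 (Nat.succ_pos m)) ?_)
    rw [pow_zero]
    exact ⟨f s, Submodule.subset_span ⟨s, hs, rfl⟩, rfl⟩
  exact hle (hf' s hs)

theorem exists_finite_lieSpan {S : Set L} {y : L} (hy : y ∈ LieSubalgebra.lieSpan ℚ L S) :
    ∃ F : Set L, F.Finite ∧ F ⊆ S ∧ y ∈ LieSubalgebra.lieSpan ℚ L F := by
  induction hy using LieSubalgebra.lieSpan_induction with
  | mem y hy =>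
    exact ⟨{y}, Set.finite_singleton y, Set.singleton_subset_iff.2 hy,
      LieSubalgebra.subset_lieSpan rfl⟩
  | zero => exact ⟨∅, Set.finite_empty, Set.empty_subset _, zero_mem _⟩
  | add y z _ _ hy hz =>
    obtain ⟨F, hF, hFS, hy⟩ := hy
    obtain ⟨G, hG, hGS, hz⟩ := hz
    exact ⟨F ∪ G, hF.union hG, Set.union_subset hFS hGS,
      add_mem (LieSubalgebra.lieSpan_mono Set.subset_union_left hy)
        (LieSubalgebra.lieSpan_mono Set.subset_union_right hz)⟩
  | smul c y _ hy =>
    obtain ⟨F, hF, hFS, hy⟩ := hy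
    exact ⟨F, hF, hFS, SMulMemClass.smul_mem c hy⟩
  | lie y z _ _ hy hz =>
    obtain ⟨F, hF, hFS, hy⟩ := hy
    obtain ⟨G, hG, hGS, hz⟩ := hz
    exact ⟨F ∪ G, hF.union hG, Set.union_subset hFS hGS,
      LieSubalgebra.lie_mem _ (LieSubalgebra.lieSpan_mono Set.subset_union_left hy)
        (LieSubalgebra.lieSpan_mono Set.subset_union_right hz)⟩

theorem exists_finite_lieSpan_of_fg {S : Set L} {E : Submodule ℚ L} (hE : E.FG)
    (hES : E ≤ (LieSubalgebra.lieSpan ℚ L S).toSubmodule) :
    ∃ F : Set L, F.Finite ∧ F ⊆ S ∧ E ≤ (LieSubalgebra.lieSpan ℚ L F).toSubmodule := by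
  classical
  obtain ⟨G, rfl⟩ := hE
  have h1 : ∀ s ∈ G, ∃ F : Set L, F.Finite ∧ F ⊆ S ∧ s ∈ LieSubalgebra.lieSpan ℚ L F :=
    fun s hs => exists_finite_lieSpan (hES (Submodule.subset_span hs))
  choose! f hf1 hf2 hf3 using h1
  refine ⟨⋃ s ∈ G, f s, ?_, ?_, ?_⟩
  · exact Set.Finite.biUnion G.finite_toSet hf1
  · exact Set.iUnion₂_subset hf2
  · rw [Submodule.span_le]
    intro s hs
    exact LieSubalgebra.lieSpan_mono (Set.subset_biUnion_of_mem (u := f) hs) (hf3 s hs)

end nact

section glue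
variable {L : Type*} [LieRing L] [LieAlgebra ℚ L] {ι : Type*}

/-- Locally nilpotent action of the span of conjugates of a sandwich. -/
theorem lna_sandwich (x : ι → L)
    (hx : ∀ i, IsNilpotent (ad ℚ L (x i))) (c : L)
    (hc : ∀ g ∈ Exps x, ((ad ℚ L c) ^ 2) ((g : Module.End ℚ L) c) = 0)
    (R : Submodule ℚ L)
    (hR : R = Submodule.span ℚ {y : L | ∃ g ∈ Exps x, y = (g : Module.End ℚ L) c})
    (hRlie : ∀ y v : L, v ∈ R → ⁅y, v⁆ ∈ R) : LNA R := by
  classical
  have hsq : ∀ g ∈ Exps x, ∀ v ∈ R, ⁅(g : Module.End ℚ L) c, ⁅(g : Module.End ℚ L) c, v⁆⁆ = 0 := by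
    intro g hg v hv
    rw [hR] at hv
    induction hv using Submodule.span_induction with
    | mem v hv =>
      obtain ⟨g', hg', rfl⟩ := hv
      have h1 := congrArg (g : Module.End ℚ L) (hc (g⁻¹ * g') ((Exps x).mul_mem
        ((Exps x).inv_mem hg) hg'))
      rw [map_zero, pow_two, Module.End.mul_apply, ad_apply, ad_apply, Exps.map_lie hx hg,
        Exps.map_lie hx hg] at h1
      rw [← Module.End.mul_apply (g : Module.End ℚ L) _ c, ← Units.val_mul,
        mul_inv_cancel_left] at h1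
      exact h1
    | zero => simp
    | add y z _ _ hy hz => rw [lie_add, lie_add, hy, hz, add_zero]
    | smul r y _ hy => rw [lie_smul, lie_smul, hy, smul_zero]
  have hgc : ∀ g ∈ Exps x, (g : Module.End ℚ L) c ∈ R := fun g hg => by
    rw [hR]; exact Submodule.subset_span ⟨g, hg, rfl⟩
  -- restriction of `ad u` to `R`
  let r : L → Module.End ℚ R := fun u => (ad ℚ L u : Module.End ℚ L).restrict (p := R) (q := R)
    (fun v hv => by rw [ad_apply]; exact hRlie u v hv)
  have hr : ∀ u (v : R), ((r u v : R) : L) = ⁅u, (v : L)⁆ := fun u v => rfl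
  have main : ∀ F : Set (Module.End ℚ L)ˣ, F.Finite → F ⊆ Exps x →
      NAct (Submodule.span ℚ ((fun g : (Module.End ℚ L)ˣ => (g : Module.End ℚ L) c) '' F)) := by
    intro F hF hFx
    have : Finite F := hF
    obtain ⟨N, hN⟩ := sandwich_nilpotent (A := Module.End ℚ R) (α := F) (r '' R)
      (by
        rintro _ ⟨a, ha, rfl⟩ _ ⟨b, hb, rfl⟩
        refine ⟨⁅a, b⁆, hRlie _ _ hb, ?_⟩
        ext v
        simp only [hr, LinearMap.sub_apply, Module.End.mul_apply, Submodule.coe_sub, lie_lie])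
      (fun g => r (((g : (Module.End ℚ L)ˣ) : Module.End ℚ L) c)) (fun g => ⟨_, hgc g.1 (hFx g.2), rfl⟩)
      (by
        intro g
        ext v
        simp only [hr, Module.End.mul_apply, LinearMap.zero_apply, Submodule.coe_zero]
        exact hsq g.1 (hFx g.2) v v.2)
      (by
        rintro g _ ⟨u, hu, rfl⟩
        ext v
        simp only [hr, Module.End.mul_apply, LinearMap.zero_apply, Submodule.coe_zero]
        exact ad_mid (hsq g.1 (hFx g.2) u hu) (hsq g.1 (hFx g.2) v v.2)
          (hsq g.1 (hFx g.2) _ (hRlie _ _ v.2)))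
    refine nact_span (N := N + 1) fun l hl hlN => ?_
    have hlift : ∀ l : List L, (∀ y ∈ l, y ∈ (fun g : (Module.End ℚ L)ˣ =>
        (g : Module.End ℚ L) c) '' F) → ∃ l' : List F,
        l = l'.map (fun g : F => ((g : (Module.End ℚ L)ˣ) : Module.End ℚ L) c) := by
      intro l
      induction l with
      | nil => intro _; exact ⟨[], rfl⟩
      | cons y l ih =>
        intro h
        obtain ⟨l', rfl⟩ := ih fun z hz => h z (List.mem_cons_of_mem _ hz)
        obtain ⟨g, hg, rfl⟩ := h y List.mem_cons_self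
        exact ⟨⟨g, hg⟩ :: l', rfl⟩
    have hprod : ∀ (l' : List F) (v : R),
        ((((l'.map fun g : F => r (((g : (Module.End ℚ L)ˣ) : Module.End ℚ L) c)).prod) v : R) : L) =
        (((l'.map (fun g : F => ((g : (Module.End ℚ L)ˣ) : Module.End ℚ L) c)).map (ad ℚ L)).prod)
          (v : L) := by
      intro l' v
      induction l' with
      | nil => simp
      | cons g l' ih =>
        rw [List.map_cons, List.prod_cons, Module.End.mul_apply, hr, ih, List.map_cons,
          List.map_cons, List.prod_cons, Module.End.mul_apply, ad_apply]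
    ext v
    obtain ⟨l0, y, rfl⟩ : ∃ l0 y, l = l0 ++ [y] := by
      rcases List.eq_nil_or_concat l with rfl | ⟨l0, y, rfl⟩
      · simp at hlN
      · exact ⟨l0, y, List.concat_eq_append⟩
    obtain ⟨l', hl'⟩ := hlift l0 fun z hz => hl z (List.mem_append_left _ hz)
    obtain ⟨g, hg, rfl⟩ := hl y (List.mem_append_right _ (List.mem_singleton_self y))
    rw [List.map_append, List.prod_append, List.map_singleton, List.prod_singleton,
      Module.End.mul_apply, ad_apply, LinearMap.zero_apply]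
    have hv : ⁅(g : Module.End ℚ L) c, v⁆ ∈ R := by
      rw [← lie_skew]
      exact R.neg_mem (hRlie _ _ (hgc g (hFx hg)))
    have h3 := hprod l' ⟨_, hv⟩
    rw [hl', ← h3]
    have h4 : l'.length = N := by
      have : l0.length = N := by simpa using hlN
      rw [hl'] at this
      simpa using this
    rw [hN l' h4]
    simp
  intro E hE hEfg
  rw [hR] at hE
  obtain ⟨S, rfl⟩ := hEfg
  have h1 : ∀ s ∈ S, ∃ F : Set L, F.Finite ∧ F ⊆ {y : L | ∃ g ∈ Exps x, y = (g : Module.End ℚ L) c} ∧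
      s ∈ Submodule.span ℚ F := by
    intro s hs
    have hs' := hE (Submodule.subset_span hs)
    obtain ⟨F, hF1, hF2⟩ := Submodule.mem_span_finite_of_mem_span hs'
    exact ⟨F, F.finite_toSet, hF1, hF2⟩
  choose! f hf1 hf2 hf3 using h1
  have hfin : (⋃ s ∈ S, f s).Finite := Set.Finite.biUnion S.finite_toSet hf1
  have hsub : (⋃ s ∈ S, f s) ⊆ {y : L | ∃ g ∈ Exps x, y = (g : Module.End ℚ L) c} :=
    Set.iUnion₂_subset hf2
  have h2 : ∀ y ∈ (⋃ s ∈ S, f s), ∃ g ∈ Exps x, y = (g : Module.End ℚ L) c := fun y hy => hsub hy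
  choose! γ hγ1 hγ2 using h2
  refine (main (γ '' (⋃ s ∈ S, f s)) (hfin.image γ) ?_).mono ?_
  · rintro _ ⟨y, hy, rfl⟩
    exact hγ1 y hy
  · rw [Submodule.span_le]
    intro s hs
    refine Submodule.span_mono ?_ (hf3 s hs)
    intro y hy
    have hy' : y ∈ (⋃ s ∈ S, f s) := Set.mem_biUnion hs hy
    exact ⟨γ y, ⟨y, hy', rfl⟩, (hγ2 y hy').symm⟩

/-- The extension step: if all conjugates of generators in `V (j + 1)` lie in `U` ... -/
theorem glue_step (x : ι → L) (hx : ∀ i, IsNilpotent (ad ℚ L (x i)))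
    (hgen : LieSubalgebra.lieSpan ℚ L (Set.range x) = ⊤) (R : Submodule ℚ L)
    (hRlie : ∀ y v : L, v ∈ R → ⁅y, v⁆ ∈ R) (k : ℕ) (hk : wspan x k ≤ R) (hRL : LNA R) :
    LNA (⊤ : Submodule ℚ L) := by
  classical
  set C : Set L := {y : L | ∃ g ∈ Exps x, ∃ i, y = (g : Module.End ℚ L) (x i)} with hC
  -- the family
  let Fam : Set (Set L) := {D | D ⊆ C ∧ LNA (LieSubalgebra.lieSpan ℚ L ((R : Set L) ∪ D)).toSubmodule}
  have hR0 : (LieSubalgebra.lieSpan ℚ L ((R : Set L) ∪ ∅)).toSubmodule = R := by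
    let R' : LieSubalgebra ℚ L := { R with lie_mem' := fun {a b} _ hb => hRlie a b hb }
    apply le_antisymm
    · have : LieSubalgebra.lieSpan ℚ L ((R : Set L) ∪ ∅) ≤ R' := by
        rw [LieSubalgebra.lieSpan_le, Set.union_empty]
        exact fun y hy => hy
      exact this
    · intro y hy
      exact LieSubalgebra.subset_lieSpan (Set.mem_union_left _ hy)
  have hempty : (∅ : Set L) ∈ Fam := by
    refine ⟨Set.empty_subset _, ?_⟩
    rw [hR0]
    exact hRL
  obtain ⟨D, -, hD⟩ := zorn_subset_nonempty Fam (by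
    intro c hc hchain hne
    refine ⟨⋃₀ c, ⟨Set.sUnion_subset fun s hs => (hc hs).1, ?_⟩, fun s hs => Set.subset_sUnion_of_mem hs⟩
    intro E hE hEfg
    obtain ⟨F, hF, hFS, hEF⟩ := exists_finite_lieSpan_of_fg hEfg hE
    have h1 : ∃ s ∈ c, F ⊆ (R : Set L) ∪ s := by
      clear hEF
      induction F, hF using Set.Finite.induction_on with
      | empty =>
        obtain ⟨s, hs⟩ := hne
        exact ⟨s, hs, Set.empty_subset _⟩
      | insert _ _ ih =>
        rename_i a s _ _
        obtain ⟨t, ht, hst⟩ := ih ((Set.subset_insert _ _).trans hFS)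
        rcases hFS (Set.mem_insert a s) with ha | ⟨t', ht', ha⟩
        · exact ⟨t, ht, Set.insert_subset (Set.mem_union_left _ ha) hst⟩
        · rcases hchain.total ht ht' with h | h
          · exact ⟨t', ht', Set.insert_subset (Set.mem_union_right _ ha)
              (hst.trans (Set.union_subset_union_right _ h))⟩
          · exact ⟨t, ht, Set.insert_subset (Set.mem_union_right _ (h ha)) hst⟩
    obtain ⟨s, hs, hFs⟩ := h1
    exact (hc hs).2 E (fun y hy => LieSubalgebra.lieSpan_mono hFs (hEF hy)) hEfg) ∅ hempty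
  set U := LieSubalgebra.lieSpan ℚ L ((R : Set L) ∪ D) with hU
  have hRU : R ≤ U.toSubmodule := fun y hy => LieSubalgebra.subset_lieSpan (Set.mem_union_left _ hy)
  have hDU : ∀ u ∈ D, u ∈ U := fun u hu => LieSubalgebra.subset_lieSpan (Set.mem_union_right _ hu)
  have hUL : LNA U.toSubmodule := hD.1.2
  have hDC : D ⊆ C := hD.1.1
  have hCnil : ∀ w ∈ C, IsNilpotent (ad ℚ L w) := by
    rintro _ ⟨g, hg, i, rfl⟩
    exact Exps.isNilpotent_conj hx hg (hx i)
  have hCexp : ∀ w ∈ C, ∀ u ∈ C, ∀ s : ℚ, IsNilpotent.exp (s • ad ℚ L w) u ∈ C := by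
    rintro _ ⟨g, hg, i, rfl⟩ _ ⟨g', hg', i', rfl⟩ s
    obtain ⟨γ, hγ, hγ'⟩ := Exps.exp_conj_gen hx hg i s
    rw [← hγ']
    exact ⟨γ * g', (Exps x).mul_mem hγ hg', i', by simp⟩
  -- the key step
  have hkey : ∀ w ∈ C, (∀ u ∈ D, ⁅w, u⁆ ∈ U) → w ∈ U := by
    intro w hw hwD
    have hwU : ∀ t ∈ U, ⁅w, t⁆ ∈ U := by
      intro t ht
      rw [hU] at ht
      induction ht using LieSubalgebra.lieSpan_induction with
      | mem y hy =>
        rcases hy with hy | hy
        · exact hRU (hRlie w y hy)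
        · exact hwD y hy
      | zero => rw [lie_zero]; exact zero_mem _
      | add y z _ _ hy hz => rw [lie_add]; exact add_mem hy hz
      | smul c y _ hy => rw [lie_smul]; exact SMulMemClass.smul_mem c hy
      | lie y z hy' hz' hy hz =>
        rw [leibniz_lie]
        exact add_mem (LieSubalgebra.lie_mem _ hy hz') (LieSubalgebra.lie_mem _ hy' hz)
    have hsup : (LieSubalgebra.lieSpan ℚ L ((R : Set L) ∪ insert w D)).toSubmodule ≤
        U.toSubmodule ⊔ Submodule.span ℚ {w} := by
      let U' : LieSubalgebra ℚ L :=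
        { (U.toSubmodule ⊔ Submodule.span ℚ {w}) with
          lie_mem' := by
            intro a b ha hb
            obtain ⟨u, hu, w1, hw1, rfl⟩ := Submodule.mem_sup.1 ha
            obtain ⟨u', hu', w2, hw2, rfl⟩ := Submodule.mem_sup.1 hb
            obtain ⟨r1, rfl⟩ := Submodule.mem_span_singleton.1 hw1
            obtain ⟨r2, rfl⟩ := Submodule.mem_span_singleton.1 hw2
            refine Submodule.mem_sup_left ?_
            rw [add_lie, lie_add, lie_add, smul_lie, lie_smul, smul_lie, lie_smul, lie_self,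
              smul_zero, smul_zero, add_zero, ← lie_skew u w]
            exact Submodule.add_mem _ (Submodule.add_mem _ (LieSubalgebra.lie_mem _ hu hu')
              (Submodule.smul_mem _ _ (Submodule.neg_mem _ (hwU u hu))))
              (Submodule.smul_mem _ _ (hwU u' hu')) }
      have : LieSubalgebra.lieSpan ℚ L ((R : Set L) ∪ insert w D) ≤ U' := by
        rw [LieSubalgebra.lieSpan_le]
        rintro y (hy | hy)
        · exact Submodule.mem_sup_left (hRU hy)
        · rcases Set.mem_insert_iff.1 hy with rfl | hy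
          · exact Submodule.mem_sup_right (Submodule.mem_span_singleton_self _)
          · exact Submodule.mem_sup_left (hDU y hy)
      exact this
    have hins : insert w D ∈ Fam := by
      refine ⟨Set.insert_subset hw hDC, fun E hE hEfg => ?_⟩
      exact (hUL.sup (hCnil w hw) hwU) E (hE.trans hsup) hEfg
    exact hDU w (hD.2 hins (Set.subset_insert w D) (Set.mem_insert w D))
  -- descending induction
  have hV : ∀ d j, j + d = k → ∀ w ∈ C, w ∈ U.toSubmodule ⊔ wspan x j → w ∈ U := by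
    intro d
    induction d with
    | zero =>
      intro j hj w _ hw
      have : U.toSubmodule ⊔ wspan x j ≤ U.toSubmodule :=
        sup_le le_rfl (((wspan_anti x (by omega)).trans hk).trans hRU)
      exact this hw
    | succ d ih =>
      intro j hj w hwC hw
      have ih' := ih (j + 1) (by omega)
      refine hkey w hwC fun u hu => ?_
      have hstab : ∀ v ∈ U.toSubmodule ⊔ wspan x (j + 1), ⁅w, v⁆ ∈ U.toSubmodule ⊔ wspan x (j + 1) := by
        intro v hv
        obtain ⟨u1, hu1, a1, ha1, rfl⟩ := Submodule.mem_sup.1 hw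
        obtain ⟨u2, hu2, a2, ha2, rfl⟩ := Submodule.mem_sup.1 hv
        rw [add_lie, lie_add, lie_add]
        refine Submodule.add_mem _ (Submodule.add_mem _ ?_ ?_) (Submodule.add_mem _ ?_ ?_)
        · exact Submodule.mem_sup_left (LieSubalgebra.lie_mem _ hu1 hu2)
        · exact Submodule.mem_sup_right (wspan_anti x (Nat.le_succ _)
            (lie_mem_wspan x hgen u1 (j + 1) a2 ha2))
        · rw [← lie_skew]
          exact Submodule.mem_sup_right (Submodule.neg_mem _ (lie_mem_wspan x hgen u2 j a1 ha1))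
        · exact Submodule.mem_sup_right (wspan_anti x (Nat.le_succ _)
            (lie_mem_wspan x hgen a1 (j + 1) a2 ha2))
      have hpow : ∀ (n : ℕ), ((ad ℚ L w) ^ n) u ∈ U.toSubmodule ⊔ wspan x (j + 1) := by
        intro n
        induction n with
        | zero => exact Submodule.mem_sup_left (hDU u hu)
        | succ n ihn =>
          rw [pow_succ', Module.End.mul_apply, ad_apply]
          exact hstab _ ihn
      have hexpU : ∀ s : ℚ, IsNilpotent.exp (s • ad ℚ L w) u ∈ U.toSubmodule := by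
        intro s
        refine ih' _ (hCexp w hwC u (hDC hu) s) ?_
        obtain ⟨m, hm⟩ := hCnil w hwC
        rw [exp_smul_eq_sum hm, LinearMap.sum_apply]
        refine Submodule.sum_mem _ fun i _ => ?_
        rw [LinearMap.smul_apply, LinearMap.smul_apply]
        exact Submodule.smul_mem _ _ (Submodule.smul_mem _ _ (hpow i))
      have := pow_apply_mem_of_exp U.toSubmodule (hCnil w hwC) u hexpU 1
      simpa using this
  have hCU : ∀ w ∈ C, w ∈ U := fun w hw => hV k 0 (by omega) w hw (by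
    rw [wspan_zero x hgen, sup_top_eq]; exact Submodule.mem_top)
  have htop : U = ⊤ := by
    rw [eq_top_iff, ← hgen, LieSubalgebra.lieSpan_le]
    rintro _ ⟨i, rfl⟩
    exact hCU _ ⟨1, (Exps x).one_mem, i, by simp⟩
  intro E _ hEfg
  refine hUL E ?_ hEfg
  rw [htop]
  exact fun y _ => Submodule.mem_top

theorem glue_sandwich {L : Type*} [LieRing L] [LieAlgebra ℚ L] {ι : Type*} [Finite ι] (x : ι → L)
    (hx : ∀ i, IsNilpotent (ad ℚ L (x i)))
    (hgen : LieSubalgebra.lieSpan ℚ L (Set.range x) = ⊤) (c : L)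
    (hc : ∀ g ∈ Exps x, ((ad ℚ L c) ^ 2) ((g : Module.End ℚ L) c) = 0)
    (hq : LieRing.IsNilpotent (L ⧸ LieSubmodule.lieSpan ℚ L {c})) : LieRing.IsNilpotent L := by
  set R := Submodule.span ℚ {y : L | ∃ g ∈ Exps x, y = (g : Module.End ℚ L) c} with hR
  have hstab : ∀ g ∈ Exps x, ∀ v ∈ R, (g : Module.End ℚ L) v ∈ R := by
    intro g hg v hv
    have : R ≤ R.comap (g : Module.End ℚ L) := by
      rw [hR, Submodule.span_le]
      rintro _ ⟨g', hg', rfl⟩
      refine Submodule.subset_span ⟨g * g', (Exps x).mul_mem hg hg', ?_⟩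
      simp
    exact this hv
  have hRlie : ∀ y v : L, v ∈ R → ⁅y, v⁆ ∈ R := Exps.lie_mem hx hgen R hstab
  have hRL : LNA R := lna_sandwich x hx c hc R hR hRlie
  have hI : ∀ y ∈ LieSubmodule.lieSpan ℚ L {c}, y ∈ R := by
    let R' : LieSubmodule ℚ L L := { R with lie_mem := fun {a b} hb => hRlie a b hb }
    have : LieSubmodule.lieSpan ℚ L {c} ≤ R' := by
      rw [LieSubmodule.lieSpan_le, Set.singleton_subset_iff]
      exact Submodule.subset_span ⟨1, (Exps x).one_mem, by simp⟩
    exact this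
  obtain ⟨k, hk⟩ := (quot_nilpotent_iff x _ hgen).1 hq
  have hk' : wspan x k ≤ R := by
    rw [wspan, Submodule.span_le]
    rintro _ ⟨l, j, hl, rfl⟩
    have h1 : ∀ l1 l2 : List ι, wd x l2 j ∈ R → wd x (l1 ++ l2) j ∈ R := by
      intro l1 l2 h
      induction l1 with
      | nil => exact h
      | cons i l1 ih => exact hRlie _ _ ih
    rw [← List.take_append_drop (l.length - k) l]
    exact h1 _ _ (hI _ (hk _ _ (by rw [List.length_drop]; omega)))
  have hLNA := glue_step x hx hgen R hRlie k hk' hRL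
  obtain ⟨N, hN⟩ := hLNA (Submodule.span ℚ (Set.range x)) le_top
    (Submodule.fg_span (Set.finite_range x))
  refine LN x hgen N fun l j hl => ?_
  have hw : ∀ l : List ι, wd x l j = (((l.map x).map (ad ℚ L)).prod) (x j) := by
    intro l
    induction l with
    | nil => simp [wd]
    | cons i l ih =>
      rw [wd, ih, List.map_cons, List.map_cons, List.prod_cons, Module.End.mul_apply, ad_apply]
  rw [hw, hN (l.map x) ?_ (by simpa using hl), LinearMap.zero_apply]
  intro y hy
  obtain ⟨i, _, rfl⟩ := List.mem_map.1 hy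
  exact Submodule.subset_span ⟨i, rfl⟩

end glue

end Pool.Agent.Lib.MP_74ab55_al
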