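import Pool.Agent.Lib.MP_74ab55_al.Sandwich
import Pool.Agent.Lib.MP_74ab55_al.Zorn

/-!
# The Kostrikin-Zelmanov sandwich theorem for Lie algebras
-/

set_option autoImplicit false

namespace Pool.Agent.Lib.MP_74ab55_al
open LieAlgebra

variable {L : Type*} [LieRing L] [LieAlgebra ℚ L]

/-- `[c, [c, u]] = 0` on the subspace `V` (as an operator identity) gives `C U C = 0`. -/
theorem ad_mid {c u : L} (h2 : ⁅c, ⁅c, u⁆⁆ = 0) {v : L} (hv : ⁅c, ⁅c, v⁆⁆ = 0)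
    (huv : ⁅c, ⁅c, ⁅u, v⁆⁆⁆ = 0) : ⁅c, ⁅u, ⁅c, v⁆⁆⁆ = 0 := by
  have h3 : ⁅⁅c, ⁅c, u⁆⁆, v⁆ = 0 := by rw [h2, zero_lie]
  rw [lie_lie, lie_lie c u (⁅c, v⁆), lie_lie c u v, lie_sub, hv, lie_zero, huv] at h3
  have h4 : (2 : ℚ) • ⁅c, ⁅u, ⁅c, v⁆⁆⁆ = 0 := by
    rw [two_smul]
    have : -(⁅c, ⁅u, ⁅c, v⁆⁆⁆ + ⁅c, ⁅u, ⁅c, v⁆⁆⁆) = 0 := by
      rw [← h3]; abel
    exact neg_eq_zero.1 this
  exact (smul_eq_zero.1 h4).resolve_left (by norm_num)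

theorem ad_lie_eq (a b : L) : ad ℚ L ⁅a, b⁆ = ad ℚ L a * ad ℚ L b - ad ℚ L b * ad ℚ L a := by
  ext v
  simp

theorem kz_lie {T : Type*} [LieRing T] [LieAlgebra ℚ T] {ι : Type*} [Finite ι] (c : ι → T)
    (hgen : LieSubalgebra.lieSpan ℚ T (Set.range c) = ⊤)
    (hc : ∀ i, (ad ℚ T (c i)) ^ 2 = 0) : LieRing.IsNilpotent T := by
  have hc' : ∀ i (v : T), ⁅c i, ⁅c i, v⁆⁆ = 0 := fun i v => by
    have := LinearMap.congr_fun (hc i) v
    simpa [pow_two] using this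
  obtain ⟨N, hN⟩ := sandwich_nilpotent (A := Module.End ℚ T) (Set.range (ad ℚ T))
    (by
      rintro _ ⟨a, rfl⟩ _ ⟨b, rfl⟩
      exact ⟨⁅a, b⁆, ad_lie_eq a b⟩)
    (fun i => ad ℚ T (c i)) (fun i => ⟨c i, rfl⟩)
    (fun i => by rw [← pow_two]; exact hc i)
    (by
      rintro i _ ⟨u, rfl⟩
      ext v
      simpa using ad_mid (hc' i u) (hc' i v) (hc' i _))
  refine LN c hgen N fun l j hl => ?_
  have hw : ∀ l : List ι, wd c l j = ((l.map fun i => ad ℚ T (c i)).prod) (c j) := by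
    intro l
    induction l with
    | nil => simp [wd]
    | cons i l ih => rw [wd, ih, List.map_cons, List.prod_cons, Module.End.mul_apply, ad_apply]
  rw [hw, hN l hl, LinearMap.zero_apply]

end Pool.Agent.Lib.MP_74ab55_al
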