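import Pool.Agent.Lib.MP_74ab55_al.Conj

/-!
# Polynomials with coefficients in a noncommutative `ℚ`-algebra, evaluated at rational points
-/

set_option autoImplicit false

namespace Pool.Agent.Lib.MP_74ab55_al
open LieAlgebra Polynomial

section ev
variable {A : Type*} [Ring A] [Algebra ℚ A]

/-- Evaluation of a polynomial with coefficients in `A` at a rational point. -/
noncomputable def ev (s : ℚ) : Polynomial A →+* A :=
  Polynomial.eval₂RingHom' (RingHom.id A) (algebraMap ℚ A s)
    (fun a => (Algebra.commutes s a).symm)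

@[simp] theorem ev_C (s : ℚ) (a : A) : ev s (C a) = a := by
  simp [ev, Polynomial.eval₂RingHom']

@[simp] theorem ev_X (s : ℚ) : ev s (X : Polynomial A) = algebraMap ℚ A s := by
  simp [ev, Polynomial.eval₂RingHom']

theorem ev_eq_sum (s : ℚ) (p : Polynomial A) :
    ev s p = ∑ k ∈ Finset.range (p.natDegree + 1), s ^ k • p.coeff k := by
  have h : ev s p = Polynomial.eval₂ (RingHom.id A) (algebraMap ℚ A s) p := rfl
  rw [h, Polynomial.eval₂_eq_sum_range]
  refine Finset.sum_congr rfl fun k _ => ?_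
  rw [RingHom.id_apply, ← map_pow, Algebra.smul_def, Algebra.commutes]

theorem ev_monomial (s : ℚ) (k : ℕ) (a : A) : ev s (monomial k a) = s ^ k • a := by
  rw [← C_mul_X_pow_eq_monomial, map_mul, ev_C, map_pow, ev_X, ← map_pow, Algebra.smul_def,
    Algebra.commutes]

theorem eq_zero_of_ev {p : Polynomial A} (S : Set ℚ) (hS : S.Infinite)
    (h : ∀ s ∈ S, ev s p = 0) : p = 0 := by
  ext k
  rw [coeff_zero]
  by_cases hk : k < p.natDegree + 1
  · exact poly_coeff_zero (p.natDegree + 1) p.coeff S hS (fun s hs => by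
      rw [← ev_eq_sum, h s hs]) k hk
  · exact Polynomial.coeff_eq_zero_of_natDegree_lt (by omega)

theorem eq_of_ev {p q : Polynomial A} (S : Set ℚ) (hS : S.Infinite)
    (h : ∀ s ∈ S, ev s p = ev s q) : p = q := by
  rw [← sub_eq_zero]
  exact eq_zero_of_ev S hS fun s hs => by rw [map_sub, h s hs, sub_self]

/-- The polynomial `exp (X a)` for nilpotent `a`. -/
noncomputable def expP (k : ℕ) (a : A) : Polynomial A :=
  ∑ i ∈ Finset.range k, monomial i ((i.factorial : ℚ)⁻¹ • a ^ i)

theorem ev_expP (s : ℚ) {k : ℕ} {a : A} (h : a ^ k = 0) :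
    ev s (expP k a) = IsNilpotent.exp (s • a) := by
  rw [exp_smul_eq_sum h, expP, map_sum]
  exact Finset.sum_congr rfl fun i _ => ev_monomial _ _ _

theorem coeff_expP (k : ℕ) (a : A) (j : ℕ) :
    (expP k a).coeff j = if j < k then (j.factorial : ℚ)⁻¹ • a ^ j else 0 := by
  rw [expP, Polynomial.finsetSum_coeff]
  simp only [coeff_monomial]
  rw [Finset.sum_ite_eq']
  simp

end ev

end Pool.Agent.Lib.MP_74ab55_al
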