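import Mathlib

/-!
# Unavoidable patterns `vv`, `vuv` with Lyndon words: the infinite word

`s : ℕ → α` is an infinite word which is strictly smaller (lexicographically) than all its proper
suffixes: `D j` is the position of the first difference between `s` and its suffix starting at `j`.
`LynP n` says that the prefix of length `n` of `s` is a Lyndon word.
-/

set_option autoImplicit false

namespace Pool.Agent.Lib.MP_74ab55_al

section
variable {α : Type*} [LinearOrder α]

/-- the first difference data -/
structure FirstDiff (s : ℕ → α) (D : ℕ → ℕ) : Prop where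
  eq : ∀ j, 0 < j → ∀ e, e < D j → s (j + e) = s e
  lt : ∀ j, 0 < j → s (D j) < s (j + D j)

/-- the prefix of length `n` is a Lyndon word -/
def LynP (D : ℕ → ℕ) (n : ℕ) : Prop := 0 < n ∧ ∀ j, 0 < j → j < n → j + D j < n

/-- the letters `s (i+e)`, `e < n`, agree with the prefix -/
def Occ (s : ℕ → α) (i n : ℕ) : Prop := ∀ e, e < n → s (i + e) = s e

theorem FirstDiff.le {s : ℕ → α} {D : ℕ → ℕ} (h : FirstDiff s D) {j n : ℕ} (hj : 0 < j)
    (ho : Occ s j n) : n ≤ D j := by
  by_contra hlt
  push Not at hlt
  have h1 := ho (D j) hlt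
  have h2 := h.lt j hj
  rw [h1] at h2
  exact lt_irrefl _ h2

theorem FirstDiff.occ {s : ℕ → α} {D : ℕ → ℕ} (h : FirstDiff s D) {j n : ℕ} (hj : 0 < j)
    (hn : n ≤ D j) : Occ s j n := fun e he => h.eq j hj e (lt_of_lt_of_le he hn)

/-- comparison with a given position of equality -/
theorem FirstDiff.le_of_eq {s : ℕ → α} {D : ℕ → ℕ} (h : FirstDiff s D) {j n : ℕ} (hj : 0 < j)
    (ho : Occ s j n) : s n ≤ s (j + n) := by
  rcases (h.le hj ho).lt_or_eq with h1 | h1
  · exact (h.eq j hj n h1).ge
  · rw [h1]; exact (h.lt j hj).le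

theorem FirstDiff.eq_of {s : ℕ → α} {D : ℕ → ℕ} (h : FirstDiff s D) {j n : ℕ} (hj : 0 < j)
    (ho : Occ s j n) (hne : s n ≠ s (j + n)) : D j = n := by
  rcases (h.le hj ho).lt_or_eq with h1 | h1
  · exact absurd (h.eq j hj n h1).symm hne
  · exact h1.symm

/-- Duval's lemma -/
theorem LynP.next {s : ℕ → α} {D : ℕ → ℕ} (h : FirstDiff s D) {L : ℕ} (hL : LynP D L)
    (hd : D L < L) : LynP D (L + D L + 1) := by
  refine ⟨by omega, fun j hj0 hj => ?_⟩
  rcases lt_trichotomy j L with hlt | heq | hgt
  · have := hL.2 j hj0 hlt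
    omega
  · subst heq; omega
  · obtain ⟨j', rfl⟩ : ∃ j', j = L + j' := ⟨j - L, by omega⟩
    have hj'0 : 0 < j' := by omega
    have hj'd : j' ≤ D L := by omega
    have hM := hL.2 j' hj'0 (by omega)
    have hLpos := hL.1
    have e1 : ∀ e, j' + e < D L → s (L + j' + e) = s (j' + e) := fun e he => by
      rw [add_assoc]; exact h.eq L hLpos (j' + e) he
    rcases lt_trichotomy (j' + D j') (D L) with h1 | h1 | h1
    · have ho : Occ s (L + j') (D j') := fun e he => by
        rw [e1 e (by omega)]; exact h.eq j' hj'0 e he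
      have hne : s (D j') ≠ s (L + j' + D j') := by
        rw [e1 _ h1]; exact (h.lt j' hj'0).ne
      have := h.eq_of (by omega) ho hne
      omega
    · have ho : Occ s (L + j') (D j') := fun e he => by
        rw [e1 e (by omega)]; exact h.eq j' hj'0 e he
      have hlt1 : s (D j') < s (j' + D j') := h.lt j' hj'0
      have hlt2 : s (D L) < s (L + D L) := h.lt L hLpos
      have hne : s (D j') ≠ s (L + j' + D j') := by
        rw [add_assoc, h1]
        rw [h1] at hlt1
        exact (hlt1.trans hlt2).ne
      have := h.eq_of (by omega) ho hne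
      omega
    · obtain ⟨q, hq⟩ : ∃ q, D L = j' + q := ⟨D L - j', by omega⟩
      have hqD : q < D j' := by omega
      have ho : Occ s (L + j') q := fun e he => by
        rw [e1 e (by omega)]; exact h.eq j' hj'0 e (by omega)
      have hlt2 : s (D L) < s (L + D L) := h.lt L hLpos
      have hne : s q ≠ s (L + j' + q) := by
        rw [add_assoc, ← hq, ← h.eq j' hj'0 q hqD, ← hq]
        exact hlt2.ne
      have := h.eq_of (by omega) ho hne
      omega

/-- Main combinatorial statement: an infinite word smaller than its proper suffixes, in which every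
prefix occurs again, and over a finite alphabet, contains one of the two patterns. -/
theorem infinite_pattern [Finite α] (s : ℕ → α) (D : ℕ → ℕ) (h : FirstDiff s D)
    (hrec : ∀ n, ∃ k, 0 < k ∧ Occ s k n)
    (hvv : ∀ n, LynP D n → ¬ Occ s n n)
    (hvxv : ∀ i n, LynP D n → Occ s i n → ¬ Occ s (i + n + 1) n)
    (hxux : ∀ i n, LynP D n → Occ s (i + 1) n → s i ≠ s (i + 1 + n)) : False := by
  classical
  -- the chain of Lyndon prefixes
  obtain ⟨L, hL0, hLs⟩ : ∃ L : ℕ → ℕ, L 0 = 1 ∧ ∀ i, L (i + 1) = L i + D (L i) + 1 :=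
    ⟨fun i => Nat.rec 1 (fun _ l => l + D l + 1) i, rfl, fun i => rfl⟩
  have hdlt : ∀ n, LynP D n → D n < n := fun n hn => by
    by_contra hge
    push Not at hge
    exact hvv n hn (h.occ hn.1 hge)
  have hLyn : ∀ i, LynP D (L i) := by
    intro i
    induction i with
    | zero => exact ⟨by rw [hL0]; omega, fun j h0 h1 => by rw [hL0] at h1; omega⟩
    | succ i ih => rw [hLs]; exact ih.next h (hdlt _ ih)
  have hLpos : ∀ i, 0 < L i := fun i => (hLyn i).1
  have hLmono : StrictMono L := strictMono_nat_of_lt_succ fun i => by rw [hLs]; omega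
  -- key step
  have key : ∀ K, ∃ i, K ≤ i ∧ D (L i) = 0 ∧ Occ s (L i + 1) (L K) := by
    intro K
    have hex := hrec (L K)
    obtain ⟨P, ⟨hP0, hPocc⟩, hPmin⟩ : ∃ P, (0 < P ∧ Occ s P (L K)) ∧
        ∀ k, 0 < k → Occ s k (L K) → P ≤ k :=
      ⟨Nat.find hex, Nat.find_spec hex, fun k h0 h1 => Nat.find_min' hex ⟨h0, h1⟩⟩
    have hDP : L K ≤ D P := h.le hP0 hPocc
    have hPL : L K < P := by
      rcases lt_trichotomy P (L K) with h1 | h1 | h1
      · have := (hLyn K).2 P hP0 h1
        omega
      · exfalso
        have := hdlt _ (hLyn K)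
        rw [← h1] at this hDP
        omega
      · exact h1
    -- the block containing `P`
    have hunb : ∃ j, P < L (j + 1) := ⟨P, lt_of_lt_of_le (Nat.lt_succ_self P) (hLmono.id_le (P + 1))⟩
    obtain ⟨j, hj1, hjmin⟩ : ∃ j, P < L (j + 1) ∧ ∀ j', j' < j → L (j' + 1) ≤ P :=
      ⟨Nat.find hunb, Nat.find_spec hunb, fun j' hj' => not_lt.1 (Nat.find_min hunb hj')⟩
    have hKj : K ≤ j := by
      by_contra hlt
      push Not at hlt
      have hm : L (j + 1) ≤ L K := hLmono.monotone (Nat.succ_le_of_lt hlt)
      omega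
    have hj2 : L j ≤ P := by
      rcases Nat.eq_zero_or_pos j with h0 | h0
      · rw [h0, hL0]; omega
      · obtain ⟨j', hj'⟩ : ∃ j', j = j' + 1 := ⟨j - 1, by omega⟩
        rw [hj']; exact hjmin j' (by omega)
    rcases hj2.lt_or_eq with hr | hr
    · -- `P` is inside a block: impossible
      exfalso
      obtain ⟨r, hr'⟩ : ∃ r, P = L j + r := ⟨P - L j, by omega⟩
      have hr0 : 0 < r := by omega
      rw [hLs] at hj1
      have hrd : r ≤ D (L j) := by omega
      have e1 : ∀ e, r + e < D (L j) → s (P + e) = s (r + e) := fun e he => by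
        rw [hr', add_assoc]; exact h.eq (L j) (hLpos j) (r + e) he
      rcases Nat.lt_or_ge (D (L j)) (r + L K) with hc | hc
      · obtain ⟨q, hq⟩ : ∃ q, D (L j) = r + q := ⟨D (L j) - r, by omega⟩
        have hqL : q < L K := by omega
        have h1 : s (P + q) = s q := hPocc q hqL
        have h2 : s (D (L j)) < s (L j + D (L j)) := h.lt (L j) (hLpos j)
        have h3 : Occ s r q := fun e he => by
          rw [← e1 e (by omega)]; exact hPocc e (by omega)
        have h4 : s q ≤ s (r + q) := h.le_of_eq hr0 h3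
        rw [hq, ← add_assoc, ← hr', h1] at h2
        exact absurd h2 (not_lt.2 h4)
      · have h3 : Occ s r (L K) := fun e he => by
          rw [← e1 e (by omega)]; exact hPocc e he
        have := hPmin r hr0 h3
        have := hLpos j
        omega
    · -- `P = L j`
      have hKj' : K < j := by
        rcases hKj.lt_or_eq with h1 | h1
        · exact h1
        · rw [h1] at hPL; omega
      obtain ⟨i, hi⟩ : ∃ i, j = i + 1 := ⟨j - 1, by omega⟩
      have hKi : K ≤ i := by omega
      have hPi : P = L i + D (L i) + 1 := by rw [← hr, hi, hLs]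
      obtain ⟨q, hq⟩ : ∃ q, q = D (L i) := ⟨_, rfl⟩
      rw [← hq] at hPi
      have hqK : q < L K := by
        by_contra hge
        push Not at hge
        have := hPmin (L i) (hLpos i) (h.occ (hLpos i) (hq ▸ hge))
        omega
      rcases Nat.eq_zero_or_pos q with hq0 | hq0
      · exact ⟨i, hKi, by rw [← hq, hq0], by rw [hPi, hq0] at hPocc; exact hPocc⟩
      · exfalso
        -- the shortest border
        have hexT : ∃ t, t < q ∧ (t = 0 ∨ q ≤ t + D t) := ⟨0, hq0, Or.inl rfl⟩
        obtain ⟨t, ⟨htq, ht⟩, htmax⟩ : ∃ t, (t < q ∧ (t = 0 ∨ q ≤ t + D t)) ∧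
            ∀ t', (t' < q ∧ (t' = 0 ∨ q ≤ t' + D t')) → t' ≤ t := by
          let S := (Finset.range q).filter (fun t => t = 0 ∨ q ≤ t + D t)
          have hne : S.Nonempty := by
            obtain ⟨t, h1, h2⟩ := hexT
            exact ⟨t, Finset.mem_filter.2 ⟨Finset.mem_range.2 h1, h2⟩⟩
          refine ⟨S.max' hne, ?_, fun t' ht' => ?_⟩
          · have := S.max'_mem hne
            rw [Finset.mem_filter, Finset.mem_range] at this
            exact this
          · exact S.le_max' t' (Finset.mem_filter.2 ⟨Finset.mem_range.2 ht'.1, ht'.2⟩)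
        obtain ⟨n, hn⟩ : ∃ n, q = t + n := ⟨q - t, by omega⟩
        have hn0 : 0 < n := by omega
        have hocct : Occ s t n := by
          rcases ht with h0 | h0
          · intro e _; rw [h0, zero_add]
          · rcases Nat.eq_zero_or_pos t with h1 | h1
            · intro e _; rw [h1, zero_add]
            · exact h.occ h1 (by omega)
        have hLn : LynP D n := by
          refine ⟨hn0, fun j' hj0 hjn => ?_⟩
          by_contra hge
          push Not at hge
          have h1 : Occ s (t + j') (n - j') := fun e he => by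
            rw [add_assoc, hocct (j' + e) (by omega)]
            exact h.eq j' hj0 e (by omega)
          have h2 := h.le (by omega) h1
          have := htmax (t + j') ⟨by omega, Or.inr (by omega)⟩
          omega
        have hocc1 : Occ s (L i + t) n := fun e he => by
          rw [add_assoc, h.eq (L i) (hLpos i) (t + e) (by omega)]
          exact hocct e he
        refine hvxv (L i + t) n hLn hocc1 fun e he => ?_
        have : L i + t + n + 1 = P := by omega
        rw [this]
        exact hPocc e (by omega)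
  -- pigeonhole
  choose f hf1 hf2 hf3 using key
  obtain ⟨x, hx⟩ := Finite.exists_infinite_fiber (fun K : ℕ => s (L (f K)))
  have hinf : (Set.Infinite {K : ℕ | s (L (f K)) = x}) := by
    rw [← Set.infinite_coe_iff]
    exact hx
  obtain ⟨K1, hK1⟩ := hinf.nonempty
  obtain ⟨K2, hK2, hgt⟩ := hinf.exists_gt (L (f K1) + 1)
  have h1 : s (L (f K1)) = x := hK1
  have h2 : s (L (f K2)) = x := hK2
  have hbig : L (f K1) + 1 < L K2 := lt_of_lt_of_le hgt (hLmono.id_le K2)
  have h3 := hf3 K2
  refine hxux (L (f K2)) (L (f K1)) (hLyn _) (fun e he => h3 e (by omega)) ?_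
  rw [h2, h3 (L (f K1)) (by omega), h1]

end

end Pool.Agent.Lib.MP_74ab55_al
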