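import Mathlib
import Pool.Agent.Lib.MP_74ab55_al.Words1

/-!
# Unavoidable patterns `vv`, `vuv` with Lyndon words: finite words

`exists_length_hasPat`: over a finite ordered alphabet every long enough word contains a factor
`vv` or `vuv` with `u`, `v` Lyndon words.
-/

set_option autoImplicit false
set_option linter.unusedSectionVars false

namespace Pool.Agent.Lib.MP_74ab55_al

section
variable {α : Type*} [LinearOrder α]

/-- A Lyndon word: nonempty and strictly smaller than all its proper nonempty suffixes. -/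
def IsLyndon (w : List α) : Prop := w ≠ [] ∧ ∀ j, 0 < j → j < w.length → w < w.drop j

/-- `w` has a factor `vv` or `vuv` with `u`, `v` Lyndon. -/
def HasPat (w : List α) : Prop :=
  ∃ p v q, IsLyndon v ∧ (w = p ++ (v ++ v) ++ q ∨
    ∃ u, IsLyndon u ∧ w = p ++ (v ++ u ++ v) ++ q)

theorem HasPat.append_left {w : List α} (h : HasPat w) (p : List α) : HasPat (p ++ w) := by
  obtain ⟨p', v, q, hv, h | ⟨u, hu, h⟩⟩ := h
  · exact ⟨p ++ p', v, q, hv, Or.inl (by rw [h]; simp)⟩
  · exact ⟨p ++ p', v, q, hv, Or.inr ⟨u, hu, by rw [h]; simp⟩⟩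

theorem HasPat.append_right {w : List α} (h : HasPat w) (q : List α) : HasPat (w ++ q) := by
  obtain ⟨p', v, q', hv, h | ⟨u, hu, h⟩⟩ := h
  · exact ⟨p', v, q' ++ q, hv, Or.inl (by rw [h]; simp)⟩
  · exact ⟨p', v, q' ++ q, hv, Or.inr ⟨u, hu, by rw [h]; simp⟩⟩

theorem isLyndon_singleton (x : α) : IsLyndon [x] :=
  ⟨by simp, fun j h0 h1 => by simp at h1; omega⟩

theorem lt_of_mismatch (l r r' : List α) {a b : α} (h : a < b) : l ++ a :: r < l ++ b :: r' := by
  induction l with
  | nil => exact List.cons_lt_cons_iff.2 (Or.inl h)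
  | cons c l ih => exact List.cons_lt_cons_iff.2 (Or.inr ⟨rfl, ih⟩)

/-- the factor of length `n` of an infinite word starting at `i` -/
def seg (s : ℕ → α) (i n : ℕ) : List α := (List.range n).map (fun e => s (i + e))

@[simp] theorem seg_length (s : ℕ → α) (i n : ℕ) : (seg s i n).length = n := by simp [seg]

@[simp] theorem seg_zero (s : ℕ → α) (i : ℕ) : seg s i 0 = [] := rfl

theorem seg_one (s : ℕ → α) (i : ℕ) : seg s i 1 = [s i] := by simp [seg]

theorem seg_add (s : ℕ → α) (i m n : ℕ) : seg s i (m + n) = seg s i m ++ seg s (i + m) n := by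
  unfold seg
  rw [List.range_add, List.map_append, List.map_map]
  congr 1
  apply List.map_congr_left
  intro e _
  simp [add_assoc]

theorem seg_succ (s : ℕ → α) (i n : ℕ) : seg s i (n + 1) = seg s i n ++ [s (i + n)] := by
  rw [seg_add, seg_one]

theorem seg_congr {s : ℕ → α} {i j n : ℕ} (h : ∀ e, e < n → s (i + e) = s (j + e)) :
    seg s i n = seg s j n := by
  unfold seg
  exact List.map_congr_left fun e he => h e (List.mem_range.1 he)

theorem seg_inj {s : ℕ → α} {i j n : ℕ} (h : seg s i n = seg s j n) :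
    ∀ e, e < n → s (i + e) = s (j + e) := by
  intro e he
  unfold seg at h
  have := List.map_inj_left.1 h e (List.mem_range.2 he)
  exact this

theorem seg_drop (s : ℕ → α) (i n j : ℕ) (hj : j ≤ n) :
    (seg s i n).drop j = seg s (i + j) (n - j) := by
  obtain ⟨m, rfl⟩ := Nat.exists_eq_add_of_le hj
  rw [seg_add, List.drop_left' (seg_length s i j)]
  simp

/-- mismatch inside gives the lexicographic order -/
theorem seg_lt {s : ℕ → α} {i j m n d : ℕ} (hm : d < m) (hn : d < n)
    (he : ∀ e, e < d → s (i + e) = s (j + e)) (hlt : s (i + d) < s (j + d)) :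
    seg s i m < seg s j n := by
  obtain ⟨m', rfl⟩ : ∃ m', m = d + (1 + m') := ⟨m - d - 1, by omega⟩
  obtain ⟨n', rfl⟩ : ∃ n', n = d + (1 + n') := ⟨n - d - 1, by omega⟩
  rw [seg_add s i, seg_add s j, seg_congr he, seg_add s (i + d), seg_add s (j + d), seg_one,
    seg_one, List.singleton_append, List.singleton_append]
  exact lt_of_mismatch _ _ _ hlt

theorem isLyndon_seg {s : ℕ → α} {n : ℕ} (hn : 0 < n)
    (h : ∀ j, 0 < j → j < n → ∃ d, j + d < n ∧ (∀ e, e < d → s (j + e) = s e) ∧
      s d < s (j + d)) : IsLyndon (seg s 0 n) := by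
  refine ⟨fun h0 => ?_, fun j h0 h1 => ?_⟩
  · have := congrArg List.length h0
    simp at this
    omega
  · rw [seg_length] at h1
    obtain ⟨d, hd, he, hlt⟩ := h j h0 h1
    rw [seg_drop _ _ _ _ h1.le]
    exact seg_lt (d := d) (by omega) (by omega) (fun e he' => by
      rw [zero_add, zero_add]; exact (he e he').symm) (by rw [zero_add, zero_add]; exact hlt)

/-- a factorial, right extendable language -/
structure IsLang (F : Set (List α)) : Prop where
  nil : [] ∈ F
  factor : ∀ p u q, p ++ u ++ q ∈ F → u ∈ F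
  ext : ∀ w ∈ F, ∃ a, w ++ [a] ∈ F

theorem IsLang.exists_minimal [Finite α] {F0 : Set (List α)} (h0 : IsLang F0) :
    ∃ F, F ⊆ F0 ∧ IsLang F ∧ ∀ F', F' ⊆ F → IsLang F' → F' = F := by
  obtain ⟨F, hF, hmin⟩ := zorn_superset_nonempty {F : Set (List α) | IsLang F} (by
    intro c hc hchain hne
    refine ⟨⋂₀ c, ?_, fun s hs => Set.sInter_subset_of_mem hs⟩
    refine ⟨?_, ?_, ?_⟩
    · exact Set.mem_sInter.2 fun F hF => (hc hF).nil
    · intro p u q hpq
      exact Set.mem_sInter.2 fun F hF => (hc hF).factor p u q (Set.mem_sInter.1 hpq F hF)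
    · intro w hw
      by_contra hcon
      push Not at hcon
      have h1 : ∀ a : α, ∃ F ∈ c, w ++ [a] ∉ F := by
        intro a
        have := hcon a
        rw [Set.mem_sInter] at this
        push Not at this
        exact this
      choose f hf1 hf2 using h1
      -- the smallest of the finitely many languages `f a`
      obtain ⟨F1, hF1c⟩ := hne
      have hchoice : ∀ T : Finset α, ∃ F ∈ c, ∀ a ∈ T, F ⊆ f a := by
        classical
        intro T
        induction T using Finset.induction_on with
        | empty => exact ⟨F1, hF1c, by simp⟩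
        | insert a T _ ih =>
          obtain ⟨F, hF, hFa⟩ := ih
          rcases hchain.total hF (hf1 a) with h | h
          · refine ⟨F, hF, fun b hb => ?_⟩
            rcases Finset.mem_insert.1 hb with rfl | hb
            · exact h
            · exact hFa b hb
          · refine ⟨f a, hf1 a, fun b hb => ?_⟩
            rcases Finset.mem_insert.1 hb with rfl | hb
            · exact subset_rfl
            · exact h.trans (hFa b hb)
      have := Fintype.ofFinite α
      obtain ⟨F, hF, hFa⟩ := hchoice Finset.univ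
      obtain ⟨a, ha⟩ := (hc hF).ext w (Set.mem_sInter.1 hw F hF)
      exact hf2 a (hFa a (Finset.mem_univ a) ha)) F0 h0
  exact ⟨F, hF, hmin.prop, fun F' hF' hL => Set.Subset.antisymm hF' (hmin.le_of_le hL hF')⟩

/-- the lexicographically least infinite word of a minimal language -/
theorem IsLang.exists_word [Finite α] {F : Set (List α)} (hF : IsLang F)
    (hmin : ∀ F', F' ⊆ F → IsLang F' → F' = F) :
    ∃ s : ℕ → α, (∀ i n, seg s i n ∈ F) ∧
      (∀ k d, (∀ e, e < d → s (k + e) = s e) → s d ≤ s (k + d)) ∧
      (∀ n, ∃ k, 0 < k ∧ Occ s k n) := by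
  classical
  have hg : ∀ w : List α, ∃ a, w ∈ F → (w ++ [a] ∈ F ∧ ∀ b, w ++ [b] ∈ F → a ≤ b) := by
    intro w
    by_cases hw : w ∈ F
    · obtain ⟨a0, ha0⟩ := hF.ext w hw
      have hfin : ({a | w ++ [a] ∈ F} : Set α).Finite := Set.toFinite _
      obtain ⟨a, ha, hle⟩ := Set.exists_min_image {a | w ++ [a] ∈ F} id hfin ⟨a0, ha0⟩
      exact ⟨a, fun _ => ⟨ha, fun b hb => hle b hb⟩⟩
    · obtain ⟨a0, _⟩ := hF.ext [] hF.nil
      exact ⟨a0, fun h => absurd h hw⟩
  choose g hg using hg
  obtain ⟨pre, hp0, hps⟩ : ∃ pre : ℕ → List α, pre 0 = [] ∧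
      ∀ n, pre (n + 1) = pre n ++ [g (pre n)] :=
    ⟨fun n => Nat.rec [] (fun _ w => w ++ [g w]) n, rfl, fun _ => rfl⟩
  have hpF : ∀ n, pre n ∈ F := by
    intro n
    induction n with
    | zero => rw [hp0]; exact hF.nil
    | succ n ih => rw [hps]; exact (hg _ ih).1
  set s : ℕ → α := fun n => g (pre n) with hs
  have hpre : ∀ n, pre n = seg s 0 n := by
    intro n
    induction n with
    | zero => rw [hp0]; rfl
    | succ n ih => rw [hps, seg_succ, ← ih, zero_add]
  have hseg : ∀ i n, seg s i n ∈ F := by
    intro i n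
    have h1 := hpF (i + n)
    rw [hpre, seg_add, zero_add] at h1
    exact hF.factor (seg s 0 i) (seg s i n) [] (by rw [List.append_nil]; exact h1)
  refine ⟨s, hseg, ?_, ?_⟩
  · intro k d he
    have h1 := hseg k (d + 1)
    rw [seg_succ] at h1
    have h2 : seg s k d = pre d := by
      rw [hpre]
      exact seg_congr fun e h => by rw [zero_add]; exact he e h
    rw [h2] at h1
    exact (hg _ (hpF d)).2 _ h1
  · intro n
    by_contra hcon
    push Not at hcon
    set F' : Set (List α) := {u | ∃ i, 0 < i ∧ u = seg s i u.length} with hF'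
    have hsub : F' ⊆ F := by
      rintro u ⟨i, _, hu⟩
      rw [hu]; exact hseg i _
    have hL : IsLang F' := by
      refine ⟨⟨1, one_pos, rfl⟩, ?_, ?_⟩
      · rintro p u q ⟨i, hi, hu⟩
        refine ⟨i + p.length, by omega, ?_⟩
        rw [List.length_append, List.length_append, seg_add, seg_add] at hu
        have h1 := List.append_inj_left hu (by simp)
        exact List.append_inj_right h1 (by simp)
      · rintro w ⟨i, hi, hw⟩
        refine ⟨s (i + w.length), i, hi, ?_⟩
        rw [List.length_append, List.length_singleton, seg_succ, ← hw]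
    have hEq := hmin F' hsub hL
    have h1 : seg s 0 n ∈ F' := by rw [hEq]; exact hseg 0 n
    obtain ⟨i, hi, hu⟩ := h1
    rw [seg_length] at hu
    apply hcon i hi
    intro e he
    have := seg_inj hu e he
    rw [zero_add] at this
    exact this.symm

theorem exists_length_hasPat [Finite α] : ∃ l : ℕ, ∀ w : List α, w.length = l → HasPat w := by
  classical
  by_contra hcon
  push Not at hcon
  -- the infinitely extendable words without pattern
  set F0 : Set (List α) := {w | ∀ n, ∃ z : List α, z.length = n ∧ ¬ HasPat (w ++ z)} with hF0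
  have hL0 : IsLang F0 := by
    refine ⟨fun n => ?_, ?_, ?_⟩
    · obtain ⟨w, hw, hp⟩ := hcon n
      exact ⟨w, hw, by rwa [List.nil_append]⟩
    · intro p u q hpq n
      obtain ⟨z, hz, hp⟩ := hpq n
      refine ⟨(q ++ z).take n, by simp; omega, fun hpat => hp ?_⟩
      have h1 : p ++ u ++ q ++ z = p ++ ((u ++ (q ++ z).take n) ++ (q ++ z).drop n) := by
        rw [List.append_assoc u, List.take_append_drop]
        simp
      rw [h1]
      exact (hpat.append_right _).append_left _
    · intro w hw
      by_contra hno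
      push Not at hno
      have h1 : ∀ a, ∃ n, ∀ z : List α, z.length = n → HasPat (w ++ [a] ++ z) := by
        intro a
        have := hno a
        simp only [hF0, Set.mem_ofPred_eq] at this
        push Not at this
        exact this
      choose f hf using h1
      have := Fintype.ofFinite α
      obtain ⟨z, hz, hp⟩ := hw (Finset.univ.sup f + 1)
      cases z with
      | nil => simp at hz
      | cons a z =>
        apply hp
        have hle : f a ≤ z.length := by
          have h2 : f a ≤ Finset.univ.sup f := Finset.le_sup (Finset.mem_univ a)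
          simp at hz
          omega
        have h3 := hf a (z.take (f a)) (by simp; omega)
        have h4 : w ++ a :: z = (w ++ [a] ++ z.take (f a)) ++ z.drop (f a) := by
          rw [List.append_assoc (w ++ [a]), List.take_append_drop]
          simp
        rw [h4]
        exact h3.append_right _
  obtain ⟨F, hFF0, hF, hmin⟩ := hL0.exists_minimal
  obtain ⟨s, hseg, hle, hrec⟩ := hF.exists_word hmin
  have hav : ∀ i n, ¬ HasPat (seg s i n) := by
    intro i n hp
    obtain ⟨z, hz, hp'⟩ := hFF0 (hseg i n) 0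
    exact hp' (hp.append_right _)
  -- no period
  have hnp : ∀ k, 0 < k → ∃ d, (∀ e, e < d → s (k + e) = s e) ∧ s d < s (k + d) := by
    by_contra hno
    push Not at hno
    obtain ⟨k, ⟨hk0, hk⟩, hkmin⟩ : ∃ k, (0 < k ∧ ∀ d, (∀ e, e < d → s (k + e) = s e) →
        s (k + d) ≤ s d) ∧ ∀ k', k' < k → ¬ (0 < k' ∧ ∀ d, (∀ e, e < d → s (k' + e) = s e) →
        s (k' + d) ≤ s d) :=
      ⟨Nat.find hno, Nat.find_spec hno, fun k' hk' => Nat.find_min hno hk'⟩
    have hper : ∀ d, s (k + d) = s d := by
      intro d
      induction d using Nat.strong_induction_on with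
      | _ d ih => exact le_antisymm (hk d ih) (hle k d ih)
    have hlyn : IsLyndon (seg s 0 k) := by
      refine isLyndon_seg hk0 fun j hj0 hjk => ?_
      have h1 := hkmin j hjk
      push Not at h1
      obtain ⟨d, hd1, hd2⟩ := h1 hj0
      rcases Nat.lt_or_ge (j + d) k with hlt | hge
      · exact ⟨d, hlt, hd1, hd2⟩
      · exfalso
        obtain ⟨k', hk'⟩ : ∃ k', k = j + k' := ⟨k - j, by omega⟩
        obtain ⟨e0, he0⟩ : ∃ e0, d = k' + e0 := ⟨d - k', by omega⟩
        have h2 : ∀ e, e < e0 → s (k' + e) = s e := by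
          intro e he
          rw [← hd1 (k' + e) (by omega), ← add_assoc, ← hk', hper]
        have h3 := hle k' e0 h2
        rw [he0, ← add_assoc, ← hk', hper] at hd2
        exact absurd hd2 (not_lt.2 h3)
    apply hav 0 (k + k)
    refine ⟨[], seg s 0 k, [], hlyn, Or.inl ?_⟩
    rw [seg_add, List.nil_append, List.append_nil]
    congr 1
    exact seg_congr fun e _ => by rw [zero_add, zero_add]; exact hper e
  choose! D hD1 hD2 using hnp
  have hFD : FirstDiff s D := ⟨fun j hj e he => hD1 j hj e he, fun j hj => hD2 j hj⟩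
  have hLyn : ∀ n, LynP D n → IsLyndon (seg s 0 n) := fun n hn =>
    isLyndon_seg hn.1 fun j h0 h1 => ⟨D j, hn.2 j h0 h1, hFD.eq j h0, hFD.lt j h0⟩
  refine infinite_pattern s D hFD hrec ?_ ?_ ?_
  · intro n hn hocc
    apply hav 0 (n + n)
    refine ⟨[], seg s 0 n, [], hLyn n hn, Or.inl ?_⟩
    rw [seg_add, List.nil_append, List.append_nil]
    congr 1
    exact seg_congr fun e he => by rw [zero_add, zero_add]; exact hocc e he
  · intro i n hn ho1 ho2
    apply hav i (n + 1 + n)
    refine ⟨[], seg s 0 n, [], hLyn n hn, Or.inr ⟨[s (i + n)], isLyndon_singleton _, ?_⟩⟩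
    rw [seg_add, seg_add, seg_one, List.nil_append, List.append_nil]
    have e1 : seg s i n = seg s 0 n := seg_congr fun e he => by rw [zero_add]; exact ho1 e he
    have e2 : seg s (i + (n + 1)) n = seg s 0 n := seg_congr fun e he => by
      rw [zero_add, ← add_assoc]; exact ho2 e he
    rw [e1, e2]
  · intro i n hn ho heq
    apply hav i (1 + n + 1)
    refine ⟨[], [s i], [], isLyndon_singleton _, Or.inr ⟨seg s 0 n, hLyn n hn, ?_⟩⟩
    rw [seg_add, seg_add, seg_one, seg_one, List.nil_append, List.append_nil]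
    have e1 : seg s (i + 1) n = seg s 0 n := seg_congr fun e he => by
      rw [zero_add]; exact ho e he
    rw [e1, ← add_assoc, ← heq]

end

end Pool.Agent.Lib.MP_74ab55_al
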