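import Mathlib
import Pool.Agent.Lib.MP_74ab55_al.Words2

/-!
# The Kostrikin-Zelmanov sandwich theorem

`sandwich_nilpotent`: let `A` be an associative algebra, `L` a subset of `A` closed under
commutators, and `c i ∈ L` finitely many elements with `c i * c i = 0` and `c i * l * c i = 0` for
all `l ∈ L`. Then all long enough products of the `c i` vanish.
-/

set_option autoImplicit false
set_option linter.unusedSectionVars false

namespace Pool.Agent.Lib.MP_74ab55_al

section order
variable {α : Type*} [LinearOrder α]

theorem append_lt_append_iff' {u u' : List α} (h : u.length = u'.length) (t t' : List α) :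
    u ++ t < u' ++ t' ↔ u < u' ∨ u = u' ∧ t < t' := by
  induction u generalizing u' with
  | nil =>
    have : u' = [] := List.length_eq_zero_iff.1 (by simpa using h.symm)
    subst this
    simp
  | cons a u ih =>
    cases u' with
    | nil => simp at h
    | cons a' u' =>
      have h' : u.length = u'.length := by simpa using h
      rw [List.cons_append, List.cons_append, List.cons_lt_cons_iff, List.cons_lt_cons_iff,
        ih h', List.cons.injEq]
      tauto

theorem append_lt_append_of_lt {u u' : List α} (h : u.length = u'.length) (hlt : u < u')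
    (t t' : List α) : u ++ t < u' ++ t' := (append_lt_append_iff' h t t').2 (Or.inl hlt)

/-- A Lyndon word of length at least two is a product of two Lyndon words. -/
theorem IsLyndon.exists_factor {v : List α} (hv : IsLyndon v) (h2 : 2 ≤ v.length) :
    ∃ p q, v = p ++ q ∧ IsLyndon p ∧ IsLyndon q ∧ v < q := by
  classical
  -- the smallest proper suffix
  obtain ⟨j, hj, hmin⟩ : ∃ j ∈ Finset.Ioo 0 v.length, ∀ i ∈ Finset.Ioo 0 v.length,
      v.drop j ≤ v.drop i :=
    Finset.exists_min_image (Finset.Ioo 0 v.length) (fun j => v.drop j) ⟨1, by simp; omega⟩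
  rw [Finset.mem_Ioo] at hj
  have hmin' : ∀ i, 0 < i → i < v.length → v.drop j ≤ v.drop i := fun i h0 h1 =>
    hmin i (Finset.mem_Ioo.2 ⟨h0, h1⟩)
  refine ⟨v.take j, v.drop j, (List.take_append_drop j v).symm, ?_, ?_, hv.2 j hj.1 hj.2⟩
  · refine ⟨fun h0 => ?_, fun i hi0 hi => ?_⟩
    · have := congrArg List.length h0
      rw [List.length_take, List.length_nil] at this
      omega
    · have hlen : (v.take j).length = j := by rw [List.length_take]; omega
      rw [hlen] at hi
      by_contra hcon
      push Not at hcon
      -- `x'` is the suffix of the prefix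
      obtain ⟨x', hx'⟩ : ∃ x', x' = (v.take j).drop i := ⟨_, rfl⟩
      rw [← hx'] at hcon
      have hlx : x'.length = j - i := by rw [hx']; simp; omega
      have hvi : v.drop i = x' ++ v.drop j := by
        have h1 : v.drop i = (v.take j ++ v.drop j).drop i := by rw [List.take_append_drop]
        rw [h1, List.drop_append_of_le_length (by omega), hx']
      have hlt : v < x' ++ v.drop j := by rw [← hvi]; exact hv.2 i hi0 (by omega)
      have hsplit : v = v.take (j - i) ++ v.drop (j - i) := (List.take_append_drop _ _).symm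
      have hl1 : (v.take (j - i)).length = x'.length := by rw [hlx]; simp; omega
      have hlt2 : v.take (j - i) ++ v.drop (j - i) < x' ++ v.drop j := by
        rw [← hsplit]; exact hlt
      rw [append_lt_append_iff' hl1] at hlt2
      rcases hlt2 with h3 | ⟨h3, h4⟩
      · -- then `p < x'`
        have hp : v.take j = v.take (j - i) ++ (v.take j).drop (j - i) := by
          have h5 : v.take (j - i) = (v.take j).take (j - i) := by
            rw [List.take_take]; congr 1; omega
          rw [h5, List.take_append_drop]
        have h6 := append_lt_append_of_lt hl1 h3 ((v.take j).drop (j - i)) []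
        rw [← hp, List.append_nil] at h6
        exact absurd h6 (not_lt.2 hcon)
      · exact absurd h4 (not_lt.2 (hmin' (j - i) (by omega) (by omega)))
  · refine ⟨fun h0 => ?_, fun i hi0 hi => ?_⟩
    · have := congrArg List.length h0
      simp at this
      omega
    · rw [List.length_drop] at hi
      rw [List.drop_drop]
      refine lt_of_le_of_ne (hmin' (j + i) (by omega) (by omega)) fun h => ?_
      have := congrArg List.length h
      simp at this
      omega

end order

section alg
variable {R A α : Type*} [CommRing R] [Ring A] [Algebra R A] [LinearOrder α]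

/-- the product of the generators along a word -/
def W (c : α → A) (w : List α) : A := (w.map c).prod

theorem W_append (c : α → A) (u v : List α) : W c (u ++ v) = W c u * W c v := by
  simp [W]

theorem W_nil (c : α → A) : W c [] = 1 := rfl

theorem W_singleton (c : α → A) (i : α) : W c [i] = c i := by simp [W]

variable (R)

/-- the span of the products along larger words of the same length -/
def Up (c : α → A) (w : List α) : Submodule R A :=
  Submodule.span R {x | ∃ w' : List α, w'.length = w.length ∧ w < w' ∧ x = W c w'}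

/-- the span of the products along larger or equal words of the same length -/
def Upe (c : α → A) (w : List α) : Submodule R A :=
  Submodule.span R {x | ∃ w' : List α, w'.length = w.length ∧ w ≤ w' ∧ x = W c w'}

theorem Up_le_Upe (c : α → A) (w : List α) : Up R c w ≤ Upe R c w :=
  Submodule.span_mono fun _ ⟨w', h1, h2, h3⟩ => ⟨w', h1, h2.le, h3⟩

theorem W_mem_Upe (c : α → A) (w : List α) : W c w ∈ Upe R c w :=
  Submodule.subset_span ⟨w, rfl, le_rfl, rfl⟩

/-- product of spans -/
theorem mul_mem_span_of {S T U : Set A} (h : ∀ s ∈ S, ∀ t ∈ T, s * t ∈ U) {x y : A}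
    (hx : x ∈ Submodule.span R S) (hy : y ∈ Submodule.span R T) :
    x * y ∈ Submodule.span R U := by
  have h1 : Submodule.span R S * Submodule.span R T ≤ Submodule.span R U := by
    rw [Submodule.span_mul_span]
    refine Submodule.span_mono ?_
    rintro _ ⟨s, hs, t, ht, rfl⟩
    exact h s hs t ht
  exact h1 (Submodule.mul_mem_mul hx hy)

theorem Up_mul_Upe (c : α → A) {p q : List α} {x y : A} (hx : x ∈ Up R c p)
    (hy : y ∈ Upe R c q) : x * y ∈ Up R c (p ++ q) := by
  refine mul_mem_span_of R ?_ hx hy
  rintro s ⟨p', hp1, hp2, rfl⟩ t ⟨q', hq1, hq2, rfl⟩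
  exact ⟨p' ++ q', by simp [hp1, hq1], append_lt_append_of_lt hp1.symm hp2 _ _,
    (W_append _ _ _).symm⟩

theorem Upe_mul_Up (c : α → A) {p q : List α} {x y : A} (hx : x ∈ Upe R c p)
    (hy : y ∈ Up R c q) : x * y ∈ Up R c (p ++ q) := by
  refine mul_mem_span_of R ?_ hx hy
  rintro s ⟨p', hp1, hp2, rfl⟩ t ⟨q', hq1, hq2, rfl⟩
  refine ⟨p' ++ q', by simp [hp1, hq1], ?_, (W_append _ _ _).symm⟩
  rw [append_lt_append_iff' hp1.symm]
  rcases hp2.lt_or_eq with h | h
  · exact Or.inl h
  · exact Or.inr ⟨h, hq2⟩

/-- `x` has leading word `w` -/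
def Lead (c : α → A) (w : List α) (x : A) : Prop := x - W c w ∈ Up R c w

theorem Lead.mem_Upe {c : α → A} {w : List α} {x : A} (h : Lead R c w x) : x ∈ Upe R c w := by
  have h1 := Submodule.add_mem _ (Up_le_Upe R c w h) (W_mem_Upe R c w)
  rwa [sub_add_cancel] at h1

theorem Lead.mul {c : α → A} {p q : List α} {x y : A} (hx : Lead R c p x) (hy : Lead R c q y) :
    Lead R c (p ++ q) (x * y) := by
  have h1 : x * y - W c (p ++ q) = (x - W c p) * y + W c p * (y - W c q) := by
    rw [W_append]; noncomm_ring
  unfold Lead
  rw [h1]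
  exact Submodule.add_mem _ (Up_mul_Upe R c hx hy.mem_Upe)
    (Upe_mul_Up R c (W_mem_Upe R c p) hy)

/-- sandwich elements with respect to `L` -/
structure Sand (L : Set A) (x : A) : Prop where
  mem : x ∈ L
  sq : x * x = 0
  mid : ∀ l ∈ L, x * l * x = 0

variable {R}

theorem Sand.bracket {L : Set A} (hL : ∀ x ∈ L, ∀ y ∈ L, x * y - y * x ∈ L) {x y : A}
    (hx : Sand L x) (hy : Sand L y) : Sand L (x * y - y * x) := by
  have hxyx : x * y * x = 0 := hx.mid y hy.mem
  have hyxy : y * x * y = 0 := hy.mid x hx.mem
  refine ⟨hL x hx.mem y hy.mem, ?_, fun l hl => ?_⟩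
  · have e : (x * y - y * x) * (x * y - y * x) = (x * y * x) * y - x * (y * y) * x -
        y * (x * x) * y + (y * x * y) * x := by noncomm_ring
    rw [e, hxyx, hyxy, hx.sq, hy.sq]
    simp
  · have h1 : x * (y * l - l * y) * x = 0 := hx.mid _ (hL y hy.mem l hl)
    have h2 : x * l * x = 0 := hx.mid l hl
    have h3 : y * l * y = 0 := hy.mid l hl
    have h4 : y * (x * l - l * x) * y = 0 := hy.mid _ (hL x hx.mem l hl)
    have e : (x * y - y * x) * l * (x * y - y * x) =
        (x * (y * l - l * y) * x) * y + x * l * (y * x * y) - x * (y * l * y) * x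
          - y * (x * l * x) * y + (y * (x * l - l * x) * y) * x + y * l * (x * y * x) := by
      noncomm_ring
    rw [e, h1, h2, h3, h4, hxyx, hyxy]
    simp

variable (R)

theorem exists_lead {L : Set A} (hL : ∀ x ∈ L, ∀ y ∈ L, x * y - y * x ∈ L) (c : α → A)
    (hc : ∀ i, Sand L (c i)) : ∀ (n : ℕ) (v : List α), v.length = n → IsLyndon v →
      ∃ b, Sand L b ∧ Lead R c v b := by
  intro n
  induction n using Nat.strong_induction_on with
  | _ n ih =>
    intro v hn hv
    rcases Nat.lt_or_ge v.length 2 with h1 | h2
    · cases v with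
      | nil => exact absurd rfl hv.1
      | cons i v =>
        have : v = [] := List.length_eq_zero_iff.1 (by rw [List.length_cons] at h1; omega)
        subst this
        refine ⟨c i, hc i, ?_⟩
        unfold Lead
        rw [W_singleton, sub_self]
        exact Submodule.zero_mem _
    · obtain ⟨p, q, hpq, hp, hq, hlt⟩ := hv.exists_factor h2
      have hp0 : 0 < p.length := List.length_pos_iff.2 hp.1
      have hq0 : 0 < q.length := List.length_pos_iff.2 hq.1
      have hlen : v.length = p.length + q.length := by rw [hpq]; simp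
      obtain ⟨x, hx, hx'⟩ := ih p.length (by omega) p rfl hp
      obtain ⟨y, hy, hy'⟩ := ih q.length (by omega) q rfl hq
      refine ⟨x * y - y * x, hx.bracket hL hy, ?_⟩
      have h3 : y * x ∈ Up R c v := by
        refine mul_mem_span_of R ?_ hy'.mem_Upe hx'.mem_Upe
        rintro s ⟨q', hq1, hq2, rfl⟩ t ⟨p', hp1, hp2, rfl⟩
        refine ⟨q' ++ p', by simp [hp1, hq1, hlen, add_comm], ?_, (W_append _ _ _).symm⟩
        have h4 : v = v.take q.length ++ v.drop q.length := (List.take_append_drop _ _).symm
        have h5 : (v.take q.length).length = q.length := by simp; omega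
        have h6 : v.take q.length < q := by
          rw [h4] at hlt
          have h7 : v.take q.length ++ v.drop q.length < q ++ [] := by
            rw [List.append_nil]; exact hlt
          rw [append_lt_append_iff' h5] at h7
          rcases h7 with h8 | ⟨_, h9⟩
          · exact h8
          · exact absurd h9 (List.not_lt_nil _)
        rw [h4]
        exact append_lt_append_of_lt (by rw [h5, hq1]) (lt_of_lt_of_le h6 hq2) _ _
      have h4 := hx'.mul R hy'
      rw [← hpq] at h4
      unfold Lead at h4 ⊢
      have e : x * y - y * x - W c v = (x * y - W c v) - y * x := by abel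
      rw [e]
      exact Submodule.sub_mem _ h4 h3

theorem W_mem_Up_of_hasPat {L : Set A} (hL : ∀ x ∈ L, ∀ y ∈ L, x * y - y * x ∈ L) (c : α → A)
    (hc : ∀ i, Sand L (c i)) {w : List α} (hw : HasPat w) : W c w ∈ Up R c w := by
  have hmid : ∀ (p u q : List α), Lead R c u 0 → W c (p ++ u ++ q) ∈ Up R c (p ++ u ++ q) := by
    intro p u q hu
    have h1 : W c u ∈ Up R c u := by
      unfold Lead at hu
      rw [zero_sub] at hu
      exact (Submodule.neg_mem_iff _).1 hu
    rw [W_append, W_append]
    exact Up_mul_Upe R c (Upe_mul_Up R c (W_mem_Upe R c p) h1) (W_mem_Upe R c q)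
  obtain ⟨p, v, q, hv, h | ⟨u, hu, h⟩⟩ := hw
  · obtain ⟨b, hb, hb'⟩ := exists_lead R hL c hc _ v rfl hv
    rw [h]
    refine hmid p (v ++ v) q ?_
    have := hb'.mul R hb'
    rwa [hb.sq] at this
  · obtain ⟨b, hb, hb'⟩ := exists_lead R hL c hc _ v rfl hv
    obtain ⟨a, ha, ha'⟩ := exists_lead R hL c hc _ u rfl hu
    rw [h]
    refine hmid p (v ++ u ++ v) q ?_
    have := (hb'.mul R ha').mul R hb'
    rwa [hb.mid a ha.mem] at this

end alg

/-- **Kostrikin-Zelmanov sandwich theorem** (associative form). -/
theorem sandwich_nilpotent {A α : Type*} [Ring A] [Finite α] (L : Set A)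
    (hL : ∀ x ∈ L, ∀ y ∈ L, x * y - y * x ∈ L) (c : α → A) (hcL : ∀ i, c i ∈ L)
    (hsq : ∀ i, c i * c i = 0) (hmid : ∀ i, ∀ l ∈ L, c i * l * c i = 0) :
    ∃ N : ℕ, ∀ w : List α, w.length = N → (w.map c).prod = 0 := by
  classical
  let _ : LinearOrder α := LinearOrder.lift' (Finite.equivFin α) (Finite.equivFin α).injective
  obtain ⟨N, hN⟩ := exists_length_hasPat (α := α)
  refine ⟨N, ?_⟩
  have hc : ∀ i, Sand L (c i) := fun i => ⟨hcL i, hsq i, hmid i⟩
  have hfin : Finite {w : List α // w.length = N} :=
    Set.finite_coe_iff.2 (List.finite_length_eq α N)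
  have hmain : ∀ w : {w : List α // w.length = N}, W c w.1 = 0 := by
    intro w
    induction w using WellFoundedGT.induction with
    | ind w ih =>
      have h1 := W_mem_Up_of_hasPat ℤ hL c hc (hN w.1 w.2)
      have h2 : Up ℤ c w.1 = ⊥ := by
        unfold Up
        rw [Submodule.span_eq_bot]
        rintro x ⟨w', hl, hlt, rfl⟩
        exact ih ⟨w', hl.trans w.2⟩ hlt
      rw [h2] at h1
      exact (Submodule.mem_bot ℤ).1 h1
  intro w hw
  exact hmain ⟨w, hw⟩

end Pool.Agent.Lib.MP_74ab55_al
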